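import Pool.Agent.CPC.St

/-!
# CPC [CEQ]: the equation of a cycle
-/

set_option autoImplicit false

namespace Pool.Agent.CPC

open Finset

private theorem ceq_f0 (x : ℕ) (h : 3 ∣ x) : 3 * f x = 2 * x := by
  unfold f
  obtain ⟨n, rfl⟩ := h
  rw [if_pos (by omega)]
  omega

private theorem ceq_f2 (x : ℕ) (h : x % 3 = 2) : 3 * f x = 4 * x + 1 := by
  unfold f
  rw [if_neg (by omega), if_pos h]
  omega

private theorem ceq_f1 (x : ℕ) (h : x % 3 = 1) : 3 * f x + 1 = 4 * x := by
  unfold f
  rw [if_neg (by omega), if_neg (by omega)]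
  omega

private theorem ceq_u (x : ℕ) (hx : 0 < x) (hf : 0 < f x) :
    Real.log (f x) - Real.log x - (2 * Real.log 2 - Real.log 3) =
      Real.log ((3 * (f x : ℝ)) / (4 * (x : ℝ))) := by
  have hx' : (0 : ℝ) < x := Nat.cast_pos.2 hx
  have hf' : (0 : ℝ) < f x := Nat.cast_pos.2 hf
  have h4 : Real.log 4 = 2 * Real.log 2 := by
    have : (4 : ℝ) = 2 ^ 2 := by norm_num
    rw [this, Real.log_pow]
    norm_num
  rw [Real.log_div (by positivity) (by positivity), Real.log_mul (by norm_num) hf'.ne',
    Real.log_mul (by norm_num) hx'.ne', h4]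
  ring

/-- the equation of a cycle -/
theorem thm_CEQ (hCYB : St_CYB) : St_CEQ := by
  intro S hS
  obtain ⟨hpos, hinj, himg, -, -, -⟩ := hCYB
  have hS0 : ∀ x ∈ S, 0 < x := by
    intro x hx
    rcases Nat.eq_zero_or_pos x with h | h
    · rw [h] at hx
      exact absurd hx hS.2.1
    · exact h
  refine ⟨fun x => Real.log (f x) - Real.log x - (2 * Real.log 2 - Real.log 3), ?_, ?_⟩
  · intro x hx h3
    have hx0 := hS0 x hx
    have hf0 := hpos x hx0
    have hx' : (1 : ℝ) ≤ x := Nat.one_le_cast.2 hx0
    have hf' : (0 : ℝ) < f x := Nat.cast_pos.2 hf0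
    simp only
    rw [ceq_u x hx0 hf0]
    have hzpos : 0 < (3 * (f x : ℝ)) / (4 * (x : ℝ)) := by positivity
    have hup := Real.log_le_sub_one_of_pos hzpos
    have hlo := Real.one_sub_inv_le_log_of_pos hzpos
    have hmod : x % 3 = 1 ∨ x % 3 = 2 := by omega
    rcases hmod with h | h
    · have h1 : 3 * (f x : ℝ) = 4 * x - 1 := by
        have := ceq_f1 x h
        have h2 : (3 * (f x : ℝ)) + 1 = 4 * x := by exact_mod_cast this
        linarith
      rw [h1] at hup hlo ⊢
      have h41 : (0 : ℝ) < 4 * x - 1 := by linarith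
      have e1 : (4 * (x : ℝ) - 1) / (4 * x) - 1 = -(1 / (4 * x)) := by
        field_simp
        ring
      have e2 : 1 - ((4 * (x : ℝ) - 1) / (4 * x))⁻¹ = -(1 / (4 * x - 1)) := by
        have hx0' : (x : ℝ) ≠ 0 := by positivity
        field_simp
        ring
      rw [e1] at hup
      rw [e2] at hlo
      have h5 : (0 : ℝ) ≤ 1 / (4 * x) := by positivity
      have h6 : 1 / (4 * (x : ℝ) - 1) ≤ 1 / (3 * x) := by
        apply one_div_le_one_div_of_le (by positivity)
        linarith
      have h7 : (0 : ℝ) ≤ 1 / (3 * x) := by positivity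
      refine ⟨?_, ?_, ?_⟩
      · rw [abs_le]
        constructor <;> linarith
      · intro h4
        have h4' : (4 : ℝ) ≤ x := by exact_mod_cast h4
        have h8 : 1 / (4 * (x : ℝ) - 1) ≤ 1 / 15 := by
          apply one_div_le_one_div_of_le (by norm_num)
          linarith
        linarith
      · intro h2
        omega
    · have h1 : 3 * (f x : ℝ) = 4 * x + 1 := by exact_mod_cast ceq_f2 x h
      rw [h1] at hup hlo ⊢
      have e1 : (4 * (x : ℝ) + 1) / (4 * x) - 1 = 1 / (4 * x) := by
        field_simp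
        ring
      rw [e1] at hup
      have h0 : 0 ≤ Real.log ((4 * (x : ℝ) + 1) / (4 * x)) := by
        apply Real.log_nonneg
        rw [le_div_iff₀ (by positivity)]
        linarith
      have h6 : 1 / (4 * (x : ℝ)) ≤ 1 / (3 * x) := by
        apply one_div_le_one_div_of_le (by positivity)
        linarith
      refine ⟨?_, ?_, ?_⟩
      · rw [abs_le]
        constructor
        · have : (0 : ℝ) ≤ 1 / (3 * x) := by positivity
          linarith
        · linarith
      · intro _
        linarith
      · intro _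
        exact h0
  · have hinjS : Set.InjOn f (S : Set ℕ) := fun x hx y hy h => hinj x y (hS0 x hx) (hS0 y hy) h
    have h1 : ∑ x ∈ S, Real.log (f x) = ∑ x ∈ S, Real.log x := by
      calc ∑ x ∈ S, Real.log (f x) = ∑ y ∈ S.image f, Real.log y :=
            (Finset.sum_image (f := fun y : ℕ => Real.log (y : ℝ)) hinjS).symm
        _ = ∑ x ∈ S, Real.log x := by rw [himg S hS]
    have h2 : ∑ x ∈ S, (Real.log (f x) - Real.log x) = 0 := by
      rw [Finset.sum_sub_distrib, h1, sub_self]
    rw [← Finset.sum_filter_add_sum_filter_not S (fun x => 3 ∣ x)] at h2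
    have h3 : ∑ x ∈ S.filter (fun x => 3 ∣ x), (Real.log (f x) - Real.log x) =
        ((S.filter fun x => 3 ∣ x).card : ℝ) * (Real.log 2 - Real.log 3) := by
      rw [← nsmul_eq_mul, ← Finset.sum_const]
      apply Finset.sum_congr rfl
      intro x hx
      rw [Finset.mem_filter] at hx
      have hx0 := hS0 x hx.1
      have hf0 := hpos x hx0
      have hx' : (0 : ℝ) < x := Nat.cast_pos.2 hx0
      have hf' : (0 : ℝ) < f x := Nat.cast_pos.2 hf0
      have h4 : 3 * (f x : ℝ) = 2 * x := by exact_mod_cast ceq_f0 x hx.2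
      have h5 : Real.log 3 + Real.log (f x) = Real.log 2 + Real.log x := by
        rw [← Real.log_mul (by norm_num) hf'.ne', ← Real.log_mul (by norm_num) hx'.ne', h4]
      linarith
    have h4 : ∑ x ∈ S.filter (fun x => ¬ 3 ∣ x), (Real.log (f x) - Real.log x) =
        ((S.filter fun x => ¬ 3 ∣ x).card : ℝ) * (2 * Real.log 2 - Real.log 3) +
        ∑ x ∈ S.filter (fun x => ¬ 3 ∣ x),
          (Real.log (f x) - Real.log x - (2 * Real.log 2 - Real.log 3)) := by
      rw [← nsmul_eq_mul, ← Finset.sum_const, ← Finset.sum_add_distrib]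
      apply Finset.sum_congr rfl
      intro x _
      ring
    have h5 : ((S.filter fun x => 3 ∣ x).card : ℝ) + ((S.filter fun x => ¬ 3 ∣ x).card : ℝ) =
        (S.card : ℝ) := by
      exact_mod_cast Finset.card_filter_add_card_filter_not (s := S) (fun x => 3 ∣ x)
    rw [h3, h4] at h2
    have h6 : ((S.filter fun x => ¬ 3 ∣ x).card : ℝ) =
        (S.card : ℝ) - ((S.filter fun x => 3 ∣ x).card : ℝ) := by linarith
    rw [h6] at h2
    linear_combination (-1 : ℝ) * h2

end Pool.Agent.CPC
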