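import Pool.Agent.CPC.St

/-!
# CPC CNT: counting the lengths
-/

set_option autoImplicit false

namespace Pool.Agent.CPC

open Finset

theorem cnt_gap {D : ℕ} {ε : ℝ}
    (hD : ∀ d : ℕ, 1 ≤ d → d ≤ D → ∀ p : ℤ, 2 * ε ≤ |d * Real.log 3 - p * Real.log 2|)
    {k k' : ℕ} (hk : lam k < ε) (hk' : lam k' < ε) (h : k < k') : D < k' - k := by
  by_contra hcon
  push Not at hcon
  have h1 := hD (k' - k) (by omega) hcon
    (round (k' * Real.log 3 / Real.log 2) - round (k * Real.log 3 / Real.log 2))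
  have h2 : (((k' - k : ℕ) : ℝ) * Real.log 3 -
      ((round (k' * Real.log 3 / Real.log 2) - round (k * Real.log 3 / Real.log 2) : ℤ) : ℝ) *
        Real.log 2) =
      (k' * Real.log 3 - round (k' * Real.log 3 / Real.log 2) * Real.log 2) -
      (k * Real.log 3 - round (k * Real.log 3 / Real.log 2) * Real.log 2) := by
    rw [Nat.cast_sub h.le]
    push_cast
    ring
  rw [h2] at h1
  have h3 := abs_sub (k' * Real.log 3 - round (k' * Real.log 3 / Real.log 2) * Real.log 2)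
    (k * Real.log 3 - round (k * Real.log 3 / Real.log 2) * Real.log 2)
  unfold lam at hk hk'
  linarith

theorem cnt_small {D K : ℕ} {ε : ℝ} (hD1 : 1 ≤ D) (hK : 1 ≤ K)
    (hD : ∀ d : ℕ, 1 ≤ d → d ≤ D → ∀ p : ℤ, 2 * ε ≤ |d * Real.log 3 - p * Real.log 2|)
    (L : Finset ℕ) (hL : ∀ k ∈ L, 1 ≤ k ∧ k ≤ K ∧ lam k < ε) :
    (L.card : ℝ) ≤ K / D + 1 := by
  have h1 : L.card ≤ (Finset.range ((K - 1) / D + 1)).card := by
    refine Finset.card_le_card_of_injOn (fun k => (k - 1) / D) ?_ ?_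
    · intro k hk
      rw [Finset.mem_coe, Finset.mem_range]
      exact Nat.lt_succ_of_le (Nat.div_le_div_right (Nat.sub_le_sub_right (hL k hk).2.1 1))
    · have key : ∀ k ∈ L, ∀ k' ∈ L, (k - 1) / D = (k' - 1) / D → ¬ k < k' := by
        intro k hk k' hk' hkk hlt
        have h2 := cnt_gap hD (hL k hk).2.2 (hL k' hk').2.2 hlt
        have h3 := Nat.div_add_mod (k - 1) D
        have h4 := Nat.div_add_mod (k' - 1) D
        have h5 := Nat.mod_lt (k' - 1) (show 0 < D by omega)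
        have h6 := (hL k hk).1
        rw [hkk] at h3
        omega
      intro k hk k' hk' hkk
      rcases lt_trichotomy k k' with h | h | h
      · exact absurd h (key k hk k' hk' hkk)
      · exact h
      · exact absurd h (key k' hk' k hk hkk.symm)
  rw [Finset.card_range] at h1
  have h2 : (L.card : ℝ) ≤ (((K - 1) / D : ℕ) : ℝ) + 1 := by exact_mod_cast h1
  have h3 : (((K - 1) / D : ℕ) : ℝ) ≤ ((K - 1 : ℕ) : ℝ) / D := Nat.cast_div_le
  have h4 : ((K - 1 : ℕ) : ℝ) / D ≤ (K : ℝ) / D :=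
    div_le_div_of_nonneg_right (by exact_mod_cast Nat.sub_le K 1) (Nat.cast_nonneg D)
  linarith

theorem cnt_big (hHAR : St_HAR) {K : ℕ} {ε : ℝ} (hK : 1 ≤ K) (hε : 0 < ε)
    (L : Finset ℕ) (hL : ∀ k ∈ L, 1 ≤ k ∧ k ≤ K ∧ ε ≤ lam k ∧ ∃ S, IsCycle S ∧ S.card = k) :
    (L.card : ℝ) ≤ (1 + 2 * Real.log K) / (3 * ε) := by
  classical
  have hlog : 0 ≤ Real.log K := Real.log_nonneg (by exact_mod_cast hK)
  rcases L.eq_empty_or_nonempty with h0 | h0
  · subst h0
    rw [Finset.card_empty, Nat.cast_zero]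
    positivity
  choose! f hf1 hf2 using fun k (hk : k ∈ L) => (hL k hk).2.2.2
  have hinj : Set.InjOn f L := by
    intro k hk k' hk' h
    rw [← hf2 k hk, ← hf2 k' hk', h]
  have h1 := hHAR.2.2 (L.image f) (by
    intro S hS
    obtain ⟨k, hk, rfl⟩ := Finset.mem_image.1 hS
    exact hf1 k hk) (h0.image f)
  rw [Finset.sum_image hinj, Finset.sum_image hinj] at h1
  have h2 : ∑ k ∈ L, lam (f k).card = ∑ k ∈ L, lam k :=
    Finset.sum_congr rfl fun k hk => by rw [hf2 k hk]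
  have h3 : ∑ k ∈ L, (((f k).card : ℕ) : ℝ) = ∑ k ∈ L, (k : ℝ) :=
    Finset.sum_congr rfl fun k hk => by rw [hf2 k hk]
  rw [h2, h3] at h1
  have h4 : (L.card : ℝ) * ε ≤ ∑ k ∈ L, lam k := by
    rw [← nsmul_eq_mul]
    exact Finset.card_nsmul_le_sum _ _ _ fun k hk => (hL k hk).2.2.1
  have hLc : L.card ≤ K := by
    have : L ⊆ Finset.Icc 1 K := fun k hk => Finset.mem_Icc.2 ⟨(hL k hk).1, (hL k hk).2.1⟩
    have := Finset.card_le_card this
    rwa [Nat.card_Icc, Nat.add_sub_cancel] at this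
  have h5 : ∑ k ∈ L, (k : ℝ) ≤ (K : ℝ) * K := by
    calc ∑ k ∈ L, (k : ℝ) ≤ ∑ k ∈ L, (K : ℝ) :=
          Finset.sum_le_sum fun k hk => by exact_mod_cast (hL k hk).2.1
      _ = L.card * K := by rw [Finset.sum_const, nsmul_eq_mul]
      _ ≤ K * K := mul_le_mul_of_nonneg_right (by exact_mod_cast hLc) (Nat.cast_nonneg K)
  have h6 : 0 < ∑ k ∈ L, (k : ℝ) := by
    refine Finset.sum_pos (fun k hk => ?_) h0
    have := (hL k hk).1
    exact_mod_cast this
  have h7 : Real.log (∑ k ∈ L, (k : ℝ)) ≤ 2 * Real.log K := by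
    have hK0 : (K : ℝ) ≠ 0 := by exact_mod_cast (show K ≠ 0 by omega)
    calc Real.log (∑ k ∈ L, (k : ℝ)) ≤ Real.log ((K : ℝ) * K) := Real.log_le_log h6 h5
      _ = 2 * Real.log K := by rw [Real.log_mul hK0 hK0]; ring
  rw [le_div_iff₀ (by positivity)]
  linarith

theorem thm_CNT (hHAR : St_HAR) : St_CNT := by
  classical
  intro D K ε hD1 hK hε hD
  have hmem : ∀ k ∈ Len K, 1 ≤ k ∧ k ≤ K ∧ ∃ S, IsCycle S ∧ S.card = k := by
    intro k hk
    unfold Len at hk
    rw [Finset.mem_filter, Finset.mem_Icc] at hk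
    exact ⟨hk.1.1, hk.1.2, hk.2⟩
  have h1 := cnt_small hD1 hK hD ((Len K).filter fun k => lam k < ε) (by
    intro k hk
    obtain ⟨h1, h2⟩ := Finset.mem_filter.1 hk
    exact ⟨(hmem k h1).1, (hmem k h1).2.1, h2⟩)
  have h2 := cnt_big hHAR hK hε ((Len K).filter fun k => ¬ lam k < ε) (by
    intro k hk
    obtain ⟨h1, h2⟩ := Finset.mem_filter.1 hk
    exact ⟨(hmem k h1).1, (hmem k h1).2.1, not_lt.1 h2, (hmem k h1).2.2⟩)
  have h3 : ((Len K).filter fun k => lam k < ε).card + ((Len K).filter fun k => ¬ lam k < ε).card =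
      (Len K).card := Finset.card_filter_add_card_filter_not _
  have h4 : (((Len K).filter fun k => lam k < ε).card : ℝ) +
      (((Len K).filter fun k => ¬ lam k < ε).card : ℝ) = ((Len K).card : ℝ) := by
    exact_mod_cast h3
  linarith

end Pool.Agent.CPC
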