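import Pool.Agent.CPC.St

/-!
# CPC: cycles of a permutation, basic facts
-/

set_option autoImplicit false

namespace Pool.Agent.CPC

private theorem cyb_pos (x : ℕ) (hx : 0 < x) : 0 < f x := by
  unfold f
  split_ifs <;> omega

private theorem cyb_inj (x y : ℕ) (hx : 0 < x) (hy : 0 < y) (h : f x = f y) : x = y := by
  unfold f at h
  split_ifs at h <;> omega

private theorem cyb_itpos (x : ℕ) (hx : 0 < x) (j : ℕ) : 0 < f^[j] x := by
  induction j with
  | zero => exact hx
  | succ j ih =>
    rw [Function.iterate_succ_apply']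
    exact cyb_pos _ ih

private theorem cyb_itinj (x y : ℕ) (hx : 0 < x) (hy : 0 < y) (j : ℕ) (h : f^[j] x = f^[j] y) :
    x = y := by
  induction j with
  | zero => exact h
  | succ j ih =>
    rw [Function.iterate_succ_apply', Function.iterate_succ_apply'] at h
    exact ih (cyb_inj _ _ (cyb_itpos x hx j) (cyb_itpos y hy j) h)

private theorem cyb_spos {S : Finset ℕ} (hS : IsCycle S) {x : ℕ} (hx : x ∈ S) : 0 < x := by
  rcases Nat.eq_zero_or_pos x with h | h
  · rw [h] at hx
    exact absurd hx hS.2.1
  · exact h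

/-- cycles, basic facts -/
theorem thm_CYB : St_CYB := by
  refine ⟨cyb_pos, cyb_inj, ?_, ?_, ?_, ?_⟩
  · intro S hS
    apply Finset.eq_of_subset_of_card_le
    · intro y hy
      obtain ⟨x, hx, rfl⟩ := Finset.mem_image.1 hy
      exact (hS.2.2 x hx (f x)).2 ⟨1, rfl⟩
    · rw [Finset.card_image_of_injOn]
      intro x hx y hy h
      exact cyb_inj x y (cyb_spos hS hx) (cyb_spos hS hy) h
  · intro S T hS hT
    by_cases h : Disjoint S T
    · exact Or.inr h
    · left
      rw [Finset.not_disjoint_iff] at h
      obtain ⟨x, hxS, hxT⟩ := h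
      ext y
      rw [hS.2.2 x hxS y, hT.2.2 x hxT y]
  · intro S hS x hx
    have hx0 : 0 < x := cyb_spos hS hx
    have hmem : ∀ j, f^[j] x ∈ S := fun j => (hS.2.2 x hx _).2 ⟨j, rfl⟩
    have hper : ∃ d, 0 < d ∧ d ≤ S.card ∧ f^[d] x = x := by
      obtain ⟨i, hi, j, hj, hij, h⟩ := Finset.exists_ne_map_eq_of_card_lt_of_maps_to
        (s := Finset.range (S.card + 1)) (t := S) (f := fun j => f^[j] x)
        (by rw [Finset.card_range]; exact Nat.lt_succ_self _) (fun j _ => hmem j)
      rw [Finset.mem_range] at hi hj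
      have key : ∀ i j : ℕ, i < j → j < S.card + 1 → f^[i] x = f^[j] x →
          ∃ d, 0 < d ∧ d ≤ S.card ∧ f^[d] x = x := by
        intro i j hij hj h
        refine ⟨j - i, by omega, by omega, ?_⟩
        symm
        apply cyb_itinj x _ hx0 (cyb_itpos x hx0 _) i
        rw [← Function.iterate_add_apply, h]
        congr 1
        omega
      rcases Nat.lt_or_gt_of_ne hij with h1 | h1
      · exact key i j h1 hj h
      · exact key j i h1 hi h.symm
    obtain ⟨d, hd0, hdk, hd⟩ := hper
    have hp : Function.IsPeriodicPt f d x := hd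
    have h1 : Function.minimalPeriod f x ≤ d := hp.minimalPeriod_le hd0
    have h2 : 0 < Function.minimalPeriod f x := hp.minimalPeriod_pos hd0
    have h3 : S ⊆ (Finset.range (Function.minimalPeriod f x)).image (fun j => f^[j] x) := by
      intro y hy
      obtain ⟨n, hn⟩ := (hS.2.2 x hx y).1 hy
      refine Finset.mem_image.2 ⟨n % Function.minimalPeriod f x,
        Finset.mem_range.2 (Nat.mod_lt _ h2), ?_⟩
      rw [Function.iterate_mod_minimalPeriod_eq, hn]
    have h4 : S.card ≤ Function.minimalPeriod f x := by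
      have h5 := Finset.card_le_card h3
      have h6 := Finset.card_image_le (s := Finset.range (Function.minimalPeriod f x))
        (f := fun j => f^[j] x)
      rw [Finset.card_range] at h6
      exact h5.trans h6
    have h5 : Function.minimalPeriod f x = S.card := by omega
    rw [← h5]
    refine ⟨Function.iterate_minimalPeriod, fun y hy => ?_⟩
    obtain ⟨j, hj, hjy⟩ := Finset.mem_image.1 (h3 hy)
    exact ⟨j, Finset.mem_range.1 hj, hjy⟩
  · intro n j hn hj hper
    have hp : Function.IsPeriodicPt f j n := hper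
    refine ⟨(Finset.range j).image (fun i => f^[i] n), ⟨?_, ?_, ?_⟩, ?_, ?_⟩
    · exact ⟨n, Finset.mem_image.2 ⟨0, Finset.mem_range.2 hj, rfl⟩⟩
    · intro h
      obtain ⟨i, -, hi⟩ := Finset.mem_image.1 h
      have h1 := cyb_itpos n hn i
      change f^[i] n = 0 at hi
      omega
    · intro x hx y
      obtain ⟨i, hi, rfl⟩ := Finset.mem_image.1 hx
      rw [Finset.mem_range] at hi
      change y ∈ _ ↔ ∃ m, f^[m] (f^[i] n) = y
      constructor
      · intro hy
        obtain ⟨i', hi', rfl⟩ := Finset.mem_image.1 hy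
        refine ⟨i' + (j - i), ?_⟩
        rw [← Function.iterate_add_apply]
        have h1 : i' + (j - i) + i = i' + j := by omega
        rw [h1, Function.iterate_add_apply, hper]
      · rintro ⟨m, hm⟩
        refine Finset.mem_image.2 ⟨(m + i) % j, Finset.mem_range.2 (Nat.mod_lt _ hj), ?_⟩
        rw [hp.iterate_mod_apply, Function.iterate_add_apply, hm]
    · exact Finset.mem_image.2 ⟨0, Finset.mem_range.2 hj, rfl⟩
    · have h6 := Finset.card_image_le (s := Finset.range j) (f := fun i => f^[i] n)
      rwa [Finset.card_range] at h6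

end Pool.Agent.CPC
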