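import Pool.Agent.CPC.St

/-!
# CPC: harmonic bound for disjoint cycles (helper81)
-/

set_option autoImplicit false

namespace Pool.Agent.CPC

open Filter Topology

theorem har_log2 : 0 < Real.log 2 := Real.log_pos (by norm_num)

theorem har_one (k : ℕ) (p : ℤ) : lam k ≤ |k * Real.log 3 - p * Real.log 2| := by
  have h2 := har_log2
  have key : ∀ m : ℝ, |k * Real.log 3 - m * Real.log 2| =
      |k * Real.log 3 / Real.log 2 - m| * Real.log 2 := by
    intro m
    have h1 : k * Real.log 3 - m * Real.log 2 =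
        (k * Real.log 3 / Real.log 2 - m) * Real.log 2 := by
      rw [sub_mul, div_mul_cancel₀ _ h2.ne']
    rw [h1, abs_mul, abs_of_pos h2]
  unfold lam
  rw [key, key]
  exact mul_le_mul_of_nonneg_right (round_le _ p) h2.le

theorem har_two (hCEQ : St_CEQ) (S : Finset ℕ) (hS : IsCycle S) :
    lam S.card ≤ ∑ x ∈ S, 1 / (3 * (x : ℝ)) := by
  obtain ⟨u, h1, h2⟩ := hCEQ S hS
  have h3 := har_one S.card (2 * (S.card : ℤ) - ((S.filter fun x => 3 ∣ x).card : ℤ))
  push_cast at h3
  rw [h2] at h3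
  refine h3.trans ((Finset.abs_sum_le_sum_abs _ _).trans ?_)
  refine (Finset.sum_le_sum fun x hx => (h1 x (Finset.mem_filter.1 hx).1
    (Finset.mem_filter.1 hx).2).1).trans ?_
  exact Finset.sum_le_sum_of_subset_of_nonneg (Finset.filter_subset _ _)
    fun x _ _ => by positivity

theorem har_harm (U : Finset ℕ) : 0 ∉ U → ∑ x ∈ U, 1 / (x : ℝ) ≤ (harmonic U.card : ℝ) := by
  induction U using Finset.induction_on_max with
  | empty =>
    intro _
    simp
  | insert a s hlt ih =>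
    intro h0
    have hs0 : 0 ∉ s := fun h => h0 (Finset.mem_insert_of_mem h)
    have ha0 : 0 < a := Nat.pos_of_ne_zero fun h => h0 (h ▸ Finset.mem_insert_self a s)
    have has : a ∉ s := fun h => lt_irrefl a (hlt a h)
    have hsub : s ⊆ Finset.Icc 1 (a - 1) := by
      intro x hx
      have h1 := hlt x hx
      have h2 : x ≠ 0 := fun h => hs0 (h ▸ hx)
      rw [Finset.mem_Icc]
      omega
    have hcard := Finset.card_le_card hsub
    rw [Nat.card_Icc] at hcard
    have h3 : s.card + 1 ≤ a := by omega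
    rw [Finset.sum_insert has, Finset.card_insert_of_notMem has, harmonic_succ]
    push_cast
    have h4 : 1 / (a : ℝ) ≤ ((s.card : ℝ) + 1)⁻¹ := by
      rw [one_div]
      apply inv_anti₀ (by positivity)
      exact_mod_cast h3
    have h5 := ih hs0
    linarith

theorem thm_HAR (hCYB : St_CYB) (hCEQ : St_CEQ) : St_HAR := by
  refine ⟨har_one, har_two hCEQ, fun F hF hne => ?_⟩
  have hdis : (F : Set (Finset ℕ)).PairwiseDisjoint id := by
    intro S hS T hT hST
    exact (hCYB.2.2.2.1 S T (hF S hS) (hF T hT)).resolve_left hST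
  have h1 : ∑ S ∈ F, lam S.card ≤ ∑ S ∈ F, ∑ x ∈ S, 1 / (3 * (x : ℝ)) :=
    Finset.sum_le_sum fun S hS => har_two hCEQ S (hF S hS)
  have h2 : ∑ S ∈ F, ∑ x ∈ S, 1 / (3 * (x : ℝ)) = ∑ x ∈ F.biUnion id, 1 / (3 * (x : ℝ)) :=
    (Finset.sum_biUnion hdis).symm
  have h3 : (F.biUnion id).card = ∑ S ∈ F, S.card := Finset.card_biUnion hdis
  have h0 : 0 ∉ F.biUnion id := by
    rw [Finset.mem_biUnion]
    rintro ⟨S, hS, h⟩
    exact (hF S hS).2.1 h
  have h4 := har_harm _ h0
  rw [h3] at h4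
  have h5 := h4.trans (harmonic_le_one_add_log _)
  have h6 : ∑ x ∈ F.biUnion id, 1 / (3 * (x : ℝ)) = (∑ x ∈ F.biUnion id, 1 / (x : ℝ)) / 3 := by
    rw [Finset.sum_div]
    refine Finset.sum_congr rfl fun x _ => ?_
    rw [div_div, mul_comm (x : ℝ) 3]
  rw [h2, h6] at h1
  refine h1.trans ?_
  have h7 : ((∑ S ∈ F, S.card : ℕ) : ℝ) = ∑ S ∈ F, (S.card : ℝ) := by push_cast; rfl
  rw [h7] at h5
  linarith

end Pool.Agent.CPC
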