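import Pool.Agent.CPC.St

/-!
# CPC, module HGT: the length of a cycle against the number of runs of multiples of `3`
-/

set_option autoImplicit false

namespace Pool.Agent.CPC

open Finset

private theorem hgt_f3 (x : ℕ) (h : 3 ∣ x) : f x = 2 * (x / 3) := by
  obtain ⟨z, rfl⟩ := h
  unfold f
  have : (3 * z) % 3 = 0 := by omega
  rw [if_pos this]
  omega

private theorem hgt_up (x : ℕ) (h : ¬ 3 ∣ x) (h2 : 2 ≤ x) : x < f x := by
  unfold f
  have : x % 3 ≠ 0 := by omega
  rw [if_neg this]
  split_ifs <;> omega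

private theorem hgt_dn (x : ℕ) (h : 3 ∣ x) (h2 : 0 < x) : f x < x := by
  rw [hgt_f3 x h]
  omega

private theorem hgt_v3 (z : ℕ) (hz : 0 < z) : padicValNat 3 (3 * z) = padicValNat 3 z + 1 := by
  rw [padicValNat.mul (by norm_num) hz.ne', padicValNat_self, add_comm]

private theorem hgt_v2 (z : ℕ) (hz : 0 < z) : padicValNat 3 (2 * z) = padicValNat 3 z := by
  rw [padicValNat.mul (by norm_num) hz.ne', padicValNat.eq_zero_of_not_dvd (by norm_num), zero_add]

private theorem hgt_vf (x : ℕ) (h : 3 ∣ x) (hx : 0 < x) :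
    padicValNat 3 x = padicValNat 3 (f x) + 1 := by
  rw [hgt_f3 x h]
  obtain ⟨z, rfl⟩ := h
  have hz : 0 < z := by omega
  rw [hgt_v3 z hz, Nat.mul_div_cancel_left z (by norm_num), hgt_v2 z hz]

/-- the number of multiples of `3` -/
private theorem hgt_a (S : Finset ℕ) (hS : S.image f = S)
    (hinj : ∀ x ∈ S, ∀ y ∈ S, f x = f y → x = y) (hpos : ∀ x ∈ S, 0 < x) :
    (S.filter fun x => 3 ∣ x).card =
      ∑ x ∈ S.filter (fun x => ¬ 3 ∣ x ∧ 3 ∣ f x), padicValNat 3 (f x) := by
  have h1 : ∑ x ∈ S, padicValNat 3 (f x) = ∑ x ∈ S, padicValNat 3 x := by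
    conv_rhs => rw [← hS]
    rw [Finset.sum_image (fun x hx y hy h => hinj x hx y hy h)]
  have h2 := Finset.sum_filter_add_sum_filter_not S (fun x => 3 ∣ x) (fun x => padicValNat 3 x)
  have h3 := Finset.sum_filter_add_sum_filter_not S (fun x => 3 ∣ x) (fun x => padicValNat 3 (f x))
  have h4 : ∑ x ∈ S.filter (fun x => ¬ 3 ∣ x), padicValNat 3 x = 0 := by
    refine Finset.sum_eq_zero fun x hx => ?_
    exact padicValNat.eq_zero_of_not_dvd (mem_filter.1 hx).2
  have h5 : ∑ x ∈ S.filter (fun x => 3 ∣ x), padicValNat 3 x =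
      ∑ x ∈ S.filter (fun x => 3 ∣ x), padicValNat 3 (f x) + (S.filter fun x => 3 ∣ x).card := by
    rw [Finset.card_eq_sum_ones, ← Finset.sum_add_distrib]
    refine Finset.sum_congr rfl fun x hx => ?_
    exact hgt_vf x (mem_filter.1 hx).2 (hpos x (mem_filter.1 hx).1)
  have h6 : ∑ x ∈ S.filter (fun x => ¬ 3 ∣ x ∧ 3 ∣ f x), padicValNat 3 (f x) =
      ∑ x ∈ S.filter (fun x => ¬ 3 ∣ x), padicValNat 3 (f x) := by
    refine Finset.sum_subset ?_ ?_
    · intro x hx
      rw [mem_filter] at hx ⊢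
      exact ⟨hx.1, hx.2.1⟩
    · intro x hx hx'
      refine padicValNat.eq_zero_of_not_dvd fun h => hx' ?_
      rw [mem_filter] at hx ⊢
      exact ⟨hx.1, hx.2, h⟩
  omega

/-- `x` with all factors `3` replaced by `2` -/
private def hgt_r (x : ℕ) : ℕ := 2 ^ padicValNat 3 x * (x / 3 ^ padicValNat 3 x)

private theorem hgt_rf (x : ℕ) (h : 3 ∣ x) (hx : 0 < x) : hgt_r (f x) = hgt_r x := by
  rw [hgt_f3 x h]
  obtain ⟨z, rfl⟩ := h
  have hz : 0 < z := by omega
  unfold hgt_r
  rw [hgt_v3 z hz, Nat.mul_div_cancel_left z (by norm_num), hgt_v2 z hz]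
  have h1 : 3 ^ padicValNat 3 z ∣ z := pow_padicValNat_dvd
  rw [Nat.mul_div_assoc _ h1, pow_succ, pow_succ, mul_comm (3 ^ padicValNat 3 z) 3,
    Nat.mul_div_mul_left _ _ (by norm_num : 0 < 3)]
  ring

private theorem hgt_rn (x : ℕ) (h : ¬ 3 ∣ x) : hgt_r x = x := by
  unfold hgt_r
  rw [padicValNat.eq_zero_of_not_dvd h]
  simp

private theorem hgt_th : 1 ≤ Real.log 3 / Real.log 2 := by
  have h2 : 0 < Real.log 2 := Real.log_pos (by norm_num)
  rw [le_div_iff₀ h2, one_mul]
  exact Real.log_le_log (by norm_num) (by norm_num)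

private theorem hgt_rpos (x : ℕ) (hx : 0 < x) : 1 ≤ hgt_r x := by
  unfold hgt_r
  have h1 : 3 ^ padicValNat 3 x ∣ x := pow_padicValNat_dvd
  have h2 : 0 < x / 3 ^ padicValNat 3 x :=
    Nat.div_pos (Nat.le_of_dvd hx h1) (by positivity)
  exact Nat.succ_le_of_lt (Nat.mul_pos (by positivity) h2)

private theorem hgt_rlog (x : ℕ) (hx : 0 < x) :
    Real.log x ≤ Real.log 3 / Real.log 2 * Real.log (hgt_r x) := by
  have hl2 : 0 < Real.log 2 := Real.log_pos (by norm_num)
  have h1 : 3 ^ padicValNat 3 x ∣ x := pow_padicValNat_dvd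
  obtain ⟨w, hw⟩ := h1
  have hw0 : 0 < w := by
    rcases Nat.eq_zero_or_pos w with h | h
    · rw [h] at hw
      omega
    · exact h
  have hr : hgt_r x = 2 ^ padicValNat 3 x * w := by
    unfold hgt_r
    congr 1
    conv_lhs => rw [hw]
    have e : 3 ^ padicValNat 3 x * w = x := hw.symm
    rw [e]
    exact Nat.div_eq_of_eq_mul_right (by positivity) hw
  have hw1 : (1 : ℝ) ≤ w := by exact_mod_cast hw0
  have hlw : 0 ≤ Real.log w := Real.log_nonneg hw1
  have hw' : (w : ℝ) ≠ 0 := by positivity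
  have e1 : Real.log x = padicValNat 3 x * Real.log 3 + Real.log w := by
    conv_lhs => rw [hw]
    rw [Nat.cast_mul, Nat.cast_pow, Real.log_mul (by positivity) hw', Real.log_pow]
    norm_num
  have e2 : Real.log (hgt_r x) = padicValNat 3 x * Real.log 2 + Real.log w := by
    rw [hr, Nat.cast_mul, Nat.cast_pow, Real.log_mul (by positivity) hw', Real.log_pow]
    norm_num
  rw [e1, e2, mul_add]
  have e3 : Real.log 3 / Real.log 2 * (padicValNat 3 x * Real.log 2) =
      padicValNat 3 x * Real.log 3 := by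
    field_simp
  rw [e3]
  have := mul_le_mul_of_nonneg_right hgt_th hlw
  linarith

theorem thm_HGT (hCYB : St_CYB) (hCEQ : St_CEQ) : St_HGT := by
  intro S hS hc y' hy'
  obtain ⟨c1, c2, c3, c4, c5, c6⟩ := hCYB
  have hne := hS.1
  have h0 : 0 ∉ S := hS.2.1
  have h1 : 1 ∉ S := by
    intro h
    have : S ⊆ {1} := by
      intro z hz
      obtain ⟨j, hj⟩ := (hS.2.2 1 h z).1 hz
      have hf : ∀ j : ℕ, f^[j] 1 = 1 := by
        intro j
        induction j with
        | zero => rfl
        | succ j ih => rw [Function.iterate_succ_apply', ih]; rfl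
      rw [hf] at hj
      rw [mem_singleton]
      exact hj.symm
    have := Finset.card_le_card this
    rw [card_singleton] at this
    omega
  have hge : ∀ x ∈ S, 2 ≤ x := by
    intro x hx
    rcases x with _ | _ | x
    · exact absurd hx h0
    · exact absurd hx h1
    · omega
  have him := c3 S hS
  have hfS : ∀ x ∈ S, f x ∈ S := fun x hx => by
    have := mem_image_of_mem f hx
    rwa [him] at this
  have hinj : ∀ x ∈ S, ∀ y ∈ S, f x = f y → x = y := fun x hx y hy h =>
    c2 x y (by have := hge x hx; omega) (by have := hge y hy; omega) h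
  -- maximum and minimum
  set M := S.max' hne with hM
  set y := S.min' hne with hy
  have hMS : M ∈ S := S.max'_mem hne
  have hyS : y ∈ S := S.min'_mem hne
  have hleM : ∀ x ∈ S, x ≤ M := fun x hx => S.le_max' x hx
  have hley : ∀ x ∈ S, y ≤ x := fun x hx => S.min'_le x hx
  have hM3 : 3 ∣ M := by
    by_contra h
    exact absurd (hleM _ (hfS M hMS)) (not_le.2 (hgt_up M h (hge M hMS)))
  have hy3 : ¬ 3 ∣ y := by
    intro h
    exact absurd (hley _ (hfS y hyS)) (not_le.2 (hgt_dn y h (by have := hge y hyS; omega)))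
  set k := S.card with hk
  set a := (S.filter fun x => 3 ∣ x).card with ha
  set θ := Real.log 3 / Real.log 2 with hθ
  have hθ1 : 1 ≤ θ := hgt_th
  have hl2 : 0 < Real.log 2 := Real.log_pos (by norm_num)
  have hl2' := Real.log_two_gt_d9
  have hl3 : 1 ≤ Real.log 3 := by
    rw [Real.le_log_iff_exp_le (by norm_num)]
    have := Real.exp_one_lt_d9
    linarith
  have hl32 : 5 * Real.log 3 ≤ 8 * Real.log 2 := by
    have e1 : 5 * Real.log 3 = Real.log (3 ^ 5) := by rw [Real.log_pow]; norm_num
    have e2 : 8 * Real.log 2 = Real.log (2 ^ 8) := by rw [Real.log_pow]; norm_num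
    rw [e1, e2]
    exact Real.log_le_log (by norm_num) (by norm_num)
  have hlM : 0 ≤ Real.log M := Real.log_nonneg (by
    have := hge M hMS
    exact_mod_cast (by omega : 1 ≤ M))
  -- (a)
  have hA : (a : ℝ) ≤ runs S * Real.log M := by
    have h2 : (a : ℝ) = ∑ x ∈ S.filter (fun x => ¬ 3 ∣ x ∧ 3 ∣ f x), (padicValNat 3 (f x) : ℝ) := by
      rw [ha, hgt_a S him hinj (fun x hx => by have := hge x hx; omega), Nat.cast_sum]
    have h3 : ∀ x ∈ S.filter (fun x => ¬ 3 ∣ x ∧ 3 ∣ f x), (padicValNat 3 (f x) : ℝ) ≤ Real.log M := by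
      intro x hx
      have hx' := hfS x (mem_filter.1 hx).1
      have hpos : 0 < f x := by have := hge _ hx'; omega
      have h4 : 3 ^ padicValNat 3 (f x) ≤ f x := Nat.le_of_dvd hpos pow_padicValNat_dvd
      have h5 : ((3 : ℝ)) ^ padicValNat 3 (f x) ≤ M := by
        exact_mod_cast h4.trans (hleM _ hx')
      have h6 := Real.log_le_log (by positivity) h5
      rw [Real.log_pow] at h6
      have h7 : (0 : ℝ) ≤ padicValNat 3 (f x) := Nat.cast_nonneg _
      nlinarith
    rw [h2]
    refine (Finset.sum_le_card_nsmul _ _ _ h3).trans ?_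
    rw [nsmul_eq_mul]
    exact le_refl _
  -- (b)
  have hB : (k : ℝ) ≤ 5 * a := by
    obtain ⟨u, hu, hu2⟩ := hCEQ S hS
    have h3 : ∀ x ∈ S.filter (fun x => ¬ 3 ∣ x), -(1 / 15 : ℝ) ≤ u x := by
      intro x hx
      rw [mem_filter] at hx
      obtain ⟨-, h4, h5⟩ := hu x hx.1 hx.2
      have h6 := hge x hx.1
      by_cases h7 : 4 ≤ x
      · exact h4 h7
      · have h8 : x % 3 = 2 := by
          have := hx.2
          omega
        have := h5 h8
        linarith
    have h4 := Finset.card_nsmul_le_sum _ _ _ h3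
    rw [← hu2, nsmul_eq_mul] at h4
    have h5 : ((S.filter fun x => ¬ 3 ∣ x).card : ℝ) ≤ k := by
      exact_mod_cast Finset.card_filter_le _ _
    have h6 : (0 : ℝ) ≤ k := Nat.cast_nonneg _
    have h7 : ((S.filter fun x => 3 ∣ x).card : ℝ) = a := rfl
    rw [h7] at h4
    have h8 : -(1 / 15 : ℝ) * k ≤ (k : ℝ) * Real.log 3 - (2 * (k : ℝ) - a) * Real.log 2 := by
      have : -(1 / 15 : ℝ) * k ≤ ((S.filter fun x => ¬ 3 ∣ x).card : ℝ) * -(1 / 15 : ℝ) := by
        linarith
      exact this.trans h4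
    have h9 : (k : ℝ) * (5 * Real.log 3) ≤ k * (8 * Real.log 2) :=
      mul_le_mul_of_nonneg_left hl32 h6
    have h10 : (k : ℝ) * (1 / 15) ≤ k * (Real.log 2 / 5) :=
      mul_le_mul_of_nonneg_left (by linarith) h6
    have h11 : (k : ℝ) * Real.log 2 ≤ 5 * a * Real.log 2 := by nlinarith
    exact le_of_mul_le_mul_right h11 hl2
  -- (c)
  obtain ⟨hkM, hsur⟩ := c5 S hS M hMS
  have hit : ∀ i, f^[i] M ∈ S := by
    intro i
    induction i with
    | zero => exact hMS
    | succ i ih =>
      rw [Function.iterate_succ_apply']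
      exact hfS _ ih
  have himg : (range k).image (fun i => f^[i] M) = S := by
    ext z
    rw [mem_image]
    constructor
    · rintro ⟨i, -, rfl⟩
      exact hit i
    · intro hz
      obtain ⟨j, hj, hj2⟩ := hsur z hz
      exact ⟨j, mem_range.2 hj, hj2⟩
  have hio : Set.InjOn (fun i => f^[i] M) (range k : Finset ℕ) := by
    rw [← Finset.card_image_iff, himg, card_range]
  obtain ⟨j, hj, hjy⟩ := hsur y hyS
  set n : ℕ → ℕ := fun i =>
    ((range i).filter fun i' => ¬ 3 ∣ f^[i'] M ∧ 3 ∣ f^[i' + 1] M).card with hn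
  have hnj : n j + 1 ≤ runs S := by
    have hk1 : k - 1 + 1 = k := by omega
    have h2 : (k - 1) ∉ (range j).filter fun i' => ¬ 3 ∣ f^[i'] M ∧ 3 ∣ f^[i' + 1] M := by
      rw [mem_filter, mem_range]
      omega
    have h3 : n j + 1 = (insert (k - 1) ((range j).filter fun i' =>
        ¬ 3 ∣ f^[i'] M ∧ 3 ∣ f^[i' + 1] M)).card := by
      rw [card_insert_of_notMem h2]
    rw [h3]
    unfold runs
    refine Finset.card_le_card_of_injOn (fun i => f^[i] M) ?_ ?_
    · intro i hi
      rw [mem_coe, mem_insert] at hi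
      rw [mem_coe, mem_filter]
      refine ⟨hit i, ?_⟩
      rcases hi with rfl | hi
      · have h4 : f (f^[k - 1] M) = M := by
          have h5 := Function.iterate_succ_apply' f (k - 1) M
          rw [Nat.succ_eq_add_one, hk1] at h5
          rw [← h5]
          exact hkM
        refine ⟨fun h5 => ?_, ?_⟩
        · have h6 := hgt_dn (f^[k - 1] M) h5 (by have := hge _ (hit (k - 1)); omega)
          rw [h4] at h6
          exact absurd (hleM _ (hit (k - 1))) (not_le.2 h6)
        · show 3 ∣ f (f^[k - 1] M)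
          rw [h4]
          exact hM3
      · rw [mem_filter, Function.iterate_succ_apply'] at hi
        exact hi.2
    · refine hio.mono ?_
      intro i hi
      rw [mem_coe, mem_insert, mem_filter, mem_range] at hi
      rw [mem_coe, mem_range]
      rcases hi with hi | hi
      · omega
      · have := hi.1
        omega
  have hrho : ∀ i, Real.log (hgt_r M) ≤ θ ^ (n i) * Real.log (hgt_r (f^[i] M)) := by
    intro i
    induction i with
    | zero =>
      have : n 0 = 0 := by
        show ((range 0).filter fun i' => ¬ 3 ∣ f^[i'] M ∧ 3 ∣ f^[i' + 1] M).card = 0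
        rw [range_zero, filter_empty, card_empty]
      rw [this, pow_zero, one_mul]
      exact le_refl _
    | succ i ih =>
      set x := f^[i] M with hx
      have hxS : x ∈ S := hit i
      have hx2 := hge x hxS
      have hfx2 := hge _ (hfS x hxS)
      have hfx : f^[i + 1] M = f x := Function.iterate_succ_apply' f i M
      have hns : n (i + 1) = if ¬ 3 ∣ x ∧ 3 ∣ f x then n i + 1 else n i := by
        show ((range (i + 1)).filter fun i' => ¬ 3 ∣ f^[i'] M ∧ 3 ∣ f^[i' + 1] M).card = _
        rw [Finset.range_add_one, Finset.filter_insert, hfx]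
        by_cases h : ¬ 3 ∣ x ∧ 3 ∣ f x
        · rw [if_pos h, if_pos h, card_insert_of_notMem]
          rw [mem_filter, mem_range]
          omega
        · rw [if_neg h, if_neg h]
      have hpow : 0 < θ ^ (n i) := pow_pos (by linarith) _
      rw [hfx]
      by_cases h3 : 3 ∣ x
      · rw [hns, if_neg (fun h => h.1 h3), hgt_rf x h3 (by omega)]
        exact ih
      · have hup := hgt_up x h3 hx2
        have hlog : Real.log x ≤ Real.log (f x) :=
          Real.log_le_log (by exact_mod_cast (by omega : 0 < x)) (by exact_mod_cast hup.le)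
        rw [hgt_rn x h3] at ih
        by_cases h4 : 3 ∣ f x
        · rw [hns, if_pos ⟨h3, h4⟩]
          have h5 := hgt_rlog (f x) (by omega)
          calc Real.log (hgt_r M) ≤ θ ^ (n i) * Real.log x := ih
            _ ≤ θ ^ (n i) * (θ * Real.log (hgt_r (f x))) :=
              mul_le_mul_of_nonneg_left (hlog.trans h5) hpow.le
            _ = θ ^ (n i + 1) * Real.log (hgt_r (f x)) := by ring
        · rw [hns, if_neg (fun h => h4 h.2), hgt_rn (f x) h4]
          exact ih.trans (mul_le_mul_of_nonneg_left hlog hpow.le)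
  have hy1 : (1 : ℝ) ≤ y := by
    have := hge y hyS
    exact_mod_cast (by omega : 1 ≤ y)
  have hly : 0 ≤ Real.log y := Real.log_nonneg hy1
  have hC : Real.log M ≤ θ ^ (runs S) * Real.log y := by
    have h2 := hgt_rlog M (by have := hge M hMS; omega)
    have h3 := hrho j
    rw [hjy, hgt_rn y hy3] at h3
    calc Real.log M ≤ θ * Real.log (hgt_r M) := h2
      _ ≤ θ * (θ ^ (n j) * Real.log y) := mul_le_mul_of_nonneg_left h3 (by linarith)
      _ = θ ^ (n j + 1) * Real.log y := by ring
      _ ≤ θ ^ (runs S) * Real.log y :=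
        mul_le_mul_of_nonneg_right (pow_le_pow_right₀ hθ1 hnj) hly
  have hyy : Real.log y ≤ Real.log y' :=
    Real.log_le_log (by linarith) (by exact_mod_cast hley y' hy')
  have hr0 : (0 : ℝ) ≤ runs S := Nat.cast_nonneg _
  have hpow : 0 < θ ^ (runs S) := pow_pos (by linarith) _
  calc (k : ℝ) ≤ 5 * a := hB
    _ ≤ 5 * (runs S * Real.log M) := by linarith
    _ ≤ 5 * (runs S * (θ ^ (runs S) * Real.log y')) := by
      have h2 : Real.log M ≤ θ ^ (runs S) * Real.log y' :=
        hC.trans (mul_le_mul_of_nonneg_left hyy hpow.le)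
      have h3 := mul_le_mul_of_nonneg_left h2 hr0
      linarith
    _ = 5 * runs S * θ ^ (runs S) * Real.log y' := by ring

end Pool.Agent.CPC
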