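import Pool.Agent.CPC.St

/-!
# CPC, module LNA (helper96): all but `O(K ^ 0.98)` lengths are impossible
-/

set_option autoImplicit false

namespace Pool.Agent.CPC

open Finset Polynomial

/-- **LNA.** -/
theorem thm_LNA (hCNT : St_CNT) (hMEA : St_MEA) : St_LNA := by
  obtain ⟨c, hc, hm⟩ := hMEA
  refine ⟨3 + 9802 / (3 * c), fun K hK => ?_⟩
  have hx1 : (1 : ℝ) ≤ (K : ℝ) := by exact_mod_cast hK
  obtain ⟨x, hx⟩ : ∃ x : ℝ, x = (K : ℝ) := ⟨_, rfl⟩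
  rw [← hx] at hx1
  have hx0 : 0 < x := by linarith
  obtain ⟨y, hy⟩ : ∃ y : ℝ, y = x ^ (1 / 49 : ℝ) := ⟨_, rfl⟩
  have hy1 : 1 ≤ y := by rw [hy]; exact Real.one_le_rpow hx1 (by norm_num)
  obtain ⟨D, hD⟩ : ∃ D : ℕ, D = ⌊y⌋₊ := ⟨_, rfl⟩
  have hD1 : 1 ≤ D := by
    rw [hD]
    exact Nat.le_floor (by exact_mod_cast hy1)
  have hDr : (1 : ℝ) ≤ D := by exact_mod_cast hD1
  have hDy : (D : ℝ) ≤ y := by
    rw [hD]
    exact Nat.floor_le (by linarith)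
  have hyD : y ≤ 2 * D := by
    have h1 := Nat.lt_floor_add_one y
    rw [← hD] at h1
    linarith
  obtain ⟨z, hz⟩ : ∃ z : ℝ, z = x ^ (48 / 49 : ℝ) := ⟨_, rfl⟩
  have hz0 : 0 < z := by rw [hz]; exact Real.rpow_pos_of_pos hx0 _
  have hyz : y * z = x := by
    rw [hy, hz, ← Real.rpow_add hx0]
    norm_num
  have hy48 : y ^ 48 = z := by
    rw [hy, hz, ← Real.rpow_natCast, ← Real.rpow_mul hx0.le]
    norm_num
  obtain ⟨v, hv⟩ : ∃ v : ℝ, v = x ^ (1 / 2450 : ℝ) := ⟨_, rfl⟩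
  have hv1 : 1 ≤ v := by rw [hv]; exact Real.one_le_rpow hx1 (by norm_num)
  have hvz : v * z = x ^ (0.98 : ℝ) := by
    rw [hv, hz, ← Real.rpow_add hx0]
    norm_num
  have hw : z ≤ x ^ (0.98 : ℝ) := by
    rw [← hvz]
    nlinarith
  have hw1 : 1 ≤ x ^ (0.98 : ℝ) := Real.one_le_rpow hx1 (by norm_num)
  have hlog : Real.log x ≤ 2450 * v := by
    have h1 := Real.log_le_rpow_div hx0.le (show (0 : ℝ) < 1 / 2450 by norm_num)
    rw [← hv] at h1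
    have h2 : v / (1 / 2450 : ℝ) = 2450 * v := by ring
    rwa [h2] at h1
  have hlog0 : 0 ≤ Real.log x := Real.log_nonneg hx1
  have hD48 : (D : ℝ) ^ 48 ≤ z := by
    rw [← hy48]
    exact pow_le_pow_left₀ (by linarith) hDy 48
  have hD48p : (0 : ℝ) < (D : ℝ) ^ 48 := by positivity
  have hε : (0 : ℝ) < c / (2 * (D : ℝ) ^ 48) := by positivity
  have h1 := hCNT D K (c / (2 * (D : ℝ) ^ 48)) hD1 hK hε (by
    intro d hd hdD p
    refine le_trans ?_ (hm d hd p)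
    have hd1 : (1 : ℝ) ≤ d := by exact_mod_cast hd
    have hdr : (d : ℝ) ≤ D := by exact_mod_cast hdD
    have h2 : (d : ℝ) ^ 48 ≤ (D : ℝ) ^ 48 := pow_le_pow_left₀ (by linarith) hdr 48
    have h3 : (0 : ℝ) < (d : ℝ) ^ 48 := by positivity
    have h4 : 2 * (c / (2 * (D : ℝ) ^ 48)) = c / (D : ℝ) ^ 48 := by
      field_simp
    rw [h4]
    exact div_le_div_of_nonneg_left hc.le h3 h2)
  rw [← hx] at h1 ⊢
  have h2 : x / D ≤ 2 * z := by
    rw [div_le_iff₀ (by linarith)]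
    nlinarith
  have h3 : (1 + 2 * Real.log x) / (3 * (c / (2 * (D : ℝ) ^ 48))) =
      (1 + 2 * Real.log x) * (D : ℝ) ^ 48 * (2 / (3 * c)) := by
    field_simp
  have h4 : (1 + 2 * Real.log x) * (D : ℝ) ^ 48 ≤ 4901 * x ^ (0.98 : ℝ) := by
    calc (1 + 2 * Real.log x) * (D : ℝ) ^ 48 ≤ (4901 * v) * z :=
          mul_le_mul (by linarith) hD48 hD48p.le (by linarith)
      _ = 4901 * x ^ (0.98 : ℝ) := by rw [mul_assoc, hvz]
  have h5 : (1 + 2 * Real.log x) * (D : ℝ) ^ 48 * (2 / (3 * c)) ≤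
      4901 * x ^ (0.98 : ℝ) * (2 / (3 * c)) :=
    mul_le_mul_of_nonneg_right h4 (by positivity)
  have h6 : 4901 * x ^ (0.98 : ℝ) * (2 / (3 * c)) = 9802 / (3 * c) * x ^ (0.98 : ℝ) := by ring
  rw [h3] at h1
  rw [h6] at h5
  calc ((Len K).card : ℝ) ≤ x / D + 1 + (1 + 2 * Real.log x) * (D : ℝ) ^ 48 * (2 / (3 * c)) := h1
    _ ≤ (3 + 9802 / (3 * c)) * x ^ (0.98 : ℝ) := by
      rw [add_mul]
      linarith

end Pool.Agent.CPC
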