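import Pool.Agent.CPC.St

/-!
# CPC, module LNB (helper25): for infinitely many `K` only `O(√(K log K))` lengths
-/

set_option autoImplicit false

namespace Pool.Agent.CPC

open Finset Polynomial

/-- Best approximations. -/
private theorem lnb_best (α : ℝ) (hα : ∀ k : ℕ, 1 ≤ k → ∀ p : ℤ, (k : ℝ) * α ≠ p) (N : ℕ) :
    ∃ Q : ℕ, N < Q ∧ 2 ≤ Q ∧ ∀ d : ℕ, 1 ≤ d → d < Q → ∀ p : ℤ,
      1 / (2 * (Q : ℝ)) ≤ |(d : ℝ) * α - p| := by
  classical
  obtain ⟨g, hg⟩ : ∃ g : ℕ → ℝ, g = fun d : ℕ => |(d : ℝ) * α - round ((d : ℝ) * α)| := ⟨_, rfl⟩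
  have hgd : ∀ d, g d = |(d : ℝ) * α - round ((d : ℝ) * α)| := fun d => by rw [hg]
  have hpos : ∀ d, 1 ≤ d → 0 < g d := by
    intro d hd
    rw [hgd, abs_pos, sub_ne_zero]
    exact hα d hd _
  have hle : ∀ (d : ℕ) (p : ℤ), g d ≤ |(d : ℝ) * α - p| := by
    intro d p
    rw [hgd]
    exact round_le _ _
  obtain ⟨a, ha, hamin⟩ := Finset.exists_min_image (Icc 1 (N + 1)) g ⟨1, by simp⟩
  rw [mem_Icc] at ha
  have hδ : 0 < g a := hpos a ha.1
  have hex : ∃ d : ℕ, 1 ≤ d ∧ g d < g a := by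
    obtain ⟨n, hn⟩ := exists_nat_one_div_lt hδ
    obtain ⟨k, hk0, hkn, hk⟩ := Real.exists_nat_abs_mul_sub_round_le α (Nat.succ_pos n)
    refine ⟨k, hk0, ?_⟩
    rw [hgd]
    refine lt_of_le_of_lt hk (lt_of_le_of_lt ?_ hn)
    have h1 : (0 : ℝ) < (n : ℝ) + 1 := by positivity
    apply one_div_le_one_div_of_le h1
    push_cast
    linarith
  have hQ := Nat.find_spec hex
  have hQmin : ∀ d, d < Nat.find hex → 1 ≤ d → g a ≤ g d := by
    intro d hd h1
    have h2 := Nat.find_min hex hd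
    by_contra h3
    exact h2 ⟨h1, not_le.1 h3⟩
  obtain ⟨Q, hQe⟩ : ∃ Q, Q = Nat.find hex := ⟨_, rfl⟩
  rw [← hQe] at hQ hQmin
  obtain ⟨hQ1, hQ2⟩ := hQ
  have hNQ : N + 1 < Q := by
    by_contra h
    have h1 := hamin Q (mem_Icc.2 ⟨hQ1, not_lt.1 h⟩)
    linarith
  refine ⟨Q, by omega, by omega, ?_⟩
  obtain ⟨q, hq, hqmin⟩ := Finset.exists_min_image (Ico 1 Q) g ⟨1, by rw [mem_Ico]; omega⟩
  rw [mem_Ico] at hq
  have hqQ : g Q < g q := lt_of_lt_of_le hQ2 (hQmin q hq.2 hq.1)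
  have hQr : (0 : ℝ) < Q := by
    have : 0 < Q := by omega
    exact_mod_cast this
  have hqr : (0 : ℝ) < q := by
    have : 0 < q := by omega
    exact_mod_cast this
  have hqQr : (q : ℝ) < Q := by exact_mod_cast hq.2
  have key : 1 ≤ 2 * (Q : ℝ) * g q := by
    obtain ⟨p, hp⟩ : ∃ p : ℤ, p = round ((q : ℝ) * α) := ⟨_, rfl⟩
    obtain ⟨P, hP⟩ : ∃ P : ℤ, P = round ((Q : ℝ) * α) := ⟨_, rfl⟩
    have e1 : g q = |(q : ℝ) * α - p| := by rw [hgd, hp]
    have e2 : g Q = |(Q : ℝ) * α - P| := by rw [hgd, hP]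
    have hne : (Q : ℤ) * p - q * P ≠ 0 := by
      intro h0
      have h1 : (Q : ℝ) * p - q * P = 0 := by exact_mod_cast h0
      have h2 : (q : ℝ) * ((Q : ℝ) * α - P) = (Q : ℝ) * ((q : ℝ) * α - p) := by linarith
      have h3 : |(q : ℝ) * ((Q : ℝ) * α - P)| = |(Q : ℝ) * ((q : ℝ) * α - p)| := by rw [h2]
      rw [abs_mul, abs_mul, ← e1, ← e2, abs_of_pos hqr, abs_of_pos hQr] at h3
      have h4 : (q : ℝ) * g Q < Q * g q :=
        mul_lt_mul hqQr hqQ.le (hpos Q hQ1) hQr.le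
      linarith
    have h1 : (1 : ℝ) ≤ |(Q : ℝ) * p - q * P| := by
      have h2 := Int.one_le_abs hne
      exact_mod_cast h2
    have h2 : (Q : ℝ) * p - q * P = -((Q : ℝ) * ((q : ℝ) * α - p)) + q * ((Q : ℝ) * α - P) := by
      ring
    have h3 : |(Q : ℝ) * p - q * P| ≤ Q * g q + q * g Q := by
      rw [h2]
      refine (abs_add_le _ _).trans ?_
      rw [abs_neg, abs_mul, abs_mul, ← e1, ← e2, abs_of_pos hqr, abs_of_pos hQr]
    have h4 : (q : ℝ) * g Q ≤ Q * g q :=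
      mul_le_mul hqQr.le hqQ.le (hpos Q hQ1).le hQr.le
    linarith
  intro d hd1 hdQ p
  have h1 : g q ≤ g d := hqmin d (mem_Ico.2 ⟨hd1, hdQ⟩)
  have h2 := hle d p
  rw [div_le_iff₀ (by positivity)]
  have h3 : 2 * (Q : ℝ) * g q ≤ 2 * (Q : ℝ) * |(d : ℝ) * α - p| :=
    mul_le_mul_of_nonneg_left (h1.trans h2) (by positivity)
  linarith

/-- **LNB.** -/
theorem thm_LNB (hCNT : St_CNT) (hMEA : St_MEA) : St_LNB := by
  obtain ⟨c, hc, hm⟩ := hMEA
  have hl2 : (0.6931471803 : ℝ) < Real.log 2 := Real.log_two_gt_d9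
  have hl2' : Real.log 2 < (0.6931471808 : ℝ) := Real.log_two_lt_d9
  have hl0 : 0 < Real.log 2 := by linarith
  have hconv : ∀ (d : ℕ) (p : ℤ), |(d : ℝ) * Real.log 3 - p * Real.log 2| =
      |(d : ℝ) * (Real.log 3 / Real.log 2) - p| * Real.log 2 := by
    intro d p
    have h1 : (d : ℝ) * Real.log 3 - p * Real.log 2 =
        ((d : ℝ) * (Real.log 3 / Real.log 2) - p) * Real.log 2 := by
      field_simp
    rw [h1, abs_mul, abs_of_pos hl0]
  have hα : ∀ k : ℕ, 1 ≤ k → ∀ p : ℤ, (k : ℝ) * (Real.log 3 / Real.log 2) ≠ p := by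
    intro k hk p h0
    have h1 := hm k hk p
    rw [hconv, h0, sub_self, abs_zero, zero_mul] at h1
    have h2 : (0 : ℝ) < k := by
      have : 0 < k := hk
      exact_mod_cast this
    have h3 : 0 < c / (k : ℝ) ^ 48 := by positivity
    linarith
  refine ⟨29, fun N => ?_⟩
  obtain ⟨Q, hNQ, hQ2, hQ⟩ := lnb_best _ hα N
  obtain ⟨L, hL⟩ : ∃ L, L = Nat.log 2 Q := ⟨_, rfl⟩
  have hL1 : 1 ≤ L := by
    rw [hL]
    exact Nat.log_pos (by norm_num) hQ2
  have hLQ : L < Q := by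
    rw [hL]
    exact Nat.log_lt_self 2 (by omega)
  have hQr : (2 : ℝ) ≤ Q := by exact_mod_cast hQ2
  have hLr : (1 : ℝ) ≤ L := by exact_mod_cast hL1
  have hLQr : (L : ℝ) ≤ Q := by exact_mod_cast hLQ.le
  have hlogQ0 : 0 < Real.log Q := Real.log_pos (by linarith)
  have hlow : (L : ℝ) * Real.log 2 ≤ Real.log Q := by
    have h1 : (2 : ℝ) ^ L ≤ Q := by
      have h2 := Nat.pow_log_le_self 2 (show Q ≠ 0 by omega)
      rw [← hL] at h2
      exact_mod_cast h2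
    have h2 := Real.log_le_log (by positivity) h1
    rwa [Real.log_pow] at h2
  have hup : Real.log Q ≤ 2 * L := by
    have h1 : (Q : ℝ) ≤ 2 ^ (L + 1) := by
      have h2 := (Nat.lt_pow_succ_log_self (b := 2) (by norm_num) Q).le
      rw [← hL] at h2
      exact_mod_cast h2
    have h2 := Real.log_le_log (by positivity) h1
    rw [Real.log_pow] at h2
    push_cast at h2
    have h3 : ((L : ℝ) + 1) * Real.log 2 ≤ (2 * L) * 1 :=
      mul_le_mul (by linarith) (by linarith) hl0.le (by linarith)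
    linarith
  have hK1 : 1 ≤ Q ^ 2 * L := Nat.mul_pos (by positivity) hL1
  have hε : (0 : ℝ) < Real.log 2 / (4 * Q) := by positivity
  have h1 := hCNT (Q - 1) (Q ^ 2 * L) (Real.log 2 / (4 * Q)) (by omega) hK1 hε (by
    intro d hd hdD p
    rw [hconv]
    have h1 := hQ d hd (by omega) p
    have h2 : 2 * (Real.log 2 / (4 * (Q : ℝ))) = 1 / (2 * (Q : ℝ)) * Real.log 2 := by
      field_simp
      ring
    rw [h2]
    exact mul_le_mul_of_nonneg_right h1 hl0.le)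
  refine ⟨Q ^ 2 * L, ?_, ?_⟩
  · nlinarith [Nat.mul_le_mul (show Q ≤ Q ^ 2 by nlinarith) hL1]
  · have hKr : ((Q ^ 2 * L : ℕ) : ℝ) = (Q : ℝ) ^ 2 * L := by push_cast; ring
    have hDr : ((Q - 1 : ℕ) : ℝ) = (Q : ℝ) - 1 := by
      rw [Nat.cast_sub (by omega), Nat.cast_one]
    rw [hKr, hDr] at h1
    rw [hKr]
    have hlogK : Real.log ((Q : ℝ) ^ 2 * L) = 2 * Real.log Q + Real.log L := by
      rw [Real.log_mul (by positivity) (by positivity), Real.log_pow]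
      push_cast
      ring
    have hlogL0 : 0 ≤ Real.log L := Real.log_nonneg hLr
    have hlogL : Real.log L ≤ Real.log Q := Real.log_le_log (by linarith) hLQr
    have hQL : (1 : ℝ) ≤ Q * L := by nlinarith
    have e1 : (Q : ℝ) ^ 2 * L / ((Q : ℝ) - 1) ≤ 2 * (Q * L) := by
      rw [div_le_iff₀ (by linarith)]
      nlinarith [mul_nonneg (show (0 : ℝ) ≤ Q * L by linarith) (show (0 : ℝ) ≤ Q - 2 by linarith)]
    have e2 : (1 + 2 * Real.log ((Q : ℝ) ^ 2 * L)) / (3 * (Real.log 2 / (4 * Q))) ≤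
        26 * (Q * L) := by
      rw [div_le_iff₀ (by positivity), hlogK]
      have h2 : 26 * ((Q : ℝ) * L) * (3 * (Real.log 2 / (4 * Q))) =
          (39 / 2) * (L * Real.log 2) := by
        field_simp
        ring
      rw [h2]
      have h3 : 1 + 2 * (2 * Real.log Q + Real.log L) ≤ 13 * L := by linarith
      have h4 : (L : ℝ) * 0.6931471803 ≤ L * Real.log 2 :=
        mul_le_mul_of_nonneg_left hl2.le (by linarith)
      linarith
    have e3 : (Q : ℝ) * L ≤ √((Q : ℝ) ^ 2 * L * Real.log ((Q : ℝ) ^ 2 * L)) := by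
      apply Real.le_sqrt_of_sq_le
      rw [hlogK]
      have h4 : (L : ℝ) * 0.6931471803 ≤ L * Real.log 2 :=
        mul_le_mul_of_nonneg_left hl2.le (by linarith)
      have h5 : (L : ℝ) ≤ 2 * Real.log Q + Real.log L := by linarith
      have h6 : (Q : ℝ) ^ 2 * L * L ≤ (Q : ℝ) ^ 2 * L * (2 * Real.log Q + Real.log L) :=
        mul_le_mul_of_nonneg_left h5 (by positivity)
      calc ((Q : ℝ) * L) ^ 2 = (Q : ℝ) ^ 2 * L * L := by ring
        _ ≤ _ := h6
    linarith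

end Pool.Agent.CPC
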