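import Pool.Agent.CPC.St

/-!
# CPC: module MEA, the lower bound
-/

set_option autoImplicit false

namespace Pool.Agent.CPC

open Finset Polynomial

private theorem mea_exp : 3 * Real.exp (3 * (1 + 1 / 10000)) ≤ 60.31 := by
  have h1 : Real.exp (3 * (1 + 1 / 10000)) = Real.exp 1 ^ 3 * Real.exp (3 / 10000) := by
    rw [← Real.exp_nat_mul, ← Real.exp_add]
    congr 1
    norm_num
  have h2 : Real.exp 1 ≤ 2.7182818286 := Real.exp_one_lt_d9.le
  have h3 : Real.exp (3 / 10000) ≤ 1.0004 := by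
    have h4 : 1 - (3 / 10000 : ℝ) ≤ Real.exp (-(3 / 10000)) := by
      have := Real.add_one_le_exp (-(3 / 10000 : ℝ))
      linarith
    rw [Real.exp_neg] at h4
    have h5 : 0 < Real.exp (3 / 10000) := Real.exp_pos _
    have h6 : (1 - (3 / 10000 : ℝ)) * Real.exp (3 / 10000) ≤ 1 := by
      calc (1 - (3 / 10000 : ℝ)) * Real.exp (3 / 10000) ≤
          (Real.exp (3 / 10000))⁻¹ * Real.exp (3 / 10000) :=
            mul_le_mul_of_nonneg_right h4 h5.le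
        _ = 1 := inv_mul_cancel₀ h5.ne'
    nlinarith
  rw [h1]
  have h4 : Real.exp 1 ^ 3 ≤ (2.7182818286 : ℝ) ^ 3 :=
    pow_le_pow_left₀ (Real.exp_pos _).le h2 3
  calc 3 * (Real.exp 1 ^ 3 * Real.exp (3 / 10000)) ≤ 3 * ((2.7182818286 : ℝ) ^ 3 * 1.0004) := by
        gcongr
    _ ≤ 60.31 := by norm_num

private theorem mea_one (hLCM : St_LCM) (hDIV : St_DIV) (hSIZ : St_SIZ) (hNVN : St_NVN) :
    ∃ C : ℝ, 0 < C ∧ ∀ (ν : ℕ) (A B : ℤ) (H : ℝ), (A ≠ 0 ∨ B ≠ 0) → |(A : ℝ)| ≤ H → |(B : ℝ)| ≤ H →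
      1 ≤ C * (|A * Real.log (3 / 2) + B * Real.log (4 / 3)| * 98507 ^ ν + H * (0.7841 : ℝ) ^ ν) := by
  obtain ⟨C, hC, hL⟩ := hLCM (1 / 10000) (by norm_num)
  set C1 : ℝ := C * Real.exp (2 * (1 + 1 / 10000)) with hC1
  have hC1p : 0 < C1 := mul_pos hC (Real.exp_pos _)
  refine ⟨9 * C1, by positivity, fun ν A B H hAB hA hB => ?_⟩
  set l : ℝ := A * Real.log (3 / 2) + B * Real.log (4 / 3) with hl
  have hH : 0 ≤ H := (abs_nonneg _).trans hA
  have hD : (DD ν : ℝ) ≤ C1 * (60.31 : ℝ) ^ ν := by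
    have h1 := hL (3 * ν + 2)
    have h2 : Real.exp ((1 + 1 / 10000) * ((3 * ν + 2 : ℕ) : ℝ)) =
        Real.exp (2 * (1 + 1 / 10000)) * Real.exp (3 * (1 + 1 / 10000)) ^ ν := by
      rw [← Real.exp_nat_mul, ← Real.exp_add]
      congr 1
      push_cast
      ring
    rw [h2] at h1
    have h3 : (DD ν : ℝ) = 3 ^ ν * (Nat.lcmUpto (3 * ν + 2) : ℝ) := by
      unfold DD
      push_cast
      ring
    rw [h3]
    calc (3 : ℝ) ^ ν * (Nat.lcmUpto (3 * ν + 2) : ℝ) ≤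
        3 ^ ν * (C * (Real.exp (2 * (1 + 1 / 10000)) * Real.exp (3 * (1 + 1 / 10000)) ^ ν)) := by
          gcongr
      _ = C1 * (3 * Real.exp (3 * (1 + 1 / 10000))) ^ ν := by
          rw [hC1, mul_pow]
          ring
      _ ≤ C1 * (60.31 : ℝ) ^ ν := by
          gcongr
          exact mea_exp
  have hDpos : (0 : ℝ) < DD ν := by
    have h1 : 0 < DD ν := by
      unfold DD
      have := Nat.lcmUpto_pos (3 * ν + 2)
      positivity
    exact_mod_cast h1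
  obtain ⟨s, hs, hne⟩ := hNVN ν A B l (by
    rcases hAB with h | h
    · exact Or.inl (by exact_mod_cast h)
    · exact Or.inr (by exact_mod_cast h))
  obtain ⟨⟨N1, h1⟩, N2, h2⟩ := hDIV ν s hs
  obtain ⟨h3, h4, h5⟩ := hSIZ ν s hs
  have hint : (DD ν : ℝ) * (l * (cc ν s : ℝ) - A * JJ ν s 2 3 - B * JJ ν s 3 4) =
      ((-A * N1 - B * N2 : ℤ) : ℝ) := by
    push_cast
    calc (DD ν : ℝ) * (l * (cc ν s : ℝ) - A * JJ ν s 2 3 - B * JJ ν s 3 4) =
        DD ν * (cc ν s : ℝ) * l - A * ((DD ν : ℝ) * JJ ν s 2 3) - B * ((DD ν : ℝ) * JJ ν s 3 4) := by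
          ring
      _ = -A * N1 - B * N2 := by
          rw [h1, h2, hl]
          ring
  have hnz : (-A * N1 - B * N2 : ℤ) ≠ 0 := by
    intro h0
    rw [h0, Int.cast_zero] at hint
    rcases mul_eq_zero.1 hint with h6 | h6
    · exact hDpos.ne' h6
    · exact hne h6
  have hge : (1 : ℝ) ≤ |(DD ν : ℝ) * (l * (cc ν s : ℝ) - A * JJ ν s 2 3 - B * JJ ν s 3 4)| := by
    rw [hint, ← Int.cast_abs]
    exact_mod_cast Int.one_le_abs hnz
  rw [abs_mul, abs_of_pos hDpos] at hge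
  have hup : |l * (cc ν s : ℝ) - A * JJ ν s 2 3 - B * JJ ν s 3 4| ≤
      |l| * (9 * (44100 / 27 : ℝ) ^ ν) + 8 * H * (0.013 : ℝ) ^ ν := by
    have e1 : |l * (cc ν s : ℝ)| ≤ |l| * (9 * (44100 / 27 : ℝ) ^ ν) := by
      rw [abs_mul]
      gcongr
    have e2 : |(A : ℝ) * JJ ν s 2 3| ≤ H * (4 * (0.013 : ℝ) ^ ν) := by
      rw [abs_mul]
      gcongr
    have e3 : |(B : ℝ) * JJ ν s 3 4| ≤ H * (4 * (0.013 : ℝ) ^ ν) := by
      rw [abs_mul]
      gcongr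
    have e4 := abs_sub (l * (cc ν s : ℝ) - A * JJ ν s 2 3) ((B : ℝ) * JJ ν s 3 4)
    have e5 := abs_sub (l * (cc ν s : ℝ)) ((A : ℝ) * JJ ν s 2 3)
    calc _ ≤ |l * (cc ν s : ℝ) - A * JJ ν s 2 3| + |(B : ℝ) * JJ ν s 3 4| := e4
      _ ≤ (|l * (cc ν s : ℝ)| + |(A : ℝ) * JJ ν s 2 3|) + |(B : ℝ) * JJ ν s 3 4| := by gcongr
      _ ≤ (|l| * (9 * (44100 / 27 : ℝ) ^ ν) + H * (4 * (0.013 : ℝ) ^ ν)) + H * (4 * (0.013 : ℝ) ^ ν) := by
          gcongr
      _ = _ := by ring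
  calc (1 : ℝ) ≤ DD ν * |l * (cc ν s : ℝ) - A * JJ ν s 2 3 - B * JJ ν s 3 4| := hge
    _ ≤ (C1 * (60.31 : ℝ) ^ ν) * (|l| * (9 * (44100 / 27 : ℝ) ^ ν) + 8 * H * (0.013 : ℝ) ^ ν) := by
        gcongr
    _ = 9 * C1 * |l| * (60.31 * (44100 / 27) : ℝ) ^ ν + 8 * C1 * H * (60.31 * 0.013 : ℝ) ^ ν := by
        rw [mul_pow, mul_pow]
        ring
    _ ≤ 9 * C1 * |l| * (98507 : ℝ) ^ ν + 9 * C1 * H * (0.7841 : ℝ) ^ ν := by
        have h6 : (60.31 * (44100 / 27) : ℝ) ≤ 98507 := by norm_num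
        have h7 : (60.31 * 0.013 : ℝ) ≤ 0.7841 := by norm_num
        gcongr
        norm_num
    _ = 9 * C1 * (|l| * 98507 ^ ν + H * (0.7841 : ℝ) ^ ν) := by ring

private theorem mea_num : (98507 : ℝ) * (0.7841 : ℝ) ^ 48 ≤ 1 := by norm_num

private theorem mea_two {C x H : ℝ} (hC : 0 < C) (hx : 0 ≤ x) (hH : 1 ≤ H)
    (h : ∀ ν : ℕ, 1 ≤ C * (x * 98507 ^ ν + H * (0.7841 : ℝ) ^ ν)) :
    min (1 / (2 * C)) (1 / (2 * C * 98507 * (2 * C) ^ 48)) / H ^ 48 ≤ x := by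
  have hH0 : 0 < H := by linarith
  have hex : ∃ ν : ℕ, C * H * (0.7841 : ℝ) ^ ν ≤ 1 / 2 := by
    obtain ⟨ν, hν⟩ := exists_pow_lt_of_lt_one (show (0 : ℝ) < 1 / 2 / (C * H) by positivity)
      (show (0.7841 : ℝ) < 1 by norm_num)
    refine ⟨ν, ?_⟩
    rw [lt_div_iff₀ (by positivity)] at hν
    linarith
  classical
  obtain ⟨ν, hν, hmin⟩ : ∃ ν : ℕ, C * H * (0.7841 : ℝ) ^ ν ≤ 1 / 2 ∧
      ∀ μ < ν, ¬ C * H * (0.7841 : ℝ) ^ μ ≤ 1 / 2 :=
    ⟨Nat.find hex, Nat.find_spec hex, fun μ hμ => Nat.find_min hex hμ⟩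
  have h1 : 1 / 2 ≤ C * x * 98507 ^ ν := by
    have := h ν
    nlinarith
  have h48 : (1 : ℝ) ≤ H ^ 48 := one_le_pow₀ hH
  rw [div_le_iff₀ (by positivity)]
  rcases Nat.eq_zero_or_pos ν with h0 | h0
  · rw [h0, pow_zero, mul_one] at h1
    have h2 : 1 / (2 * C) ≤ x := by
      rw [div_le_iff₀ (by positivity)]
      linarith
    calc min (1 / (2 * C)) (1 / (2 * C * 98507 * (2 * C) ^ 48)) ≤ 1 / (2 * C) := min_le_left _ _
      _ ≤ x := h2
      _ = x * 1 := (mul_one x).symm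
      _ ≤ x * H ^ 48 := by gcongr
  · obtain ⟨μ, rfl⟩ := Nat.exists_eq_add_of_le' h0
    have h2 : 1 / 2 < C * H * (0.7841 : ℝ) ^ μ := not_le.1 (hmin μ (Nat.lt_succ_self μ))
    have h3 : (98507 : ℝ) ^ μ ≤ (2 * C * H) ^ 48 := by
      have h4 : (98507 : ℝ) ^ μ * ((0.7841 : ℝ) ^ μ) ^ 48 ≤ 1 := by
        calc (98507 : ℝ) ^ μ * ((0.7841 : ℝ) ^ μ) ^ 48 = (98507 * (0.7841 : ℝ) ^ 48) ^ μ := by
              rw [mul_pow, ← pow_mul, ← pow_mul, mul_comm μ 48]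
          _ ≤ 1 := pow_le_one₀ (by positivity) mea_num
      have h5 : (1 : ℝ) ≤ (2 * C * H * (0.7841 : ℝ) ^ μ) ^ 48 := one_le_pow₀ (by linarith)
      calc (98507 : ℝ) ^ μ = 98507 ^ μ * 1 := (mul_one _).symm
        _ ≤ 98507 ^ μ * (2 * C * H * (0.7841 : ℝ) ^ μ) ^ 48 := by gcongr
        _ = (2 * C * H) ^ 48 * (98507 ^ μ * ((0.7841 : ℝ) ^ μ) ^ 48) := by
            rw [mul_pow (2 * C * H)]
            ring
        _ ≤ (2 * C * H) ^ 48 * 1 := by gcongr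
        _ = (2 * C * H) ^ 48 := mul_one _
    have h6 : 1 / (2 * C * 98507 * (2 * C) ^ 48) ≤ x * H ^ 48 := by
      rw [div_le_iff₀ (by positivity)]
      have h7 : (98507 : ℝ) ^ (μ + 1) ≤ 98507 * ((2 * C) ^ 48 * H ^ 48) := by
        rw [pow_succ, mul_comm, ← mul_pow]
        gcongr
      have h8 : C * x * 98507 ^ (μ + 1) ≤ C * x * (98507 * ((2 * C) ^ 48 * H ^ 48)) := by
        gcongr
      calc (1 : ℝ) = 2 * (1 / 2) := by norm_num
        _ ≤ 2 * (C * x * (98507 * ((2 * C) ^ 48 * H ^ 48))) := by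
            gcongr
            exact h1.trans h8
        _ = x * H ^ 48 * (2 * C * 98507 * (2 * C) ^ 48) := by ring
    exact (min_le_right _ _).trans h6

theorem thm_MEA (hLCM : St_LCM) (hDIV : St_DIV) (hSIZ : St_SIZ) (hNVN : St_NVN) : St_MEA := by
  obtain ⟨C, hC, h⟩ := mea_one hLCM hDIV hSIZ hNVN
  set c1 : ℝ := min (1 / (2 * C)) (1 / (2 * C * 98507 * (2 * C) ^ 48)) with hc1
  have hc1p : 0 < c1 := lt_min (by positivity) (by positivity)
  refine ⟨min 1 (c1 / 7 ^ 48), lt_min one_pos (by positivity), fun k hk p => ?_⟩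
  have hk1 : (1 : ℝ) ≤ k := by exact_mod_cast hk
  have hk48 : (1 : ℝ) ≤ (k : ℝ) ^ 48 := one_le_pow₀ hk1
  rcases le_or_gt 1 |k * Real.log 3 - p * Real.log 2| with h1 | h1
  · refine le_trans ?_ h1
    rw [div_le_one (by positivity)]
    exact (min_le_left _ _).trans hk48
  · have hl2 := Real.log_two_gt_d9
    have hl3 : Real.log 3 ≤ 2 := by
      have := Real.log_le_sub_one_of_pos (show (0 : ℝ) < 3 by norm_num)
      linarith
    have hl30 : 0 ≤ Real.log 3 := Real.log_nonneg (by norm_num)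
    have hp : |(p : ℝ)| ≤ 5 * k := by
      have h2 : |(p : ℝ)| * Real.log 2 ≤ 1 + k * 2 := by
        have h3 : |(p : ℝ)| * Real.log 2 = |(p : ℝ) * Real.log 2| := by
          rw [abs_mul, abs_of_pos (by linarith : 0 < Real.log 2)]
        rw [h3]
        have h4 : (p : ℝ) * Real.log 2 = k * Real.log 3 - (k * Real.log 3 - p * Real.log 2) := by
          ring
        rw [h4]
        calc |(k : ℝ) * Real.log 3 - (k * Real.log 3 - p * Real.log 2)| ≤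
            |(k : ℝ) * Real.log 3| + |k * Real.log 3 - p * Real.log 2| := abs_sub _ _
          _ ≤ k * 2 + 1 := by
              rw [abs_of_nonneg (by positivity)]
              gcongr
          _ = 1 + k * 2 := by ring
      by_contra hc
      push Not at hc
      have h5 : 5 * (k : ℝ) * 0.6931471803 < |(p : ℝ)| * Real.log 2 := by
        have h6 : 0 ≤ |(p : ℝ)| := abs_nonneg _
        nlinarith
      nlinarith
    have e : (k : ℝ) * Real.log 3 - p * Real.log 2 =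
        ((2 * k - p : ℤ) : ℝ) * Real.log (3 / 2) + ((k - p : ℤ) : ℝ) * Real.log (4 / 3) := by
      rw [Real.log_div (by norm_num) (by norm_num), Real.log_div (by norm_num) (by norm_num)]
      have h4 : Real.log 4 = 2 * Real.log 2 := by
        rw [show (4 : ℝ) = 2 ^ 2 by norm_num, Real.log_pow]
        norm_num
      rw [h4]
      push_cast
      ring
    rw [e]
    have hA : |((2 * k - p : ℤ) : ℝ)| ≤ 7 * k := by
      push_cast
      rw [abs_le] at hp ⊢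
      constructor <;> linarith [hp.1, hp.2]
    have hB : |((k - p : ℤ) : ℝ)| ≤ 7 * k := by
      push_cast
      rw [abs_le] at hp ⊢
      constructor <;> linarith [hp.1, hp.2]
    have hne : (2 * k - p : ℤ) ≠ 0 ∨ (k - p : ℤ) ≠ 0 := by omega
    have h2 := mea_two (C := C) (x := |((2 * k - p : ℤ) : ℝ) * Real.log (3 / 2) +
      ((k - p : ℤ) : ℝ) * Real.log (4 / 3)|) (H := 7 * k) hC (abs_nonneg _) (by linarith)
      (fun ν => h ν (2 * k - p) (k - p) (7 * k) hne hA hB)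
    refine le_trans ?_ h2
    calc min 1 (c1 / 7 ^ 48) / (k : ℝ) ^ 48 ≤ (c1 / 7 ^ 48) / (k : ℝ) ^ 48 :=
          div_le_div_of_nonneg_right (min_le_right _ _) (by positivity)
      _ = c1 / (7 * (k : ℝ)) ^ 48 := by rw [mul_pow, div_div]

end Pool.Agent.CPC
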