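import Pool.Agent.CPC.St

/-!
# CPC/NVN (helper55): nonvanishing by a four term recursion
-/

set_option autoImplicit false

namespace Pool.Agent.CPC

open Finset Polynomial MeasureTheory

/-! ### the recursion for the coefficients -/

theorem nvn_coeff (p : ℤ[X]) (m : ℕ) : (X * derivative p).coeff m = m * p.coeff m := by
  cases m with
  | zero => simp
  | succ n =>
    rw [coeff_X_mul, coeff_derivative]
    push_cast
    ring

theorem nvn_dX (s : ℕ) : (X : ℤ[X]) * derivative (X ^ s) = C (s : ℤ) * X ^ s := by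
  cases s with
  | zero => simp
  | succ n =>
    rw [derivative_X_pow, Nat.add_sub_cancel]
    push_cast
    ring

theorem nvn_dQ : derivative QQ = 3 * X ^ 2 - 18 * X + 26 := by
  rw [QQ]
  simp only [derivative_sub, derivative_add, derivative_mul, derivative_X_pow, derivative_X, derivative_ofNat]
  push_cast
  ring_nf
  simp only [map_ofNat]
  ring

theorem nvn_poly (ν s : ℕ) :
    X * derivative (QQ ^ (2 * ν + 1) * X ^ s) - C ((3 * ν : ℕ) : ℤ) * (QQ ^ (2 * ν + 1) * X ^ s) =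
      C (3 * (ν : ℤ) + 3 + s) * (QQ ^ (2 * ν) * X ^ (s + 3)) - C (9 * ((ν : ℤ) + 2 + s)) * (QQ ^ (2 * ν) * X ^ (s + 2)) +
        C (26 * ((s : ℤ) + 1 - ν)) * (QQ ^ (2 * ν) * X ^ (s + 1)) - C (24 * ((s : ℤ) - 3 * ν)) * (QQ ^ (2 * ν) * X ^ s) := by
  have h1 : X * derivative (QQ ^ (2 * ν + 1) * X ^ s) =
      QQ ^ (2 * ν) * (C ((2 * ν + 1 : ℕ) : ℤ) * (X * derivative QQ)) * X ^ s + QQ ^ (2 * ν + 1) * (X * derivative (X ^ s)) := by
    rw [derivative_mul, derivative_pow_succ]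
    push_cast
    ring
  rw [h1, nvn_dX, nvn_dQ]
  have h2 : QQ ^ (2 * ν + 1) = QQ ^ (2 * ν) * (X ^ 3 - 9 * X ^ 2 + 26 * X - 24) := by rw [pow_succ, ← QQ]
  rw [h2]
  simp only [map_add, map_sub, map_mul, map_natCast, map_ofNat, map_one, Nat.cast_mul, Nat.cast_add, Nat.cast_ofNat,
    Nat.cast_one]
  ring

theorem nvn_cc (ν s : ℕ) :
    (3 * (ν : ℤ) + 3 + s) * cc ν (s + 3) - 9 * ((ν : ℤ) + 2 + s) * cc ν (s + 2) +
      26 * ((s : ℤ) + 1 - ν) * cc ν (s + 1) - 24 * ((s : ℤ) - 3 * ν) * cc ν s = 0 := by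
  have h := congrArg (fun p : ℤ[X] => p.coeff (3 * ν)) (nvn_poly ν s)
  simp only [coeff_sub, coeff_add, coeff_C_mul, nvn_coeff] at h
  rw [sub_self] at h
  exact h.symm

/-! ### the recursion for the integrals -/

theorem nvn_int (ν s : ℕ) (a b : ℝ) (ha : 0 < a) (hab : a ≤ b) :
    IntervalIntegrable (fun y => qr y ^ (2 * ν) * y ^ s / y ^ (3 * ν + 1)) volume a b := by
  apply ContinuousOn.intervalIntegrable
  rw [Set.uIcc_of_le hab]
  have h1 : Continuous fun y : ℝ => qr y ^ (2 * ν) * y ^ s := by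
    unfold qr
    fun_prop
  exact h1.continuousOn.div (by fun_prop) fun y hy => pow_ne_zero _ (lt_of_lt_of_le ha hy.1).ne'

theorem nvn_deriv (ν s : ℕ) (y : ℝ) (hy : 0 < y) :
    HasDerivAt (fun y : ℝ => qr y ^ (2 * ν + 1) * y ^ ((s : ℤ) - (3 * ν : ℕ)))
      ((3 * (ν : ℝ) + 3 + s) * (qr y ^ (2 * ν) * y ^ (s + 3) / y ^ (3 * ν + 1)) -
        9 * ((ν : ℝ) + 2 + s) * (qr y ^ (2 * ν) * y ^ (s + 2) / y ^ (3 * ν + 1)) +
        26 * ((s : ℝ) + 1 - ν) * (qr y ^ (2 * ν) * y ^ (s + 1) / y ^ (3 * ν + 1)) -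
        24 * ((s : ℝ) - 3 * ν) * (qr y ^ (2 * ν) * y ^ s / y ^ (3 * ν + 1))) y := by
  have h1 : HasDerivAt qr (3 * y ^ 2 - 18 * y + 26) y := by
    have h2 : HasDerivAt (fun y : ℝ => (y - 2) * (y - 3) * (y - 4))
        (((1 * (y - 3) + (y - 2) * 1) * (y - 4)) + ((y - 2) * (y - 3)) * 1) y :=
      (((hasDerivAt_id y).sub_const 2).mul ((hasDerivAt_id y).sub_const 3)).mul ((hasDerivAt_id y).sub_const 4)
    have h3 : 3 * y ^ 2 - 18 * y + 26 = ((1 * (y - 3) + (y - 2) * 1) * (y - 4)) + ((y - 2) * (y - 3)) * 1 := by ring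
    rw [h3]
    exact h2
  have h2 := h1.pow (2 * ν + 1)
  have h3 := hasDerivAt_zpow ((s : ℤ) - (3 * ν : ℕ)) y (Or.inl hy.ne')
  have h4 := h2.mul h3
  refine h4.congr_deriv ?_
  have e1 : y ^ ((s : ℤ) - (3 * ν : ℕ) - 1) = y ^ s / y ^ (3 * ν + 1) := by
    rw [show (s : ℤ) - (3 * ν : ℕ) - 1 = (s : ℤ) - ((3 * ν + 1 : ℕ) : ℤ) by push_cast; ring, zpow_sub₀ hy.ne',
      zpow_natCast, zpow_natCast]
  have e2 : y ^ ((s : ℤ) - (3 * ν : ℕ)) = y * (y ^ s / y ^ (3 * ν + 1)) := by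
    rw [← e1, ← zpow_one_add₀ hy.ne']
    congr 1
    ring
  have e3 : ∀ j : ℕ, qr y ^ (2 * ν) * y ^ (s + j) / y ^ (3 * ν + 1) = qr y ^ (2 * ν) * (y ^ s / y ^ (3 * ν + 1)) * y ^ j := by
    intro j
    rw [pow_add]
    ring
  have e4 : qr y ^ (2 * ν) * y ^ s / y ^ (3 * ν + 1) = qr y ^ (2 * ν) * (y ^ s / y ^ (3 * ν + 1)) := by ring
  rw [e1, e2, e3, e3, e3, e4, Nat.add_sub_cancel, Pi.pow_apply, pow_succ (qr y) (2 * ν)]
  generalize y ^ s / y ^ (3 * ν + 1) = E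
  generalize qr y ^ (2 * ν) = P
  rw [qr]
  push_cast
  ring

theorem nvn_JJ (ν s : ℕ) (a b : ℝ) (ha : 0 < a) (hab : a ≤ b) (hqa : qr a = 0) (hqb : qr b = 0) :
    (3 * (ν : ℝ) + 3 + s) * JJ ν (s + 3) a b - 9 * ((ν : ℝ) + 2 + s) * JJ ν (s + 2) a b +
      26 * ((s : ℝ) + 1 - ν) * JJ ν (s + 1) a b - 24 * ((s : ℝ) - 3 * ν) * JJ ν s a b = 0 := by
  have i3 := (nvn_int ν (s + 3) a b ha hab).const_mul (3 * (ν : ℝ) + 3 + s)
  have i2 := (nvn_int ν (s + 2) a b ha hab).const_mul (9 * ((ν : ℝ) + 2 + s))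
  have i1 := (nvn_int ν (s + 1) a b ha hab).const_mul (26 * ((s : ℝ) + 1 - ν))
  have i0 := (nvn_int ν s a b ha hab).const_mul (24 * ((s : ℝ) - 3 * ν))
  have h := intervalIntegral.integral_eq_sub_of_hasDerivAt
    (f := fun y : ℝ => qr y ^ (2 * ν + 1) * y ^ ((s : ℤ) - (3 * ν : ℕ))) (a := a) (b := b)
    (f' := fun y => (3 * (ν : ℝ) + 3 + s) * (qr y ^ (2 * ν) * y ^ (s + 3) / y ^ (3 * ν + 1)) -
        9 * ((ν : ℝ) + 2 + s) * (qr y ^ (2 * ν) * y ^ (s + 2) / y ^ (3 * ν + 1)) +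
        26 * ((s : ℝ) + 1 - ν) * (qr y ^ (2 * ν) * y ^ (s + 1) / y ^ (3 * ν + 1)) -
        24 * ((s : ℝ) - 3 * ν) * (qr y ^ (2 * ν) * y ^ s / y ^ (3 * ν + 1)))
    (fun y hy => nvn_deriv ν s y (by
      rw [Set.uIcc_of_le hab] at hy
      exact lt_of_lt_of_le ha hy.1)) (((i3.sub i2).add i1).sub i0)
  rw [intervalIntegral.integral_sub ((i3.sub i2).add i1) i0, intervalIntegral.integral_add (i3.sub i2) i1,
    intervalIntegral.integral_sub i3 i2, intervalIntegral.integral_const_mul, intervalIntegral.integral_const_mul,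
    intervalIntegral.integral_const_mul, intervalIntegral.integral_const_mul] at h
  simp only [hqa, hqb] at h
  rw [zero_pow (by omega), zero_mul, zero_mul, sub_zero] at h
  exact h

/-! ### the integrals for large `s` -/

theorem nvn_one (ν : ℕ) (a b : ℝ) (ha : 0 < a) (hab : a ≤ b) :
    JJ ν (3 * ν + 1) a b = ∫ y in a..b, qr y ^ (2 * ν) := by
  refine intervalIntegral.integral_congr fun y hy => ?_
  rw [Set.uIcc_of_le hab] at hy
  have hy0 : y ≠ 0 := (lt_of_lt_of_le ha hy.1).ne'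
  rw [mul_div_assoc, div_self (pow_ne_zero _ hy0), mul_one]

theorem nvn_two (ν : ℕ) (a b : ℝ) (ha : 0 < a) (hab : a ≤ b) :
    JJ ν (3 * ν + 2) a b = ∫ y in a..b, qr y ^ (2 * ν) * y := by
  refine intervalIntegral.integral_congr fun y hy => ?_
  rw [Set.uIcc_of_le hab] at hy
  have hy0 : y ≠ 0 := (lt_of_lt_of_le ha hy.1).ne'
  rw [show 3 * ν + 2 = (3 * ν + 1) + 1 by ring, pow_succ y (3 * ν + 1)]
  field_simp

theorem nvn_cc0 (ν s : ℕ) (hs : 3 * ν < s) : cc ν s = 0 := by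
  rw [cc, coeff_mul_X_pow', if_neg (by omega)]

theorem nvn_cont (ν : ℕ) : Continuous fun y : ℝ => qr y ^ (2 * ν) := by
  unfold qr
  fun_prop

theorem nvn_pos (ν : ℕ) (a b : ℝ) (hab : a < b) (hq : ∀ y ∈ Set.Ioo a b, qr y ≠ 0) :
    0 < ∫ y in a..b, qr y ^ (2 * ν) := by
  refine intervalIntegral.intervalIntegral_pos_of_pos_on ((nvn_cont ν).intervalIntegrable a b) ?_ hab
  intro y hy
  exact (even_two_mul ν).pow_pos (hq y hy)

/-- `St_NVN`. -/
theorem thm_NVN : St_NVN := by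
  intro ν A B l hAB
  by_contra hcon
  push Not at hcon
  have hq2 : qr 2 = 0 := by simp [qr]
  have hq3 : qr 3 = 0 := by simp [qr]
  have hq4 : qr 4 = 0 := by simp [qr]
  have hrec : ∀ s : ℕ, (3 * (ν : ℝ) + 3 + s) * (l * (cc ν (s + 3) : ℝ) - A * JJ ν (s + 3) 2 3 - B * JJ ν (s + 3) 3 4) -
      9 * ((ν : ℝ) + 2 + s) * (l * (cc ν (s + 2) : ℝ) - A * JJ ν (s + 2) 2 3 - B * JJ ν (s + 2) 3 4) +
      26 * ((s : ℝ) + 1 - ν) * (l * (cc ν (s + 1) : ℝ) - A * JJ ν (s + 1) 2 3 - B * JJ ν (s + 1) 3 4) -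
      24 * ((s : ℝ) - 3 * ν) * (l * (cc ν s : ℝ) - A * JJ ν s 2 3 - B * JJ ν s 3 4) = 0 := by
    intro s
    have h1 : ((3 * (ν : ℝ) + 3 + s) * (cc ν (s + 3) : ℝ) - 9 * ((ν : ℝ) + 2 + s) * (cc ν (s + 2) : ℝ) +
      26 * ((s : ℝ) + 1 - ν) * (cc ν (s + 1) : ℝ) - 24 * ((s : ℝ) - 3 * ν) * (cc ν s : ℝ)) = 0 := by
      exact_mod_cast nvn_cc ν s
    have h2 := nvn_JJ ν s 2 3 (by norm_num) (by norm_num) hq2 hq3
    have h3 := nvn_JJ ν s 3 4 (by norm_num) (by norm_num) hq3 hq4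
    linear_combination l * h1 - A * h2 - B * h3
  have hall : ∀ s : ℕ, (l * (cc ν s : ℝ) - A * JJ ν s 2 3 - B * JJ ν s 3 4 = 0) ∧
      (l * (cc ν (s + 1) : ℝ) - A * JJ ν (s + 1) 2 3 - B * JJ ν (s + 1) 3 4 = 0) ∧
      (l * (cc ν (s + 2) : ℝ) - A * JJ ν (s + 2) 2 3 - B * JJ ν (s + 2) 3 4 = 0) := by
    intro s
    induction s with
    | zero => exact ⟨hcon 0 (by norm_num), hcon 1 (by norm_num), hcon 2 (by norm_num)⟩
    | succ s ih =>
      obtain ⟨i0, i1, i2⟩ := ih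
      refine ⟨i1, i2, ?_⟩
      have h := hrec s
      rw [i0, i1, i2, mul_zero, mul_zero, mul_zero, sub_zero, add_zero, sub_zero] at h
      rcases mul_eq_zero.1 h with h5 | h5
      · exfalso
        have : (0 : ℝ) < 3 * (ν : ℝ) + 3 + s := by positivity
        linarith
      · exact h5
  obtain ⟨e1, e2, -⟩ := hall (3 * ν + 1)
  rw [nvn_cc0 ν _ (by omega), nvn_one ν 2 3 (by norm_num) (by norm_num), nvn_one ν 3 4 (by norm_num) (by norm_num)] at e1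
  rw [nvn_cc0 ν _ (by omega), nvn_two ν 2 3 (by norm_num) (by norm_num), nvn_two ν 3 4 (by norm_num) (by norm_num)] at e2
  have hq23 : ∀ y ∈ Set.Ioo (2 : ℝ) 3, qr y ≠ 0 := by
    intro y hy
    have h1 : y - 2 ≠ 0 := (sub_pos.2 hy.1).ne'
    have h2 : y - 3 ≠ 0 := (sub_neg.2 hy.2).ne
    have h3 : y - 4 ≠ 0 := (sub_neg.2 (hy.2.trans (by norm_num : (3 : ℝ) < 4))).ne
    rw [qr]
    exact mul_ne_zero (mul_ne_zero h1 h2) h3
  have hq34 : ∀ y ∈ Set.Ioo (3 : ℝ) 4, qr y ≠ 0 := by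
    intro y hy
    have h1 : y - 2 ≠ 0 := (sub_pos.2 ((by norm_num : (2 : ℝ) < 3).trans hy.1)).ne'
    have h2 : y - 3 ≠ 0 := (sub_pos.2 hy.1).ne'
    have h3 : y - 4 ≠ 0 := (sub_neg.2 hy.2).ne
    rw [qr]
    exact mul_ne_zero (mul_ne_zero h1 h2) h3
  have hI : 0 < ∫ y in (2 : ℝ)..3, qr y ^ (2 * ν) := nvn_pos ν 2 3 (by norm_num) hq23
  have hJ : 0 < ∫ y in (3 : ℝ)..4, qr y ^ (2 * ν) := nvn_pos ν 3 4 (by norm_num) hq34
  have hcont := nvn_cont ν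
  have hcy : Continuous fun y : ℝ => qr y ^ (2 * ν) * y := hcont.mul continuous_id
  have hc3 : Continuous fun y : ℝ => 3 * qr y ^ (2 * ν) := continuous_const.mul hcont
  have hp : 0 < ∫ y in (2 : ℝ)..3, (3 * qr y ^ (2 * ν) - qr y ^ (2 * ν) * y) := by
    refine intervalIntegral.intervalIntegral_pos_of_pos_on
      ((hc3.sub hcy).intervalIntegrable 2 3) ?_ (by norm_num)
    intro y hy
    have h1 : 0 < qr y ^ (2 * ν) := (even_two_mul ν).pow_pos (hq23 y hy)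
    have h2 : 0 < 3 - y := sub_pos.2 hy.2
    have h3 := mul_pos h1 h2
    linarith
  have hq : 0 < ∫ y in (3 : ℝ)..4, (qr y ^ (2 * ν) * y - 3 * qr y ^ (2 * ν)) := by
    refine intervalIntegral.intervalIntegral_pos_of_pos_on
      ((hcy.sub hc3).intervalIntegrable 3 4) ?_ (by norm_num)
    intro y hy
    have h1 : 0 < qr y ^ (2 * ν) := (even_two_mul ν).pow_pos (hq34 y hy)
    have h2 : 0 < y - 3 := sub_pos.2 hy.1
    have h3 := mul_pos h1 h2
    linarith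
  rw [intervalIntegral.integral_sub (hc3.intervalIntegrable 2 3)
    (hcy.intervalIntegrable 2 3), intervalIntegral.integral_const_mul] at hp
  rw [intervalIntegral.integral_sub (hcy.intervalIntegrable 3 4)
    (hc3.intervalIntegrable 3 4), intervalIntegral.integral_const_mul] at hq
  generalize (∫ y in (2 : ℝ)..3, qr y ^ (2 * ν)) = I at *
  generalize (∫ y in (3 : ℝ)..4, qr y ^ (2 * ν)) = J at *
  generalize (∫ y in (2 : ℝ)..3, qr y ^ (2 * ν) * y) = I' at *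
  generalize (∫ y in (3 : ℝ)..4, qr y ^ (2 * ν) * y) = J' at *
  rw [Int.cast_zero, mul_zero] at e1 e2
  have f1 : A * (3 * I - I') = B * (J' - 3 * J) := by linear_combination (-3) * e1 + e2
  have f2 : A * I = -(B * J) := by linear_combination -e1
  have f3 : A ^ 2 * ((3 * I - I') * I) + B ^ 2 * ((J' - 3 * J) * J) = 0 := by
    linear_combination A * I * f1 + B * (J' - 3 * J) * f2
  have f4 : 0 < (3 * I - I') * I := mul_pos hp hI
  have f5 : 0 < (J' - 3 * J) * J := mul_pos hq hJ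
  rcases hAB with h | h
  · have h1 : 0 < A ^ 2 := by positivity
    have h2 := mul_pos h1 f4
    have h3 : 0 ≤ B ^ 2 * ((J' - 3 * J) * J) := mul_nonneg (sq_nonneg B) f5.le
    linarith
  · have h1 : 0 < B ^ 2 := by positivity
    have h2 := mul_pos h1 f5
    have h3 : 0 ≤ A ^ 2 * ((3 * I - I') * I) := mul_nonneg (sq_nonneg A) f4.le
    linarith

end Pool.Agent.CPC
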