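import Pool.Agent.CPC.St

/-!
# CPC, module RUN (helper96): the number of runs
-/

set_option autoImplicit false

namespace Pool.Agent.CPC

open Finset Polynomial

private theorem run_theta : Real.log 3 / Real.log 2 ≤ Real.exp 0.47 := by
  have h2 : 0 < Real.log 2 := Real.log_pos (by norm_num)
  have h3 : Real.log ((3 : ℝ) ^ 100) ≤ Real.log ((2 : ℝ) ^ 159) :=
    Real.log_le_log (by positivity) (by norm_num)
  rw [Real.log_pow, Real.log_pow] at h3
  push_cast at h3
  have h4 : Real.log 3 / Real.log 2 ≤ 1.59 := by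
    rw [div_le_iff₀ h2]
    linarith
  have h5 := Real.sum_le_exp_of_nonneg (show (0 : ℝ) ≤ 0.47 by norm_num) 4
  refine h4.trans (le_trans ?_ h5)
  norm_num [Finset.sum_range_succ, Nat.factorial]

private theorem run_bound (C₀ k m y : ℝ) (n : ℕ) (hn : (n : ℝ) = m) (hC : 1 ≤ C₀) (hk : 1 ≤ k)
    (hy1 : 1 ≤ y) (hy : y ≤ C₀ * k ^ 49)
    (h : k ≤ 5 * m * (Real.log 3 / Real.log 2) ^ n * Real.log y) :
    2 * Real.log k - Real.log (500 * (Real.log C₀ + 1634)) / 0.48 ≤ m := by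
  have hm : 0 ≤ m := by rw [← hn]; exact Nat.cast_nonneg n
  have hk0 : 0 < k := by linarith
  obtain ⟨κ, hκ⟩ : ∃ κ : ℝ, κ = Real.log k := ⟨_, rfl⟩
  have hκ0 : 0 ≤ κ := by rw [hκ]; exact Real.log_nonneg hk
  obtain ⟨a, ha⟩ : ∃ a : ℝ, a = Real.log C₀ := ⟨_, rfl⟩
  have ha0 : 0 ≤ a := by rw [ha]; exact Real.log_nonneg hC
  have h1 : Real.log y ≤ a + 49 * κ := by
    have h2 : Real.log y ≤ Real.log (C₀ * k ^ 49) := Real.log_le_log (by linarith) hy
    rw [Real.log_mul (by linarith) (by positivity), Real.log_pow] at h2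
    push_cast at h2
    rw [ha, hκ]
    exact h2
  have h2 : a + 49 * κ ≤ (a + 1634) * Real.exp (0.03 * κ) := by
    have h3 := Real.add_one_le_exp (0.03 * κ)
    have h4 : 0.03 * κ ≤ Real.exp (0.03 * κ) := by linarith
    have h5 : 1 ≤ Real.exp (0.03 * κ) := by linarith [mul_nonneg (show (0 : ℝ) ≤ 0.03 by norm_num) hκ0]
    have h6 : a * 1 ≤ a * Real.exp (0.03 * κ) := mul_le_mul_of_nonneg_left h5 ha0
    linarith
  have h3 : m ≤ 100 * Real.exp (0.01 * m) := by
    have h4 := Real.add_one_le_exp (0.01 * m)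
    linarith
  have h4 : (Real.log 3 / Real.log 2) ^ n ≤ Real.exp (0.47 * m) := by
    have h5 : (0 : ℝ) ≤ Real.log 3 / Real.log 2 :=
      div_nonneg (Real.log_nonneg (by norm_num)) (Real.log_nonneg (by norm_num))
    have h6 := pow_le_pow_left₀ h5 run_theta n
    rw [← Real.exp_nat_mul, hn] at h6
    rwa [mul_comm m 0.47] at h6
  have h5 : k ≤ 500 * (a + 1634) * Real.exp (0.48 * m + 0.03 * κ) := by
    have hly : 0 ≤ Real.log y := Real.log_nonneg hy1
    have hth : (0 : ℝ) ≤ (Real.log 3 / Real.log 2) ^ n := by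
      have h5 : (0 : ℝ) ≤ Real.log 3 / Real.log 2 :=
        div_nonneg (Real.log_nonneg (by norm_num)) (Real.log_nonneg (by norm_num))
      positivity
    calc k ≤ 5 * m * (Real.log 3 / Real.log 2) ^ n * Real.log y := h
      _ ≤ 5 * (100 * Real.exp (0.01 * m)) * Real.exp (0.47 * m) *
          ((a + 1634) * Real.exp (0.03 * κ)) := by
          have e1 : 5 * m ≤ 5 * (100 * Real.exp (0.01 * m)) := by linarith
          have e2 : 5 * m * (Real.log 3 / Real.log 2) ^ n ≤
              5 * (100 * Real.exp (0.01 * m)) * Real.exp (0.47 * m) :=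
            mul_le_mul e1 h4 hth (by positivity)
          exact mul_le_mul e2 (h1.trans h2) hly (by positivity)
      _ = 500 * (a + 1634) * (Real.exp (0.01 * m) * Real.exp (0.47 * m) * Real.exp (0.03 * κ)) := by
          ring
      _ = 500 * (a + 1634) * Real.exp (0.48 * m + 0.03 * κ) := by
          rw [← Real.exp_add, ← Real.exp_add]
          congr 2
          ring
  have hA : (0 : ℝ) < 500 * (a + 1634) := by linarith
  have h6 : κ ≤ Real.log (500 * (a + 1634)) + (0.48 * m + 0.03 * κ) := by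
    have h7 := Real.log_le_log hk0 h5
    rw [Real.log_mul hA.ne' (Real.exp_pos _).ne', Real.log_exp, ← hκ] at h7
    exact h7
  rw [← hκ, ← ha]
  have h8 : 2 * κ - m ≤ Real.log (500 * (a + 1634)) / 0.48 := by
    rw [le_div_iff₀ (by norm_num)]
    linarith
  linarith

private theorem run_one (hSHC : St_SHC) (hHGT : St_HGT) :
    ∃ C : ℝ, ∀ S, IsCycle S → 2 ≤ S.card → 2 * Real.log S.card - C ≤ runs S := by
  obtain ⟨C₀, h1, _, _⟩ := hSHC
  refine ⟨Real.log (500 * (Real.log (max C₀ 1) + 1634)) / 0.48, fun S hS h2 => ?_⟩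
  obtain ⟨y, hy, hyC⟩ := h1 S hS
  have hy0 : 1 ≤ y := by
    rcases Nat.eq_zero_or_pos y with h | h
    · exact absurd (h ▸ hy) hS.2.1
    · exact h
  have hk : (1 : ℝ) ≤ (S.card : ℝ) := by exact_mod_cast (by omega : 1 ≤ S.card)
  refine run_bound (max C₀ 1) S.card (runs S) y (runs S) rfl (le_max_right _ _) hk
    (by exact_mod_cast hy0) (hyC.trans ?_) (hHGT S hS h2 y hy)
  exact mul_le_mul_of_nonneg_right (le_max_left _ _) (by positivity)

/-- **RUN.** -/
theorem thm_RUN (hSHC : St_SHC) (hHGT : St_HGT) (hCYB : St_CYB) : St_RUN := by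
  refine ⟨run_one hSHC hHGT, fun m => ?_⟩
  obtain ⟨C, hC⟩ := run_one hSHC hHGT
  obtain ⟨_, _, hPer, _⟩ := hSHC
  obtain ⟨_, _, _, _, h5, _⟩ := hCYB
  obtain ⟨K, hK⟩ : ∃ K : ℕ, K = max 1 ⌊Real.exp (((m : ℝ) + C) / 2)⌋₊ := ⟨_, rfl⟩
  have hfin := (hPer K).1
  refine Set.Finite.subset (hfin.toFinset.powerset.finite_toSet) ?_
  rintro S ⟨hS, hr⟩
  rw [Finset.mem_coe, Finset.mem_powerset]
  intro x hx
  rw [Set.Finite.mem_toFinset]
  have hx0 : 0 < x := by
    rcases Nat.eq_zero_or_pos x with h | h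
    · exact absurd (h ▸ hx) hS.2.1
    · exact h
  have hc1 : 1 ≤ S.card := Finset.card_pos.mpr ⟨x, hx⟩
  refine ⟨hx0, S.card, hc1, ?_, (h5 S hS x hx).1⟩
  rcases Nat.lt_or_ge S.card 2 with h2 | h2
  · rw [hK]
    exact le_max_of_le_left (by omega)
  · rw [hK]
    refine le_max_of_le_right (Nat.le_floor ?_)
    have h3 := hC S hS h2
    have h4 : (runs S : ℝ) ≤ m := by exact_mod_cast hr
    have h6 : (0 : ℝ) < (S.card : ℝ) := by exact_mod_cast hc1
    rw [← Real.log_le_iff_le_exp h6]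
    linarith

end Pool.Agent.CPC
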