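import Pool.Agent.CPC.St

/-!
# CPC/SHC (helper52): few integers on short cycles
-/

set_option autoImplicit false

namespace Pool.Agent.CPC

open Finset

private theorem shc_pos (hpos : ∀ x, 0 < x → 0 < f x) : ∀ (i n : ℕ), 0 < n → 0 < f^[i] n := by
  intro i
  induction i with
  | zero => intro n hn; simpa using hn
  | succ i ih =>
    intro n hn
    rw [Function.iterate_succ_apply]
    exact ih _ (hpos n hn)

private theorem shc_inj (hpos : ∀ x, 0 < x → 0 < f x)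
    (hinj : ∀ x y, 0 < x → 0 < y → f x = f y → x = y) :
    ∀ (i x y : ℕ), 0 < x → 0 < y → f^[i] x = f^[i] y → x = y := by
  intro i
  induction i with
  | zero => intro x y _ _ h; simpa using h
  | succ i ih =>
    intro x y hx hy h
    rw [Function.iterate_succ_apply, Function.iterate_succ_apply] at h
    exact hinj x y hx hy (ih _ _ (hpos x hx) (hpos y hy) h)

/-- the smallest element of a cycle -/
private theorem shc_min (hHAR : St_HAR) {c : ℝ} (hc : 0 < c)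
    (h : ∀ k : ℕ, 1 ≤ k → ∀ p : ℤ, c / (k : ℝ) ^ 48 ≤ |k * Real.log 3 - p * Real.log 2|)
    (S : Finset ℕ) (hS : IsCycle S) :
    ∃ y ∈ S, (y : ℝ) ≤ 1 / (3 * c) * (S.card : ℝ) ^ 49 := by
  obtain ⟨hne, h0, -⟩ := id hS
  refine ⟨S.min' hne, S.min'_mem hne, ?_⟩
  have hypos : 0 < S.min' hne := by
    rcases Nat.eq_zero_or_pos (S.min' hne) with hz | hz
    · exact absurd (hz ▸ S.min'_mem hne) h0
    · exact hz
  have hyR : (0 : ℝ) < (S.min' hne : ℕ) := by exact_mod_cast hypos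
  have hk1 : 1 ≤ S.card := hne.card_pos
  have hkR : (0 : ℝ) < (S.card : ℝ) := by exact_mod_cast hk1
  have h1 : c / (S.card : ℝ) ^ 48 ≤ lam S.card := h S.card hk1 _
  have h2 := hHAR.2.1 S hS
  have h3 : ∑ x ∈ S, 1 / (3 * (x : ℝ)) ≤ S.card • (1 / (3 * ((S.min' hne : ℕ) : ℝ))) := by
    refine Finset.sum_le_card_nsmul _ _ _ ?_
    intro x hx
    have hle : ((S.min' hne : ℕ) : ℝ) ≤ (x : ℝ) := by exact_mod_cast S.min'_le x hx
    exact one_div_le_one_div_of_le (by positivity) (by linarith)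
  rw [nsmul_eq_mul] at h3
  have h4 : c / (S.card : ℝ) ^ 48 ≤ (S.card : ℝ) * (1 / (3 * ((S.min' hne : ℕ) : ℝ))) :=
    h1.trans (h2.trans h3)
  have h5 : c / (S.card : ℝ) ^ 48 * ((S.card : ℝ) ^ 48 * (3 * ((S.min' hne : ℕ) : ℝ))) ≤
      (S.card : ℝ) * (1 / (3 * ((S.min' hne : ℕ) : ℝ))) *
        ((S.card : ℝ) ^ 48 * (3 * ((S.min' hne : ℕ) : ℝ))) :=
    mul_le_mul_of_nonneg_right h4 (by positivity)
  have h6 : c / (S.card : ℝ) ^ 48 * ((S.card : ℝ) ^ 48 * (3 * ((S.min' hne : ℕ) : ℝ))) =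
      3 * c * ((S.min' hne : ℕ) : ℝ) := by
    field_simp
  have h7 : (S.card : ℝ) * (1 / (3 * ((S.min' hne : ℕ) : ℝ))) *
        ((S.card : ℝ) ^ 48 * (3 * ((S.min' hne : ℕ) : ℝ))) = (S.card : ℝ) ^ 49 := by
    field_simp
  rw [h6, h7] at h5
  rw [div_mul_eq_mul_div, one_mul, le_div_iff₀ (by positivity)]
  linarith

theorem thm_SHC (hMEA : St_MEA) (hCYB : St_CYB) (hHAR : St_HAR) : St_SHC := by
  obtain ⟨c, hc, hm⟩ := hMEA
  obtain ⟨hpos, hinj, -, -, h5, h6⟩ := hCYB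
  have hC : (0 : ℝ) < 1 / (3 * c) := by positivity
  have hP1 := shc_min hHAR hc hm
  have hP2 : ∀ K : ℕ, (Per K).Finite ∧ ((Per K).ncard : ℝ) ≤ 1 / (3 * c) * (K : ℝ) ^ 50 := by
    intro K
    set M : ℕ := ⌊1 / (3 * c) * (K : ℝ) ^ 49⌋₊ with hM
    set T : Finset ℕ := ((Finset.Icc 1 M) ×ˢ (Finset.range K)).image
      (fun q : ℕ × ℕ => f^[q.2] q.1) with hT
    have hsub : Per K ⊆ (T : Set ℕ) := by
      rintro n ⟨hn, j, hj1, hjK, hjn⟩
      obtain ⟨S, hS, hnS, hcard⟩ := h6 n j hn hj1 hjn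
      obtain ⟨y, hy, hyle⟩ := hP1 S hS
      obtain ⟨-, h52⟩ := h5 S hS y hy
      obtain ⟨i, hi, hin⟩ := h52 n hnS
      have hSK : S.card ≤ K := hcard.trans hjK
      have hSKR : (S.card : ℝ) ≤ (K : ℝ) := by exact_mod_cast hSK
      have hy1 : 1 ≤ y := by
        rcases Nat.eq_zero_or_pos y with hz | hz
        · exact absurd (hz ▸ hy) hS.2.1
        · exact hz
      have hyM : y ≤ M := by
        refine Nat.le_floor ?_
        refine hyle.trans ?_
        exact mul_le_mul_of_nonneg_left (pow_le_pow_left₀ (by positivity) hSKR 49) hC.le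
      rw [hT, Finset.mem_coe, Finset.mem_image]
      exact ⟨(y, i), Finset.mem_product.2 ⟨Finset.mem_Icc.2 ⟨hy1, hyM⟩,
        Finset.mem_range.2 (lt_of_lt_of_le hi hSK)⟩, hin⟩
    refine ⟨T.finite_toSet.subset hsub, ?_⟩
    have hcardT : T.card ≤ M * K := by
      refine Finset.card_image_le.trans ?_
      rw [Finset.card_product, Nat.card_Icc, Finset.card_range]
      simp
    have hnc : (Per K).ncard ≤ M * K := by
      refine (Set.ncard_le_ncard hsub T.finite_toSet).trans ?_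
      rw [Set.ncard_coe_finset]
      exact hcardT
    have hMle : (M : ℝ) ≤ 1 / (3 * c) * (K : ℝ) ^ 49 := Nat.floor_le (by positivity)
    calc ((Per K).ncard : ℝ) ≤ ((M * K : ℕ) : ℝ) := by exact_mod_cast hnc
      _ = (M : ℝ) * (K : ℝ) := by push_cast; ring
      _ ≤ (1 / (3 * c) * (K : ℝ) ^ 49) * (K : ℝ) :=
          mul_le_mul_of_nonneg_right hMle (by positivity)
      _ = 1 / (3 * c) * (K : ℝ) ^ 50 := by ring
  refine ⟨1 / (3 * c), hP1, hP2, ?_⟩
  intro x hx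
  have hxR : (0 : ℝ) ≤ (x : ℝ) := by positivity
  set K : ℕ := ⌊(x : ℝ) ^ (1 / 51 : ℝ)⌋₊ with hK
  have hsub : {n : ℕ | 0 < n ∧ n ≤ x ∧ ∃ i j : ℕ, i < j ∧ (j : ℝ) ≤ (x : ℝ) ^ (1 / 51 : ℝ) ∧
      f^[i] n = f^[j] n} ⊆ Per K := by
    rintro n ⟨hn, -, i, j, hij, hjx, hfe⟩
    refine ⟨hn, j - i, by omega, ?_, ?_⟩
    · have : j ≤ K := Nat.le_floor hjx
      omega
    · have hji : j = i + (j - i) := by omega
      have h1 : f^[j] n = f^[i] (f^[j - i] n) := by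
        conv_lhs => rw [hji]
        rw [Function.iterate_add_apply]
      rw [h1] at hfe
      exact (shc_inj hpos hinj i n _ hn (shc_pos hpos _ n hn) hfe).symm
  obtain ⟨hfin, hcard⟩ := hP2 K
  have hle : {n : ℕ | 0 < n ∧ n ≤ x ∧ ∃ i j : ℕ, i < j ∧ (j : ℝ) ≤ (x : ℝ) ^ (1 / 51 : ℝ) ∧
      f^[i] n = f^[j] n}.ncard ≤ (Per K).ncard := Set.ncard_le_ncard hsub hfin
  have hKle : (K : ℝ) ≤ (x : ℝ) ^ (1 / 51 : ℝ) := Nat.floor_le (by positivity)
  have hpow : (K : ℝ) ^ 50 ≤ (x : ℝ) ^ (50 / 51 : ℝ) := by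
    refine (pow_le_pow_left₀ (by positivity) hKle 50).trans (le_of_eq ?_)
    rw [← Real.rpow_natCast, ← Real.rpow_mul hxR]
    norm_num
  refine (Nat.cast_le.2 hle).trans (hcard.trans ?_)
  exact mul_le_mul_of_nonneg_left hpow hC.le

end Pool.Agent.CPC
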