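import Pool.Agent.CPC.St

/-!
# CPC SIZ: sizes of the integrals and of a coefficient
-/

set_option autoImplicit false

namespace Pool.Agent.CPC

open Finset Polynomial

/-! ### The coefficient -/

/-- coefficientwise bound -/
def siz_Dom (P R : ℤ[X]) : Prop := ∀ j, |P.coeff j| ≤ R.coeff j

theorem siz_add {P R P' R' : ℤ[X]} (h : siz_Dom P R) (h' : siz_Dom P' R') :
    siz_Dom (P + P') (R + R') := by
  intro j
  rw [coeff_add, coeff_add]
  exact (abs_add_le _ _).trans (add_le_add (h j) (h' j))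

theorem siz_mul {P R P' R' : ℤ[X]} (h : siz_Dom P R) (h' : siz_Dom P' R') :
    siz_Dom (P * P') (R * R') := by
  intro j
  rw [coeff_mul, coeff_mul]
  refine (Finset.abs_sum_le_sum_abs _ _).trans (Finset.sum_le_sum fun x _ => ?_)
  rw [abs_mul]
  exact mul_le_mul (h _) (h' _) (abs_nonneg _) ((abs_nonneg _).trans (h _))

theorem siz_pow {P R : ℤ[X]} (h : siz_Dom P R) (n : ℕ) : siz_Dom (P ^ n) (R ^ n) := by
  induction n with
  | zero =>
    intro j
    rw [pow_zero, pow_zero, coeff_one]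
    split_ifs <;> simp
  | succ n ih =>
    rw [pow_succ, pow_succ]
    exact siz_mul ih h

theorem siz_mon (a : ℤ) (n : ℕ) : siz_Dom (C a * X ^ n) (C |a| * X ^ n) := by
  intro j
  rw [coeff_C_mul_X_pow, coeff_C_mul_X_pow]
  split_ifs <;> simp

/-- the polynomial with positive coefficients -/
noncomputable def siz_Q : ℤ[X] := X ^ 3 + 9 * X ^ 2 + 26 * X + 24

theorem siz_QQ : siz_Dom QQ siz_Q := by
  have h := siz_add (siz_add (siz_add (siz_mon 1 3) (siz_mon (-9) 2)) (siz_mon 26 1))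
    (siz_mon (-24) 0)
  have e1 : QQ = C 1 * X ^ 3 + C (-9) * X ^ 2 + C 26 * X ^ 1 + C (-24) * X ^ 0 := by
    unfold QQ
    simp only [map_neg, map_one, map_ofNat]
    ring
  have e2 : siz_Q = C |1| * X ^ 3 + C |(-9 : ℤ)| * X ^ 2 + C |26| * X ^ 1 +
      C |(-24 : ℤ)| * X ^ 0 := by
    unfold siz_Q
    have a1 : |(1 : ℤ)| = 1 := rfl
    have a2 : |(-9 : ℤ)| = 9 := rfl
    have a3 : |(26 : ℤ)| = 26 := rfl
    have a4 : |(-24 : ℤ)| = 24 := rfl
    rw [a1, a2, a3, a4]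
    simp only [map_one, map_ofNat]
    ring
  rw [e1, e2]
  exact h

theorem siz_eval {R : ℤ[X]} (hR : ∀ j, 0 ≤ R.coeff j) (j : ℕ) :
    R.coeff j * 3 ^ j ≤ R.eval 3 := by
  rw [eval_eq_sum_range]
  by_cases hj : j ∈ Finset.range (R.natDegree + 1)
  · exact Finset.single_le_sum (f := fun i => R.coeff i * 3 ^ i)
      (fun i _ => mul_nonneg (hR i) (by positivity)) hj
  · rw [Finset.mem_range, not_lt] at hj
    rw [coeff_eq_zero_of_natDegree_lt (by omega), zero_mul]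
    exact Finset.sum_nonneg fun i _ => mul_nonneg (hR i) (by positivity)

theorem siz_coeff (n j : ℕ) : |(QQ ^ n).coeff j| * 3 ^ j ≤ 210 ^ n := by
  have h := siz_pow siz_QQ n
  have h1 : (siz_Q ^ n).eval 3 = 210 ^ n := by
    rw [eval_pow]
    congr 1
    unfold siz_Q
    simp only [eval_add, eval_mul, eval_pow, eval_X, eval_ofNat]
    norm_num
  rw [← h1]
  exact (mul_le_mul_of_nonneg_right (h j) (by positivity)).trans
    (siz_eval (fun i => (abs_nonneg _).trans (h i)) j)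

theorem siz_cc (ν s : ℕ) (hs : s ≤ 2) : |(cc ν s : ℝ)| ≤ 9 * (44100 / 27 : ℝ) ^ ν := by
  unfold cc
  rw [coeff_mul_X_pow']
  split_ifs with h
  · have h1 := siz_coeff (2 * ν) (3 * ν - s)
    have h2 : |(((QQ ^ (2 * ν)).coeff (3 * ν - s) : ℤ) : ℝ)| * 3 ^ (3 * ν - s) ≤
        210 ^ (2 * ν) := by exact_mod_cast h1
    have h3 : (3 : ℝ) ^ (3 * ν - s) * 3 ^ s = 27 ^ ν := by
      rw [← pow_add, Nat.sub_add_cancel h, pow_mul]
      norm_num
    have h4 : (210 : ℝ) ^ (2 * ν) = 44100 ^ ν := by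
      rw [pow_mul]
      norm_num
    have h5 : (3 : ℝ) ^ s ≤ 9 := by
      calc (3 : ℝ) ^ s ≤ 3 ^ 2 := pow_le_pow_right₀ (by norm_num) hs
        _ = 9 := by norm_num
    rw [div_pow, ← mul_div_assoc, le_div_iff₀ (by positivity), ← h3, ← mul_assoc]
    rw [h4] at h2
    calc _ ≤ (44100 : ℝ) ^ ν * 3 ^ s := mul_le_mul_of_nonneg_right h2 (by positivity)
      _ ≤ (44100 : ℝ) ^ ν * 9 := mul_le_mul_of_nonneg_left h5 (by positivity)
      _ = _ := mul_comm _ _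
  · rw [Int.cast_zero, abs_zero]
    positivity

/-! ### The integrals -/

theorem siz_fun (ν s : ℕ) (hs : s ≤ 2) (y : ℝ) (h1 : 2 ≤ y) (h4 : y ≤ 4)
    (hq : qr y ^ 2 ≤ 0.013 * y ^ 3) :
    ‖qr y ^ (2 * ν) * y ^ s / y ^ (3 * ν + 1)‖ ≤ 4 * (0.013 : ℝ) ^ ν := by
  have hy : 0 < y := by linarith
  have e1 : qr y ^ (2 * ν) = (qr y ^ 2) ^ ν := by rw [pow_mul]
  have h0 : 0 ≤ qr y ^ (2 * ν) := by rw [e1]; positivity
  rw [Real.norm_of_nonneg (by positivity)]
  rw [div_le_iff₀ (by positivity)]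
  have h2 : qr y ^ (2 * ν) ≤ (0.013 : ℝ) ^ ν * y ^ (3 * ν) := by
    rw [e1, pow_mul y, ← mul_pow]
    exact pow_le_pow_left₀ (sq_nonneg _) hq ν
  have h3 : y ^ s ≤ y ^ 2 := pow_le_pow_right₀ (by linarith) hs
  calc qr y ^ (2 * ν) * y ^ s ≤ ((0.013 : ℝ) ^ ν * y ^ (3 * ν)) * y ^ 2 :=
        mul_le_mul h2 h3 (by positivity) (by positivity)
    _ = ((0.013 : ℝ) ^ ν * y ^ (3 * ν)) * y * y := by ring
    _ ≤ ((0.013 : ℝ) ^ ν * y ^ (3 * ν)) * y * 4 :=
        mul_le_mul_of_nonneg_left h4 (by positivity)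
    _ = 4 * (0.013 : ℝ) ^ ν * y ^ (3 * ν + 1) := by ring

theorem siz_q1 (y : ℝ) (h2 : 2 ≤ y) (h3 : y ≤ 3) : qr y ^ 2 ≤ 0.013 * y ^ 3 := by
  have h0 : 0 ≤ qr y := by
    unfold qr
    have : (y - 2) * (y - 3) * (y - 4) = (y - 2) * ((3 - y) * (4 - y)) := by ring
    rw [this]
    exact mul_nonneg (by linarith) (mul_nonneg (by linarith) (by linarith))
  have h1 : qr y ≤ 0.161 * y := by
    unfold qr
    nlinarith [mul_nonneg (sq_nonneg (y - 2.378)) (by linarith : (0 : ℝ) ≤ 4.244 - y)]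
  have h4 : qr y ^ 2 ≤ (0.161 * y) ^ 2 := pow_le_pow_left₀ h0 h1 2
  nlinarith [mul_nonneg (sq_nonneg y) (by linarith : (0 : ℝ) ≤ y - 2)]

theorem siz_q2 (y : ℝ) (h2 : 3 ≤ y) (h3 : y ≤ 4) : qr y ^ 2 ≤ 0.013 * y ^ 3 := by
  have h0 : 0 ≤ -qr y := by
    unfold qr
    have : -((y - 2) * (y - 3) * (y - 4)) = (y - 2) * ((y - 3) * (4 - y)) := by ring
    rw [this]
    exact mul_nonneg (by linarith) (mul_nonneg (by linarith) (by linarith))
  have h1 : -qr y ≤ 1 / 2 := by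
    unfold qr
    have : -((y - 2) * (y - 3) * (y - 4)) = (y - 2) * ((y - 3) * (4 - y)) := by ring
    rw [this]
    have h5 : (y - 3) * (4 - y) ≤ 1 / 4 := by nlinarith [sq_nonneg (y - 3.5)]
    have h6 : 0 ≤ (y - 3) * (4 - y) := mul_nonneg (by linarith) (by linarith)
    calc (y - 2) * ((y - 3) * (4 - y)) ≤ 2 * (1 / 4) :=
          mul_le_mul (by linarith) h5 h6 (by norm_num)
      _ = 1 / 2 := by norm_num
  have h4 : (-qr y) ^ 2 ≤ (1 / 2) ^ 2 := pow_le_pow_left₀ h0 h1 2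
  have h5 : (27 : ℝ) ≤ y ^ 3 := by
    calc (27 : ℝ) = 3 ^ 3 := by norm_num
      _ ≤ y ^ 3 := pow_le_pow_left₀ (by norm_num) h2 3
  rw [neg_sq] at h4
  nlinarith

theorem thm_SIZ : St_SIZ := by
  intro ν s hs
  refine ⟨?_, ?_, siz_cc ν s hs⟩
  · have h := intervalIntegral.norm_integral_le_of_norm_le_const
      (a := (2 : ℝ)) (b := 3) (C := 4 * (0.013 : ℝ) ^ ν)
      (f := fun y => qr y ^ (2 * ν) * y ^ s / y ^ (3 * ν + 1)) (by
        intro y hy
        rw [Set.uIoc_of_le (by norm_num)] at hy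
        exact siz_fun ν s hs y hy.1.le (by linarith [hy.2]) (siz_q1 y hy.1.le hy.2))
    rw [Real.norm_eq_abs] at h
    refine h.trans (le_of_eq ?_)
    norm_num
  · have h := intervalIntegral.norm_integral_le_of_norm_le_const
      (a := (3 : ℝ)) (b := 4) (C := 4 * (0.013 : ℝ) ^ ν)
      (f := fun y => qr y ^ (2 * ν) * y ^ s / y ^ (3 * ν + 1)) (by
        intro y hy
        rw [Set.uIoc_of_le (by norm_num)] at hy
        exact siz_fun ν s hs y (by linarith [hy.1]) hy.2 (siz_q2 y hy.1.le hy.2))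
    rw [Real.norm_eq_abs] at h
    refine h.trans (le_of_eq ?_)
    norm_num

end Pool.Agent.CPC
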