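import Pool.Agent.CPC.LCM
import Pool.Agent.CPC.DIV
import Pool.Agent.CPC.SIZ
import Pool.Agent.CPC.NVN
import Pool.Agent.CPC.MEA
import Pool.Agent.CPC.CYB
import Pool.Agent.CPC.CEQ
import Pool.Agent.CPC.HAR
import Pool.Agent.CPC.CNT
import Pool.Agent.CPC.LNA
import Pool.Agent.CPC.LNB
import Pool.Agent.CPC.SHC
import Pool.Agent.CPC.HGT
import Pool.Agent.CPC.RUN

/-!
# CPC (helper5): assembly
-/

set_option autoImplicit false

namespace Pool.Agent.CPC

theorem all_MEA : St_MEA := thm_MEA thm_LCM thm_DIV thm_SIZ thm_NVN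

theorem all_CEQ : St_CEQ := thm_CEQ thm_CYB

theorem all_HAR : St_HAR := thm_HAR thm_CYB all_CEQ

theorem all_CNT : St_CNT := thm_CNT all_HAR

theorem all_LNA : St_LNA := thm_LNA all_CNT all_MEA

theorem all_LNB : St_LNB := thm_LNB all_CNT all_MEA

theorem all_SHC : St_SHC := thm_SHC all_MEA thm_CYB all_HAR

theorem all_HGT : St_HGT := thm_HGT thm_CYB all_CEQ

theorem all_RUN : St_RUN := thm_RUN all_SHC all_HGT thm_CYB

end Pool.Agent.CPC
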