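import Pool.Agent.CPC.St2

/-!
# CPC/CFR (helper13): small values of `|k log 3 - p log 2|`
-/

set_option autoImplicit false

namespace Pool.Agent.CPC

private lemma cfr_lat (q q' P P' e : ℤ) (hq : 1 ≤ q) (hq' : 1 ≤ q') (he : e * e = 1)
    (hD : q * P' - q' * P = e) (a b : ℝ) (hs : (q * a - P * b) * (q' * a - P' * b) < 0)
    (k p : ℤ) (hk : 1 ≤ k) (hk' : k < q') : |q * a - P * b| ≤ |k * a - p * b| := by
  obtain ⟨u, hu⟩ : ∃ u : ℤ, u = e * (k * P' - q' * p) := ⟨_, rfl⟩
  obtain ⟨v, hv⟩ : ∃ v : ℤ, v = e * (q * p - k * P) := ⟨_, rfl⟩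
  have h1 : k = u * q + v * q' := by
    rw [hu, hv]
    have : e * (k * P' - q' * p) * q + e * (q * p - k * P) * q' = k * (e * (q * P' - q' * P)) := by
      ring
    rw [this, hD, he, mul_one]
  have h2 : p = u * P + v * P' := by
    rw [hu, hv]
    have : e * (k * P' - q' * p) * P + e * (q * p - k * P) * P' = p * (e * (q * P' - q' * P)) := by
      ring
    rw [this, hD, he, mul_one]
  have h3 : (k : ℝ) * a - p * b = u * (q * a - P * b) + v * (q' * a - P' * b) := by
    have h1' : (k : ℝ) = u * q + v * q' := by exact_mod_cast h1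
    have h2' : (p : ℝ) = u * P + v * P' := by exact_mod_cast h2
    rw [h1', h2']; ring
  have hu0 : u ≠ 0 := by
    rintro rfl
    have h4 : k = v * q' := by rw [h1]; ring
    have h5 : 0 < v := by
      by_contra h
      have : v * q' ≤ 0 := mul_nonpos_of_nonpos_of_nonneg (by omega) (by omega)
      omega
    nlinarith
  have huv : u * v ≤ 0 := by
    by_contra h
    rcases lt_or_gt_of_ne hu0 with h6 | h6
    · have h7 : v < 0 := by
        by_contra h8
        exact h (mul_nonpos_of_nonpos_of_nonneg h6.le (by omega))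
      nlinarith
    · have h7 : 0 < v := by
        by_contra h8
        exact h (mul_nonpos_of_nonneg_of_nonpos h6.le (by omega))
      nlinarith
  rw [h3]
  apply sq_le_sq.mp
  have h8 : (1 : ℝ) ≤ (u : ℝ) ^ 2 := by
    have : (1 : ℤ) ≤ u ^ 2 := by
      have : 0 < u ^ 2 := by positivity
      omega
    exact_mod_cast this
  have h9 : (u : ℝ) * v ≤ 0 := by exact_mod_cast huv
  have h10 : 0 ≤ ((u : ℝ) * v) * ((q * a - P * b) * (q' * a - P' * b)) :=
    mul_nonneg_of_nonpos_of_nonpos h9 hs.le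
  have h11 : 0 ≤ ((u : ℝ) ^ 2 - 1) * (q * a - P * b) ^ 2 :=
    mul_nonneg (by linarith) (sq_nonneg _)
  nlinarith [sq_nonneg ((v : ℝ) * (q' * a - P' * b))]

private lemma cfr_exp (c : ℝ) (h0 : 0 ≤ c) (h1 : c ≤ 1) :
    Real.exp c ≤ 1 + c + c ^ 2 / 2 + c ^ 3 * (2 / 9) := by
  have := Real.exp_bound' h0 h1 (n := 3) (by norm_num)
  refine this.trans (le_of_eq ?_)
  simp only [Finset.sum_range_succ, Finset.sum_range_zero, Nat.factorial]
  push_cast
  ring

/-- comparison of two multiples of powers -/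
private def cfr_le (b₁ e₁ N b₂ e₂ M : ℕ) : Prop := b₁ ^ e₁ * N ≤ b₂ ^ e₂ * M

/-- comparison of two powers -/
private def cfr_lt (b₁ e₁ b₂ e₂ : ℕ) : Prop := b₁ ^ e₁ < b₂ ^ e₂

private lemma cfr_low {b₁ e₁ N b₂ e₂ M : ℕ} (h : cfr_le b₁ e₁ N b₂ e₂ M) (hB : 0 < b₁) (hM : 0 < M)
    (c : ℝ) (h0 : 0 ≤ c) (h1 : c ≤ 1) (hc : (1 + c + c ^ 2 / 2 + c ^ 3 * (2 / 9)) * M ≤ N) :
    c ≤ e₂ * Real.log b₂ - e₁ * Real.log b₁ := by
  have hB' : (0 : ℝ) < (b₁ : ℝ) ^ e₁ := by
    have : (0 : ℝ) < b₁ := by exact_mod_cast hB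
    positivity
  have hM' : (0 : ℝ) < M := by exact_mod_cast hM
  have h2 : (b₁ : ℝ) ^ e₁ * N ≤ (b₂ : ℝ) ^ e₂ * M := by
    unfold cfr_le at h
    exact_mod_cast h
  have h3 : Real.exp c * M ≤ N :=
    (mul_le_mul_of_nonneg_right (cfr_exp c h0 h1) hM'.le).trans hc
  have h4 : Real.exp c * (b₁ : ℝ) ^ e₁ ≤ (b₂ : ℝ) ^ e₂ := by
    have h5 : Real.exp c * (b₁ : ℝ) ^ e₁ * M ≤ (b₂ : ℝ) ^ e₂ * M := by
      calc Real.exp c * (b₁ : ℝ) ^ e₁ * M = (b₁ : ℝ) ^ e₁ * (Real.exp c * M) := by ring
        _ ≤ (b₁ : ℝ) ^ e₁ * N := mul_le_mul_of_nonneg_left h3 hB'.le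
        _ ≤ (b₂ : ℝ) ^ e₂ * M := h2
    exact le_of_mul_le_mul_right h5 hM'
  have h6 := Real.log_le_log (by positivity) h4
  rw [Real.log_mul (Real.exp_pos c).ne' hB'.ne', Real.log_exp, Real.log_pow, Real.log_pow] at h6
  linarith

private lemma cfr_pos {b₁ e₁ b₂ e₂ : ℕ} (h : cfr_lt b₁ e₁ b₂ e₂) (hB : 0 < b₁) :
    0 < (e₂ : ℝ) * Real.log b₂ - e₁ * Real.log b₁ := by
  have hB' : (0 : ℝ) < (b₁ : ℝ) ^ e₁ := by
    have : (0 : ℝ) < b₁ := by exact_mod_cast hB
    positivity
  have h2 : (b₁ : ℝ) ^ e₁ < (b₂ : ℝ) ^ e₂ := by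
    unfold cfr_lt at h
    exact_mod_cast h
  have h3 := Real.log_lt_log hB' h2
  rw [Real.log_pow, Real.log_pow] at h3
  linarith

private lemma cfr_p1 : cfr_le 3 306 100102273 2 485 (10 ^ 8) := by unfold cfr_le; decide +kernel
private lemma cfr_p2 : cfr_le 2 1054 1000043655 3 665 (10 ^ 9) := by unfold cfr_le; decide +kernel
private lemma cfr_p3 : cfr_le 3 15601 10000181945 2 24727 (10 ^ 10) := by unfold cfr_le; decide +kernel
private lemma cfr_p4 : cfr_le 2 50508 100000726494 3 31867 (10 ^ 11) := by unfold cfr_le; decide +kernel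
private lemma cfr_p5 : cfr_lt 3 79335 2 125743 := by unfold cfr_lt; decide +kernel
private lemma cfr_p6 : cfr_le 3 190537 10000000645001 2 301994 (10 ^ 13) := by
  unfold cfr_le; decide +kernel
private lemma cfr_p7 : cfr_lt 2 6216131 3 3921942 := by unfold cfr_lt; decide +kernel

theorem thm_CFR : St_CFR := by
  intro k p hk
  have e1 := cfr_low cfr_p1 (by norm_num) (by norm_num) 0.0010222 (by norm_num) (by norm_num)
    (by norm_num)
  have e2 := cfr_low cfr_p2 (by norm_num) (by norm_num) 0.000043654 (by norm_num) (by norm_num)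
    (by norm_num)
  have e3 := cfr_low cfr_p3 (by norm_num) (by norm_num) 0.000018194 (by norm_num) (by norm_num)
    (by norm_num)
  have e4 := cfr_low cfr_p4 (by norm_num) (by norm_num) 0.0000072649 (by norm_num) (by norm_num)
    (by norm_num)
  have e5 := cfr_pos cfr_p5 (by norm_num)
  have e6 := cfr_low cfr_p6 (by norm_num) (by norm_num) 0.0000000645 (by norm_num) (by norm_num)
    (by norm_num)
  have e7 := cfr_pos cfr_p7 (by norm_num)
  push_cast at e1 e2 e3 e4 e5 e6 e7
  have hk' : (1 : ℤ) ≤ (k : ℤ) := by exact_mod_cast hk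
  refine ⟨fun h => ?_, fun h => ?_, fun h => ?_, fun h => ?_, fun h => ?_⟩
  · have := cfr_lat 306 665 485 1054 (-1) (by norm_num) (by norm_num) (by norm_num) (by norm_num)
      (Real.log 3) (Real.log 2) (by
        push_cast
        exact mul_neg_of_neg_of_pos (by linarith) (by linarith)) k p hk' (by exact_mod_cast h)
    push_cast at this
    rw [abs_of_nonpos (a := 306 * Real.log 3 - 485 * Real.log 2) (by linarith)] at this
    linarith
  · have := cfr_lat 665 15601 1054 24727 1 (by norm_num) (by norm_num) (by norm_num) (by norm_num)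
      (Real.log 3) (Real.log 2) (by
        push_cast
        exact mul_neg_of_pos_of_neg (by linarith) (by linarith)) k p hk' (by exact_mod_cast h)
    push_cast at this
    rw [abs_of_nonneg (a := 665 * Real.log 3 - 1054 * Real.log 2) (by linarith)] at this
    linarith
  · have := cfr_lat 15601 31867 24727 50508 (-1) (by norm_num) (by norm_num) (by norm_num) (by norm_num)
      (Real.log 3) (Real.log 2) (by
        push_cast
        exact mul_neg_of_neg_of_pos (by linarith) (by linarith)) k p hk' (by exact_mod_cast h)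
    push_cast at this
    rw [abs_of_nonpos (a := 15601 * Real.log 3 - 24727 * Real.log 2) (by linarith)] at this
    linarith
  · have := cfr_lat 31867 79335 50508 125743 1 (by norm_num) (by norm_num) (by norm_num) (by norm_num)
      (Real.log 3) (Real.log 2) (by
        push_cast
        exact mul_neg_of_pos_of_neg (by linarith) (by linarith)) k p hk' (by exact_mod_cast h)
    push_cast at this
    rw [abs_of_nonneg (a := 31867 * Real.log 3 - 50508 * Real.log 2) (by linarith)] at this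
    linarith
  · have := cfr_lat 190537 3921942 301994 6216131 (-1) (by norm_num) (by norm_num) (by norm_num)
      (by norm_num) (Real.log 3) (Real.log 2) (by
        push_cast
        exact mul_neg_of_neg_of_pos (by linarith) (by linarith)) k p hk' (by exact_mod_cast h)
    push_cast at this
    rw [abs_of_nonpos (a := 190537 * Real.log 3 - 301994 * Real.log 2) (by linarith)] at this
    linarith

end Pool.Agent.CPC
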