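import Pool.Agent.CPC.St2

/-!
# CPC/CK1 (helper5): small starting values
-/

set_option autoImplicit false
set_option maxRecDepth 100000

namespace Pool.Agent.CPC

open Finset

/-- one step of `f`, for the computation -/
def ck1_f (x : ℕ) : ℕ :=
  Nat.rec (motive := fun _ => ℕ) (Nat.div (Nat.mul 2 x) 3)
    (fun z _ => Nat.rec (motive := fun _ => ℕ) (Nat.div (Nat.sub (Nat.mul 4 x) 1) 3)
      (fun _ _ => Nat.div (Nat.add (Nat.mul 4 x) 1) 3) z) (Nat.mod x 3)

theorem ck1_f_eq (x : ℕ) : ck1_f x = f x := by
  unfold ck1_f f
  have h3 : x % 3 < 3 := Nat.mod_lt _ (by norm_num)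
  have e : Nat.mod x 3 = x % 3 := rfl
  rw [e]
  rcases h : x % 3 with _ | _ | _ | n
  · simp; rfl
  · simp; rfl
  · simp; rfl
  · omega

/-- `n` fuel, `y` start, `x` value, `t` the number of the values `≡ 3` modulo `6` that may still come -/
def ck1_go (n : ℕ) : ℕ → ℕ → ℕ → Bool :=
  Nat.rec (motive := fun _ => ℕ → ℕ → ℕ → Bool) (fun _ _ _ => false)
    (fun _ ih y x t =>
      (fun x' : ℕ => Bool.rec (motive := fun _ => Bool)
        (Bool.rec (motive := fun _ => Bool)
          (Bool.rec (motive := fun _ => Bool) (ih y x' t)
            (Bool.rec (motive := fun _ => Bool) (ih y x' (Nat.pred t)) true (Nat.beq t 0)) (Nat.beq (Nat.mod x' 6) 3))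
          false (Nat.beq x' y))
        true (Nat.ble (Nat.succ x') y)) (ck1_f x)) n

theorem ck1_go_spec : ∀ (n y x t : ℕ), ck1_go n y x t = true →
    ∃ i : ℕ, 1 ≤ i ∧ (∀ j, 1 ≤ j → j ≤ i → f^[j] x ≠ y) ∧
      (f^[i] x < y ∨ t + 1 ≤ ((Icc 1 i).filter fun j => f^[j] x % 6 = 3).card)
  | 0, y, x, t, h => by simp [ck1_go] at h
  | n + 1, y, x, t, h => by
    change (Bool.rec (motive := fun _ => Bool)
        (Bool.rec (motive := fun _ => Bool)
          (Bool.rec (motive := fun _ => Bool) (ck1_go n y (ck1_f x) t)
            (Bool.rec (motive := fun _ => Bool) (ck1_go n y (ck1_f x) (Nat.pred t)) true (Nat.beq t 0))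
              (Nat.beq (Nat.mod (ck1_f x) 6) 3))
          false (Nat.beq (ck1_f x) y))
        true (Nat.ble (Nat.succ (ck1_f x)) y) : Bool) = true at h
    rw [ck1_f_eq] at h
    have hstep : ∀ j, f^[j + 1] x = f^[j] (f x) := fun j => Function.iterate_succ_apply f j x
    by_cases h1 : f x < y
    · refine ⟨1, le_rfl, fun j hj1 hj2 => ?_, Or.inl (by simpa using h1)⟩
      obtain rfl : j = 1 := by omega
      simp only [Function.iterate_one]
      omega
    · have e1 : Nat.ble (Nat.succ (f x)) y = false := by
        rw [Bool.eq_false_iff]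
        intro hb
        have := Nat.le_of_ble_eq_true hb
        omega
      rw [e1] at h
      by_cases h2 : f x = y
      · have e2 : Nat.beq (f x) y = true := by rw [h2]; exact Nat.beq_refl y
        rw [e2] at h
        exact absurd h (by simp)
      · have e2 : Nat.beq (f x) y = false := by
          rw [Bool.eq_false_iff]
          intro hb
          exact h2 (Nat.eq_of_beq_eq_true hb)
        rw [e2] at h
        have key : ∀ i s : ℕ, 1 ≤ i → (∀ j, 1 ≤ j → j ≤ i → f^[j] (f x) ≠ y) →
            (f^[i] (f x) < y ∨ s + 1 ≤ ((Icc 1 i).filter fun j => f^[j] (f x) % 6 = 3).card) →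
            (t ≤ s + (if f x % 6 = 3 then 1 else 0)) →
            ∃ i : ℕ, 1 ≤ i ∧ (∀ j, 1 ≤ j → j ≤ i → f^[j] x ≠ y) ∧
            (f^[i] x < y ∨ t + 1 ≤ ((Icc 1 i).filter fun j => f^[j] x % 6 = 3).card) := by
          intro i s hi1 hi2 hi3 hs
          refine ⟨i + 1, by omega, ?_, ?_⟩
          · intro j hj1 hj2
            obtain ⟨j, rfl⟩ : ∃ j', j = j' + 1 := ⟨j - 1, by omega⟩
            rw [hstep]
            rcases Nat.eq_zero_or_pos j with rfl | hj
            · simpa using h2
            · exact hi2 j hj (by omega)
          · rcases hi3 with hi3 | hi3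
            · left
              rw [hstep]
              exact hi3
            · right
              have hcard : ((Icc 1 i).filter fun j => f^[j] (f x) % 6 = 3).card + (if f x % 6 = 3 then 1 else 0) ≤
                  ((Icc 1 (i + 1)).filter fun j => f^[j] x % 6 = 3).card := by
                have hsub : (((Icc 1 i).filter fun j => f^[j] (f x) % 6 = 3).image fun j => j + 1) ∪
                    (if f x % 6 = 3 then {1} else ∅) ⊆ (Icc 1 (i + 1)).filter fun j => f^[j] x % 6 = 3 := by
                  intro a ha
                  rw [mem_union] at ha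
                  rcases ha with ha | ha
                  · rw [mem_image] at ha
                    obtain ⟨j, hj, rfl⟩ := ha
                    rw [mem_filter, mem_Icc] at hj
                    rw [mem_filter, mem_Icc, hstep]
                    exact ⟨by omega, hj.2⟩
                  · split_ifs at ha with h3
                    · rw [mem_singleton] at ha
                      subst ha
                      rw [mem_filter, mem_Icc]
                      exact ⟨by omega, by simpa using h3⟩
                    · simp at ha
                refine le_trans (le_of_eq ?_) (card_le_card hsub)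
                rw [card_union_of_disjoint, card_image_of_injective]
                · split_ifs <;> simp
                · exact fun a b hab => by simpa using hab
                · rw [disjoint_left]
                  intro a ha hb
                  rw [mem_image] at ha
                  obtain ⟨j, hj, rfl⟩ := ha
                  rw [mem_filter, mem_Icc] at hj
                  split_ifs at hb with h3
                  · rw [mem_singleton] at hb
                    omega
                  · simp at hb
              omega
        by_cases h3 : f x % 6 = 3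
        · have e3 : Nat.beq (Nat.mod (f x) 6) 3 = true := by
            have : Nat.mod (f x) 6 = 3 := h3
            rw [this]
            rfl
          rw [e3] at h
          rcases Nat.eq_zero_or_pos t with rfl | ht
          · refine ⟨1, le_rfl, fun j hj1 hj2 => ?_, Or.inr ?_⟩
            · obtain rfl : j = 1 := by omega
              simpa using h2
            · have : 1 ∈ (Icc 1 1).filter fun j => f^[j] x % 6 = 3 := by
                rw [mem_filter, mem_Icc]
                exact ⟨by omega, by simpa using h3⟩
              exact card_pos.2 ⟨1, this⟩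
          · have e4 : Nat.beq t 0 = false := by
              rw [Bool.eq_false_iff]
              intro hb
              have := Nat.eq_of_beq_eq_true hb
              omega
            rw [e4] at h
            obtain ⟨i, hi1, hi2, hi3⟩ := ck1_go_spec n y (f x) (Nat.pred t) h
            refine key i (Nat.pred t) hi1 hi2 hi3 ?_
            rw [if_pos h3, Nat.pred_eq_sub_one]
            omega
        · have e3 : Nat.beq (Nat.mod (f x) 6) 3 = false := by
            rw [Bool.eq_false_iff]
            intro hb
            exact h3 (Nat.eq_of_beq_eq_true hb)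
          rw [e3] at h
          obtain ⟨i, hi1, hi2, hi3⟩ := ck1_go_spec n y (f x) t h
          exact key i t hi1 hi2 hi3 (by omega)

/-- `y = 6 q + 2`, `6 q + 4` for `q₀ ≤ q < q₀ + n` -/
def ck1_all (q₀ n : ℕ) : Bool :=
  Nat.rec (motive := fun _ => Bool) true
    (fun i ih => Bool.rec (motive := fun _ => Bool) false (Bool.rec (motive := fun _ => Bool) false ih
        (ck1_go 120 (Nat.add 4 (Nat.mul 6 (Nat.add q₀ i))) (Nat.add 4 (Nat.mul 6 (Nat.add q₀ i))) 14))
        (ck1_go 120 (Nat.add 2 (Nat.mul 6 (Nat.add q₀ i))) (Nat.add 2 (Nat.mul 6 (Nat.add q₀ i))) 14)) n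

theorem ck1_all_spec (q₀ : ℕ) : ∀ n, ck1_all q₀ n = true → ∀ i < n,
    ck1_go 120 (6 * (q₀ + i) + 2) (6 * (q₀ + i) + 2) 14 = true ∧
    ck1_go 120 (6 * (q₀ + i) + 4) (6 * (q₀ + i) + 4) 14 = true
  | 0, _, i, hi => by omega
  | n + 1, h, i, hi => by
    change (Bool.rec (motive := fun _ => Bool) false (Bool.rec (motive := fun _ => Bool) false (ck1_all q₀ n)
        (ck1_go 120 (4 + 6 * (q₀ + n)) (4 + 6 * (q₀ + n)) 14))
        (ck1_go 120 (2 + 6 * (q₀ + n)) (2 + 6 * (q₀ + n)) 14) : Bool) = true at h
    rcases h2 : ck1_go 120 (2 + 6 * (q₀ + n)) (2 + 6 * (q₀ + n)) 14 with _ | _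
    · rw [h2] at h; exact absurd h (by simp)
    · rw [h2] at h
      rcases h4 : ck1_go 120 (4 + 6 * (q₀ + n)) (4 + 6 * (q₀ + n)) 14 with _ | _
      · rw [h4] at h; exact absurd h (by simp)
      · rw [h4] at h
        rcases Nat.lt_succ_iff_lt_or_eq.1 hi with h5 | rfl
        · exact ck1_all_spec q₀ n h i h5
        · rw [add_comm (6 * (q₀ + i)) 2, add_comm (6 * (q₀ + i)) 4]
          exact ⟨h2, h4⟩

theorem ck1_a : ck1_all 8 592 = true := by decide +kernel
theorem ck1_b : ck1_all 600 600 = true := by decide +kernel
theorem ck1_c : ck1_all 1200 600 = true := by decide +kernel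
theorem ck1_d : ck1_all 1800 490 = true := by decide +kernel

theorem ck1_small : ∀ y < 50, y = 0 ∨ y % 2 = 1 ∨ y % 3 = 0 ∨ y = 2 ∨ y = 4 ∨ y = 44 ∨
    ck1_go 120 y y 14 = true := by decide +kernel

theorem thm_CK1 : St_CK1 := by
  intro y hy1 hy2 hy3 hy4 h2 h4 h44
  have hmain : ck1_go 120 y y 14 = true := by
    rcases lt_or_ge y 50 with hlt | hge
    · rcases ck1_small y hlt with h | h | h | h | h | h | h
      · omega
      · omega
      · exact absurd h hy4
      · exact absurd h h2
      · exact absurd h h4
      · exact absurd h h44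
      · exact h
    · have hq : ∀ q₀ n, ck1_all q₀ n = true → q₀ ≤ y / 6 → y / 6 < q₀ + n → ck1_go 120 y y 14 = true := by
        intro q₀ n h ha hb
        have := ck1_all_spec q₀ n h (y / 6 - q₀) (by omega)
        have e : q₀ + (y / 6 - q₀) = y / 6 := by omega
        rw [e] at this
        have hm : y % 6 = 2 ∨ y % 6 = 4 := by omega
        rcases hm with hm | hm
        · have e2 : 6 * (y / 6) + 2 = y := by omega
          rw [e2] at this
          exact this.1
        · have e2 : 6 * (y / 6) + 4 = y := by omega
          rw [e2] at this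
          exact this.2
      by_cases g1 : y / 6 < 600
      · exact hq 8 592 ck1_a (by omega) (by omega)
      by_cases g2 : y / 6 < 1200
      · exact hq 600 600 ck1_b (by omega) (by omega)
      by_cases g3 : y / 6 < 1800
      · exact hq 1200 600 ck1_c (by omega) (by omega)
      · exact hq 1800 490 ck1_d (by omega) (by omega)
  exact ck1_go_spec 120 y y 14 hmain

end Pool.Agent.CPC
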