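import Pool.Agent.CPC.St2

/-!
# CPC/CKA1 (helper5): finite computation, pieces of 2560 values of q
-/

set_option autoImplicit false
set_option maxRecDepth 100000

namespace Pool.Agent.CPC

theorem cka_0 : all2 40 11 (2283 + 2560 * 0) 2560 = true := by decide +kernel

theorem cka_1 : all2 40 11 (2283 + 2560 * 1) 2560 = true := by decide +kernel

theorem cka_2 : all2 40 11 (2283 + 2560 * 2) 2560 = true := by decide +kernel

theorem cka_3 : all2 40 11 (2283 + 2560 * 3) 2560 = true := by decide +kernel

theorem cka_4 : all2 40 11 (2283 + 2560 * 4) 2560 = true := by decide +kernel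

theorem cka_5 : all2 40 11 (2283 + 2560 * 5) 2560 = true := by decide +kernel

theorem cka_6 : all2 40 11 (2283 + 2560 * 6) 2560 = true := by decide +kernel

end Pool.Agent.CPC
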