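import Pool.Agent.CPC.St2

/-!
# CPC/CKA2 (helper5): finite computation, pieces of 2560 values of q
-/

set_option autoImplicit false
set_option maxRecDepth 100000

namespace Pool.Agent.CPC

theorem cka_7 : all2 40 11 (2283 + 2560 * 7) 2560 = true := by decide +kernel

theorem cka_8 : all2 40 11 (2283 + 2560 * 8) 2560 = true := by decide +kernel

theorem cka_9 : all2 40 11 (2283 + 2560 * 9) 2560 = true := by decide +kernel

theorem cka_10 : all2 40 11 (2283 + 2560 * 10) 2560 = true := by decide +kernel

theorem cka_11 : all2 40 11 (2283 + 2560 * 11) 2560 = true := by decide +kernel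

theorem cka_12 : all2 40 11 (2283 + 2560 * 12) 2560 = true := by decide +kernel

theorem cka_13 : all2 40 11 (2283 + 2560 * 13) 2560 = true := by decide +kernel

end Pool.Agent.CPC
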