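import Pool.Agent.CPC.St2

/-!
# CPC/CKB1 (helper5): finite computation, pieces of 2560 values of q
-/

set_option autoImplicit false
set_option maxRecDepth 100000

namespace Pool.Agent.CPC

theorem ckb_0 : all2 40 4 (53466 + 2560 * 0) 2560 = true := by decide +kernel

theorem ckb_1 : all2 40 4 (53466 + 2560 * 1) 2560 = true := by decide +kernel

theorem ckb_2 : all2 40 4 (53466 + 2560 * 2) 2560 = true := by decide +kernel

theorem ckb_3 : all2 40 4 (53466 + 2560 * 3) 2560 = true := by decide +kernel

theorem ckb_4 : all2 40 4 (53466 + 2560 * 4) 2560 = true := by decide +kernel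

theorem ckb_5 : all2 40 4 (53466 + 2560 * 5) 2560 = true := by decide +kernel

theorem ckb_6 : all2 40 4 (53466 + 2560 * 6) 2560 = true := by decide +kernel

theorem ckb_7 : all2 40 4 (53466 + 2560 * 7) 2560 = true := by decide +kernel

theorem ckb_8 : all2 40 4 (53466 + 2560 * 8) 2560 = true := by decide +kernel

theorem ckb_9 : all2 40 4 (53466 + 2560 * 9) 2560 = true := by decide +kernel

end Pool.Agent.CPC
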