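import Pool.Agent.CPC.St2

/-!
# CPC/CKB2 (helper5): finite computation, pieces of 2560 values of q
-/

set_option autoImplicit false
set_option maxRecDepth 100000

namespace Pool.Agent.CPC

theorem ckb_10 : all2 40 4 (53466 + 2560 * 10) 2560 = true := by decide +kernel

theorem ckb_11 : all2 40 4 (53466 + 2560 * 11) 2560 = true := by decide +kernel

theorem ckb_12 : all2 40 4 (53466 + 2560 * 12) 2560 = true := by decide +kernel

theorem ckb_13 : all2 40 4 (53466 + 2560 * 13) 2560 = true := by decide +kernel

theorem ckb_14 : all2 40 4 (53466 + 2560 * 14) 2560 = true := by decide +kernel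

theorem ckb_15 : all2 40 4 (53466 + 2560 * 15) 2560 = true := by decide +kernel

theorem ckb_16 : all2 40 4 (53466 + 2560 * 16) 2560 = true := by decide +kernel

theorem ckb_17 : all2 40 4 (53466 + 2560 * 17) 2560 = true := by decide +kernel

theorem ckb_18 : all2 40 4 (53466 + 2560 * 18) 2560 = true := by decide +kernel

theorem ckb_19 : all2 40 4 (53466 + 2560 * 19) 2560 = true := by decide +kernel

end Pool.Agent.CPC
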