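import Pool.Agent.CPC.St2

/-!
# CPC/CKC2 (helper5): finite computation, pieces of 2560 values of q
-/

set_option autoImplicit false
set_option maxRecDepth 100000

namespace Pool.Agent.CPC

theorem ckc_16 : all2 40 3 (128266 + 2560 * 16) 2560 = true := by decide +kernel

theorem ckc_17 : all2 40 3 (128266 + 2560 * 17) 2560 = true := by decide +kernel

theorem ckc_18 : all2 40 3 (128266 + 2560 * 18) 2560 = true := by decide +kernel

theorem ckc_19 : all2 40 3 (128266 + 2560 * 19) 2560 = true := by decide +kernel

theorem ckc_20 : all2 40 3 (128266 + 2560 * 20) 2560 = true := by decide +kernel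

theorem ckc_21 : all2 40 3 (128266 + 2560 * 21) 2560 = true := by decide +kernel

theorem ckc_22 : all2 40 3 (128266 + 2560 * 22) 2560 = true := by decide +kernel

theorem ckc_23 : all2 40 3 (128266 + 2560 * 23) 2560 = true := by decide +kernel

theorem ckc_24 : all2 40 3 (128266 + 2560 * 24) 2560 = true := by decide +kernel

theorem ckc_25 : all2 40 3 (128266 + 2560 * 25) 2560 = true := by decide +kernel

theorem ckc_26 : all2 40 3 (128266 + 2560 * 26) 2560 = true := by decide +kernel

theorem ckc_27 : all2 40 3 (128266 + 2560 * 27) 2560 = true := by decide +kernel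

theorem ckc_28 : all2 40 3 (128266 + 2560 * 28) 2560 = true := by decide +kernel

theorem ckc_29 : all2 40 3 (128266 + 2560 * 29) 2560 = true := by decide +kernel

theorem ckc_30 : all2 40 3 (128266 + 2560 * 30) 2560 = true := by decide +kernel

theorem ckc_31 : all2 40 3 (128266 + 2560 * 31) 2560 = true := by decide +kernel

end Pool.Agent.CPC
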