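import Pool.Agent.CPC.St2

/-!
# CPC/CKC3 (helper5): finite computation, pieces of 2560 values of q
-/

set_option autoImplicit false
set_option maxRecDepth 100000

namespace Pool.Agent.CPC

theorem ckc_32 : all2 40 3 (128266 + 2560 * 32) 2560 = true := by decide +kernel

theorem ckc_33 : all2 40 3 (128266 + 2560 * 33) 2560 = true := by decide +kernel

theorem ckc_34 : all2 40 3 (128266 + 2560 * 34) 2560 = true := by decide +kernel

theorem ckc_35 : all2 40 3 (128266 + 2560 * 35) 2560 = true := by decide +kernel

theorem ckc_36 : all2 40 3 (128266 + 2560 * 36) 2560 = true := by decide +kernel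

theorem ckc_37 : all2 40 3 (128266 + 2560 * 37) 2560 = true := by decide +kernel

theorem ckc_38 : all2 40 3 (128266 + 2560 * 38) 2560 = true := by decide +kernel

theorem ckc_39 : all2 40 3 (128266 + 2560 * 39) 2560 = true := by decide +kernel

theorem ckc_40 : all2 40 3 (128266 + 2560 * 40) 2560 = true := by decide +kernel

theorem ckc_41 : all2 40 3 (128266 + 2560 * 41) 2560 = true := by decide +kernel

theorem ckc_42 : all2 40 3 (128266 + 2560 * 42) 2560 = true := by decide +kernel

theorem ckc_43 : all2 40 3 (128266 + 2560 * 43) 2560 = true := by decide +kernel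

theorem ckc_44 : all2 40 3 (128266 + 2560 * 44) 2560 = true := by decide +kernel

theorem ckc_45 : all2 40 3 (128266 + 2560 * 45) 2560 = true := by decide +kernel

theorem ckc_46 : all2 40 3 (128266 + 2560 * 46) 2560 = true := by decide +kernel

theorem ckc_47 : all2 40 3 (128266 + 2560 * 47) 2560 = true := by decide +kernel

end Pool.Agent.CPC
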