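import Pool.Agent.CPC.St2

/-!
# CPC/CKC4 (helper5): finite computation, pieces of 2560 values of q
-/

set_option autoImplicit false
set_option maxRecDepth 100000

namespace Pool.Agent.CPC

theorem ckc_48 : all2 40 3 (128266 + 2560 * 48) 2560 = true := by decide +kernel

theorem ckc_49 : all2 40 3 (128266 + 2560 * 49) 2560 = true := by decide +kernel

theorem ckc_50 : all2 40 3 (128266 + 2560 * 50) 2560 = true := by decide +kernel

theorem ckc_51 : all2 40 3 (128266 + 2560 * 51) 2560 = true := by decide +kernel

theorem ckc_52 : all2 40 3 (128266 + 2560 * 52) 2560 = true := by decide +kernel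

theorem ckc_53 : all2 40 3 (128266 + 2560 * 53) 2560 = true := by decide +kernel

theorem ckc_54 : all2 40 3 (128266 + 2560 * 54) 2560 = true := by decide +kernel

theorem ckc_55 : all2 40 3 (128266 + 2560 * 55) 2560 = true := by decide +kernel

theorem ckc_56 : all2 40 3 (128266 + 2560 * 56) 2560 = true := by decide +kernel

theorem ckc_57 : all2 40 3 (128266 + 2560 * 57) 2560 = true := by decide +kernel

theorem ckc_58 : all2 40 3 (128266 + 2560 * 58) 2560 = true := by decide +kernel

theorem ckc_59 : all2 40 3 (128266 + 2560 * 59) 2560 = true := by decide +kernel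

theorem ckc_60 : all2 40 3 (128266 + 2560 * 60) 2560 = true := by decide +kernel

theorem ckc_61 : all2 40 3 (128266 + 2560 * 61) 2560 = true := by decide +kernel

theorem ckc_62 : all2 40 3 (128266 + 2560 * 62) 2560 = true := by decide +kernel

theorem ckc_63 : all2 40 3 (128266 + 2560 * 63) 2560 = true := by decide +kernel

end Pool.Agent.CPC
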