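import Pool.Agent.CPC.St2

/-!
# CPC/CKC5 (helper5): finite computation, pieces of 2560 values of q
-/

set_option autoImplicit false
set_option maxRecDepth 100000

namespace Pool.Agent.CPC

theorem ckc_64 : all2 40 3 (128266 + 2560 * 64) 2560 = true := by decide +kernel

theorem ckc_65 : all2 40 3 (128266 + 2560 * 65) 2560 = true := by decide +kernel

theorem ckc_66 : all2 40 3 (128266 + 2560 * 66) 2560 = true := by decide +kernel

theorem ckc_67 : all2 40 3 (128266 + 2560 * 67) 2560 = true := by decide +kernel

theorem ckc_68 : all2 40 3 (128266 + 2560 * 68) 2560 = true := by decide +kernel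

theorem ckc_69 : all2 40 3 (128266 + 2560 * 69) 2560 = true := by decide +kernel

theorem ckc_70 : all2 40 3 (128266 + 2560 * 70) 2560 = true := by decide +kernel

theorem ckc_71 : all2 40 3 (128266 + 2560 * 71) 2560 = true := by decide +kernel

theorem ckc_72 : all2 40 3 (128266 + 2560 * 72) 2560 = true := by decide +kernel

theorem ckc_73 : all2 40 3 (128266 + 2560 * 73) 2560 = true := by decide +kernel

theorem ckc_74 : all2 40 3 (128266 + 2560 * 74) 2560 = true := by decide +kernel

theorem ckc_75 : all2 40 3 (128266 + 2560 * 75) 2560 = true := by decide +kernel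

end Pool.Agent.CPC
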