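import Pool.Agent.CPC.St2
import Pool.Agent.CPC.CKA1
import Pool.Agent.CPC.CKA2
import Pool.Agent.CPC.CKA3
import Pool.Agent.CPC.CKB1
import Pool.Agent.CPC.CKB2
import Pool.Agent.CPC.CKB3
import Pool.Agent.CPC.CKC1
import Pool.Agent.CPC.CKC2
import Pool.Agent.CPC.CKC3
import Pool.Agent.CPC.CKC4
import Pool.Agent.CPC.CKC5

/-!
# CPC/CK2 (helper5): larger starting values, assembly
-/

set_option autoImplicit false

namespace Pool.Agent.CPC

theorem cka_all : ∀ c < 20, all2 40 11 (2283 + 2560 * c) 2560 = true := by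
  intro c hc
  interval_cases c
  · exact cka_0
  · exact cka_1
  · exact cka_2
  · exact cka_3
  · exact cka_4
  · exact cka_5
  · exact cka_6
  · exact cka_7
  · exact cka_8
  · exact cka_9
  · exact cka_10
  · exact cka_11
  · exact cka_12
  · exact cka_13
  · exact cka_14
  · exact cka_15
  · exact cka_16
  · exact cka_17
  · exact cka_18
  · exact cka_19

theorem ckb_all : ∀ c < 30, all2 40 4 (53466 + 2560 * c) 2560 = true := by
  intro c hc
  interval_cases c
  · exact ckb_0
  · exact ckb_1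
  · exact ckb_2
  · exact ckb_3
  · exact ckb_4
  · exact ckb_5
  · exact ckb_6
  · exact ckb_7
  · exact ckb_8
  · exact ckb_9
  · exact ckb_10
  · exact ckb_11
  · exact ckb_12
  · exact ckb_13
  · exact ckb_14
  · exact ckb_15
  · exact ckb_16
  · exact ckb_17
  · exact ckb_18
  · exact ckb_19
  · exact ckb_20
  · exact ckb_21
  · exact ckb_22
  · exact ckb_23
  · exact ckb_24
  · exact ckb_25
  · exact ckb_26
  · exact ckb_27
  · exact ckb_28
  · exact ckb_29

theorem ckc_all : ∀ c < 76, all2 40 3 (128266 + 2560 * c) 2560 = true := by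
  intro c hc
  interval_cases c
  · exact ckc_0
  · exact ckc_1
  · exact ckc_2
  · exact ckc_3
  · exact ckc_4
  · exact ckc_5
  · exact ckc_6
  · exact ckc_7
  · exact ckc_8
  · exact ckc_9
  · exact ckc_10
  · exact ckc_11
  · exact ckc_12
  · exact ckc_13
  · exact ckc_14
  · exact ckc_15
  · exact ckc_16
  · exact ckc_17
  · exact ckc_18
  · exact ckc_19
  · exact ckc_20
  · exact ckc_21
  · exact ckc_22
  · exact ckc_23
  · exact ckc_24
  · exact ckc_25
  · exact ckc_26
  · exact ckc_27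
  · exact ckc_28
  · exact ckc_29
  · exact ckc_30
  · exact ckc_31
  · exact ckc_32
  · exact ckc_33
  · exact ckc_34
  · exact ckc_35
  · exact ckc_36
  · exact ckc_37
  · exact ckc_38
  · exact ckc_39
  · exact ckc_40
  · exact ckc_41
  · exact ckc_42
  · exact ckc_43
  · exact ckc_44
  · exact ckc_45
  · exact ckc_46
  · exact ckc_47
  · exact ckc_48
  · exact ckc_49
  · exact ckc_50
  · exact ckc_51
  · exact ckc_52
  · exact ckc_53
  · exact ckc_54
  · exact ckc_55
  · exact ckc_56
  · exact ckc_57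
  · exact ckc_58
  · exact ckc_59
  · exact ckc_60
  · exact ckc_61
  · exact ckc_62
  · exact ckc_63
  · exact ckc_64
  · exact ckc_65
  · exact ckc_66
  · exact ckc_67
  · exact ckc_68
  · exact ckc_69
  · exact ckc_70
  · exact ckc_71
  · exact ckc_72
  · exact ckc_73
  · exact ckc_74
  · exact ckc_75

theorem ck2_use (hTBL : St_TBL) (t q₀ n : ℕ) (h : ∀ c < n, all2 40 t (q₀ + 2560 * c) 2560 = true) (q : ℕ)
    (h1 : q₀ ≤ q) (h2 : q < q₀ + 2560 * n) :
    go2 40 (6 * q + 2) (6 * q + 2) t = true ∧ go2 40 (6 * q + 4) (6 * q + 4) t = true := by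
  have hc : (q - q₀) / 2560 < n := by omega
  have := hTBL.2 40 t (q₀ + 2560 * ((q - q₀) / 2560)) 2560 (h _ hc) ((q - q₀) % 2560) (by omega)
  have e : q₀ + 2560 * ((q - q₀) / 2560) + (q - q₀) % 2560 = q := by omega
  rwa [e] at this

theorem thm_CK2 (hTBL : St_TBL) : St_CK2 :=
  ⟨fun q h1 h2 => ck2_use hTBL 11 2283 20 cka_all q h1 (by omega),
    fun q h1 h2 => ck2_use hTBL 4 53466 30 ckb_all q h1 (by omega),
    fun q h1 h2 => ck2_use hTBL 3 128266 76 ckc_all q h1 (by omega)⟩

end Pool.Agent.CPC
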