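import Pool.Agent.CPC.St2

/-!
# CPC, module DV2: the integrals `KK` are linear forms in `1` and a logarithm
-/

set_option autoImplicit false

namespace Pool.Agent.CPC

open Finset Polynomial

private theorem dv2_comp (ν s : ℕ) (c r₁ r₂ r₃ t : ℤ) (A₁ A₂ A₃ : ℤ[X])
    (h₁ : (C c * X - 2 : ℤ[X]) = C r₁ * A₁) (h₂ : (C c * X - 3 : ℤ[X]) = C r₂ * A₂)
    (h₃ : (C c * X - 4 : ℤ[X]) = C r₃ * A₃)
    (ht : 2 * r₁ ^ 3 * r₂ ^ 4 * r₃ ^ 2 = c ^ 4 * t) : ∃ G : ℤ[X],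
    C (2 ^ ν) * (WW ν s).comp (C c * X) = C (c ^ (4 * ν)) * G := by
  refine ⟨C (t ^ ν) * A₁ ^ (3 * ν) * A₂ ^ (4 * ν) * A₃ ^ (2 * ν) * (C c * X) ^ s, ?_⟩
  have e0 : (WW ν s).comp (C c * X) = (C c * X - 2) ^ (3 * ν) * (C c * X - 3) ^ (4 * ν) *
      (C c * X - 4) ^ (2 * ν) * (C c * X) ^ s := by
    simp only [WW, mul_comp, pow_comp, sub_comp, X_comp, ofNat_comp]
    rfl
  rw [e0, h₁, h₂, h₃]
  have e : (C ((2 : ℤ) ^ ν) : ℤ[X]) * (C r₁) ^ (3 * ν) * (C r₂) ^ (4 * ν) * (C r₃) ^ (2 * ν) =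
      C (c ^ (4 * ν)) * C (t ^ ν) := by
    rw [← C_pow, ← C_pow, ← C_pow, ← C_mul, ← C_mul, ← C_mul, ← C_mul]
    congr 1
    rw [pow_mul, pow_mul, pow_mul, pow_mul, ← mul_pow, ← mul_pow, ← mul_pow, ← mul_pow, ht]
  calc C ((2 : ℤ) ^ ν) * ((C r₁ * A₁) ^ (3 * ν) * (C r₂ * A₂) ^ (4 * ν) *
      (C r₃ * A₃) ^ (2 * ν) * (C c * X) ^ s)
      = (C ((2 : ℤ) ^ ν) * (C r₁) ^ (3 * ν) * (C r₂) ^ (4 * ν) * (C r₃) ^ (2 * ν)) *
        A₁ ^ (3 * ν) * A₂ ^ (4 * ν) * A₃ ^ (2 * ν) * (C c * X) ^ s := by ring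
    _ = _ := by rw [e]; ring

private theorem dv2_int (ν s : ℕ) (c : ℤ) (hc : c ≠ 0) (G : ℤ[X])
    (h : C (2 ^ ν) * (WW ν s).comp (C c * X) = C (c ^ (4 * ν)) * G) (j : ℕ) :
    ∃ g : ℤ, (2 : ℝ) ^ ν * (((WW ν s).coeff j : ℤ) : ℝ) *
      (c : ℝ) ^ ((j : ℤ) - ((4 * ν : ℕ) : ℤ)) = g := by
  have h1 := congrArg (fun p : ℤ[X] => p.coeff j) h
  simp only [coeff_C_mul, comp_C_mul_X_coeff] at h1
  refine ⟨G.coeff j, ?_⟩
  have h2 : (2 : ℝ) ^ ν * ((((WW ν s).coeff j : ℤ) : ℝ) * (c : ℝ) ^ j) =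
      (c : ℝ) ^ (4 * ν) * ((G.coeff j : ℤ) : ℝ) := by
    exact_mod_cast h1
  have hc' : (c : ℝ) ≠ 0 := by exact_mod_cast hc
  rw [zpow_sub₀ hc', zpow_natCast, zpow_natCast]
  have h3 : (c : ℝ) ^ (4 * ν) ≠ 0 := pow_ne_zero _ hc'
  rw [← mul_div_assoc, div_eq_iff h3]
  linarith

private theorem dv2_two (ν s j : ℕ) : ∃ g : ℤ, (2 : ℝ) ^ ν *
    (((WW ν s).coeff j : ℤ) : ℝ) *
      ((2 : ℤ) : ℝ) ^ ((j : ℤ) - ((4 * ν : ℕ) : ℤ)) = g := by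
  obtain ⟨G, hG⟩ := dv2_comp ν s 2 2 1 2 4 (X - 1) (2 * X - 3) (X - 2)
    (by simp only [show (C (2 : ℤ) : ℤ[X]) = 2 from rfl]; ring)
    (by simp only [show (C (2 : ℤ) : ℤ[X]) = 2 from rfl, C_1]; ring)
    (by simp only [show (C (2 : ℤ) : ℤ[X]) = 2 from rfl]; ring) (by norm_num)
  exact dv2_int ν s 2 (by norm_num) G hG j

private theorem dv2_three (ν s j : ℕ) : ∃ g : ℤ, (2 : ℝ) ^ ν *
    (((WW ν s).coeff j : ℤ) : ℝ) *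
      ((3 : ℤ) : ℝ) ^ ((j : ℤ) - ((4 * ν : ℕ) : ℤ)) = g := by
  obtain ⟨G, hG⟩ := dv2_comp ν s 3 1 3 1 2 (3 * X - 2) (X - 1) (3 * X - 4)
    (by simp only [show (C (3 : ℤ) : ℤ[X]) = 3 from rfl, C_1]; ring)
    (by simp only [show (C (3 : ℤ) : ℤ[X]) = 3 from rfl]; ring)
    (by simp only [show (C (3 : ℤ) : ℤ[X]) = 3 from rfl, C_1]; ring) (by norm_num)
  exact dv2_int ν s 3 (by norm_num) G hG j

private theorem dv2_four (ν s j : ℕ) : ∃ g : ℤ, (2 : ℝ) ^ ν *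
    (((WW ν s).coeff j : ℤ) : ℝ) *
      ((4 : ℤ) : ℝ) ^ ((j : ℤ) - ((4 * ν : ℕ) : ℤ)) = g := by
  obtain ⟨G, hG⟩ := dv2_comp ν s 4 2 1 4 1 (2 * X - 1) (4 * X - 3) (X - 1)
    (by simp only [show (C (4 : ℤ) : ℤ[X]) = 4 from rfl, show (C (2 : ℤ) : ℤ[X]) = 2 from rfl]
        ring)
    (by simp only [show (C (4 : ℤ) : ℤ[X]) = 4 from rfl, C_1]; ring)
    (by simp only [show (C (4 : ℤ) : ℤ[X]) = 4 from rfl]; ring) (by norm_num)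
  exact dv2_int ν s 4 (by norm_num) G hG j

private theorem dv2_deg (ν s : ℕ) : (WW ν s : ℤ[X]).natDegree < 9 * ν + s + 1 := by
  have h2 : ((X - 2 : ℤ[X]) ^ (3 * ν)).natDegree ≤ 3 * ν * 1 :=
    natDegree_pow_le.trans (Nat.mul_le_mul_left _ (by compute_degree))
  have h3 : ((X - 3 : ℤ[X]) ^ (4 * ν)).natDegree ≤ 4 * ν * 1 :=
    natDegree_pow_le.trans (Nat.mul_le_mul_left _ (by compute_degree))
  have h4 : ((X - 4 : ℤ[X]) ^ (2 * ν)).natDegree ≤ 2 * ν * 1 :=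
    natDegree_pow_le.trans (Nat.mul_le_mul_left _ (by compute_degree))
  have h5 : (X ^ s : ℤ[X]).natDegree ≤ s := natDegree_X_pow_le s
  have h6 := natDegree_mul_le (p := (X - 2 : ℤ[X]) ^ (3 * ν) * (X - 3) ^ (4 * ν) *
    (X - 4) ^ (2 * ν)) (q := (X ^ s : ℤ[X]))
  have h7 := natDegree_mul_le (p := (X - 2 : ℤ[X]) ^ (3 * ν) * (X - 3) ^ (4 * ν))
    (q := (X - 4 : ℤ[X]) ^ (2 * ν))
  have h8 := natDegree_mul_le (p := (X - 2 : ℤ[X]) ^ (3 * ν)) (q := (X - 3 : ℤ[X]) ^ (4 * ν))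
  unfold WW
  omega

private theorem dv2_eval (ν s : ℕ) (y : ℝ) :
    (y - 2) ^ (3 * ν) * (y - 3) ^ (4 * ν) * (y - 4) ^ (2 * ν) * y ^ s =
    ∑ j ∈ range (9 * ν + s + 1), (((WW ν s).coeff j : ℤ) : ℝ) * y ^ j := by
  have h := eval₂_eq_sum_range' (Int.castRingHom ℝ) (dv2_deg ν s) y
  have h1 : eval₂ (Int.castRingHom ℝ) y (WW ν s) =
      (y - 2) ^ (3 * ν) * (y - 3) ^ (4 * ν) * (y - 4) ^ (2 * ν) * y ^ s := by
    simp only [WW, eval₂_mul, eval₂_sub, eval₂_pow, eval₂_X, eval₂_ofNat]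
  rw [← h1, h]
  simp

private theorem dv2_mono (j m : ℕ) (a b : ℝ) (ha : 0 < a) (hab : a ≤ b) :
    ∫ y in a..b, y ^ j / y ^ (m + 1) =
      if j = m then Real.log (b / a)
      else (b ^ ((j : ℤ) - (m : ℤ)) - a ^ ((j : ℤ) - (m : ℤ))) / (((j : ℤ) - (m : ℤ) : ℤ) : ℝ) := by
  have h0 : (0 : ℝ) ∉ Set.uIcc a b := by
    rw [Set.uIcc_of_le hab]
    exact fun h => absurd h.1 (not_le.2 ha)
  have hne : ∀ y ∈ Set.uIcc a b, y ≠ 0 := fun y hy h => h0 (h ▸ hy)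
  by_cases h : j = m
  · subst h
    rw [if_pos rfl, ← integral_inv h0]
    refine intervalIntegral.integral_congr fun y hy => ?_
    have := hne y hy
    show y ^ j / y ^ (j + 1) = y⁻¹
    rw [pow_succ]
    field_simp
  · rw [if_neg h]
    have e : ∫ y in a..b, y ^ j / y ^ (m + 1) = ∫ y in a..b, y ^ ((j : ℤ) - (m : ℤ) - 1) := by
      refine intervalIntegral.integral_congr fun y hy => ?_
      have := hne y hy
      show y ^ j / y ^ (m + 1) = y ^ ((j : ℤ) - (m : ℤ) - 1)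
      rw [zpow_sub_one₀ this, zpow_sub₀ this, zpow_natCast, zpow_natCast, pow_succ]
      field_simp
    rw [e, integral_zpow (Or.inr ⟨by omega, h0⟩)]
    rw [sub_add_cancel]
    congr 1
    push_cast
    ring

private theorem dv2_KK (ν s : ℕ) (a b : ℝ) (ha : 0 < a) (hab : a ≤ b) :
    KK ν s a b = ∑ j ∈ range (9 * ν + s + 1), (((WW ν s).coeff j : ℤ) : ℝ) *
      if j = 4 * ν then Real.log (b / a)
      else (b ^ ((j : ℤ) - ((4 * ν : ℕ) : ℤ)) - a ^ ((j : ℤ) - ((4 * ν : ℕ) : ℤ))) /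
        (((j : ℤ) - ((4 * ν : ℕ) : ℤ) : ℤ) : ℝ) := by
  have h0 : (0 : ℝ) ∉ Set.uIcc a b := by
    rw [Set.uIcc_of_le hab]
    exact fun h => absurd h.1 (not_le.2 ha)
  have hne : ∀ y ∈ Set.uIcc a b, y ≠ 0 := fun y hy h => h0 (h ▸ hy)
  unfold KK
  simp only [dv2_eval, Finset.sum_div, mul_div_assoc]
  rw [intervalIntegral.integral_finsetSum]
  · refine Finset.sum_congr rfl fun j _ => ?_
    rw [intervalIntegral.integral_const_mul, dv2_mono j (4 * ν) a b ha hab]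
  · intro j _
    refine ContinuousOn.intervalIntegrable ?_
    refine ContinuousOn.mul continuousOn_const ?_
    exact ContinuousOn.div (continuousOn_id.pow j) (continuousOn_id.pow _)
      fun y hy => pow_ne_zero _ (hne y hy)

private theorem dv2_main (ν s : ℕ) (hs : s ≤ 2) (a b : ℤ) (ha : 0 < a) (hab : a ≤ b)
    (hA : ∀ j : ℕ, ∃ g : ℤ, (2 : ℝ) ^ ν * (((WW ν s).coeff j : ℤ) : ℝ) *
      (a : ℝ) ^ ((j : ℤ) - ((4 * ν : ℕ) : ℤ)) = g)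
    (hB : ∀ j : ℕ, ∃ g : ℤ, (2 : ℝ) ^ ν * (((WW ν s).coeff j : ℤ) : ℝ) *
      (b : ℝ) ^ ((j : ℤ) - ((4 * ν : ℕ) : ℤ)) = g) :
    ∃ N : ℤ, (D2 ν : ℝ) * KK ν s a b =
      (D2 ν : ℝ) * (c2 ν s : ℝ) * Real.log ((b : ℝ) / a) + N := by
  have ha' : (0 : ℝ) < a := by exact_mod_cast ha
  have hab' : (a : ℝ) ≤ b := by exact_mod_cast hab
  have hterm : ∀ j ∈ (range (9 * ν + s + 1)).erase (4 * ν), ∃ N : ℤ,
      (D2 ν : ℝ) * ((((WW ν s).coeff j : ℤ) : ℝ) *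
      if j = 4 * ν then Real.log ((b : ℝ) / a)
      else ((b : ℝ) ^ ((j : ℤ) - ((4 * ν : ℕ) : ℤ)) - (a : ℝ) ^ ((j : ℤ) - ((4 * ν : ℕ) : ℤ))) /
        (((j : ℤ) - ((4 * ν : ℕ) : ℤ) : ℤ) : ℝ)) = N := by
    intro j hj
    rw [mem_erase, mem_range] at hj
    obtain ⟨gA, hgA⟩ := hA j
    obtain ⟨gB, hgB⟩ := hB j
    have hd0 : (j : ℤ) - ((4 * ν : ℕ) : ℤ) ≠ 0 := by
      have := hj.1
      omega
    have hdv : ((j : ℤ) - ((4 * ν : ℕ) : ℤ)) ∣ ((Nat.lcmUpto (5 * ν + 2) : ℕ) : ℤ) := by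
      rw [← Int.natAbs_dvd_natAbs, Int.natAbs_natCast]
      have h1 : 1 ≤ ((j : ℤ) - ((4 * ν : ℕ) : ℤ)).natAbs := by
        have := Int.natAbs_pos.2 hd0
        omega
      have h2 : ((j : ℤ) - ((4 * ν : ℕ) : ℤ)).natAbs ≤ 5 * ν + 2 := by omega
      exact Finset.dvd_lcm (f := id) (mem_Icc.2 ⟨h1, h2⟩)
    obtain ⟨k, hk⟩ := hdv
    refine ⟨(gB - gA) * k, ?_⟩
    have hd0' : (((j : ℤ) - ((4 * ν : ℕ) : ℤ) : ℤ) : ℝ) ≠ 0 := by exact_mod_cast hd0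
    have hD2 : (D2 ν : ℝ) = (2 : ℝ) ^ ν * ((((j : ℤ) - ((4 * ν : ℕ) : ℤ) : ℤ) : ℝ) * (k : ℝ)) := by
      have h1 : ((Nat.lcmUpto (5 * ν + 2) : ℕ) : ℝ) =
          (((j : ℤ) - ((4 * ν : ℕ) : ℤ) : ℤ) : ℝ) * (k : ℝ) := by
        have h2 := congrArg (fun z : ℤ => (z : ℝ)) hk
        simp only [Int.cast_mul] at h2
        rw [← h2]
        simp
      rw [← h1]
      simp [D2]
    rw [if_neg hj.1, hD2]
    generalize (((j : ℤ) - ((4 * ν : ℕ) : ℤ) : ℤ) : ℝ) = d at hd0'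
    push_cast
    rw [← hgA, ← hgB]
    push_cast
    field_simp

  choose! N hN using hterm
  refine ⟨∑ j ∈ (range (9 * ν + s + 1)).erase (4 * ν), N j, ?_⟩
  rw [dv2_KK ν s a b ha' hab', Finset.mul_sum]
  rw [← Finset.add_sum_erase (range (9 * ν + s + 1)) _ (a := 4 * ν) (by rw [mem_range]; omega)]
  rw [Finset.sum_congr rfl hN, if_pos rfl]
  rw [Int.cast_sum]
  congr 1
  rw [c2]
  ring

theorem thm_DV2 : St_DV2 := by
  intro ν s hs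
  refine ⟨?_, ?_⟩
  · have h := dv2_main ν s hs 2 3 (by norm_num) (by norm_num) (dv2_two ν s) (dv2_three ν s)
    simpa using h
  · have h := dv2_main ν s hs 3 4 (by norm_num) (by norm_num) (dv2_three ν s) (dv2_four ν s)
    simpa using h

end Pool.Agent.CPC
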