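import Pool.Agent.CPC.St2

/-!
# CPC: an explicit bound for the least common multiple of `1, ..., n` (Hanson's method)
-/

set_option autoImplicit false

namespace Pool.Agent.CPC

open Finset

open ArithmeticFunction in
/-- `∑ d ≤ n, Λ d` -/
private noncomputable def exl_P (n : ℕ) : ℝ := ∑ d ∈ Ioc 0 n, vonMangoldt d

private lemma exl_P_eq (n : ℕ) : exl_P n = Real.log (Nat.lcmUpto n) := by
  rw [← Chebyshev.psi_eq_log_lcmUpto, Chebyshev.psi, Nat.floor_natCast, exl_P]

open ArithmeticFunction in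
private lemma exl_fac (N : ℕ) : ∀ n ≤ N, Real.log (n.factorial : ℝ) =
    ∑ d ∈ Ioc 0 N, vonMangoldt d * ((n / d : ℕ) : ℝ) := by
  intro n
  induction n with
  | zero => intro _; simp
  | succ n ih =>
    intro hn
    have h1 : Real.log ((n + 1).factorial : ℝ) = Real.log ((n + 1 : ℕ) : ℝ) +
        Real.log (n.factorial : ℝ) := by
      rw [Nat.factorial_succ, Nat.cast_mul, Real.log_mul (by positivity) (by positivity)]
    rw [h1, ih (by omega)]
    have h2 : ∀ d ∈ Ioc 0 N, vonMangoldt d * (((n + 1) / d : ℕ) : ℝ) =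
        (if d ∣ n + 1 then vonMangoldt d else 0) + vonMangoldt d * ((n / d : ℕ) : ℝ) := by
      intro d hd
      rw [Nat.succ_div]
      split_ifs with h3
      · push_cast; ring
      · simp
    rw [sum_congr rfl h2, sum_add_distrib]
    congr 1
    rw [← vonMangoldt_sum, ← sum_filter]
    refine sum_congr ?_ fun _ _ => rfl
    ext d
    simp only [Nat.mem_divisors, mem_filter, mem_Ioc]
    constructor
    · rintro ⟨h3, _⟩
      exact ⟨⟨Nat.pos_of_dvd_of_pos h3 (by omega), (Nat.le_of_dvd (by omega) h3).trans hn⟩, h3⟩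
    · rintro ⟨_, h3⟩
      exact ⟨h3, by omega⟩

open ArithmeticFunction in
private lemma exl_step (n : ℕ) : exl_P n ≤ exl_P (n / 1806) +
    (Real.log (n.factorial : ℝ) - Real.log ((n / 2).factorial : ℝ)
      - Real.log ((n / 3).factorial : ℝ) - Real.log ((n / 7).factorial : ℝ)
      - Real.log ((n / 43).factorial : ℝ) - Real.log ((n / 1806).factorial : ℝ)) := by
  rw [exl_fac n n le_rfl, exl_fac n (n / 2) (Nat.div_le_self _ _),
    exl_fac n (n / 3) (Nat.div_le_self _ _), exl_fac n (n / 7) (Nat.div_le_self _ _),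
    exl_fac n (n / 43) (Nat.div_le_self _ _), exl_fac n (n / 1806) (Nat.div_le_self _ _),
    ← sum_sub_distrib, ← sum_sub_distrib, ← sum_sub_distrib, ← sum_sub_distrib,
    ← sum_sub_distrib]
  have h1 : exl_P (n / 1806) = ∑ d ∈ Ioc 0 n, if d ≤ n / 1806 then vonMangoldt d else 0 := by
    rw [exl_P, ← sum_filter]
    refine sum_congr ?_ fun _ _ => rfl
    ext d
    simp only [mem_filter, mem_Ioc]
    have h2 := Nat.div_le_self n 1806
    omega
  rw [h1, ← sum_add_distrib, exl_P]
  refine sum_le_sum fun d hd => ?_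
  rw [mem_Ioc] at hd
  have hL : (0 : ℝ) ≤ vonMangoldt d := vonMangoldt_nonneg
  rw [Nat.div_right_comm n 2 d, Nat.div_right_comm n 3 d, Nat.div_right_comm n 7 d,
    Nat.div_right_comm n 43 d, Nat.div_right_comm n 1806 d]
  set q := n / d with hq
  have q1 : 1 ≤ q := (Nat.one_le_div_iff hd.1).2 hd.2
  have e2 : 2 * (q / 2) ≤ q := Nat.mul_div_le q 2
  have e3 : 3 * (q / 3) ≤ q := Nat.mul_div_le q 3
  have e7 : 7 * (q / 7) ≤ q := Nat.mul_div_le q 7
  have e43 : 43 * (q / 43) ≤ q := Nat.mul_div_le q 43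
  have e1806 : 1806 * (q / 1806) ≤ q := Nat.mul_div_le q 1806
  generalize q / 2 = a2 at *
  generalize q / 3 = a3 at *
  generalize q / 7 = a7 at *
  generalize q / 43 = a43 at *
  have key : (if d ≤ n / 1806 then (0 : ℝ) else 1) ≤
      (q : ℝ) - (a2 : ℝ) - (a3 : ℝ) - (a7 : ℝ) - (a43 : ℝ) - ((q / 1806 : ℕ) : ℝ) := by
    split_ifs with h2
    · have h3 : a2 + a3 + a7 + a43 + q / 1806 ≤ q := by
        generalize q / 1806 = b at *
        omega
      have h4 : ((a2 + a3 + a7 + a43 + q / 1806 : ℕ) : ℝ) ≤ (q : ℝ) := by exact_mod_cast h3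
      push_cast at h4
      linarith
    · have h5 : q < 1806 := by
        rw [hq, Nat.div_lt_iff_lt_mul hd.1]
        have h6 : n / 1806 < d := by omega
        rw [Nat.div_lt_iff_lt_mul (by norm_num)] at h6
        omega
      have h6 : q / 1806 = 0 := Nat.div_eq_of_lt h5
      rw [h6]
      have h3 : a2 + a3 + a7 + a43 + 1 ≤ q := by omega
      have h4 : ((a2 + a3 + a7 + a43 + 1 : ℕ) : ℝ) ≤ (q : ℝ) := by exact_mod_cast h3
      push_cast at h4
      push_cast
      linarith
  have h7 := mul_le_mul_of_nonneg_left key hL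
  split_ifs at h7 ⊢ with h8
  · nlinarith
  · nlinarith

private lemma exl_F (m n : ℕ) (x y : ℝ) (hx : 0 ≤ x) (hy : 0 ≤ y) :
    x ^ m / (m.factorial : ℝ) * (y ^ n / (n.factorial : ℝ)) ≤
      (x + y) ^ (m + n) / ((m + n).factorial : ℝ) := by
  have h1 : x ^ m * y ^ n * ((m + n).choose m : ℝ) ≤ (x + y) ^ (m + n) := by
    rw [add_pow]
    have h2 := single_le_sum (f := fun k => x ^ k * y ^ (m + n - k) * ((m + n).choose k : ℝ))
      (s := range (m + n + 1)) (fun k _ => by positivity) (mem_range.2 (by omega : m < m + n + 1))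
    simpa using h2
  have h3 : ((m + n).choose m : ℝ) * (m.factorial : ℝ) * (n.factorial : ℝ) =
      ((m + n).factorial : ℝ) := by
    rw [Nat.choose_symm_add]
    exact_mod_cast Nat.add_choose_mul_factorial_mul_factorial m n
  have hm : (0 : ℝ) < (m.factorial : ℝ) := by exact_mod_cast m.factorial_pos
  have hn : (0 : ℝ) < (n.factorial : ℝ) := by exact_mod_cast n.factorial_pos
  have hc : (0 : ℝ) < ((m + n).choose m : ℝ) := by
    exact_mod_cast Nat.choose_pos (Nat.le_add_right m n)
  rw [← h3, div_mul_div_comm, div_le_div_iff₀ (by positivity) (by positivity)]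
  calc x ^ m * y ^ n * (((m + n).choose m : ℝ) * (m.factorial : ℝ) * (n.factorial : ℝ))
      = (x ^ m * y ^ n * ((m + n).choose m : ℝ)) * ((m.factorial : ℝ) * (n.factorial : ℝ)) := by
        ring
    _ ≤ (x + y) ^ (m + n) * ((m.factorial : ℝ) * (n.factorial : ℝ)) :=
        mul_le_mul_of_nonneg_right h1 (by positivity)

private lemma exl_logF (m a : ℕ) (ha : 0 < a) :
    Real.log ((1 / (a : ℝ)) ^ m / (m.factorial : ℝ)) =
      -(m * Real.log a) - Real.log (m.factorial : ℝ) := by
  have ha' : (0 : ℝ) < a := by exact_mod_cast ha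
  rw [Real.log_div (by positivity) (by positivity), Real.log_pow, one_div, Real.log_inv]
  ring

private lemma exl_multi (m2 m3 m7 m43 m1806 : ℕ) :
    Real.log ((m2 + m3 + m7 + m43 + m1806).factorial : ℝ) ≤
      Real.log (m2.factorial : ℝ) + Real.log (m3.factorial : ℝ) + Real.log (m7.factorial : ℝ)
      + Real.log (m43.factorial : ℝ) + Real.log (m1806.factorial : ℝ)
      + (m2 * Real.log (2 : ℕ) + m3 * Real.log (3 : ℕ) + m7 * Real.log (7 : ℕ)
      + m43 * Real.log (43 : ℕ) + m1806 * Real.log (1806 : ℕ)) := by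
  have e1 := exl_F m2 m3 (1 / (2 : ℕ)) (1 / (3 : ℕ)) (by positivity) (by positivity)
  have e2 := exl_F (m2 + m3) m7 (1 / (2 : ℕ) + 1 / (3 : ℕ)) (1 / (7 : ℕ)) (by positivity)
    (by positivity)
  have e3 := exl_F (m2 + m3 + m7) m43 (1 / (2 : ℕ) + 1 / (3 : ℕ) + 1 / (7 : ℕ)) (1 / (43 : ℕ))
    (by positivity) (by positivity)
  have e4 := exl_F (m2 + m3 + m7 + m43) m1806
    (1 / (2 : ℕ) + 1 / (3 : ℕ) + 1 / (7 : ℕ) + 1 / (43 : ℕ)) (1 / (1806 : ℕ))
    (by positivity) (by positivity)
  have p3 : (0 : ℝ) ≤ (1 / ((3 : ℕ) : ℝ)) ^ m3 / (m3.factorial : ℝ) := by positivity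
  have p7 : (0 : ℝ) ≤ (1 / ((7 : ℕ) : ℝ)) ^ m7 / (m7.factorial : ℝ) := by positivity
  have p43 : (0 : ℝ) ≤ (1 / ((43 : ℕ) : ℝ)) ^ m43 / (m43.factorial : ℝ) := by positivity
  have p1806 : (0 : ℝ) ≤ (1 / ((1806 : ℕ) : ℝ)) ^ m1806 / (m1806.factorial : ℝ) := by positivity
  have e5 := ((mul_le_mul_of_nonneg_right ((mul_le_mul_of_nonneg_right
    ((mul_le_mul_of_nonneg_right e1 p7).trans e2) p43).trans e3) p1806).trans e4)
  have hone : (1 / ((2 : ℕ) : ℝ) + 1 / ((3 : ℕ) : ℝ) + 1 / ((7 : ℕ) : ℝ) + 1 / ((43 : ℕ) : ℝ)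
      + 1 / ((1806 : ℕ) : ℝ)) = 1 := by norm_num
  rw [hone, one_pow] at e5
  have e6 := Real.log_le_log (by positivity) e5
  rw [Real.log_mul (by positivity) (by positivity), Real.log_mul (by positivity) (by positivity),
    Real.log_mul (by positivity) (by positivity), Real.log_mul (by positivity) (by positivity),
    exl_logF m2 2 (by norm_num), exl_logF m3 3 (by norm_num), exl_logF m7 7 (by norm_num),
    exl_logF m43 43 (by norm_num), exl_logF m1806 1806 (by norm_num),
    one_div, Real.log_inv] at e6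
  linarith

private lemma exl_num : 1806 * (Real.log 2 / 2 + Real.log 3 / 3 + Real.log 7 / 7
    + Real.log 43 / 43 + Real.log 1806 / 1806) ≤ 1806 * Real.log (2.952) := by
  have h0 : (2 ^ 903 * 3 ^ 602 * 7 ^ 258 * 43 ^ 42 * 1806 * 1000 ^ 1806 : ℕ) ≤ 2952 ^ 1806 := by
    decide +kernel
  have h1 : (((2 ^ 903 * 3 ^ 602 * 7 ^ 258 * 43 ^ 42 * 1806 * 1000 ^ 1806 : ℕ)) : ℝ) ≤
      ((2952 ^ 1806 : ℕ) : ℝ) := by exact_mod_cast h0
  rw [Nat.cast_mul, Nat.cast_mul, Nat.cast_mul, Nat.cast_mul, Nat.cast_mul, Nat.cast_pow,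
    Nat.cast_pow, Nat.cast_pow, Nat.cast_pow, Nat.cast_pow, Nat.cast_pow] at h1
  have h2 := Real.log_le_log (by positivity) h1
  rw [Real.log_mul (by positivity) (by positivity), Real.log_mul (by positivity) (by positivity),
    Real.log_mul (by positivity) (by positivity), Real.log_mul (by positivity) (by positivity),
    Real.log_mul (by positivity) (by positivity), Real.log_pow, Real.log_pow, Real.log_pow,
    Real.log_pow, Real.log_pow, Real.log_pow] at h2
  have h3 : Real.log (2.952) = Real.log 2952 - Real.log 1000 := by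
    rw [← Real.log_div (by norm_num) (by norm_num)]
    norm_num
  rw [h3]
  push_cast at h2
  linarith

private lemma exl_fact (n k : ℕ) (hn : 1 ≤ n + k) (hk : k ≤ 4) :
    Real.log ((n + k).factorial : ℝ) ≤ Real.log (n.factorial : ℝ) + 4 * Real.log ((n + k : ℕ) : ℝ) := by
  have h1 : (n + k).factorial ≤ n.factorial * (n + k) ^ 4 := by
    rw [← Nat.factorial_mul_ascFactorial]
    refine Nat.mul_le_mul_left _ ((Nat.ascFactorial_le_pow_add n k).trans ?_)
    exact Nat.pow_le_pow_right hn hk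
  have h2 : ((n + k).factorial : ℝ) ≤ (n.factorial : ℝ) * ((n + k : ℕ) : ℝ) ^ 4 := by
    exact_mod_cast h1
  have h3 : (0 : ℝ) < ((n + k : ℕ) : ℝ) := by exact_mod_cast hn
  have h4 := Real.log_le_log (by positivity) h2
  rw [Real.log_mul (by positivity) (by positivity), Real.log_pow] at h4
  push_cast at h4 ⊢
  linarith

private lemma exl_rec (n : ℕ) (hn : 1 ≤ n) :
    exl_P n ≤ exl_P (n / 1806) + 4 * Real.log n + n * Real.log (2.952) := by
  have h1 := exl_step n
  have g2 : n ≤ 2 * (n / 2) + 1 := by omega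
  have g3 : n ≤ 3 * (n / 3) + 2 := by omega
  have g7 : n ≤ 7 * (n / 7) + 6 := by omega
  have g43 : n ≤ 43 * (n / 43) + 42 := by omega
  have g1806 : n ≤ 1806 * (n / 1806) + 1805 := by omega
  have l2 : 2 * (n / 2) ≤ n := Nat.mul_div_le n 2
  have l3 : 3 * (n / 3) ≤ n := Nat.mul_div_le n 3
  have l7 : 7 * (n / 7) ≤ n := Nat.mul_div_le n 7
  have l43 : 43 * (n / 43) ≤ n := Nat.mul_div_le n 43
  have l1806 : 1806 * (n / 1806) ≤ n := Nat.mul_div_le n 1806
  generalize exl_P (n / 1806) = P0 at *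
  generalize n / 2 = m2 at *
  generalize n / 3 = m3 at *
  generalize n / 7 = m7 at *
  generalize n / 43 = m43 at *
  generalize n / 1806 = m1806 at *
  obtain ⟨k, hk, hnk⟩ : ∃ k ≤ 4, n = (m2 + m3 + m7 + m43 + m1806) + k := by
    refine ⟨n - (m2 + m3 + m7 + m43 + m1806), ?_, ?_⟩
    · omega
    · omega
  have h2 := exl_fact (m2 + m3 + m7 + m43 + m1806) k (by omega) hk
  rw [← hnk] at h2
  have h3 := exl_multi m2 m3 m7 m43 m1806
  have h4 := exl_num
  have c2 : (2 : ℝ) * m2 ≤ n := by exact_mod_cast l2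
  have c3 : (3 : ℝ) * m3 ≤ n := by exact_mod_cast l3
  have c7 : (7 : ℝ) * m7 ≤ n := by exact_mod_cast l7
  have c43 : (43 : ℝ) * m43 ≤ n := by exact_mod_cast l43
  have c1806 : (1806 : ℝ) * m1806 ≤ n := by exact_mod_cast l1806
  have t2 : (0 : ℝ) ≤ Real.log 2 := Real.log_nonneg (by norm_num)
  have t3 : (0 : ℝ) ≤ Real.log 3 := Real.log_nonneg (by norm_num)
  have t7 : (0 : ℝ) ≤ Real.log 7 := Real.log_nonneg (by norm_num)
  have t43 : (0 : ℝ) ≤ Real.log 43 := Real.log_nonneg (by norm_num)
  have t1806 : (0 : ℝ) ≤ Real.log 1806 := Real.log_nonneg (by norm_num)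
  have u2 := mul_le_mul_of_nonneg_right c2 t2
  have u3 := mul_le_mul_of_nonneg_right c3 t3
  have u7 := mul_le_mul_of_nonneg_right c7 t7
  have u43 := mul_le_mul_of_nonneg_right c43 t43
  have u1806 := mul_le_mul_of_nonneg_right c1806 t1806
  have hn0 : (0 : ℝ) ≤ n := Nat.cast_nonneg n
  have h5 : (n : ℝ) * (Real.log 2 / 2 + Real.log 3 / 3 + Real.log 7 / 7
    + Real.log 43 / 43 + Real.log 1806 / 1806) ≤ n * Real.log (2.952) :=
    mul_le_mul_of_nonneg_left (by linarith) hn0
  push_cast at h3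
  linarith

private lemma exl_tan (x a : ℝ) (hx : 0 < x) (ha : 0 < a) :
    Real.log x ≤ Real.log a + x / a - 1 := by
  have h1 := Real.log_le_sub_one_of_pos (div_pos hx ha)
  rw [Real.log_div hx.ne' ha.ne'] at h1
  linarith

private lemma exl_gap : Real.log (2.952) + 0.016 ≤ Real.log 3 := by
  have h1 := Real.log_le_sub_one_of_pos (show (0 : ℝ) < 0.984 by norm_num)
  have h2 : Real.log (2.952) = Real.log 3 + Real.log (0.984) := by
    rw [← Real.log_mul (by norm_num) (by norm_num)]
    norm_num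
  rw [h2]
  linarith

private lemma exl_main (n : ℕ) : exl_P n ≤ 8 * Real.log 10 + n * Real.log 3 := by
  have hl10 : 0 ≤ Real.log 10 := Real.log_nonneg (by norm_num)
  have hl3 : 0 ≤ Real.log 3 := Real.log_nonneg (by norm_num)
  induction n using Nat.strong_induction_on with
  | _ n ih =>
    rcases Nat.eq_zero_or_pos n with h0 | h0
    · subst h0
      rw [exl_P_eq]
      have : Nat.lcmUpto 0 = 1 := by simp [Nat.lcmUpto]
      rw [this]
      simp only [Nat.cast_one, Real.log_one, Nat.cast_zero, zero_mul, add_zero]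
      positivity
    · have h1 := exl_rec n h0
      have hnR : (0 : ℝ) < n := by exact_mod_cast h0
      have hg := mul_le_mul_of_nonneg_left exl_gap hnR.le
      rcases Nat.lt_or_ge n 3612 with h2 | h2
      · have h3 : exl_P (n / 1806) = 0 := by
          have h4 : n / 1806 ≤ 1 := by omega
          rw [exl_P_eq, ← Chebyshev.psi_eq_log_lcmUpto]
          exact Chebyshev.psi_eq_zero_of_le_one (by exact_mod_cast h4)
        rw [h3] at h1
        have h5 := exl_tan n 250 hnR (by norm_num)
        have h6 : Real.log 250 ≤ 1 + 2 * Real.log 10 := by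
          have h7 : Real.log 250 = Real.log 2.5 + 2 * Real.log 10 := by
            rw [show (2 : ℝ) * Real.log 10 = Real.log (10 ^ 2) by rw [Real.log_pow]; norm_num,
              ← Real.log_mul (by norm_num) (by norm_num)]
            norm_num
          have h8 : Real.log 2.5 ≤ 1 := by
            rw [Real.log_le_iff_le_exp (by norm_num)]
            exact le_trans (by norm_num) Real.exp_one_gt_d9.le
          linarith
        linarith
      · have h3 := ih (n / 1806) (Nat.div_lt_self h0 (by norm_num))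
        have h4 : ((n / 1806 : ℕ) : ℝ) ≤ n / 1806 := Nat.cast_div_le
        have h5 := mul_le_mul_of_nonneg_right h4 hl3
        have h6 : Real.log 3 ≤ 1.2 := by
          have h7 : Real.log 3 = Real.log 2 + Real.log 1.5 := by
            rw [← Real.log_mul (by norm_num) (by norm_num)]
            norm_num
          have h8 := Real.log_two_lt_d9
          have h9 := Real.log_le_sub_one_of_pos (show (0 : ℝ) < 1.5 by norm_num)
          have h10 : (2 : ℕ) * Real.log 1.5 = Real.log (1.5 ^ 2) := by rw [Real.log_pow]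
          have h11 : Real.log (1.5 ^ 2) = Real.log 2 + Real.log 1.125 := by
            rw [← Real.log_mul (by norm_num) (by norm_num)]
            norm_num
          have h12 := Real.log_le_sub_one_of_pos (show (0 : ℝ) < 1.125 by norm_num)
          push_cast at h10
          linarith
        have h7 := exl_tan n 1024 hnR (by norm_num)
        have h8 : Real.log 1024 ≤ 6.932 := by
          have h9 : Real.log 1024 = 10 * Real.log 2 := by
            rw [show (1024 : ℝ) = 2 ^ 10 by norm_num, Real.log_pow]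
            norm_num
          have h10 := Real.log_two_lt_d9
          linarith
        have h9 : (3612 : ℝ) ≤ n := by exact_mod_cast h2
        have h10 : (n : ℝ) / 1806 * Real.log 3 ≤ n / 1806 * 1.2 :=
          mul_le_mul_of_nonneg_left h6 (by positivity)
        linarith

theorem thm_EXL : St_EXL := by
  intro n
  have h1 := exl_main n
  rw [exl_P_eq] at h1
  have h2 : 8 * Real.log 10 + n * Real.log 3 = Real.log (10 ^ 8 * 3 ^ n) := by
    rw [Real.log_mul (by positivity) (by positivity), Real.log_pow, Real.log_pow]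
    norm_num
  rw [h2, Real.log_le_log_iff (by exact_mod_cast Nat.lcmUpto_pos n) (by positivity)] at h1
  exact_mod_cast h1

end Pool.Agent.CPC
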