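import Pool.Agent.CPC.St2

/-!
# CPC/FDD (helper5): the cycles with at most 14 runs
-/

set_option autoImplicit false
set_option maxRecDepth 100000

namespace Pool.Agent.CPC

open Finset

theorem fdd_pow : (3 : ℕ) ^ 1636 ≤ 2 ^ 2593 := by decide +kernel

theorem fdd_log3 : Real.log 3 ≤ 1.098613 := by
  have h1 : ((3 : ℝ)) ^ 1636 ≤ 2 ^ 2593 := by exact_mod_cast fdd_pow
  have h2 := Real.log_le_log (by positivity) h1
  rw [Real.log_pow, Real.log_pow] at h2
  have h3 := Real.log_two_lt_d9
  push_cast at h2
  norm_num at h2 h3 ⊢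
  linarith

theorem fdd_log2 : 0.6931471803 ≤ Real.log 2 ∧ Real.log 2 ≤ 0.6931471808 :=
  ⟨Real.log_two_gt_d9.le, Real.log_two_lt_d9.le⟩

theorem fdd_diff : 0.28768 ≤ 2 * Real.log 2 - Real.log 3 := by
  have h1 := fdd_log3
  have h2 := fdd_log2.1
  norm_num at h1 h2 ⊢
  linarith

theorem fdd_log3_pos : 0 < Real.log 3 := Real.log_pos (by norm_num)

theorem fdd_theta : Real.log 3 / Real.log 2 ≤ 1.58497 := by
  have h1 := fdd_log3
  have h2 := fdd_log2.1
  rw [div_le_iff₀ (by linarith)]
  norm_num at h1 h2 ⊢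
  linarith

theorem fdd_theta_nonneg : 0 ≤ Real.log 3 / Real.log 2 :=
  div_nonneg fdd_log3_pos.le (by linarith [fdd_log2.1])

theorem fdd_sum (n : ℕ) : ∑ t ∈ range n, (Real.log 3 / Real.log 2) ^ t ≤ ∑ t ∈ range n, (1.58497 : ℝ) ^ t :=
  sum_le_sum fun _ _ => pow_le_pow_left₀ fdd_theta_nonneg fdd_theta _

theorem fdd_sum4 : ∑ t ∈ range 4, (Real.log 3 / Real.log 2) ^ t ≤ 9.08 :=
  (fdd_sum 4).trans (by simp only [sum_range_succ, sum_range_zero]; norm_num)

theorem fdd_sum11 : ∑ t ∈ range 11, (Real.log 3 / Real.log 2) ^ t ≤ 269.5 :=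
  (fdd_sum 11).trans (by simp only [sum_range_succ, sum_range_zero]; norm_num)

theorem fdd_sum12 : ∑ t ∈ range 12, (Real.log 3 / Real.log 2) ^ t ≤ 428.1 :=
  (fdd_sum 12).trans (by simp only [sum_range_succ, sum_range_zero]; norm_num)

theorem fdd_sum14 : ∑ t ∈ range 14, (Real.log 3 / Real.log 2) ^ t ≤ 1078 :=
  (fdd_sum 14).trans (by simp only [sum_range_succ, sum_range_zero]; norm_num)

theorem fdd_log_le (y e : ℕ) (hy : 0 < y) (h : y ≤ 2 ^ e) : Real.log y ≤ e * 0.6931471808 := by
  have h1 : (y : ℝ) ≤ 2 ^ e := by exact_mod_cast h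
  have h2 := Real.log_le_log (by exact_mod_cast hy) h1
  rw [Real.log_pow] at h2
  refine h2.trans ?_
  exact mul_le_mul_of_nonneg_left fdd_log2.2 (Nat.cast_nonneg _)

theorem fdd_odd (x : ℕ) (hx : 0 < x) : f x % 6 = 3 ↔ ¬ 3 ∣ x ∧ 3 ∣ f x := by
  unfold f
  split_ifs <;> omega

theorem fdd_log10 : Real.log 10 ≤ 2.31050 := by
  have h1 : ((10 : ℝ)) ^ 3 ≤ 2 ^ 10 := by norm_num
  have h2 := Real.log_le_log (by positivity) h1
  rw [Real.log_pow, Real.log_pow] at h2
  have h3 := fdd_log2.2
  push_cast at h2
  norm_num at h2 h3 ⊢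
  linarith

theorem thm_FDD (hCYB : St_CYB) (hSBD : St_SBD) (hHG2 : St_HG2) (hCFR : St_CFR) (hMEX : St_MEX) (hTBL : St_TBL)
    (hCK1 : St_CK1) (hCK2 : St_CK2) (hFOU : St_FOU) : St_FDD := by
  intro S hS hm
  obtain ⟨c1, c2, c3, c4, c5, c6⟩ := hCYB
  obtain ⟨⟨f1, -⟩, ⟨f2, -⟩, ⟨f3, -⟩, ⟨f4, -⟩⟩ := hFOU
  have hpos : ∀ x ∈ S, 0 < x := fun x hx => Nat.pos_of_ne_zero fun h => hS.2.1 (h ▸ hx)
  have huse : ∀ T : Finset ℕ, IsCycle T → ∀ z, z ∈ S → z ∈ T → S = T := by
    intro T hT z hz hz'
    rcases c4 S T hS hT with h | h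
    · exact h
    · exact absurd hz' (disjoint_left.1 h hz)
  obtain ⟨y, hy, hmin⟩ : ∃ y ∈ S, ∀ x ∈ S, y ≤ x := ⟨S.min' hS.1, S.min'_mem hS.1, fun x hx => S.min'_le x hx⟩
  rcases Nat.lt_or_ge S.card 2 with hc | hc
  · left
    have h1 : S.card = 1 := by
      have := card_pos.2 hS.1
      omega
    have h2 := (c5 S hS y hy).1
    rw [h1, Function.iterate_one] at h2
    have h3 : y = 1 := by
      have := hpos y hy
      unfold f at h2
      split_ifs at h2 <;> omega
    subst h3
    exact huse _ f1 1 hy (by simp)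
  obtain ⟨s1, s2, s3, -, p, s5⟩ := hSBD S hS hc y hy hmin
  set k := S.card with hk
  obtain ⟨g1, g2⟩ := hHG2 S hS hc y hy hmin
  have hyk := (c5 S hS y hy).1
  have hmem : ∀ j, f^[j] y ∈ S := by
    intro j
    exact (hS.2.2 y hy _).2 ⟨j, rfl⟩
  -- no return before `k`
  have hnoret : ∀ j, 0 < j → j < k → f^[j] y ≠ y := by
    intro j hj1 hj2 h
    obtain ⟨T, hT, hyT, hTc⟩ := c6 y j (hpos y hy) hj1 h
    have := huse T hT y hy hyT
    rw [← this] at hTc
    omega
  have hinj : ∀ a b, a < k → b < k → f^[a] y = f^[b] y → a = b := by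
    have aux : ∀ a b, a ≤ b → b < k → f^[a] y = f^[b] y → a = b := by
      intro a b hab hb h
      by_contra hne
      have hinj2 : ∀ n u v, 0 < u → 0 < v → f^[n] u = f^[n] v → u = v := by
        intro n
        induction n with
        | zero => intro u v _ _ h; exact h
        | succ n ih =>
          intro u v hu hv h
          rw [Function.iterate_succ_apply, Function.iterate_succ_apply] at h
          exact c2 u v hu hv (ih _ _ (c1 u hu) (c1 v hv) h)
      have e : f^[b] y = f^[a] (f^[b - a] y) := by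
        rw [← Function.iterate_add_apply]
        congr 1
        omega
      rw [e] at h
      have := hinj2 a y (f^[b - a] y) (hpos y hy) (hpos _ (hmem _)) h
      exact hnoret (b - a) (by omega) (by omega) this.symm
    intro a b ha hb h
    rcases le_total a b with h1 | h1
    · exact aux a b h1 hb h
    · exact (aux b a h1 ha h.symm).symm
  have hmR : (runs S : ℝ) ≤ 14 := by exact_mod_cast hm
  have hy1 : (1 : ℝ) ≤ (y : ℝ) - 1 := by
    have : (2 : ℝ) ≤ y := by exact_mod_cast s1
    linarith
  have hS5 : |(k : ℝ) * Real.log 3 - p * Real.log 2| ≤ 14 / ((y : ℝ) - 1) :=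
    s5.trans (by gcongr)
  have hk1 : 1 ≤ k := by omega
  obtain ⟨r1, r2, r3, r4, r5⟩ := hCFR k p hk1
  by_cases e2 : y = 2
  · right; left
    exact huse _ f2 2 (e2 ▸ hy) (by simp)
  by_cases e4 : y = 4
  · right; right; left
    exact huse _ f3 4 (e4 ▸ hy) (by simp)
  by_cases e44 : y = 44
  · right; right; right
    exact huse _ f4 44 (e44 ▸ hy) (by simp)
  exfalso
  rcases Nat.lt_or_ge 13700 y with hbig | hsmall
  swap
  · obtain ⟨i, hi1, hi2, hi3⟩ := hCK1 y s1 hsmall s2 s3 e2 e4 e44
    have hik : i < k := by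
      by_contra h
      exact hi2 k (by omega) (by omega) hyk
    rcases hi3 with hi3 | hi3
    · have := hmin _ (hmem i)
      omega
    · have hle : ((Icc 1 i).filter fun j => f^[j] y % 6 = 3).card ≤ runs S := by
        unfold runs
        refine card_le_card_of_injOn (fun j => f^[j - 1] y) ?_ ?_
        · intro j hj
          rw [mem_coe, mem_filter, mem_Icc] at hj
          rw [mem_coe, mem_filter]
          have e : f^[j] y = f (f^[j - 1] y) := by
            rw [← Function.iterate_succ_apply' f (j - 1) y]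
            congr 1
            omega
          rw [e, fdd_odd _ (hpos _ (hmem _))] at hj
          exact ⟨hmem _, hj.2⟩
        · intro a ha b hb hab
          rw [mem_coe, mem_filter, mem_Icc] at ha hb
          have := hinj (a - 1) (b - 1) (by omega) (by omega) hab
          omega
      omega
  -- the search, for larger values
  have hsearch : ∀ t, 200 < k → go2 40 y y t = true →
      t ≤ ((range 200).filter fun j => f^[j + 1] y % 6 = 3).card := by
    intro t hk2 hgo
    rcases hTBL.1 40 y y t hgo with ⟨i, hi1, hi2, hi3⟩ | h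
    · exfalso
      have h1 := hmin _ (hmem i)
      exact hnoret i hi1 (by omega) (by omega)
    · refine h.trans ?_
      refine card_le_card_of_injOn (fun j => j - 1) ?_ ?_
      · intro j hj
        rw [mem_coe, mem_filter, mem_range] at hj
        rw [mem_coe, mem_filter, mem_range]
        have hj0 : j ≠ 0 := by
          rintro rfl
          simp only [Function.iterate_zero, id] at hj
          omega
        have e : j - 1 + 1 = j := by omega
        show j - 1 < 200 ∧ f^[j - 1 + 1] y % 6 = 3
        rw [e]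
        exact ⟨by omega, hj.2⟩
      · intro a ha b hb hab
        rw [mem_coe, mem_filter, mem_range] at ha hb
        have ha0 : a ≠ 0 := by
          rintro rfl
          simp only [Function.iterate_zero, id] at ha
          omega
        have hb0 : b ≠ 0 := by
          rintro rfl
          simp only [Function.iterate_zero, id] at hb
          omega
        simp only at hab
        omega
  have hmod : y % 6 = 2 ∨ y % 6 = 4 := by omega
  have hgo : ∀ t, (go2 40 (6 * (y / 6) + 2) (6 * (y / 6) + 2) t = true ∧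
      go2 40 (6 * (y / 6) + 4) (6 * (y / 6) + 4) t = true) → go2 40 y y t = true := by
    intro t h
    rcases hmod with hm | hm
    · have e : 6 * (y / 6) + 2 = y := by omega
      rw [e] at h
      exact h.1
    · have e : 6 * (y / 6) + 4 = y := by omega
      rw [e] at h
      exact h.2
  have hyR : (13700 : ℝ) < y := by exact_mod_cast hbig
  have hdiff := fdd_diff
  have hyLpos : 0 ≤ Real.log y := Real.log_natCast_nonneg y
  have hrd : (runs S : ℝ) / ((y : ℝ) - 1) ≤ 0.01 := by
    rw [div_le_iff₀ (by linarith)]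
    linarith
  have hthree : ∀ (n t B : ℕ) (s c : ℝ), 14 ≤ n + t → 200 < k → go2 40 y y t = true → 
      ∑ t ∈ range (n + 1), (Real.log 3 / Real.log 2) ^ t ≤ s → Real.log y ≤ c → 0 ≤ s →
      s * c + 0.01 < 0.28768 * ((B : ℝ) - 200) → k < B := by
    intro n t B s c hnt hk2 hgo2 hs hc hs0 hB
    have h1 := g2 200 hk2.le n (by
      have := hsearch t hk2 hgo2
      omega)
    have h2 : (∑ t ∈ range (n + 1), (Real.log 3 / Real.log 2) ^ t) * Real.log y ≤ s * c :=
      mul_le_mul hs hc hyLpos hs0
    have h3 : (0 : ℝ) ≤ (k : ℝ) - 200 := by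
      have : (200 : ℝ) < k := by exact_mod_cast hk2
      linarith
    have h4 : ((k : ℝ) - 200) * 0.28768 ≤ ((k : ℝ) - 200) * (2 * Real.log 2 - Real.log 3) :=
      mul_le_mul_of_nonneg_left hdiff h3
    push_cast at h1
    have h5 : (k : ℝ) < B := by linarith
    exact_mod_cast h5
  rcases Nat.lt_or_ge 320800 y with hb1 | hb1
  swap
  · -- (3)
    have hk665 : 665 ≤ k := by
      by_contra h
      have h1 := r1 (by omega)
      have h2 : 14 / ((y : ℝ) - 1) < 0.0010222 := by
        rw [div_lt_iff₀ (by linarith)]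
        have : (13701 : ℝ) ≤ y := by exact_mod_cast hbig
        norm_num
        linarith
      linarith
    have h1 := hCK2.1 (y / 6) (by omega) (by omega)
    have h2 := fdd_log_le y 19 (by omega) (by norm_num; omega)
    have := hthree 3 11 665 9.08 (19 * 0.6931471808) (by norm_num) (by omega) (hgo 11 h1) fdd_sum4
      (by exact_mod_cast h2) (by norm_num) (by norm_num)
    omega
  rcases Nat.lt_or_ge 769600 y with hb2 | hb2
  swap
  · -- (4)
    have hk665 : 15601 ≤ k := by
      by_contra h
      have h1 := r2 (by omega)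
      have h2 : 14 / ((y : ℝ) - 1) < 0.000043654 := by
        rw [div_lt_iff₀ (by linarith)]
        have : (320801 : ℝ) ≤ y := by exact_mod_cast hb1
        norm_num
        linarith
      linarith
    have h1 := hCK2.2.1 (y / 6) (by omega) (by omega)
    have h2 := fdd_log_le y 20 (by omega) (by norm_num; omega)
    have := hthree 10 4 15601 269.5 (20 * 0.6931471808) (by norm_num) (by omega) (hgo 4 h1) fdd_sum11
      (by exact_mod_cast h2) (by norm_num) (by norm_num)
    omega
  rcases Nat.lt_or_ge 1927100 y with hb3 | hb3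
  swap
  · -- (5)
    have hk665 : 31867 ≤ k := by
      by_contra h
      have h1 := r3 (by omega)
      have h2 : 14 / ((y : ℝ) - 1) < 0.000018194 := by
        rw [div_lt_iff₀ (by linarith)]
        have : (769601 : ℝ) ≤ y := by exact_mod_cast hb2
        norm_num
        linarith
      linarith
    have h1 := hCK2.2.2 (y / 6) (by omega) (by omega)
    have h2 := fdd_log_le y 21 (by omega) (by norm_num; omega)
    have := hthree 11 3 31867 428.1 (21 * 0.6931471808) (by norm_num) (by omega) (hgo 3 h1) fdd_sum12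
      (by exact_mod_cast h2) (by norm_num) (by norm_num)
    omega
  -- (6)
  have hyR3 : (1927101 : ℝ) ≤ y := by exact_mod_cast hb3
  have hkL : (k : ℝ) ≤ 3748 * Real.log y := by
    have hsum : ∑ t ∈ range (runs S), (Real.log 3 / Real.log 2) ^ t ≤ 1078 :=
      (sum_le_sum_of_subset_of_nonneg (range_mono hm) fun _ _ _ => pow_nonneg fdd_theta_nonneg _).trans fdd_sum14
    have h2 : (∑ t ∈ range (runs S), (Real.log 3 / Real.log 2) ^ t) * Real.log y ≤ 1078 * Real.log y :=
      mul_le_mul_of_nonneg_right hsum hyLpos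
    have h4 : (k : ℝ) * 0.28768 ≤ (k : ℝ) * (2 * Real.log 2 - Real.log 3) :=
      mul_le_mul_of_nonneg_left hdiff (Nat.cast_nonneg _)
    have h5 : (1 : ℝ) ≤ Real.log y := by
      rw [Real.le_log_iff_exp_le (by linarith)]
      have := Real.exp_one_lt_d9
      linarith
    norm_num at h4 h2 hrd ⊢
    linarith
  have hk79 : 79335 ≤ k := by
    by_contra h
    have h1 := r4 (by omega)
    have h2 : 14 / ((y : ℝ) - 1) < 0.0000072649 := by
      rw [div_lt_iff₀ (by linarith)]
      norm_num
      linarith
    linarith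
  have hkR79 : (79335 : ℝ) ≤ k := by exact_mod_cast hk79
  have hy9 : (10 : ℝ) ^ 9 ≤ y := by
    by_contra h
    push Not at h
    have h1 := Real.log_le_log (by linarith) h.le
    rw [Real.log_pow] at h1
    have h2 := fdd_log10
    push_cast at h1
    norm_num at h1 h2
    linarith
  have hk39 : 3921942 ≤ k := by
    by_contra h
    have h1 := r5 (by omega)
    have h2 : 14 / ((y : ℝ) - 1) < 0.0000000645 := by
      have hy9' : (1000000000 : ℝ) ≤ y := le_trans (by norm_num) hy9
      rw [div_lt_iff₀ (by linarith)]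
      linarith
    linarith
  have hkR39 : (3921942 : ℝ) ≤ k := by exact_mod_cast hk39
  have hkpos : (0 : ℝ) < k := by linarith
  have hmex := hMEX k hk1 p
  have h15 : 14 / ((y : ℝ) - 1) ≤ 15 / y := by
    rw [div_le_div_iff₀ (by linarith) (by linarith)]
    linarith
  have h16 := hmex.trans (hS5.trans h15)
  rw [div_le_div_iff₀ (by positivity) (by linarith), one_mul] at h16
  have h17 := Real.log_le_log (by linarith) h16
  rw [Real.log_mul (by norm_num) (by positivity), Real.log_mul (by positivity) (by positivity), Real.log_pow,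
    Real.log_pow] at h17
  have hl15 : Real.log 15 ≤ 4 * 0.6931471808 := by
    have := fdd_log_le 15 4 (by norm_num) (by norm_num)
    exact_mod_cast this
  have hlk : Real.log k ≤ 22 * 0.6931471808 + ((k : ℝ) / 3921942 - 1) := by
    have hkd : (0 : ℝ) < (k : ℝ) / 3921942 := div_pos hkpos (by norm_num)
    have e : (k : ℝ) = 3921942 * (k / 3921942) := by ring
    have h1 : Real.log k = Real.log 3921942 + Real.log ((k : ℝ) / 3921942) := by
      rw [← Real.log_mul (by norm_num) hkd.ne', ← e]
    have h2 := Real.log_le_sub_one_of_pos hkd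
    have h3 : Real.log 3921942 ≤ 22 * 0.6931471808 := by
      have := fdd_log_le 3921942 22 (by norm_num) (by norm_num)
      exact_mod_cast this
    linarith
  have h10 := fdd_log10
  push_cast at h17
  norm_num at h17 hl15 hlk h10 hkL
  linarith

end Pool.Agent.CPC
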