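import Pool.Agent.CPC.St2

/-!
# CPC, module HG2: the length of a cycle against the number of runs, sharper
-/

set_option autoImplicit false

namespace Pool.Agent.CPC

open Finset

private theorem hg2_f3 (x : ℕ) (h : 3 ∣ x) : f x = 2 * (x / 3) := by
  obtain ⟨z, rfl⟩ := h
  unfold f
  have : (3 * z) % 3 = 0 := by omega
  rw [if_pos this]
  omega

private theorem hg2_up (x : ℕ) (h : ¬ 3 ∣ x) (h2 : 2 ≤ x) : x < f x := by
  unfold f
  have : x % 3 ≠ 0 := by omega
  rw [if_neg this]
  split_ifs <;> omega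

private theorem hg2_dn (x : ℕ) (h : 3 ∣ x) (h2 : 0 < x) : f x < x := by
  rw [hg2_f3 x h]
  omega

private theorem hg2_v3 (z : ℕ) (hz : 0 < z) : padicValNat 3 (3 * z) = padicValNat 3 z + 1 := by
  rw [padicValNat.mul (by norm_num) hz.ne', padicValNat_self, add_comm]

private theorem hg2_v2 (z : ℕ) (hz : 0 < z) : padicValNat 3 (2 * z) = padicValNat 3 z := by
  rw [padicValNat.mul (by norm_num) hz.ne', padicValNat.eq_zero_of_not_dvd (by norm_num), zero_add]

private theorem hg2_vf (x : ℕ) (h : 3 ∣ x) (hx : 0 < x) :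
    padicValNat 3 x = padicValNat 3 (f x) + 1 := by
  rw [hg2_f3 x h]
  obtain ⟨z, rfl⟩ := h
  have hz : 0 < z := by omega
  rw [hg2_v3 z hz, Nat.mul_div_cancel_left z (by norm_num), hg2_v2 z hz]

/-- `x` with all factors `3` replaced by `2` -/
private def hg2_r (x : ℕ) : ℕ := 2 ^ padicValNat 3 x * (x / 3 ^ padicValNat 3 x)

private theorem hg2_rf (x : ℕ) (h : 3 ∣ x) (hx : 0 < x) : hg2_r (f x) = hg2_r x := by
  rw [hg2_f3 x h]
  obtain ⟨z, rfl⟩ := h
  have hz : 0 < z := by omega
  unfold hg2_r
  rw [hg2_v3 z hz, Nat.mul_div_cancel_left z (by norm_num), hg2_v2 z hz]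
  have h1 : 3 ^ padicValNat 3 z ∣ z := pow_padicValNat_dvd
  rw [Nat.mul_div_assoc _ h1, pow_succ, pow_succ, mul_comm (3 ^ padicValNat 3 z) 3,
    Nat.mul_div_mul_left _ _ (by norm_num : 0 < 3)]
  ring

private theorem hg2_rn (x : ℕ) (h : ¬ 3 ∣ x) : hg2_r x = x := by
  unfold hg2_r
  rw [padicValNat.eq_zero_of_not_dvd h]
  simp

private theorem hg2_th : 1 ≤ Real.log 3 / Real.log 2 := by
  have h2 : 0 < Real.log 2 := Real.log_pos (by norm_num)
  rw [le_div_iff₀ h2, one_mul]
  exact Real.log_le_log (by norm_num) (by norm_num)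

private theorem hg2_rpos (x : ℕ) (hx : 0 < x) : 1 ≤ hg2_r x := by
  unfold hg2_r
  have h1 : 3 ^ padicValNat 3 x ∣ x := pow_padicValNat_dvd
  have h2 : 0 < x / 3 ^ padicValNat 3 x :=
    Nat.div_pos (Nat.le_of_dvd hx h1) (by positivity)
  exact Nat.succ_le_of_lt (Nat.mul_pos (by positivity) h2)

private theorem hg2_rlog (x : ℕ) (hx : 0 < x) :
    Real.log x ≤ Real.log 3 / Real.log 2 * Real.log (hg2_r x) := by
  have hl2 : 0 < Real.log 2 := Real.log_pos (by norm_num)
  have h1 : 3 ^ padicValNat 3 x ∣ x := pow_padicValNat_dvd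
  obtain ⟨w, hw⟩ := h1
  have hw0 : 0 < w := by
    rcases Nat.eq_zero_or_pos w with h | h
    · rw [h] at hw
      omega
    · exact h
  have hr : hg2_r x = 2 ^ padicValNat 3 x * w := by
    unfold hg2_r
    congr 1
    conv_lhs => rw [hw]
    have e : 3 ^ padicValNat 3 x * w = x := hw.symm
    rw [e]
    exact Nat.div_eq_of_eq_mul_right (by positivity) hw
  have hw1 : (1 : ℝ) ≤ w := by exact_mod_cast hw0
  have hlw : 0 ≤ Real.log w := Real.log_nonneg hw1
  have hw' : (w : ℝ) ≠ 0 := by positivity
  have e1 : Real.log x = padicValNat 3 x * Real.log 3 + Real.log w := by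
    conv_lhs => rw [hw]
    rw [Nat.cast_mul, Nat.cast_pow, Real.log_mul (by positivity) hw', Real.log_pow]
    norm_num
  have e2 : Real.log (hg2_r x) = padicValNat 3 x * Real.log 2 + Real.log w := by
    rw [hr, Nat.cast_mul, Nat.cast_pow, Real.log_mul (by positivity) hw', Real.log_pow]
    norm_num
  rw [e1, e2, mul_add]
  have e3 : Real.log 3 / Real.log 2 * (padicValNat 3 x * Real.log 2) =
      padicValNat 3 x * Real.log 3 := by
    field_simp
  rw [e3]
  have := mul_le_mul_of_nonneg_right hg2_th hlw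
  linarith

private theorem hg2_rv (x : ℕ) (hx : 0 < x) :
    (padicValNat 3 x : ℝ) * Real.log 2 ≤ Real.log (hg2_r x) := by
  have h1 : 3 ^ padicValNat 3 x ∣ x := pow_padicValNat_dvd
  have h2 : 0 < x / 3 ^ padicValNat 3 x :=
    Nat.div_pos (Nat.le_of_dvd hx h1) (by positivity)
  have h3 : (2 : ℝ) ^ padicValNat 3 x ≤ (hg2_r x : ℝ) := by
    have : 2 ^ padicValNat 3 x ≤ hg2_r x := by
      unfold hg2_r
      exact Nat.le_mul_of_pos_right _ h2
    exact_mod_cast this
  have h4 := Real.log_le_log (by positivity) h3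
  rwa [Real.log_pow] at h4

private theorem hg2_mod (x : ℕ) (hx : 0 < x) : f x % 6 = 3 ↔ ¬ 3 ∣ x ∧ 3 ∣ f x := by
  unfold f
  split_ifs with h1 h2
  · omega
  · omega
  · omega

private theorem hg2_uu (x : ℕ) (h : 3 ∣ x) (hx : 0 < x) :
    Real.log (f x) - Real.log x = Real.log 2 - Real.log 3 := by
  rw [hg2_f3 x h]
  obtain ⟨z, rfl⟩ := h
  have hz : (0 : ℝ) < z := by
    have : 0 < z := by omega
    exact_mod_cast this
  rw [Nat.mul_div_cancel_left z (by norm_num)]
  push_cast
  rw [Real.log_mul (by norm_num) hz.ne', Real.log_mul (by norm_num) hz.ne']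
  ring

theorem thm_HG2 (hCYB : St_CYB) (hSBD : St_SBD) : St_HG2 := by
  intro S hS hc y hyS hmin
  obtain ⟨c1, c2, c3, c4, c5, c6⟩ := hCYB
  obtain ⟨b1, b2, b3, b4, -⟩ := hSBD S hS hc y hyS hmin
  have him := c3 S hS
  have hfS : ∀ x ∈ S, f x ∈ S := fun x hx => by
    have := mem_image_of_mem f hx
    rwa [him] at this
  set k := S.card with hk
  set m := runs S with hm
  set θ := Real.log 3 / Real.log 2 with hθ
  have hθ1 : 1 ≤ θ := hg2_th
  have hθ0 : 0 < θ := by linarith
  have hl2 : 0 < Real.log 2 := Real.log_pos (by norm_num)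
  set L := Real.log y with hL
  have hL0 : 0 ≤ L := Real.log_nonneg (by exact_mod_cast (by omega : 1 ≤ y))
  set x : ℕ → ℕ := fun i => f^[i] y with hx
  have hxs : ∀ i, x (i + 1) = f (x i) := fun i => Function.iterate_succ_apply' f i y
  have hxS : ∀ i, x i ∈ S := by
    intro i
    induction i with
    | zero => exact hyS
    | succ i ih =>
      rw [hxs]
      exact hfS _ ih
  have hxy : ∀ i, y ≤ x i := fun i => hmin _ (hxS i)
  have hx2 : ∀ i, 2 ≤ x i := fun i => b1.trans (hxy i)
  obtain ⟨hkM, hsur⟩ := c5 S hS y hyS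
  have hxk : x k = y := hkM
  have himg : (range k).image x = S := by
    ext z
    rw [mem_image]
    constructor
    · rintro ⟨i, -, rfl⟩
      exact hxS i
    · intro hz
      obtain ⟨j, hj, hj2⟩ := hsur z hz
      exact ⟨j, mem_range.2 hj, hj2⟩
  have hio : Set.InjOn x (range k : Finset ℕ) := by
    rw [← Finset.card_image_iff, himg, card_range]
  have hy3 : ¬ 3 ∣ y := by omega
  set N : ℕ → ℕ := fun i => ∑ j ∈ Ico i k, if x (j + 1) % 6 = 3 then 1 else 0 with hN
  set a : ℕ → ℕ := fun i => ∑ j ∈ Ico i k, if 3 ∣ x j then 1 else 0 with ha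
  set w : ℕ → ℝ := fun j => if 3 ∣ x j then 0 else uu (x j) with hw
  have hNs : ∀ i, i < k → N i = (if x (i + 1) % 6 = 3 then 1 else 0) + N (i + 1) :=
    fun i hi => Finset.sum_eq_sum_Ico_succ_bot hi _
  have has : ∀ i, i < k → a i = (if 3 ∣ x i then 1 else 0) + a (i + 1) :=
    fun i hi => Finset.sum_eq_sum_Ico_succ_bot hi _
  have hNk : N k = 0 := by
    show ∑ j ∈ Ico k k, _ = 0
    rw [Finset.Ico_self, Finset.sum_empty]
  have hak : a k = 0 := by
    show ∑ j ∈ Ico k k, _ = 0
    rw [Finset.Ico_self, Finset.sum_empty]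
  have hmod : ∀ i, x (i + 1) % 6 = 3 ↔ ¬ 3 ∣ x i ∧ 3 ∣ x (i + 1) := by
    intro i
    have := hg2_mod (x i) (by have := hx2 i; omega)
    rw [hxs]
    exact this
  -- (a) and (b)
  have key : ∀ d i, i + d = k → Real.log (hg2_r (x i)) ≤ θ ^ N i * L ∧
      (a i : ℝ) * Real.log 2 ≤
        (∑ t ∈ range (N i), θ ^ t) * L + padicValNat 3 (x i) * Real.log 2 := by
    intro d
    induction d with
    | zero =>
      intro i hi
      rw [Nat.add_zero] at hi
      rw [hi, hNk, hak, hxk, hg2_rn y hy3, padicValNat.eq_zero_of_not_dvd hy3]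
      simp [hL]
    | succ d ih =>
      intro i hi
      obtain ⟨ih1, ih2⟩ := ih (i + 1) (by omega)
      have hik : i < k := by omega
      have hpos : 0 < θ ^ N (i + 1) := pow_pos hθ0 _
      rw [hNs i hik, has i hik]
      by_cases h3 : 3 ∣ x i
      · rw [if_neg (fun h => ((hmod i).1 h).1 h3), if_pos h3, zero_add]
        have h4 := hg2_rf (x i) h3 (by have := hx2 i; omega)
        have h5 := hg2_vf (x i) h3 (by have := hx2 i; omega)
        rw [hxs, h4] at ih1
        rw [hxs] at ih2
        refine ⟨ih1, ?_⟩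
        rw [h5]
        push_cast
        nlinarith
      · have hup := hg2_up (x i) h3 (hx2 i)
        have hlog : Real.log (x i) ≤ Real.log (x (i + 1)) := by
          rw [hxs]
          exact Real.log_le_log (by exact_mod_cast (by have := hx2 i; omega : 0 < x i))
            (by exact_mod_cast hup.le)
        have hv : padicValNat 3 (x i) = 0 := padicValNat.eq_zero_of_not_dvd h3
        rw [hg2_rn (x i) h3, if_neg h3, zero_add, hv]
        by_cases h4 : 3 ∣ x (i + 1)
        · rw [if_pos ((hmod i).2 ⟨h3, h4⟩)]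
          have h5 := hg2_rlog (x (i + 1)) (by have := hx2 (i + 1); omega)
          have h6 := hg2_rv (x (i + 1)) (by have := hx2 (i + 1); omega)
          constructor
          · calc Real.log (x i) ≤ θ * Real.log (hg2_r (x (i + 1))) := hlog.trans h5
              _ ≤ θ * (θ ^ N (i + 1) * L) := mul_le_mul_of_nonneg_left ih1 hθ0.le
              _ = θ ^ (1 + N (i + 1)) * L := by ring
          · rw [add_comm 1 (N (i + 1)), Finset.sum_range_succ]
            push_cast
            nlinarith
        · rw [if_neg (fun h => h4 ((hmod i).1 h).2), zero_add]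
          rw [hg2_rn (x (i + 1)) h4] at ih1
          rw [padicValNat.eq_zero_of_not_dvd h4] at ih2
          exact ⟨hlog.trans ih1, ih2⟩
  -- (c)
  have key2 : ∀ d i, i + d = k → Real.log (x k) - Real.log (x i) =
      ((k : ℝ) - i) * (2 * Real.log 2 - Real.log 3) - a i * Real.log 2 + ∑ j ∈ Ico i k, w j := by
    intro d
    induction d with
    | zero =>
      intro i hi
      rw [Nat.add_zero] at hi
      rw [hi, hak, Finset.Ico_self, Finset.sum_empty]
      simp
    | succ d ih =>
      intro i hi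
      have ih' := ih (i + 1) (by omega)
      have hik : i < k := by omega
      rw [has i hik, Finset.sum_eq_sum_Ico_succ_bot hik]
      have h1 : Real.log (x (i + 1)) - Real.log (x i) = (2 * Real.log 2 - Real.log 3) -
          ((if 3 ∣ x i then 1 else 0 : ℕ) : ℝ) * Real.log 2 + w i := by
        rw [hxs]
        by_cases h3 : 3 ∣ x i
        · have h4 := hg2_uu (x i) h3 (by have := hx2 i; omega)
          have h5 : w i = 0 := if_pos h3
          rw [h4, h5, if_pos h3]
          push_cast
          ring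
        · have h5 : w i = uu (x i) := if_neg h3
          rw [h5, if_neg h3]
          unfold uu
          push_cast
          ring
      push_cast at ih' h1 ⊢
      linarith
  have hwb : ∀ i, i ≤ k → -(m / ((y : ℝ) - 1)) ≤ ∑ j ∈ Ico i k, w j := by
    intro i hi
    have h1 : ∑ j ∈ range k, |w j| = ∑ z ∈ S.filter (fun z => ¬ 3 ∣ z), |uu z| := by
      have h2 : ∑ z ∈ S, |if 3 ∣ z then 0 else uu z| = ∑ j ∈ range k, |w j| := by
        conv_lhs => rw [← himg]
        rw [Finset.sum_image (fun p hp q hq h => hio hp hq h)]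
      rw [← h2, Finset.sum_filter]
      apply Finset.sum_congr rfl
      intro z _
      by_cases h3 : 3 ∣ z
      · rw [if_pos h3, if_neg (not_not.2 h3), abs_zero]
      · rw [if_neg h3, if_pos h3]
    have h2 : |∑ j ∈ Ico i k, w j| ≤ m / ((y : ℝ) - 1) := by
      refine (Finset.abs_sum_le_sum_abs _ _).trans ?_
      refine le_trans ?_ b4
      rw [← h1]
      apply Finset.sum_le_sum_of_subset_of_nonneg
      · intro j hj
        rw [mem_Ico] at hj
        rw [mem_range]
        exact hj.2
      · intro j _ _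
        exact abs_nonneg _
    exact (abs_le.1 h2).1
  have hmain : ∀ i, i ≤ k → ((k : ℝ) - i) * (2 * Real.log 2 - Real.log 3) ≤
      a i * Real.log 2 + m / ((y : ℝ) - 1) := by
    intro i hi
    have h1 := key2 (k - i) i (by omega)
    have h2 := hwb i hi
    have h3 : Real.log (x k) ≤ Real.log (x i) := by
      rw [hxk]
      exact Real.log_le_log (by exact_mod_cast (by omega : 0 < y)) (by exact_mod_cast hxy i)
    linarith
  have hN0 : N 0 = m := by
    have h1 : N 0 = ∑ z ∈ S, if f z % 6 = 3 then 1 else 0 := by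
      conv_rhs => rw [← himg]
      rw [Finset.sum_image (fun p hp q hq h => hio hp hq h)]
      show ∑ j ∈ Ico 0 k, (if x (j + 1) % 6 = 3 then 1 else 0) = _
      rw [← Finset.range_eq_Ico]
      apply Finset.sum_congr rfl
      intro j _
      rw [hxs]
    rw [h1, ← Finset.card_filter, hm]
    unfold runs
    congr 1
    apply Finset.filter_congr
    intro z hz
    exact hg2_mod z (by have := hmin z hz; omega)
  constructor
  · have h1 := hmain 0 (Nat.zero_le _)
    have h2 := (key k 0 (by omega)).2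
    have h3 : padicValNat 3 (x 0) = 0 := padicValNat.eq_zero_of_not_dvd hy3
    rw [hN0, h3] at h2
    push_cast at h1 h2
    linarith
  · intro i hi n hn
    have h1 := hmain i hi
    obtain ⟨h2, h3⟩ := key (k - i) i (by omega)
    have h4 := hg2_rv (x i) (by have := hx2 i; omega)
    have hJ : ((range i).filter fun j => x (j + 1) % 6 = 3).card + N i = m := by
      rw [← hN0, Finset.card_filter, Finset.range_eq_Ico]
      exact Finset.sum_Ico_consecutive _ (Nat.zero_le i) hi
    have hn' : m ≤ n + ((range i).filter fun j => x (j + 1) % 6 = 3).card := hn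
    have hNn : N i ≤ n := by omega
    have h5 : ∑ t ∈ range (N i + 1), θ ^ t ≤ ∑ t ∈ range (n + 1), θ ^ t := by
      apply Finset.sum_le_sum_of_subset_of_nonneg
      · intro t ht
        rw [mem_range] at ht ⊢
        omega
      · intro t _ _
        positivity
    have h6 := mul_le_mul_of_nonneg_right h5 hL0
    rw [Finset.sum_range_succ] at h6
    linarith

end Pool.Agent.CPC
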