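import Pool.Agent.CPC.St2

/-!
# CPC, module LA2: all but `O(K ^ 0.92)` lengths are impossible
-/

set_option autoImplicit false

namespace Pool.Agent.CPC

open Finset Polynomial

/-- **LA2.** -/
theorem thm_LA2 (hCNT : St_CNT) (hME2 : St_ME2) : St_LA2 := by
  obtain ⟨c, hc, hm⟩ := hME2
  refine ⟨3 + 846 / (3 * c), fun K hK => ?_⟩
  have hx1 : (1 : ℝ) ≤ (K : ℝ) := by exact_mod_cast hK
  obtain ⟨x, hx⟩ : ∃ x : ℝ, x = (K : ℝ) := ⟨_, rfl⟩
  rw [← hx] at hx1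
  have hx0 : 0 < x := by linarith
  obtain ⟨y, hy⟩ : ∃ y : ℝ, y = x ^ (5 / 59 : ℝ) := ⟨_, rfl⟩
  have hy1 : 1 ≤ y := by rw [hy]; exact Real.one_le_rpow hx1 (by norm_num)
  obtain ⟨D, hD⟩ : ∃ D : ℕ, D = ⌊y⌋₊ := ⟨_, rfl⟩
  have hD1 : 1 ≤ D := by
    rw [hD]
    exact Nat.le_floor (by exact_mod_cast hy1)
  have hDr : (1 : ℝ) ≤ D := by exact_mod_cast hD1
  have hDy : (D : ℝ) ≤ y := by
    rw [hD]
    exact Nat.floor_le (by linarith)
  have hyD : y ≤ 2 * D := by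
    have h1 := Nat.lt_floor_add_one y
    rw [← hD] at h1
    linarith
  obtain ⟨z, hz⟩ : ∃ z : ℝ, z = x ^ (54 / 59 : ℝ) := ⟨_, rfl⟩
  have hz0 : 0 < z := by rw [hz]; exact Real.rpow_pos_of_pos hx0 _
  have hyz : y * z = x := by
    rw [hy, hz, ← Real.rpow_add hx0]
    norm_num
  have hy48 : y ^ (10.8 : ℝ) = z := by
    rw [hy, hz, ← Real.rpow_mul hx0.le]
    norm_num
  obtain ⟨v, hv⟩ : ∃ v : ℝ, v = x ^ (7 / 1475 : ℝ) := ⟨_, rfl⟩
  have hv1 : 1 ≤ v := by rw [hv]; exact Real.one_le_rpow hx1 (by norm_num)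
  have hvz : v * z = x ^ (0.92 : ℝ) := by
    rw [hv, hz, ← Real.rpow_add hx0]
    norm_num
  have hw : z ≤ x ^ (0.92 : ℝ) := by
    rw [← hvz]
    nlinarith
  have hw1 : 1 ≤ x ^ (0.92 : ℝ) := Real.one_le_rpow hx1 (by norm_num)
  have hlog : Real.log x ≤ 211 * v := by
    have h1 := Real.log_le_rpow_div hx0.le (show (0 : ℝ) < 7 / 1475 by norm_num)
    rw [← hv] at h1
    have h2 : v / (7 / 1475 : ℝ) = 1475 / 7 * v := by ring
    rw [h2] at h1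
    have h3 : (1475 / 7 : ℝ) * v ≤ 211 * v := mul_le_mul_of_nonneg_right (by norm_num) (by linarith)
    linarith
  have hlog0 : 0 ≤ Real.log x := Real.log_nonneg hx1
  have hD48 : (D : ℝ) ^ (10.8 : ℝ) ≤ z := by
    rw [← hy48]
    exact Real.rpow_le_rpow (by linarith) hDy (by norm_num)
  have hD48p : (0 : ℝ) < (D : ℝ) ^ (10.8 : ℝ) := Real.rpow_pos_of_pos (by linarith) _
  obtain ⟨P, hP⟩ : ∃ P : ℝ, P = (D : ℝ) ^ (10.8 : ℝ) := ⟨_, rfl⟩
  rw [← hP] at hD48 hD48p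
  have hε : (0 : ℝ) < c / (2 * P) := by positivity
  have h1 := hCNT D K (c / (2 * P)) hD1 hK hε (by
    intro d hd hdD p
    refine le_trans ?_ (hm d hd p)
    have hd1 : (1 : ℝ) ≤ d := by exact_mod_cast hd
    have hdr : (d : ℝ) ≤ D := by exact_mod_cast hdD
    have h2 : (d : ℝ) ^ (10.8 : ℝ) ≤ P := by
      rw [hP]
      exact Real.rpow_le_rpow (by linarith) hdr (by norm_num)
    have h3 : (0 : ℝ) < (d : ℝ) ^ (10.8 : ℝ) := Real.rpow_pos_of_pos (by linarith) _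
    have h4 : 2 * (c / (2 * P)) = c / P := by
      field_simp
    rw [h4]
    exact div_le_div_of_nonneg_left hc.le h3 h2)
  rw [← hx] at h1 ⊢
  have h2 : x / D ≤ 2 * z := by
    rw [div_le_iff₀ (by linarith)]
    nlinarith
  have h3 : (1 + 2 * Real.log x) / (3 * (c / (2 * P))) =
      (1 + 2 * Real.log x) * P * (2 / (3 * c)) := by
    field_simp
  have h4 : (1 + 2 * Real.log x) * P ≤ 423 * x ^ (0.92 : ℝ) := by
    calc (1 + 2 * Real.log x) * P ≤ (423 * v) * z :=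
          mul_le_mul (by linarith) hD48 hD48p.le (by linarith)
      _ = 423 * x ^ (0.92 : ℝ) := by rw [mul_assoc, hvz]
  have h5 : (1 + 2 * Real.log x) * P * (2 / (3 * c)) ≤
      423 * x ^ (0.92 : ℝ) * (2 / (3 * c)) :=
    mul_le_mul_of_nonneg_right h4 (by positivity)
  have h6 : 423 * x ^ (0.92 : ℝ) * (2 / (3 * c)) = 846 / (3 * c) * x ^ (0.92 : ℝ) := by ring
  rw [h3] at h1
  rw [h6] at h5
  calc ((Len K).card : ℝ) ≤ x / D + 1 + (1 + 2 * Real.log x) * P * (2 / (3 * c)) := h1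
    _ ≤ (3 + 846 / (3 * c)) * x ^ (0.92 : ℝ) := by
      rw [add_mul]
      linarith

end Pool.Agent.CPC
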