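import Pool.Agent.CPC.St2

/-!
# CPC: module MEX, the explicit lower bound
-/

set_option autoImplicit false

namespace Pool.Agent.CPC

open Finset Polynomial

private theorem mex_one (hEXL : St_EXL) (hDV2 : St_DV2) (hSZ2 : St_SZ2) (hNV2 : St_NV2)
    (ν : ℕ) (A B : ℤ) (H : ℝ) (hAB : A ≠ 0 ∨ B ≠ 0) (hA : |(A : ℝ)| ≤ H) (hB : |(B : ℝ)| ≤ H) :
      1 ≤ 5400000000 * |A * Real.log (3 / 2) + B * Real.log (4 / 3)| * 43199082 ^ ν +
        7200000000 * H * (0.334368 : ℝ) ^ ν := by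
  set l : ℝ := A * Real.log (3 / 2) + B * Real.log (4 / 3) with hl
  have hH : 0 ≤ H := (abs_nonneg _).trans hA
  have hD : (D2 ν : ℝ) ≤ 900000000 * (486 : ℝ) ^ ν := by
    have h1 : Nat.lcmUpto (5 * ν + 2) ≤ 10 ^ 8 * 3 ^ (5 * ν + 2) := hEXL (5 * ν + 2)
    have h2 : (Nat.lcmUpto (5 * ν + 2) : ℝ) ≤ 10 ^ 8 * 3 ^ (5 * ν + 2) := by exact_mod_cast h1
    have h3 : (D2 ν : ℝ) = 2 ^ ν * (Nat.lcmUpto (5 * ν + 2) : ℝ) := by
      unfold D2
      push_cast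
      ring
    rw [h3]
    calc (2 : ℝ) ^ ν * (Nat.lcmUpto (5 * ν + 2) : ℝ) ≤ 2 ^ ν * (10 ^ 8 * 3 ^ (5 * ν + 2)) := by
          gcongr
      _ = 900000000 * (2 * 3 ^ 5 : ℝ) ^ ν := by
          rw [mul_pow, ← pow_mul, pow_add]
          ring
      _ = 900000000 * (486 : ℝ) ^ ν := by norm_num
  have hDpos : (0 : ℝ) < D2 ν := by
    have h1 : 0 < D2 ν := by
      unfold D2
      have := Nat.lcmUpto_pos (5 * ν + 2)
      positivity
    exact_mod_cast h1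
  obtain ⟨s, hs, hne⟩ := hNV2 ν A B l (by
    rcases hAB with h | h
    · exact Or.inl (by exact_mod_cast h)
    · exact Or.inr (by exact_mod_cast h))
  obtain ⟨⟨N1, h1⟩, N2, h2⟩ := hDV2 ν s hs
  obtain ⟨h3, h4, h5⟩ := hSZ2 ν s hs
  have hint : (D2 ν : ℝ) * (l * (c2 ν s : ℝ) - A * KK ν s 2 3 - B * KK ν s 3 4) =
      ((-A * N1 - B * N2 : ℤ) : ℝ) := by
    push_cast
    calc (D2 ν : ℝ) * (l * (c2 ν s : ℝ) - A * KK ν s 2 3 - B * KK ν s 3 4) =
        D2 ν * (c2 ν s : ℝ) * l - A * ((D2 ν : ℝ) * KK ν s 2 3) - B * ((D2 ν : ℝ) * KK ν s 3 4) := by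
          ring
      _ = -A * N1 - B * N2 := by
          rw [h1, h2, hl]
          ring
  have hnz : (-A * N1 - B * N2 : ℤ) ≠ 0 := by
    intro h0
    rw [h0, Int.cast_zero] at hint
    rcases mul_eq_zero.1 hint with h6 | h6
    · exact hDpos.ne' h6
    · exact hne h6
  have hge : (1 : ℝ) ≤ |(D2 ν : ℝ) * (l * (c2 ν s : ℝ) - A * KK ν s 2 3 - B * KK ν s 3 4)| := by
    rw [hint, ← Int.cast_abs]
    exact_mod_cast Int.one_le_abs hnz
  rw [abs_mul, abs_of_pos hDpos] at hge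
  have hup : |l * (c2 ν s : ℝ) - A * KK ν s 2 3 - B * KK ν s 3 4| ≤
      |l| * (6 * (88887 : ℝ) ^ ν) + 8 * H * (0.000688 : ℝ) ^ ν := by
    have e1 : |l * (c2 ν s : ℝ)| ≤ |l| * (6 * (88887 : ℝ) ^ ν) := by
      rw [abs_mul]
      gcongr
    have e2 : |(A : ℝ) * KK ν s 2 3| ≤ H * (4 * (0.000688 : ℝ) ^ ν) := by
      rw [abs_mul]
      gcongr
    have e3 : |(B : ℝ) * KK ν s 3 4| ≤ H * (4 * (0.000688 : ℝ) ^ ν) := by
      rw [abs_mul]
      gcongr
    have e4 := abs_sub (l * (c2 ν s : ℝ) - A * KK ν s 2 3) ((B : ℝ) * KK ν s 3 4)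
    have e5 := abs_sub (l * (c2 ν s : ℝ)) ((A : ℝ) * KK ν s 2 3)
    calc _ ≤ |l * (c2 ν s : ℝ) - A * KK ν s 2 3| + |(B : ℝ) * KK ν s 3 4| := e4
      _ ≤ (|l * (c2 ν s : ℝ)| + |(A : ℝ) * KK ν s 2 3|) + |(B : ℝ) * KK ν s 3 4| := by gcongr
      _ ≤ (|l| * (6 * (88887 : ℝ) ^ ν) + H * (4 * (0.000688 : ℝ) ^ ν)) +
          H * (4 * (0.000688 : ℝ) ^ ν) := by gcongr
      _ = _ := by ring
  calc (1 : ℝ) ≤ D2 ν * |l * (c2 ν s : ℝ) - A * KK ν s 2 3 - B * KK ν s 3 4| := hge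
    _ ≤ (900000000 * (486 : ℝ) ^ ν) *
        (|l| * (6 * (88887 : ℝ) ^ ν) + 8 * H * (0.000688 : ℝ) ^ ν) := by
        gcongr
    _ = 5400000000 * |l| * (486 * 88887 : ℝ) ^ ν + 7200000000 * H * (486 * 0.000688 : ℝ) ^ ν := by
        rw [mul_pow, mul_pow]
        ring
    _ = 5400000000 * |l| * 43199082 ^ ν + 7200000000 * H * (0.334368 : ℝ) ^ ν := by norm_num

private theorem mex_num : (43199082 : ℝ) * (0.334368 : ℝ) ^ 17 ≤ 1 := by norm_num

private theorem mex_two {x H : ℝ} (hx : 0 ≤ x) (hH : 1 ≤ H)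
    (h : ∀ ν : ℕ, 1 ≤ 5400000000 * x * 43199082 ^ ν + 7200000000 * H * (0.334368 : ℝ) ^ ν) :
    1 ≤ 10800000000 * 43199082 * (14400000000 * H) ^ 17 * x := by
  have hH0 : 0 < H := by linarith
  have hex : ∃ ν : ℕ, 14400000000 * H * (0.334368 : ℝ) ^ ν ≤ 1 := by
    obtain ⟨ν, hν⟩ := exists_pow_lt_of_lt_one (show (0 : ℝ) < 1 / (14400000000 * H) by positivity)
      (show (0.334368 : ℝ) < 1 by norm_num)
    refine ⟨ν, ?_⟩
    rw [lt_div_iff₀ (by positivity)] at hν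
    linarith
  classical
  obtain ⟨ν, hν, hmin⟩ : ∃ ν : ℕ, 14400000000 * H * (0.334368 : ℝ) ^ ν ≤ 1 ∧
      ∀ μ < ν, ¬ 14400000000 * H * (0.334368 : ℝ) ^ μ ≤ 1 :=
    ⟨Nat.find hex, Nat.find_spec hex, fun μ hμ => Nat.find_min hex hμ⟩
  have h1 : 1 / 2 ≤ 5400000000 * x * 43199082 ^ ν := by
    have := h ν
    linarith
  have h0 : 0 < ν := by
    rcases Nat.eq_zero_or_pos ν with h0 | h0
    · rw [h0, pow_zero, mul_one] at hν
      linarith
    · exact h0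
  obtain ⟨μ, rfl⟩ := Nat.exists_eq_add_of_le' h0
  have h2 : 1 < 14400000000 * H * (0.334368 : ℝ) ^ μ := not_le.1 (hmin μ (Nat.lt_succ_self μ))
  have h3 : (43199082 : ℝ) ^ μ ≤ (14400000000 * H) ^ 17 := by
    have h4 : (43199082 : ℝ) ^ μ * ((0.334368 : ℝ) ^ μ) ^ 17 ≤ 1 := by
      calc (43199082 : ℝ) ^ μ * ((0.334368 : ℝ) ^ μ) ^ 17 =
            (43199082 * (0.334368 : ℝ) ^ 17) ^ μ := by
            rw [mul_pow, ← pow_mul, ← pow_mul, mul_comm μ 17]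
        _ ≤ 1 := pow_le_one₀ (by positivity) mex_num
    have h5 : (1 : ℝ) ≤ (14400000000 * H * (0.334368 : ℝ) ^ μ) ^ 17 := one_le_pow₀ h2.le
    calc (43199082 : ℝ) ^ μ = 43199082 ^ μ * 1 := (mul_one _).symm
      _ ≤ 43199082 ^ μ * (14400000000 * H * (0.334368 : ℝ) ^ μ) ^ 17 := by gcongr
      _ = (14400000000 * H) ^ 17 * (43199082 ^ μ * ((0.334368 : ℝ) ^ μ) ^ 17) := by
          rw [mul_pow (14400000000 * H)]
          ring
      _ ≤ (14400000000 * H) ^ 17 * 1 := by gcongr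
      _ = (14400000000 * H) ^ 17 := mul_one _
  have h7 : (43199082 : ℝ) ^ (μ + 1) ≤ 43199082 * (14400000000 * H) ^ 17 := by
    rw [pow_succ, mul_comm]
    gcongr
  have h8 : 5400000000 * x * 43199082 ^ (μ + 1) ≤
      5400000000 * x * (43199082 * (14400000000 * H) ^ 17) := by
    gcongr
  calc (1 : ℝ) = 2 * (1 / 2) := by norm_num
    _ ≤ 2 * (5400000000 * x * (43199082 * (14400000000 * H) ^ 17)) := by
        gcongr
        exact h1.trans h8
    _ = _ := by ring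

theorem thm_MEX (hEXL : St_EXL) (hDV2 : St_DV2) (hSZ2 : St_SZ2) (hNV2 : St_NV2) : St_MEX := by
  intro k hk p
  have hk1 : (1 : ℝ) ≤ k := by exact_mod_cast hk
  have hk17 : (1 : ℝ) ≤ (k : ℝ) ^ 17 := one_le_pow₀ hk1
  have hpos : (0 : ℝ) < 10 ^ 200 * (k : ℝ) ^ 17 := by positivity
  rw [div_le_iff₀ hpos]
  rcases le_or_gt 1 |k * Real.log 3 - p * Real.log 2| with h1 | h1
  · have h2 : (1 : ℝ) ≤ 10 ^ 200 * (k : ℝ) ^ 17 := by
      have h3 : (1 : ℝ) ≤ 10 ^ 200 := one_le_pow₀ (by norm_num)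
      nlinarith
    nlinarith
  · have hl2 := Real.log_two_gt_d9
    have hl2' := Real.log_two_lt_d9
    have hl3 : Real.log 3 ≤ 1.2 := by
      have e3 : Real.log 3 = Real.log 2 + Real.log (3 / 2) := by
        rw [← Real.log_mul (by norm_num) (by norm_num)]
        norm_num
      have := Real.log_le_sub_one_of_pos (show (0 : ℝ) < 3 / 2 by norm_num)
      linarith
    have hl30 : Real.log 2 ≤ Real.log 3 := Real.log_le_log (by norm_num) (by norm_num)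
    have h1' := abs_lt.1 h1
    have hp1 : (p : ℝ) ≤ 4 * k := by
      by_contra hc
      push Not at hc
      nlinarith
    have hp2 : -(k : ℝ) ≤ p := by
      by_contra hc
      push Not at hc
      nlinarith
    have e : (k : ℝ) * Real.log 3 - p * Real.log 2 =
        ((2 * k - p : ℤ) : ℝ) * Real.log (3 / 2) + ((k - p : ℤ) : ℝ) * Real.log (4 / 3) := by
      rw [Real.log_div (by norm_num) (by norm_num), Real.log_div (by norm_num) (by norm_num)]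
      have h4 : Real.log 4 = 2 * Real.log 2 := by
        rw [show (4 : ℝ) = 2 ^ 2 by norm_num, Real.log_pow]
        norm_num
      rw [h4]
      push_cast
      ring
    rw [e]
    have hA : |((2 * k - p : ℤ) : ℝ)| ≤ 3 * k := by
      push_cast
      rw [abs_le]
      constructor <;> linarith
    have hB : |((k - p : ℤ) : ℝ)| ≤ 3 * k := by
      push_cast
      rw [abs_le]
      constructor <;> linarith
    have hne : (2 * k - p : ℤ) ≠ 0 ∨ (k - p : ℤ) ≠ 0 := by omega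
    have h2 := mex_two (x := |((2 * k - p : ℤ) : ℝ) * Real.log (3 / 2) +
      ((k - p : ℤ) : ℝ) * Real.log (4 / 3)|) (H := 3 * k) (abs_nonneg _) (by linarith)
      (fun ν => mex_one hEXL hDV2 hSZ2 hNV2 ν (2 * k - p) (k - p) (3 * k) hne hA hB)
    set x : ℝ := |((2 * k - p : ℤ) : ℝ) * Real.log (3 / 2) +
      ((k - p : ℤ) : ℝ) * Real.log (4 / 3)| with hx
    have hx0 : 0 ≤ x := abs_nonneg _
    have hnum : (10800000000 : ℝ) * 43199082 * (43200000000) ^ 17 ≤ 10 ^ 200 := by norm_num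
    calc (1 : ℝ) ≤ 10800000000 * 43199082 * (14400000000 * (3 * (k : ℝ))) ^ 17 * x := h2
      _ = (10800000000 * 43199082 * (43200000000) ^ 17) * ((k : ℝ) ^ 17 * x) := by
          rw [show (14400000000 : ℝ) * (3 * (k : ℝ)) = 43200000000 * k by ring, mul_pow]
          ring
      _ ≤ 10 ^ 200 * ((k : ℝ) ^ 17 * x) := mul_le_mul_of_nonneg_right hnum (by positivity)
      _ = x * (10 ^ 200 * (k : ℝ) ^ 17) := by ring

end Pool.Agent.CPC
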