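import Pool.Agent.CPC.St2

/-!
# CPC/NV2 (helper96): nonvanishing by a four term recursion, part 2
-/

set_option autoImplicit false

namespace Pool.Agent.CPC

open Finset Polynomial MeasureTheory

/-! ### the recursion for the coefficients -/

private theorem nv2_coeff (p : ℤ[X]) (m : ℕ) : (X * derivative p).coeff m = m * p.coeff m := by
  cases m with
  | zero => simp
  | succ n =>
    rw [coeff_X_mul, coeff_derivative]
    push_cast
    ring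

private theorem nv2_dX (s : ℕ) : (X : ℤ[X]) * derivative (X ^ s) = C (s : ℤ) * X ^ s := by
  cases s with
  | zero => simp
  | succ n =>
    rw [derivative_X_pow, Nat.add_sub_cancel]
    push_cast
    ring

private theorem nv2_dP (n : ℕ) (c : ℤ[X]) (hc : derivative c = 0) :
    derivative ((X - c) ^ (n + 1)) = ((n : ℤ[X]) + 1) * (X - c) ^ n := by
  rw [derivative_pow_succ, derivative_sub, derivative_X, hc, sub_zero, mul_one]
  simp only [map_add, map_natCast, map_one]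

private theorem nv2_poly (ν s : ℕ) :
    X * derivative ((X - 2) ^ (3 * ν + 1) * (X - 3) ^ (4 * ν + 1) * (X - 4) ^ (2 * ν + 1) * X ^ s) -
      C ((4 * ν : ℕ) : ℤ) *
        ((X - 2) ^ (3 * ν + 1) * (X - 3) ^ (4 * ν + 1) * (X - 4) ^ (2 * ν + 1) * X ^ s) =
      C (5 * (ν : ℤ) + 3 + s) * WW ν (s + 3) - C (19 * (ν : ℤ) + 18 + 9 * s) * WW ν (s + 2) +
        C (26 + 26 * (s : ℤ) - 24 * ν) * WW ν (s + 1) + C (96 * (ν : ℤ) - 24 * s) * WW ν s := by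
  have h2 : derivative ((X - 2 : ℤ[X]) ^ (3 * ν + 1)) = (((3 * ν : ℕ) : ℤ[X]) + 1) * (X - 2) ^ (3 * ν) :=
    nv2_dP (3 * ν) 2 (derivative_ofNat 2)
  have h3 : derivative ((X - 3 : ℤ[X]) ^ (4 * ν + 1)) = (((4 * ν : ℕ) : ℤ[X]) + 1) * (X - 3) ^ (4 * ν) :=
    nv2_dP (4 * ν) 3 (derivative_ofNat 3)
  have h4 : derivative ((X - 4 : ℤ[X]) ^ (2 * ν + 1)) = (((2 * ν : ℕ) : ℤ[X]) + 1) * (X - 4) ^ (2 * ν) :=
    nv2_dP (2 * ν) 4 (derivative_ofNat 4)
  have h1 : X * derivative ((X - 2 : ℤ[X]) ^ (3 * ν + 1) * (X - 3) ^ (4 * ν + 1) * (X - 4) ^ (2 * ν + 1) * X ^ s) =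
      X * (((((3 * ν : ℕ) : ℤ[X]) + 1) * (X - 2) ^ (3 * ν) * (X - 3) ^ (4 * ν + 1) +
        (X - 2) ^ (3 * ν + 1) * ((((4 * ν : ℕ) : ℤ[X]) + 1) * (X - 3) ^ (4 * ν))) * (X - 4) ^ (2 * ν + 1) +
        (X - 2) ^ (3 * ν + 1) * (X - 3) ^ (4 * ν + 1) * ((((2 * ν : ℕ) : ℤ[X]) + 1) * (X - 4) ^ (2 * ν))) * X ^ s +
      (X - 2) ^ (3 * ν + 1) * (X - 3) ^ (4 * ν + 1) * (X - 4) ^ (2 * ν + 1) * (X * derivative (X ^ s)) := by
    rw [derivative_mul, derivative_mul, derivative_mul, h2, h3, h4]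
    ring
  rw [h1, nv2_dX]
  unfold WW
  rw [pow_succ (X - 2 : ℤ[X]) (3 * ν), pow_succ (X - 3 : ℤ[X]) (4 * ν), pow_succ (X - 4 : ℤ[X]) (2 * ν),
    pow_add X s 3, pow_add X s 2, pow_add X s 1]
  generalize (X - 2 : ℤ[X]) ^ (3 * ν) = P2
  generalize (X - 3 : ℤ[X]) ^ (4 * ν) = P3
  generalize (X - 4 : ℤ[X]) ^ (2 * ν) = P4
  generalize (X : ℤ[X]) ^ s = Y
  simp only [map_add, map_sub, map_mul, map_natCast, map_ofNat, Nat.cast_mul, Nat.cast_ofNat]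
  ring

private theorem nv2_cc (ν s : ℕ) :
    (5 * (ν : ℤ) + 3 + s) * c2 ν (s + 3) - (19 * (ν : ℤ) + 18 + 9 * s) * c2 ν (s + 2) +
      (26 + 26 * (s : ℤ) - 24 * ν) * c2 ν (s + 1) + (96 * (ν : ℤ) - 24 * s) * c2 ν s = 0 := by
  have h := congrArg (fun p : ℤ[X] => p.coeff (4 * ν)) (nv2_poly ν s)
  simp only [coeff_sub, coeff_add, coeff_C_mul, nv2_coeff] at h
  rw [sub_self] at h
  exact h.symm

/-! ### the recursion for the integrals -/

/-- the weight -/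
private noncomputable def nv2w (ν : ℕ) (y : ℝ) : ℝ := (y - 2) ^ (3 * ν) * (y - 3) ^ (4 * ν) * (y - 4) ^ (2 * ν)

private theorem nv2_cont (ν : ℕ) : Continuous (nv2w ν) := by
  unfold nv2w
  fun_prop

private theorem nv2_KK (ν s : ℕ) (a b : ℝ) :
    KK ν s a b = ∫ y in a..b, nv2w ν y * y ^ s / y ^ (4 * ν + 1) := rfl

private theorem nv2_int (ν s : ℕ) (a b : ℝ) (ha : 0 < a) (hab : a ≤ b) :
    IntervalIntegrable (fun y => nv2w ν y * y ^ s / y ^ (4 * ν + 1)) volume a b := by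
  apply ContinuousOn.intervalIntegrable
  rw [Set.uIcc_of_le hab]
  have h1 : Continuous fun y : ℝ => nv2w ν y * y ^ s := (nv2_cont ν).mul (by fun_prop)
  exact h1.continuousOn.div (by fun_prop) fun y hy => pow_ne_zero _ (lt_of_lt_of_le ha hy.1).ne'

private theorem nv2_dL (n : ℕ) (c y : ℝ) :
    HasDerivAt (fun y : ℝ => (y - c) ^ (n + 1)) (((n : ℝ) + 1) * (y - c) ^ n) y := by
  have h := ((hasDerivAt_id y).sub_const c).pow (n + 1)
  have e : ((n : ℝ) + 1) * (y - c) ^ n = ((n + 1 : ℕ) : ℝ) * (id y - c) ^ (n + 1 - 1) * 1 := by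
    rw [Nat.add_sub_cancel]
    push_cast
    simp
  rw [e]
  exact h

private theorem nv2_deriv (ν s : ℕ) (y : ℝ) (hy : 0 < y) :
    HasDerivAt (fun y : ℝ => (y - 2) ^ (3 * ν + 1) * (y - 3) ^ (4 * ν + 1) * (y - 4) ^ (2 * ν + 1) *
        y ^ ((s : ℤ) - (4 * ν : ℕ)))
      ((5 * (ν : ℝ) + 3 + s) * (nv2w ν y * y ^ (s + 3) / y ^ (4 * ν + 1)) -
        (19 * (ν : ℝ) + 18 + 9 * s) * (nv2w ν y * y ^ (s + 2) / y ^ (4 * ν + 1)) +
        (26 + 26 * (s : ℝ) - 24 * ν) * (nv2w ν y * y ^ (s + 1) / y ^ (4 * ν + 1)) +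
        (96 * (ν : ℝ) - 24 * s) * (nv2w ν y * y ^ s / y ^ (4 * ν + 1))) y := by
  have h2 := ((nv2_dL (3 * ν) 2 y).mul (nv2_dL (4 * ν) 3 y)).mul (nv2_dL (2 * ν) 4 y)
  have h3 := hasDerivAt_zpow ((s : ℤ) - (4 * ν : ℕ)) y (Or.inl hy.ne')
  have h4 := h2.mul h3
  refine h4.congr_deriv ?_
  have e1 : y ^ ((s : ℤ) - (4 * ν : ℕ) - 1) = y ^ s / y ^ (4 * ν + 1) := by
    rw [show (s : ℤ) - (4 * ν : ℕ) - 1 = (s : ℤ) - ((4 * ν + 1 : ℕ) : ℤ) by push_cast; ring, zpow_sub₀ hy.ne',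
      zpow_natCast, zpow_natCast]
  have e2 : y ^ ((s : ℤ) - (4 * ν : ℕ)) = y * (y ^ s / y ^ (4 * ν + 1)) := by
    rw [← e1, ← zpow_one_add₀ hy.ne']
    congr 1
    ring
  have e3 : ∀ j : ℕ, nv2w ν y * y ^ (s + j) / y ^ (4 * ν + 1) = nv2w ν y * (y ^ s / y ^ (4 * ν + 1)) * y ^ j := by
    intro j
    rw [pow_add]
    ring
  have e4 : nv2w ν y * y ^ s / y ^ (4 * ν + 1) = nv2w ν y * (y ^ s / y ^ (4 * ν + 1)) := by ring
  rw [e1, e2, e3, e3, e3, e4]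
  simp only [Pi.mul_apply]
  unfold nv2w
  rw [pow_succ (y - 2) (3 * ν), pow_succ (y - 3) (4 * ν), pow_succ (y - 4) (2 * ν)]
  generalize y ^ s / y ^ (4 * ν + 1) = E
  generalize (y - 2) ^ (3 * ν) = P2
  generalize (y - 3) ^ (4 * ν) = P3
  generalize (y - 4) ^ (2 * ν) = P4
  push_cast
  ring

private theorem nv2_JJ (ν s : ℕ) (a b : ℝ) (ha : 0 < a) (hab : a ≤ b) (hqa : (a - 2) * (a - 3) * (a - 4) = 0)
    (hqb : (b - 2) * (b - 3) * (b - 4) = 0) :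
    (5 * (ν : ℝ) + 3 + s) * KK ν (s + 3) a b - (19 * (ν : ℝ) + 18 + 9 * s) * KK ν (s + 2) a b +
      (26 + 26 * (s : ℝ) - 24 * ν) * KK ν (s + 1) a b + (96 * (ν : ℝ) - 24 * s) * KK ν s a b = 0 := by
  have i3 := (nv2_int ν (s + 3) a b ha hab).const_mul (5 * (ν : ℝ) + 3 + s)
  have i2 := (nv2_int ν (s + 2) a b ha hab).const_mul (19 * (ν : ℝ) + 18 + 9 * s)
  have i1 := (nv2_int ν (s + 1) a b ha hab).const_mul (26 + 26 * (s : ℝ) - 24 * ν)
  have i0 := (nv2_int ν s a b ha hab).const_mul (96 * (ν : ℝ) - 24 * s)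
  have h := intervalIntegral.integral_eq_sub_of_hasDerivAt
    (f := fun y : ℝ => (y - 2) ^ (3 * ν + 1) * (y - 3) ^ (4 * ν + 1) * (y - 4) ^ (2 * ν + 1) *
        y ^ ((s : ℤ) - (4 * ν : ℕ))) (a := a) (b := b)
    (f' := fun y => (5 * (ν : ℝ) + 3 + s) * (nv2w ν y * y ^ (s + 3) / y ^ (4 * ν + 1)) -
        (19 * (ν : ℝ) + 18 + 9 * s) * (nv2w ν y * y ^ (s + 2) / y ^ (4 * ν + 1)) +
        (26 + 26 * (s : ℝ) - 24 * ν) * (nv2w ν y * y ^ (s + 1) / y ^ (4 * ν + 1)) +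
        (96 * (ν : ℝ) - 24 * s) * (nv2w ν y * y ^ s / y ^ (4 * ν + 1)))
    (fun y hy => nv2_deriv ν s y (by
      rw [Set.uIcc_of_le hab] at hy
      exact lt_of_lt_of_le ha hy.1)) (((i3.sub i2).add i1).add i0)
  rw [intervalIntegral.integral_add ((i3.sub i2).add i1) i0, intervalIntegral.integral_add (i3.sub i2) i1,
    intervalIntegral.integral_sub i3 i2, intervalIntegral.integral_const_mul, intervalIntegral.integral_const_mul,
    intervalIntegral.integral_const_mul, intervalIntegral.integral_const_mul] at h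
  have hz : ∀ t : ℝ, (t - 2) * (t - 3) * (t - 4) = 0 →
      (t - 2) ^ (3 * ν + 1) * (t - 3) ^ (4 * ν + 1) * (t - 4) ^ (2 * ν + 1) = 0 := by
    intro t ht
    rw [pow_succ (t - 2), pow_succ (t - 3), pow_succ (t - 4)]
    linear_combination (t - 2) ^ (3 * ν) * (t - 3) ^ (4 * ν) * (t - 4) ^ (2 * ν) * ht
  simp only [hz a hqa, hz b hqb, zero_mul, sub_zero] at h
  simp only [nv2_KK]
  exact h

/-! ### the integrals for large `s` -/

private theorem nv2_one (ν : ℕ) (a b : ℝ) (ha : 0 < a) (hab : a ≤ b) :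
    KK ν (4 * ν + 1) a b = ∫ y in a..b, nv2w ν y := by
  rw [nv2_KK]
  refine intervalIntegral.integral_congr fun y hy => ?_
  rw [Set.uIcc_of_le hab] at hy
  have hy0 : y ≠ 0 := (lt_of_lt_of_le ha hy.1).ne'
  show nv2w ν y * y ^ (4 * ν + 1) / y ^ (4 * ν + 1) = nv2w ν y
  rw [mul_div_assoc, div_self (pow_ne_zero _ hy0), mul_one]

private theorem nv2_two (ν : ℕ) (a b : ℝ) (ha : 0 < a) (hab : a ≤ b) :
    KK ν (4 * ν + 2) a b = ∫ y in a..b, nv2w ν y * y := by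
  rw [nv2_KK]
  refine intervalIntegral.integral_congr fun y hy => ?_
  rw [Set.uIcc_of_le hab] at hy
  have hy0 : y ≠ 0 := (lt_of_lt_of_le ha hy.1).ne'
  show nv2w ν y * y ^ (4 * ν + 2) / y ^ (4 * ν + 1) = nv2w ν y * y
  rw [show 4 * ν + 2 = (4 * ν + 1) + 1 by ring, pow_succ y (4 * ν + 1), mul_div_assoc,
    mul_div_cancel_left₀ y (pow_ne_zero _ hy0)]

private theorem nv2_cc0 (ν s : ℕ) (hs : 4 * ν < s) : c2 ν s = 0 := by
  rw [c2, WW, coeff_mul_X_pow', if_neg (by omega)]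

private theorem nv2_p23 (ν : ℕ) (y : ℝ) (hy : y ∈ Set.Ioo (2 : ℝ) 3) : 0 < nv2w ν y := by
  have h1 : 0 < y - 2 := sub_pos.2 hy.1
  have h2 : y - 3 ≠ 0 := (sub_neg.2 hy.2).ne
  have h3 : y - 4 ≠ 0 := (sub_neg.2 (hy.2.trans (by norm_num : (3 : ℝ) < 4))).ne
  have h4 : 0 < (y - 3) ^ (4 * ν) := (show Even (4 * ν) from ⟨2 * ν, by ring⟩).pow_pos h2
  have h5 : 0 < (y - 4) ^ (2 * ν) := (even_two_mul ν).pow_pos h3
  exact mul_pos (mul_pos (pow_pos h1 _) h4) h5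

private theorem nv2_p34 (ν : ℕ) (y : ℝ) (hy : y ∈ Set.Ioo (3 : ℝ) 4) : 0 < nv2w ν y := by
  have h1 : 0 < y - 2 := sub_pos.2 ((by norm_num : (2 : ℝ) < 3).trans hy.1)
  have h2 : y - 3 ≠ 0 := (sub_pos.2 hy.1).ne'
  have h3 : y - 4 ≠ 0 := (sub_neg.2 hy.2).ne
  have h4 : 0 < (y - 3) ^ (4 * ν) := (show Even (4 * ν) from ⟨2 * ν, by ring⟩).pow_pos h2
  have h5 : 0 < (y - 4) ^ (2 * ν) := (even_two_mul ν).pow_pos h3
  exact mul_pos (mul_pos (pow_pos h1 _) h4) h5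

/-- `St_NV2`. -/
theorem thm_NV2 : St_NV2 := by
  intro ν A B l hAB
  by_contra hcon
  push Not at hcon
  have hrec : ∀ s : ℕ, (5 * (ν : ℝ) + 3 + s) * (l * (c2 ν (s + 3) : ℝ) - A * KK ν (s + 3) 2 3 - B * KK ν (s + 3) 3 4) -
      (19 * (ν : ℝ) + 18 + 9 * s) * (l * (c2 ν (s + 2) : ℝ) - A * KK ν (s + 2) 2 3 - B * KK ν (s + 2) 3 4) +
      (26 + 26 * (s : ℝ) - 24 * ν) * (l * (c2 ν (s + 1) : ℝ) - A * KK ν (s + 1) 2 3 - B * KK ν (s + 1) 3 4) +
      (96 * (ν : ℝ) - 24 * s) * (l * (c2 ν s : ℝ) - A * KK ν s 2 3 - B * KK ν s 3 4) = 0 := by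
    intro s
    have h1 : ((5 * (ν : ℝ) + 3 + s) * (c2 ν (s + 3) : ℝ) - (19 * (ν : ℝ) + 18 + 9 * s) * (c2 ν (s + 2) : ℝ) +
      (26 + 26 * (s : ℝ) - 24 * ν) * (c2 ν (s + 1) : ℝ) + (96 * (ν : ℝ) - 24 * s) * (c2 ν s : ℝ)) = 0 := by
      exact_mod_cast nv2_cc ν s
    have h2 := nv2_JJ ν s 2 3 (by norm_num) (by norm_num) (by norm_num) (by norm_num)
    have h3 := nv2_JJ ν s 3 4 (by norm_num) (by norm_num) (by norm_num) (by norm_num)
    linear_combination l * h1 - A * h2 - B * h3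
  have hall : ∀ s : ℕ, (l * (c2 ν s : ℝ) - A * KK ν s 2 3 - B * KK ν s 3 4 = 0) ∧
      (l * (c2 ν (s + 1) : ℝ) - A * KK ν (s + 1) 2 3 - B * KK ν (s + 1) 3 4 = 0) ∧
      (l * (c2 ν (s + 2) : ℝ) - A * KK ν (s + 2) 2 3 - B * KK ν (s + 2) 3 4 = 0) := by
    intro s
    induction s with
    | zero => exact ⟨hcon 0 (by norm_num), hcon 1 (by norm_num), hcon 2 (by norm_num)⟩
    | succ s ih =>
      obtain ⟨i0, i1, i2⟩ := ih
      refine ⟨i1, i2, ?_⟩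
      have h := hrec s
      rw [i0, i1, i2, mul_zero, mul_zero, mul_zero, add_zero, add_zero, sub_zero] at h
      rcases mul_eq_zero.1 h with h5 | h5
      · exfalso
        have : (0 : ℝ) < 5 * (ν : ℝ) + 3 + s := by positivity
        linarith
      · exact h5
  obtain ⟨e1, e2, -⟩ := hall (4 * ν + 1)
  rw [nv2_cc0 ν _ (by omega), nv2_one ν 2 3 (by norm_num) (by norm_num), nv2_one ν 3 4 (by norm_num) (by norm_num)] at e1
  rw [nv2_cc0 ν _ (by omega), nv2_two ν 2 3 (by norm_num) (by norm_num), nv2_two ν 3 4 (by norm_num) (by norm_num)] at e2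
  have hcont := nv2_cont ν
  have hcy : Continuous fun y : ℝ => nv2w ν y * y := hcont.mul continuous_id
  have hc3 : Continuous fun y : ℝ => 3 * nv2w ν y := continuous_const.mul hcont
  have hI : 0 < ∫ y in (2 : ℝ)..3, nv2w ν y :=
    intervalIntegral.intervalIntegral_pos_of_pos_on (hcont.intervalIntegrable 2 3) (nv2_p23 ν) (by norm_num)
  have hJ : 0 < ∫ y in (3 : ℝ)..4, nv2w ν y :=
    intervalIntegral.intervalIntegral_pos_of_pos_on (hcont.intervalIntegrable 3 4) (nv2_p34 ν) (by norm_num)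
  have hp : 0 < ∫ y in (2 : ℝ)..3, (3 * nv2w ν y - nv2w ν y * y) := by
    refine intervalIntegral.intervalIntegral_pos_of_pos_on
      ((hc3.sub hcy).intervalIntegrable 2 3) ?_ (by norm_num)
    intro y hy
    have h1 : 0 < nv2w ν y := nv2_p23 ν y hy
    have h2 : 0 < 3 - y := sub_pos.2 hy.2
    have h3 := mul_pos h1 h2
    linarith
  have hq : 0 < ∫ y in (3 : ℝ)..4, (nv2w ν y * y - 3 * nv2w ν y) := by
    refine intervalIntegral.intervalIntegral_pos_of_pos_on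
      ((hcy.sub hc3).intervalIntegrable 3 4) ?_ (by norm_num)
    intro y hy
    have h1 : 0 < nv2w ν y := nv2_p34 ν y hy
    have h2 : 0 < y - 3 := sub_pos.2 hy.1
    have h3 := mul_pos h1 h2
    linarith
  rw [intervalIntegral.integral_sub (hc3.intervalIntegrable 2 3)
    (hcy.intervalIntegrable 2 3), intervalIntegral.integral_const_mul] at hp
  rw [intervalIntegral.integral_sub (hcy.intervalIntegrable 3 4)
    (hc3.intervalIntegrable 3 4), intervalIntegral.integral_const_mul] at hq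
  generalize (∫ y in (2 : ℝ)..3, nv2w ν y) = I at *
  generalize (∫ y in (3 : ℝ)..4, nv2w ν y) = J at *
  generalize (∫ y in (2 : ℝ)..3, nv2w ν y * y) = I' at *
  generalize (∫ y in (3 : ℝ)..4, nv2w ν y * y) = J' at *
  rw [Int.cast_zero, mul_zero] at e1 e2
  have f1 : A * (3 * I - I') = B * (J' - 3 * J) := by linear_combination (-3) * e1 + e2
  have f2 : A * I = -(B * J) := by linear_combination -e1
  have f3 : A ^ 2 * ((3 * I - I') * I) + B ^ 2 * ((J' - 3 * J) * J) = 0 := by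
    linear_combination A * I * f1 + B * (J' - 3 * J) * f2
  have f4 : 0 < (3 * I - I') * I := mul_pos hp hI
  have f5 : 0 < (J' - 3 * J) * J := mul_pos hq hJ
  rcases hAB with h | h
  · have h1 : 0 < A ^ 2 := by positivity
    have h2 := mul_pos h1 f4
    have h3 : 0 ≤ B ^ 2 * ((J' - 3 * J) * J) := mul_nonneg (sq_nonneg B) f5.le
    linarith
  · have h1 : 0 < B ^ 2 := by positivity
    have h2 := mul_pos h1 f5
    have h3 : 0 ≤ A ^ 2 * ((3 * I - I') * I) := mul_nonneg (sq_nonneg A) f4.le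
    linarith

end Pool.Agent.CPC
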