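import Pool.Agent.CPC.St2

/-!
# CPC, module RU2 (helper84): lengths and runs
-/

set_option autoImplicit false

namespace Pool.Agent.CPC

open Finset Polynomial

private theorem ru2_log2 : 0 < Real.log 2 := Real.log_pos (by norm_num)

private theorem ru2_theta : 1 < Real.log 3 / Real.log 2 := by
  rw [one_lt_div ru2_log2]
  exact Real.log_lt_log (by norm_num) (by norm_num)

private theorem ru2_delta : 0 < 2 * Real.log 2 - Real.log 3 := by
  have h1 : Real.log 3 < Real.log ((2 : ℝ) ^ 2) := Real.log_lt_log (by norm_num) (by norm_num)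
  rw [Real.log_pow] at h1
  push_cast at h1
  linarith

private theorem ru2_sum {θ : ℝ} (h : 1 < θ) (m : ℕ) :
    (m : ℝ) ≤ ∑ t ∈ range m, θ ^ t ∧ ∑ t ∈ range m, θ ^ t ≤ θ ^ m / (θ - 1) := by
  constructor
  · calc (m : ℝ) = ∑ t ∈ range m, (1 : ℝ) := by simp
      _ ≤ ∑ t ∈ range m, θ ^ t := sum_le_sum fun t _ => one_le_pow₀ h.le
  · rw [geom_sum_eq h.ne']
    have : 0 < θ - 1 := by linarith
    gcongr
    linarith

private theorem ru2_bound {k m y C₀ D δ θ : ℝ} {n : ℕ} (hn : (n : ℝ) = m) (hk : 2 ≤ k) (hC : 1 ≤ C₀)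
    (hy : 2 ≤ y) (hyC : y ≤ C₀ * k ^ (11.8 : ℝ)) (hδ : 0 < δ) (hθ : 1 < θ)
    (h : k * δ ≤ (∑ t ∈ range n, θ ^ t) * Real.log y + m / (y - 1))
    (hD : D = ((Real.log C₀ + 1) / Real.log 2 + 11.8) / ((θ - 1) * δ)) :
    k ≤ D * θ ^ n * Real.log k := by
  have hl2 := ru2_log2
  have hk0 : 0 < k := by linarith
  have hlk : Real.log 2 ≤ Real.log k := Real.log_le_log (by norm_num) hk
  obtain ⟨s1, s2⟩ := ru2_sum hθ n
  obtain ⟨T, hT⟩ : ∃ T : ℝ, T = ∑ t ∈ range n, θ ^ t := ⟨_, rfl⟩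
  rw [← hT] at s1 s2 h
  have hm0 : 0 ≤ m := by rw [← hn]; exact Nat.cast_nonneg n
  have hT0 : 0 ≤ T := by rw [hn] at s1; linarith
  have hly : Real.log y ≤ Real.log C₀ + 11.8 * Real.log k := by
    have h2 : Real.log y ≤ Real.log (C₀ * k ^ (11.8 : ℝ)) := Real.log_le_log (by linarith) hyC
    rwa [Real.log_mul (by linarith) (by positivity), Real.log_rpow hk0] at h2
  have h3 : m / (y - 1) ≤ T := by
    refine le_trans ?_ (hn ▸ s1)
    exact div_le_self hm0 (by linarith)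
  have hlc : 0 ≤ Real.log C₀ := Real.log_nonneg hC
  have h4 : Real.log C₀ + 1 ≤ (Real.log C₀ + 1) / Real.log 2 * Real.log k := by
    rw [div_mul_eq_mul_div, le_div_iff₀ hl2]
    exact mul_le_mul_of_nonneg_left hlk (by linarith)
  have h5 : k * δ ≤ T * (((Real.log C₀ + 1) / Real.log 2 + 11.8) * Real.log k) := by
    calc k * δ ≤ T * Real.log y + m / (y - 1) := h
      _ ≤ T * (Real.log C₀ + 11.8 * Real.log k) + T :=
          add_le_add (mul_le_mul_of_nonneg_left hly hT0) h3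
      _ = T * ((Real.log C₀ + 1) + 11.8 * Real.log k) := by ring
      _ ≤ T * (((Real.log C₀ + 1) / Real.log 2 + 11.8) * Real.log k) := by
          refine mul_le_mul_of_nonneg_left ?_ hT0
          rw [add_mul]
          linarith
  have hθ1 : 0 < θ - 1 := by linarith
  have hB : 0 ≤ ((Real.log C₀ + 1) / Real.log 2 + 11.8) * Real.log k :=
    mul_nonneg (by positivity) (hl2.le.trans hlk)
  have h6 : k * δ ≤ θ ^ n / (θ - 1) * (((Real.log C₀ + 1) / Real.log 2 + 11.8) * Real.log k) :=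
    h5.trans (mul_le_mul_of_nonneg_right s2 hB)
  have h7 : k ≤ θ ^ n / (θ - 1) * (((Real.log C₀ + 1) / Real.log 2 + 11.8) * Real.log k) / δ := by
    rwa [le_div_iff₀ hδ]
  refine h7.trans (le_of_eq ?_)
  rw [hD]
  field_simp

private theorem ru2_one (hSH2 : St_SH2) (hHG2 : St_HG2) (hSBD : St_SBD) :
    ∃ C : ℝ, ∀ S, IsCycle S → 2 ≤ S.card →
      (S.card : ℝ) ≤ C * (Real.log 3 / Real.log 2) ^ (runs S) * Real.log S.card := by
  obtain ⟨C₀, h1, _, _⟩ := hSH2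
  refine ⟨((Real.log (max C₀ 1) + 1) / Real.log 2 + 11.8) /
    ((Real.log 3 / Real.log 2 - 1) * (2 * Real.log 2 - Real.log 3)), fun S hS h2 => ?_⟩
  obtain ⟨y', hy', hyC⟩ := h1 S hS
  have hne : S.Nonempty := ⟨y', hy'⟩
  have hmin : ∀ x ∈ S, S.min' hne ≤ x := fun x hx => S.min'_le x hx
  have hmem : S.min' hne ∈ S := S.min'_mem hne
  obtain ⟨hy2, _⟩ := hSBD S hS h2 _ hmem hmin
  obtain ⟨hg, _⟩ := hHG2 S hS h2 _ hmem hmin
  have hk : (2 : ℝ) ≤ (S.card : ℝ) := by exact_mod_cast h2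
  refine ru2_bound (y := (S.min' hne : ℝ)) (m := (runs S : ℝ)) rfl hk (le_max_right C₀ 1) (by exact_mod_cast hy2) ?_ ru2_delta
    ru2_theta hg rfl
  have h3 : ((S.min' hne : ℕ) : ℝ) ≤ y' := by exact_mod_cast hmin y' hy'
  refine h3.trans (hyC.trans ?_)
  exact mul_le_mul_of_nonneg_right (le_max_left _ _) (by positivity)

/-- **RU2.** -/
theorem thm_RU2 (hSH2 : St_SH2) (hHG2 : St_HG2) (hSBD : St_SBD) (hCYB : St_CYB) : St_RU2 := by
  refine ⟨ru2_one hSH2 hHG2 hSBD, fun m => ?_⟩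
  obtain ⟨C, hC⟩ := ru2_one hSH2 hHG2 hSBD
  obtain ⟨_, _, hPer, _⟩ := hSH2
  obtain ⟨_, _, _, _, h5, _⟩ := hCYB
  obtain ⟨B, hB⟩ : ∃ B : ℝ, B = |C| * (Real.log 3 / Real.log 2) ^ m := ⟨_, rfl⟩
  obtain ⟨K, hK⟩ : ∃ K : ℕ, K = max 1 ⌊(2 * B) ^ 2⌋₊ := ⟨_, rfl⟩
  have hfin := (hPer K).1
  refine Set.Finite.subset (hfin.toFinset.powerset.finite_toSet) ?_
  rintro S ⟨hS, hr⟩
  rw [Finset.mem_coe, Finset.mem_powerset]
  intro x hx
  rw [Set.Finite.mem_toFinset]
  have hx0 : 0 < x := by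
    rcases Nat.eq_zero_or_pos x with h | h
    · exact absurd (h ▸ hx) hS.2.1
    · exact h
  have hc1 : 1 ≤ S.card := Finset.card_pos.mpr ⟨x, hx⟩
  refine ⟨hx0, S.card, hc1, ?_, (h5 S hS x hx).1⟩
  rcases Nat.lt_or_ge S.card 2 with h2 | h2
  · rw [hK]
    exact le_max_of_le_left (by omega)
  · rw [hK]
    refine le_max_of_le_right (Nat.le_floor ?_)
    have h3 := hC S hS h2
    have hθ := ru2_theta
    have hk0 : (0 : ℝ) < (S.card : ℝ) := by exact_mod_cast hc1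
    have hk1 : (1 : ℝ) ≤ (S.card : ℝ) := by exact_mod_cast hc1
    have hB0 : 0 ≤ B := by rw [hB]; positivity
    have h4 : (S.card : ℝ) ≤ B * Real.log S.card := by
      refine h3.trans ?_
      refine mul_le_mul_of_nonneg_right ?_ (Real.log_nonneg hk1)
      rw [hB]
      calc C * (Real.log 3 / Real.log 2) ^ (runs S) ≤ |C| * (Real.log 3 / Real.log 2) ^ (runs S) :=
            mul_le_mul_of_nonneg_right (le_abs_self C) (by positivity)
        _ ≤ |C| * (Real.log 3 / Real.log 2) ^ m :=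
            mul_le_mul_of_nonneg_left (pow_le_pow_right₀ hθ.le hr) (abs_nonneg C)
    have hs0 : 0 < √(S.card : ℝ) := Real.sqrt_pos.2 hk0
    have h6 : Real.log (S.card : ℝ) ≤ 2 * √(S.card : ℝ) := by
      have h7 := Real.log_le_sub_one_of_pos hs0
      rw [Real.log_sqrt hk0.le] at h7
      linarith
    have h8 : √(S.card : ℝ) * √(S.card : ℝ) = S.card := Real.mul_self_sqrt hk0.le
    have h9 : √(S.card : ℝ) ≤ 2 * B := by
      have h10 : √(S.card : ℝ) * √(S.card : ℝ) ≤ (2 * B) * √(S.card : ℝ) := by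
        rw [h8]
        calc (S.card : ℝ) ≤ B * Real.log S.card := h4
          _ ≤ B * (2 * √(S.card : ℝ)) := mul_le_mul_of_nonneg_left h6 hB0
          _ = (2 * B) * √(S.card : ℝ) := by ring
      exact le_of_mul_le_mul_right h10 hs0
    calc (S.card : ℝ) = √(S.card : ℝ) ^ 2 := by rw [sq, h8]
      _ ≤ (2 * B) ^ 2 := pow_le_pow_left₀ hs0.le h9 2

end Pool.Agent.CPC
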