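import Pool.Agent.CPC.St2

/-!
# CPC/SBD (helper52): the equation of a cycle, sharper
-/

set_option autoImplicit false

namespace Pool.Agent.CPC

open Finset

private theorem sbd_f0 (x : ℕ) (h : 3 ∣ x) : 3 * f x = 2 * x := by
  unfold f
  obtain ⟨n, rfl⟩ := h
  rw [if_pos (by omega)]
  omega

private theorem sbd_f2 (x : ℕ) (h : x % 3 = 2) : 3 * f x = 4 * x + 1 := by
  unfold f
  rw [if_neg (by omega), if_pos h]
  omega

private theorem sbd_f1 (x : ℕ) (h : x % 3 = 1) : 3 * f x + 1 = 4 * x := by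
  unfold f
  rw [if_neg (by omega), if_neg (by omega)]
  omega

private theorem sbd_u (x : ℕ) (hx : 0 < x) (hf : 0 < f x) :
    uu x = Real.log ((3 * (f x : ℝ)) / (4 * (x : ℝ))) := by
  have hx' : (0 : ℝ) < x := Nat.cast_pos.2 hx
  have hf' : (0 : ℝ) < f x := Nat.cast_pos.2 hf
  have h4 : Real.log 4 = 2 * Real.log 2 := by
    have : (4 : ℝ) = 2 ^ 2 := by norm_num
    rw [this, Real.log_pow]
    norm_num
  unfold uu
  rw [Real.log_div (by positivity) (by positivity), Real.log_mul (by norm_num) hf'.ne',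
    Real.log_mul (by norm_num) hx'.ne', h4]
  ring

/-- the error of one step, telescoping -/
private theorem sbd_step (x : ℕ) (hx : 2 ≤ x) (h3 : ¬ 3 ∣ x) (hf0 : 0 < f x) :
    |uu x| ≤ 1 / ((x : ℝ) - 1) - 1 / ((f x : ℝ) - 1) := by
  have hx0 : 0 < x := by omega
  have hx' : (2 : ℝ) ≤ x := by exact_mod_cast hx
  have hx1 : (0 : ℝ) < (x : ℝ) - 1 := by linarith
  have hmod : x % 3 = 1 ∨ x % 3 = 2 := by omega
  -- the right side is at least 1 / (4 (x - 1))
  have hfx : 4 * ((x : ℝ) - 1) ≤ 3 * ((f x : ℝ) - 1) := by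
    rcases hmod with h | h
    · have h2 : (3 * (f x : ℝ)) + 1 = 4 * x := by exact_mod_cast sbd_f1 x h
      linarith
    · have h2 : 3 * (f x : ℝ) = 4 * x + 1 := by exact_mod_cast sbd_f2 x h
      linarith
  have hR : 1 / (4 * ((x : ℝ) - 1)) ≤ 1 / ((x : ℝ) - 1) - 1 / ((f x : ℝ) - 1) := by
    have h1 : 1 / ((f x : ℝ) - 1) ≤ 1 / (4 / 3 * ((x : ℝ) - 1)) := by
      apply one_div_le_one_div_of_le (by positivity)
      linarith
    have h2 : 1 / (4 / 3 * ((x : ℝ) - 1)) = 1 / ((x : ℝ) - 1) - 1 / (4 * ((x : ℝ) - 1)) := by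
      field_simp
      ring
    linarith
  refine le_trans ?_ hR
  rw [sbd_u x hx0 hf0]
  have hf' : (0 : ℝ) < f x := Nat.cast_pos.2 hf0
  have hzpos : 0 < (3 * (f x : ℝ)) / (4 * (x : ℝ)) := by positivity
  have hup := Real.log_le_sub_one_of_pos hzpos
  have hlo := Real.one_sub_inv_le_log_of_pos hzpos
  have h41 : (0 : ℝ) < 4 * x - 1 := by linarith
  have hA : 1 / (4 * (x : ℝ) - 1) ≤ 1 / (4 * ((x : ℝ) - 1)) := by
    apply one_div_le_one_div_of_le (by positivity)
    linarith
  have hB : 1 / (4 * (x : ℝ)) ≤ 1 / (4 * ((x : ℝ) - 1)) := by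
    apply one_div_le_one_div_of_le (by positivity)
    linarith
  have hC : (0 : ℝ) ≤ 1 / (4 * (x : ℝ)) := by positivity
  rcases hmod with h | h
  · have h1 : 3 * (f x : ℝ) = 4 * x - 1 := by
      have h2 : (3 * (f x : ℝ)) + 1 = 4 * x := by exact_mod_cast sbd_f1 x h
      linarith
    rw [h1] at hup hlo ⊢
    have e1 : (4 * (x : ℝ) - 1) / (4 * x) - 1 = -(1 / (4 * x)) := by
      field_simp
      ring
    have e2 : 1 - ((4 * (x : ℝ) - 1) / (4 * x))⁻¹ = -(1 / (4 * x - 1)) := by
      have hx0' : (x : ℝ) ≠ 0 := by positivity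
      field_simp
      ring
    rw [e1] at hup
    rw [e2] at hlo
    rw [abs_le]
    constructor <;> linarith
  · have h1 : 3 * (f x : ℝ) = 4 * x + 1 := by exact_mod_cast sbd_f2 x h
    rw [h1] at hup hlo ⊢
    have e1 : (4 * (x : ℝ) + 1) / (4 * x) - 1 = 1 / (4 * x) := by
      field_simp
      ring
    rw [e1] at hup
    have h0 : 0 ≤ Real.log ((4 * (x : ℝ) + 1) / (4 * x)) := by
      apply Real.log_nonneg
      rw [le_div_iff₀ (by positivity)]
      linarith
    rw [abs_le]
    constructor <;> linarith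

/-- the equation of a cycle, sharper -/
theorem thm_SBD (hCYB : St_CYB) : St_SBD := by
  intro S hS hcard y hy hmin
  obtain ⟨hpos, hinj, himg, -, -, -⟩ := hCYB
  have hS0 : ∀ x ∈ S, 0 < x := by
    intro x hx
    rcases Nat.eq_zero_or_pos x with h | h
    · rw [h] at hx
      exact absurd hx hS.2.1
    · exact h
  have hfS : ∀ x ∈ S, f x ∈ S := fun x hx => by
    have h := Finset.mem_image_of_mem f hx
    rwa [himg S hS] at h
  have h1S : 1 ∉ S := by
    intro h1
    have hit : ∀ j : ℕ, f^[j] 1 = 1 := by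
      intro j
      exact Function.iterate_fixed (by decide) j
    have hsub : S ⊆ {1} := by
      intro z hz
      obtain ⟨j, hj⟩ := (hS.2.2 1 h1 z).1 hz
      rw [hit j] at hj
      rw [Finset.mem_singleton]
      exact hj.symm
    have := Finset.card_le_card hsub
    rw [Finset.card_singleton] at this
    omega
  have hS2 : ∀ x ∈ S, 2 ≤ x := by
    intro x hx
    have h0 := hS0 x hx
    rcases Nat.lt_or_ge x 2 with h | h
    · have : x = 1 := by omega
      rw [this] at hx
      exact absurd hx h1S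
    · exact h
  have hy2 := hS2 y hy
  have hy3 : ¬ 3 ∣ y := by
    intro h
    have h1 := sbd_f0 y h
    have h2 := hmin (f y) (hfS y hy)
    omega
  have hyev : y % 2 = 0 := by
    have hy' : y ∈ S.image f := by rw [himg S hS]; exact hy
    obtain ⟨z, hz, hzy⟩ := Finset.mem_image.1 hy'
    have hz2 := hS2 z hz
    have hyz := hmin z hz
    by_cases h : 3 ∣ z
    · have h1 := sbd_f0 z h
      omega
    · rcases (show z % 3 = 1 ∨ z % 3 = 2 by omega) with h' | h'
      · have h1 := sbd_f1 z h'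
        omega
      · have h1 := sbd_f2 z h'
        omega
  have hinjS : Set.InjOn f (S : Set ℕ) := fun x hx y hy h => hinj x y (hS0 x hx) (hS0 y hy) h
  -- sums of g (f x) and g x agree
  have hsum : ∀ g : ℕ → ℝ, ∑ x ∈ S, g (f x) = ∑ x ∈ S, g x := by
    intro g
    calc ∑ x ∈ S, g (f x) = ∑ z ∈ S.image f, g z := (Finset.sum_image hinjS).symm
      _ = ∑ x ∈ S, g x := by rw [himg S hS]
  set M : ℝ := 1 / ((y : ℝ) - 1) with hM
  have hy2R : (2 : ℝ) ≤ y := by exact_mod_cast hy2
  have hM0 : 0 ≤ M := by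
    rw [hM]
    apply one_div_nonneg.2
    linarith
  set φ : ℕ → ℝ := fun x => 1 / ((x : ℝ) - 1) with hφ
  have hφM : ∀ x ∈ S, 0 ≤ φ x ∧ φ x ≤ M := by
    intro x hx
    have h1 : (y : ℝ) ≤ x := by exact_mod_cast hmin x hx
    constructor
    · apply one_div_nonneg.2
      linarith
    · apply one_div_le_one_div_of_le
      · linarith
      · linarith
  have hmain : ∑ x ∈ S.filter (fun x => ¬ 3 ∣ x), |uu x| ≤ runs S / ((y : ℝ) - 1) := by
    have h1 : ∑ x ∈ S.filter (fun x => ¬ 3 ∣ x), |uu x| ≤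
        ∑ x ∈ S, if ¬ 3 ∣ x then φ x - φ (f x) else 0 := by
      rw [← Finset.sum_filter]
      apply Finset.sum_le_sum
      intro x hx
      rw [Finset.mem_filter] at hx
      exact sbd_step x (hS2 x hx.1) hx.2 (hpos x (hS0 x hx.1))
    have h2 : ∀ x ∈ S, (if ¬ 3 ∣ x then φ x - φ (f x) else 0) ≤
        (φ x - φ (f x)) + ((if 3 ∣ f x then φ (f x) else 0) - (if 3 ∣ x then φ x else 0)) +
        M * ((if ¬ 3 ∣ x ∧ 3 ∣ f x then 1 else 0) + ((if 3 ∣ x then (1 : ℝ) else 0) -
          (if 3 ∣ f x then 1 else 0))) := by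
      intro x hx
      obtain ⟨hf0, hfM⟩ := hφM (f x) (hfS x hx)
      by_cases ha : 3 ∣ x <;> by_cases hb : 3 ∣ f x
      · simp only [ha, hb, not_true_eq_false, if_true, if_false, false_and]
        linarith
      · simp only [ha, hb, not_true_eq_false, if_true, if_false, false_and]
        linarith
      · simp only [ha, hb, not_false_eq_true, if_true, if_false, and_self]
        linarith
      · simp only [ha, hb, not_false_eq_true, if_true, if_false, and_false]
        linarith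
    have h3 := Finset.sum_le_sum h2
    have e1 : ∑ x ∈ S, (φ x - φ (f x)) = 0 := by
      rw [Finset.sum_sub_distrib, hsum φ, sub_self]
    have e2 : ∑ x ∈ S, ((if 3 ∣ f x then φ (f x) else 0) - (if 3 ∣ x then φ x else 0)) = 0 := by
      rw [Finset.sum_sub_distrib, hsum (fun z => if 3 ∣ z then φ z else 0), sub_self]
    have e3 : ∑ x ∈ S, ((if 3 ∣ x then (1 : ℝ) else 0) - (if 3 ∣ f x then 1 else 0)) = 0 := by
      rw [Finset.sum_sub_distrib, hsum (fun z => if 3 ∣ z then (1 : ℝ) else 0), sub_self]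
    have e4 : ∑ x ∈ S, (if ¬ 3 ∣ x ∧ 3 ∣ f x then (1 : ℝ) else 0) = runs S := by
      rw [← Finset.sum_filter, Finset.sum_const, nsmul_eq_mul, mul_one]
      rfl
    rw [Finset.sum_add_distrib, Finset.sum_add_distrib, ← Finset.mul_sum,
      Finset.sum_add_distrib, e1, e2, e3, e4] at h3
    calc ∑ x ∈ S.filter (fun x => ¬ 3 ∣ x), |uu x| ≤ M * runs S := by linarith
      _ = runs S / ((y : ℝ) - 1) := by rw [hM]; ring
  refine ⟨hy2, hyev, by omega, hmain, 2 * (S.card : ℤ) - ((S.filter fun x => 3 ∣ x).card : ℤ), ?_⟩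
  have heq : (S.card : ℝ) * Real.log 3 -
      (2 * (S.card : ℝ) - ((S.filter fun x => 3 ∣ x).card : ℝ)) * Real.log 2 =
      ∑ x ∈ S.filter (fun x => ¬ 3 ∣ x), uu x := by
    have h2 : ∑ x ∈ S, (Real.log (f x) - Real.log x) = 0 := by
      rw [Finset.sum_sub_distrib, hsum (fun z => Real.log (z : ℝ)), sub_self]
    rw [← Finset.sum_filter_add_sum_filter_not S (fun x => 3 ∣ x)] at h2
    have h3 : ∑ x ∈ S.filter (fun x => 3 ∣ x), (Real.log (f x) - Real.log x) =
        ((S.filter fun x => 3 ∣ x).card : ℝ) * (Real.log 2 - Real.log 3) := by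
      rw [← nsmul_eq_mul, ← Finset.sum_const]
      apply Finset.sum_congr rfl
      intro x hx
      rw [Finset.mem_filter] at hx
      have hx0 := hS0 x hx.1
      have hf0 := hpos x hx0
      have hx' : (0 : ℝ) < x := Nat.cast_pos.2 hx0
      have hf' : (0 : ℝ) < f x := Nat.cast_pos.2 hf0
      have h4 : 3 * (f x : ℝ) = 2 * x := by exact_mod_cast sbd_f0 x hx.2
      have h5 : Real.log 3 + Real.log (f x) = Real.log 2 + Real.log x := by
        rw [← Real.log_mul (by norm_num) hf'.ne', ← Real.log_mul (by norm_num) hx'.ne', h4]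
      linarith
    have h4 : ∑ x ∈ S.filter (fun x => ¬ 3 ∣ x), (Real.log (f x) - Real.log x) =
        ((S.filter fun x => ¬ 3 ∣ x).card : ℝ) * (2 * Real.log 2 - Real.log 3) +
        ∑ x ∈ S.filter (fun x => ¬ 3 ∣ x), uu x := by
      rw [← nsmul_eq_mul, ← Finset.sum_const, ← Finset.sum_add_distrib]
      apply Finset.sum_congr rfl
      intro x _
      unfold uu
      ring
    have h5 : ((S.filter fun x => 3 ∣ x).card : ℝ) + ((S.filter fun x => ¬ 3 ∣ x).card : ℝ) =
        (S.card : ℝ) := by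
      exact_mod_cast Finset.card_filter_add_card_filter_not (s := S) (fun x => 3 ∣ x)
    rw [h3, h4] at h2
    have h6 : ((S.filter fun x => ¬ 3 ∣ x).card : ℝ) =
        (S.card : ℝ) - ((S.filter fun x => 3 ∣ x).card : ℝ) := by linarith
    rw [h6] at h2
    linear_combination (-1 : ℝ) * h2
  push_cast
  rw [heq]
  exact (Finset.abs_sum_le_sum_abs _ _).trans hmain

end Pool.Agent.CPC
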