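import Pool.Agent.CPC.St2

/-!
# CPC/SH2 (helper32): few integers on short cycles, second version
-/

set_option autoImplicit false

namespace Pool.Agent.CPC

open Finset

private theorem sh2_pos (hpos : ∀ x, 0 < x → 0 < f x) : ∀ (i n : ℕ), 0 < n → 0 < f^[i] n := by
  intro i
  induction i with
  | zero => intro n hn; simpa using hn
  | succ i ih =>
    intro n hn
    rw [Function.iterate_succ_apply]
    exact ih _ (hpos n hn)

private theorem sh2_inj (hpos : ∀ x, 0 < x → 0 < f x)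
    (hinj : ∀ x y, 0 < x → 0 < y → f x = f y → x = y) :
    ∀ (i x y : ℕ), 0 < x → 0 < y → f^[i] x = f^[i] y → x = y := by
  intro i
  induction i with
  | zero => intro x y _ _ h; simpa using h
  | succ i ih =>
    intro x y hx hy h
    rw [Function.iterate_succ_apply, Function.iterate_succ_apply] at h
    exact hinj x y hx hy (ih _ _ (hpos x hx) (hpos y hy) h)

/-- the smallest element of a cycle -/
private theorem sh2_min (hHAR : St_HAR) {c : ℝ} (hc : 0 < c)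
    (h : ∀ k : ℕ, 1 ≤ k → ∀ p : ℤ,
      c / (k : ℝ) ^ (10.8 : ℝ) ≤ |k * Real.log 3 - p * Real.log 2|)
    (S : Finset ℕ) (hS : IsCycle S) :
    ∃ y ∈ S, (y : ℝ) ≤ 1 / (3 * c) * (S.card : ℝ) ^ (11.8 : ℝ) := by
  obtain ⟨hne, h0, -⟩ := id hS
  refine ⟨S.min' hne, S.min'_mem hne, ?_⟩
  have hypos : 0 < S.min' hne := by
    rcases Nat.eq_zero_or_pos (S.min' hne) with hz | hz
    · exact absurd (hz ▸ S.min'_mem hne) h0
    · exact hz
  have hyR : (0 : ℝ) < (S.min' hne : ℕ) := by exact_mod_cast hypos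
  have hk1 : 1 ≤ S.card := hne.card_pos
  have hkR : (0 : ℝ) < (S.card : ℝ) := by exact_mod_cast hk1
  have h1 : c / (S.card : ℝ) ^ (10.8 : ℝ) ≤ lam S.card := h S.card hk1 _
  have h2 := hHAR.2.1 S hS
  have h3 : ∑ x ∈ S, 1 / (3 * (x : ℝ)) ≤ S.card • (1 / (3 * ((S.min' hne : ℕ) : ℝ))) := by
    refine Finset.sum_le_card_nsmul _ _ _ ?_
    intro x hx
    have hle : ((S.min' hne : ℕ) : ℝ) ≤ (x : ℝ) := by exact_mod_cast S.min'_le x hx
    exact one_div_le_one_div_of_le (by positivity) (by linarith)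
  rw [nsmul_eq_mul] at h3
  have h4 : c / (S.card : ℝ) ^ (10.8 : ℝ) ≤
      (S.card : ℝ) * (1 / (3 * ((S.min' hne : ℕ) : ℝ))) := h1.trans (h2.trans h3)
  have hkp : (0 : ℝ) < (S.card : ℝ) ^ (10.8 : ℝ) := Real.rpow_pos_of_pos hkR _
  have h5 : c / (S.card : ℝ) ^ (10.8 : ℝ) *
      ((S.card : ℝ) ^ (10.8 : ℝ) * (3 * ((S.min' hne : ℕ) : ℝ))) ≤
      (S.card : ℝ) * (1 / (3 * ((S.min' hne : ℕ) : ℝ))) *
        ((S.card : ℝ) ^ (10.8 : ℝ) * (3 * ((S.min' hne : ℕ) : ℝ))) :=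
    mul_le_mul_of_nonneg_right h4 (by positivity)
  have h6 : c / (S.card : ℝ) ^ (10.8 : ℝ) *
      ((S.card : ℝ) ^ (10.8 : ℝ) * (3 * ((S.min' hne : ℕ) : ℝ))) =
      3 * c * ((S.min' hne : ℕ) : ℝ) := by
    field_simp
  have h8 : (S.card : ℝ) ^ (11.8 : ℝ) = (S.card : ℝ) ^ (10.8 : ℝ) * (S.card : ℝ) := by
    have h9 : (11.8 : ℝ) = 10.8 + 1 := by norm_num
    rw [h9, Real.rpow_add hkR, Real.rpow_one]
  have h7 : (S.card : ℝ) * (1 / (3 * ((S.min' hne : ℕ) : ℝ))) *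
        ((S.card : ℝ) ^ (10.8 : ℝ) * (3 * ((S.min' hne : ℕ) : ℝ))) =
        (S.card : ℝ) ^ (11.8 : ℝ) := by
    rw [h8]
    field_simp
  rw [h6, h7] at h5
  rw [div_mul_eq_mul_div, one_mul, le_div_iff₀ (by positivity)]
  linarith

/-- first bound for the number of the elements of short cycles -/
private theorem sh2_first (hCYB : St_CYB) {c₁ : ℝ} (hc₁ : 0 ≤ c₁)
    (hP1 : ∀ S, IsCycle S → ∃ y ∈ S, (y : ℝ) ≤ c₁ * (S.card : ℝ) ^ (11.8 : ℝ)) (K : ℕ) :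
    (Per K).Finite ∧ ((Per K).ncard : ℝ) ≤ c₁ * (K : ℝ) ^ (11.8 : ℝ) * K := by
  obtain ⟨hpos, hinj, -, -, h5, h6⟩ := hCYB
  set M : ℕ := ⌊c₁ * (K : ℝ) ^ (11.8 : ℝ)⌋₊ with hM
  set T : Finset ℕ := ((Finset.Icc 1 M) ×ˢ (Finset.range K)).image
    (fun q : ℕ × ℕ => f^[q.2] q.1) with hT
  have hsub : Per K ⊆ (T : Set ℕ) := by
    rintro n ⟨hn, j, hj1, hjK, hjn⟩
    obtain ⟨S, hS, hnS, hcard⟩ := h6 n j hn hj1 hjn
    obtain ⟨y, hy, hyle⟩ := hP1 S hS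
    obtain ⟨-, h52⟩ := h5 S hS y hy
    obtain ⟨i, hi, hin⟩ := h52 n hnS
    have hSK : S.card ≤ K := hcard.trans hjK
    have hSKR : (S.card : ℝ) ≤ (K : ℝ) := by exact_mod_cast hSK
    have hy1 : 1 ≤ y := by
      rcases Nat.eq_zero_or_pos y with hz | hz
      · exact absurd (hz ▸ hy) hS.2.1
      · exact hz
    have hyM : y ≤ M := by
      refine Nat.le_floor ?_
      refine hyle.trans ?_
      exact mul_le_mul_of_nonneg_left
        (Real.rpow_le_rpow (by positivity) hSKR (by norm_num)) hc₁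
    rw [hT, Finset.mem_coe, Finset.mem_image]
    exact ⟨(y, i), Finset.mem_product.2 ⟨Finset.mem_Icc.2 ⟨hy1, hyM⟩,
      Finset.mem_range.2 (lt_of_lt_of_le hi hSK)⟩, hin⟩
  refine ⟨T.finite_toSet.subset hsub, ?_⟩
  have hcardT : T.card ≤ M * K := by
    refine Finset.card_image_le.trans ?_
    rw [Finset.card_product, Nat.card_Icc, Finset.card_range]
    simp
  have hnc : (Per K).ncard ≤ M * K := by
    refine (Set.ncard_le_ncard hsub T.finite_toSet).trans ?_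
    rw [Set.ncard_coe_finset]
    exact hcardT
  have hMle : (M : ℝ) ≤ c₁ * (K : ℝ) ^ (11.8 : ℝ) := Nat.floor_le (by positivity)
  calc ((Per K).ncard : ℝ) ≤ ((M * K : ℕ) : ℝ) := by exact_mod_cast hnc
    _ = (M : ℝ) * (K : ℝ) := by push_cast; ring
    _ ≤ (c₁ * (K : ℝ) ^ (11.8 : ℝ)) * (K : ℝ) := mul_le_mul_of_nonneg_right hMle (by positivity)

/-- second bound, by the harmonic sum -/
private theorem sh2_second (hCYB : St_CYB) (hHAR : St_HAR) {c : ℝ} (hc : 0 < c)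
    (h : ∀ k : ℕ, 1 ≤ k → ∀ p : ℤ,
      c / (k : ℝ) ^ (10.8 : ℝ) ≤ |k * Real.log 3 - p * Real.log 2|) (K : ℕ) :
    (Per K).Finite ∧ ((Per K).ncard : ℝ) ≤
      (65 + Real.log (max 1 (1 / (3 * c)))) * (1 / (3 * c)) * (K : ℝ) ^ 12 := by
  classical
  have hc1 : (0 : ℝ) ≤ 1 / (3 * c) := by positivity
  obtain ⟨hfin, hcard⟩ := sh2_first hCYB hc1 (sh2_min hHAR hc h) K
  refine ⟨hfin, ?_⟩
  obtain ⟨hpos, hinj, -, h4, h5, h6⟩ := hCYB
  have hlog0 : 0 ≤ Real.log (max 1 (1 / (3 * c))) := Real.log_nonneg (le_max_left _ _)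
  set P : Finset ℕ := hfin.toFinset with hP
  have hPc : (Per K).ncard = P.card := Set.ncard_eq_toFinset_card _ hfin
  have hmemP : ∀ n, n ∈ P ↔ n ∈ Per K := fun n => hfin.mem_toFinset
  set F : Finset (Finset ℕ) := P.powerset.filter fun S => IsCycle S ∧ S.card ≤ K with hF
  have hFc : ∀ S ∈ F, IsCycle S := fun S hS => (Finset.mem_filter.1 hS).2.1
  have hFK : ∀ S ∈ F, S.card ≤ K := fun S hS => (Finset.mem_filter.1 hS).2.2
  have hFP : ∀ S ∈ F, S ⊆ P := fun S hS => Finset.mem_powerset.1 (Finset.mem_filter.1 hS).1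
  -- the union of the cycles is `P`
  have hdisj : (F : Set (Finset ℕ)).PairwiseDisjoint id := by
    intro S hS T hT hne
    rcases h4 S T (hFc S hS) (hFc T hT) with h7 | h7
    · exact absurd h7 hne
    · exact h7
  have hU : F.biUnion id = P := by
    refine Finset.Subset.antisymm ?_ ?_
    · intro n hn
      obtain ⟨S, hS, hnS⟩ := Finset.mem_biUnion.1 hn
      exact hFP S hS hnS
    · intro n hn
      obtain ⟨hn0, j, hj1, hjK, hjn⟩ := (hmemP n).1 hn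
      obtain ⟨S, hS, hnS, hSj⟩ := h6 n j hn0 hj1 hjn
      have hSK : S.card ≤ K := hSj.trans hjK
      have hSP : S ⊆ P := by
        intro x hx
        rw [hmemP]
        obtain ⟨h7, -⟩ := h5 S hS x hx
        refine ⟨?_, S.card, hS.1.card_pos, hSK, h7⟩
        rcases Nat.eq_zero_or_pos x with hz | hz
        · exact absurd (hz ▸ hx) hS.2.1
        · exact hz
      exact Finset.mem_biUnion.2 ⟨S, Finset.mem_filter.2 ⟨Finset.mem_powerset.2 hSP, hS, hSK⟩,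
        hnS⟩
  have hsum : ∑ S ∈ F, S.card = P.card := by
    rw [← hU, Finset.card_biUnion hdisj]
    rfl
  rw [hPc]
  rcases F.eq_empty_or_nonempty with hF0 | hF1
  · rw [hF0, Finset.sum_empty] at hsum
    rw [← hsum]
    push_cast
    positivity
  have hK1 : 1 ≤ K := by
    obtain ⟨S, hS⟩ := hF1
    exact (hFc S hS).1.card_pos.trans_le (hFK S hS)
  have hKR : (1 : ℝ) ≤ (K : ℝ) := by exact_mod_cast hK1
  have hK0 : (0 : ℝ) < (K : ℝ) := by linarith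
  have hKp : (0 : ℝ) < (K : ℝ) ^ (10.8 : ℝ) := Real.rpow_pos_of_pos hK0 _
  have hPpos : 0 < P.card := by
    rw [← hsum]
    obtain ⟨S, hS⟩ := hF1
    exact (hFc S hS).1.card_pos.trans_le
      (Finset.single_le_sum (f := fun S : Finset ℕ => S.card) (fun _ _ => Nat.zero_le _) hS)
  have h8 := hHAR.2.2 F hFc hF1
  have h9 : (F.card : ℝ) * (c / (K : ℝ) ^ (10.8 : ℝ)) ≤ ∑ S ∈ F, lam S.card := by
    rw [← nsmul_eq_mul]
    refine Finset.card_nsmul_le_sum _ _ _ ?_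
    intro S hS
    have hk1 : 1 ≤ S.card := (hFc S hS).1.card_pos
    have hkR : (0 : ℝ) < (S.card : ℝ) := by exact_mod_cast hk1
    have hkK : (S.card : ℝ) ≤ (K : ℝ) := by exact_mod_cast hFK S hS
    refine le_trans ?_ (h S.card hk1 _)
    exact div_le_div_of_nonneg_left hc.le (Real.rpow_pos_of_pos hkR _)
      (Real.rpow_le_rpow hkR.le hkK (by norm_num))
  have h10 : ∑ S ∈ F, (S.card : ℝ) = (P.card : ℝ) := by
    rw [← hsum]
    push_cast
    rfl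
  rw [h10] at h8
  have h11 : Real.log (P.card : ℝ) ≤
      Real.log (max 1 (1 / (3 * c))) + 12.8 * Real.log K := by
    have h12 : (P.card : ℝ) ≤ max 1 (1 / (3 * c)) * (K : ℝ) ^ (12.8 : ℝ) := by
      have h13 : (K : ℝ) ^ (12.8 : ℝ) = (K : ℝ) ^ (11.8 : ℝ) * K := by
        have h14 : (12.8 : ℝ) = 11.8 + 1 := by norm_num
        rw [h14, Real.rpow_add hK0, Real.rpow_one]
      rw [h13, ← mul_assoc]
      rw [hPc] at hcard
      refine hcard.trans ?_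
      refine mul_le_mul_of_nonneg_right ?_ hK0.le
      exact mul_le_mul_of_nonneg_right (le_max_right _ _) (by positivity)
    have hPR : (0 : ℝ) < (P.card : ℝ) := by exact_mod_cast hPpos
    refine (Real.log_le_log hPR h12).trans (le_of_eq ?_)
    rw [Real.log_mul (by positivity) (by positivity), Real.log_rpow hK0]
  have h15 : Real.log (K : ℝ) ≤ (K : ℝ) ^ (0.2 : ℝ) / 0.2 :=
    Real.log_le_rpow_div hK0.le (by norm_num)
  have h16 : (1 : ℝ) ≤ (K : ℝ) ^ (0.2 : ℝ) := Real.one_le_rpow hKR (by norm_num)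
  set Λ : ℝ := Real.log (max 1 (1 / (3 * c))) with hΛ
  have h17 : (F.card : ℝ) * (c / (K : ℝ) ^ (10.8 : ℝ)) ≤
      (65 + Λ) * (K : ℝ) ^ (0.2 : ℝ) / 3 := by
    have h18 : (1 : ℝ) + Λ + 12.8 * ((K : ℝ) ^ (0.2 : ℝ) / 0.2) ≤
        (65 + Λ) * (K : ℝ) ^ (0.2 : ℝ) := by
      have e1 : (12.8 : ℝ) * ((K : ℝ) ^ (0.2 : ℝ) / 0.2) = 64 * (K : ℝ) ^ (0.2 : ℝ) := by ring
      have e2 := mul_nonneg hlog0 (sub_nonneg.2 h16)
      rw [e1]
      nlinarith [e2, h16]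
    have h19 : (12.8 : ℝ) * Real.log K ≤ 12.8 * ((K : ℝ) ^ (0.2 : ℝ) / 0.2) := by linarith
    linarith
  have h20 : (F.card : ℝ) ≤
      (65 + Λ) * (1 / (3 * c)) * ((K : ℝ) ^ (10.8 : ℝ) * (K : ℝ) ^ (0.2 : ℝ)) := by
    have h21 := mul_le_mul_of_nonneg_right h17
      (show (0 : ℝ) ≤ (K : ℝ) ^ (10.8 : ℝ) / c by positivity)
    have h22 : (F.card : ℝ) * (c / (K : ℝ) ^ (10.8 : ℝ)) * ((K : ℝ) ^ (10.8 : ℝ) / c) =
        (F.card : ℝ) := by
      field_simp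
    have h23 : (65 + Λ) * (K : ℝ) ^ (0.2 : ℝ) / 3 * ((K : ℝ) ^ (10.8 : ℝ) / c) =
        (65 + Λ) * (1 / (3 * c)) * ((K : ℝ) ^ (10.8 : ℝ) * (K : ℝ) ^ (0.2 : ℝ)) := by
      field_simp
    rw [h22, h23] at h21
    exact h21
  have h24 : (P.card : ℝ) ≤ (K : ℝ) * (F.card : ℝ) := by
    rw [← h10]
    have h25 : ∑ S ∈ F, (S.card : ℝ) ≤ F.card • (K : ℝ) := by
      refine Finset.sum_le_card_nsmul _ _ _ ?_
      intro S hS
      exact_mod_cast hFK S hS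
    rw [nsmul_eq_mul] at h25
    linarith
  have h26 : (K : ℝ) ^ 12 = (K : ℝ) * ((K : ℝ) ^ (10.8 : ℝ) * (K : ℝ) ^ (0.2 : ℝ)) := by
    rw [← Real.rpow_add hK0]
    have h27 : (10.8 : ℝ) + 0.2 = ((11 : ℕ) : ℝ) := by norm_num
    rw [h27, Real.rpow_natCast]
    ring
  calc (P.card : ℝ) ≤ (K : ℝ) * (F.card : ℝ) := h24
    _ ≤ (K : ℝ) * ((65 + Λ) * (1 / (3 * c)) *
        ((K : ℝ) ^ (10.8 : ℝ) * (K : ℝ) ^ (0.2 : ℝ))) := mul_le_mul_of_nonneg_left h20 hK0.le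
    _ = (65 + Λ) * (1 / (3 * c)) *
        ((K : ℝ) * ((K : ℝ) ^ (10.8 : ℝ) * (K : ℝ) ^ (0.2 : ℝ))) := by ring
    _ = (65 + Λ) * (1 / (3 * c)) * (K : ℝ) ^ 12 := by rw [h26]

theorem thm_SH2 (hME2 : St_ME2) (hCYB : St_CYB) (hHAR : St_HAR) : St_SH2 := by
  obtain ⟨c, hc, hm⟩ := hME2
  have hlog0 : 0 ≤ Real.log (max 1 (1 / (3 * c))) := Real.log_nonneg (le_max_left _ _)
  have hc1 : (0 : ℝ) < 1 / (3 * c) := by positivity
  have hP1 := sh2_min hHAR hc hm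
  have hP2 := sh2_second hCYB hHAR hc hm
  obtain ⟨hpos, hinj, -⟩ := hCYB
  refine ⟨(65 + Real.log (max 1 (1 / (3 * c)))) * (1 / (3 * c)), ?_, hP2, ?_⟩
  · intro S hS
    obtain ⟨y, hy, hle⟩ := hP1 S hS
    refine ⟨y, hy, hle.trans ?_⟩
    refine mul_le_mul_of_nonneg_right ?_ (by positivity)
    nlinarith
  intro x hx
  have hxR : (0 : ℝ) ≤ (x : ℝ) := by positivity
  set K : ℕ := ⌊(x : ℝ) ^ (1 / 13 : ℝ)⌋₊ with hK
  have hsub : {n : ℕ | 0 < n ∧ n ≤ x ∧ ∃ i j : ℕ, i < j ∧ (j : ℝ) ≤ (x : ℝ) ^ (1 / 13 : ℝ) ∧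
      f^[i] n = f^[j] n} ⊆ Per K := by
    rintro n ⟨hn, -, i, j, hij, hjx, hfe⟩
    refine ⟨hn, j - i, by omega, ?_, ?_⟩
    · have : j ≤ K := Nat.le_floor hjx
      omega
    · have hji : j = i + (j - i) := by omega
      have h1 : f^[j] n = f^[i] (f^[j - i] n) := by
        conv_lhs => rw [hji]
        rw [Function.iterate_add_apply]
      rw [h1] at hfe
      exact (sh2_inj hpos hinj i n _ hn (sh2_pos hpos _ n hn) hfe).symm
  obtain ⟨hfin, hcard⟩ := hP2 K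
  have hle : {n : ℕ | 0 < n ∧ n ≤ x ∧ ∃ i j : ℕ, i < j ∧ (j : ℝ) ≤ (x : ℝ) ^ (1 / 13 : ℝ) ∧
      f^[i] n = f^[j] n}.ncard ≤ (Per K).ncard := Set.ncard_le_ncard hsub hfin
  have hKle : (K : ℝ) ≤ (x : ℝ) ^ (1 / 13 : ℝ) := Nat.floor_le (by positivity)
  have hpow : (K : ℝ) ^ 12 ≤ (x : ℝ) ^ (12 / 13 : ℝ) := by
    refine (pow_le_pow_left₀ (by positivity) hKle 12).trans (le_of_eq ?_)
    rw [← Real.rpow_natCast, ← Real.rpow_mul hxR]
    norm_num
  refine (Nat.cast_le.2 hle).trans (hcard.trans ?_)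
  exact mul_le_mul_of_nonneg_left hpow (by positivity)

end Pool.Agent.CPC
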