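import Pool.Agent.CPC.St2

/-!
# CPC SZ2: sizes of the integrals and of a coefficient (second family)
-/

set_option autoImplicit false

namespace Pool.Agent.CPC

open Finset Polynomial

/-! ### The coefficient -/

/-- coefficientwise bound -/
def sz2_Dom (P R : ℤ[X]) : Prop := ∀ j, |P.coeff j| ≤ R.coeff j

theorem sz2_mul {P R P' R' : ℤ[X]} (h : sz2_Dom P R) (h' : sz2_Dom P' R') :
    sz2_Dom (P * P') (R * R') := by
  intro j
  rw [coeff_mul, coeff_mul]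
  refine (Finset.abs_sum_le_sum_abs _ _).trans (Finset.sum_le_sum fun x _ => ?_)
  rw [abs_mul]
  exact mul_le_mul (h _) (h' _) (abs_nonneg _) ((abs_nonneg _).trans (h _))

theorem sz2_pow {P R : ℤ[X]} (h : sz2_Dom P R) (n : ℕ) : sz2_Dom (P ^ n) (R ^ n) := by
  induction n with
  | zero =>
    intro j
    rw [pow_zero, pow_zero, coeff_one]
    split_ifs <;> simp
  | succ n ih =>
    rw [pow_succ, pow_succ]
    exact sz2_mul ih h

theorem sz2_X : sz2_Dom X X := by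
  intro j
  rw [coeff_X]
  split_ifs <;> simp

theorem sz2_lin (a : ℤ) (ha : 0 ≤ a) : sz2_Dom (X - C a) (X + C a) := by
  intro j
  rw [coeff_sub, coeff_add, coeff_X, coeff_C]
  rcases j with _ | j
  · simp [abs_of_nonneg ha]
  · rw [if_neg (Nat.succ_ne_zero j)]
    by_cases h : 1 = j + 1
    · rw [if_pos h]
      norm_num
    · rw [if_neg h]
      norm_num

/-- the polynomial with nonnegative coefficients -/
noncomputable def sz2_R (ν s : ℕ) : ℤ[X] :=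
  (X + C 2) ^ (3 * ν) * (X + C 3) ^ (4 * ν) * (X + C 4) ^ (2 * ν) * X ^ s

theorem sz2_WW (ν s : ℕ) : sz2_Dom (WW ν s) (sz2_R ν s) := by
  have h := sz2_mul (sz2_mul (sz2_mul (sz2_pow (sz2_lin 2 (by norm_num)) (3 * ν))
    (sz2_pow (sz2_lin 3 (by norm_num)) (4 * ν))) (sz2_pow (sz2_lin 4 (by norm_num)) (2 * ν)))
    (sz2_pow sz2_X s)
  have e : WW ν s = (X - C 2) ^ (3 * ν) * (X - C 3) ^ (4 * ν) * (X - C 4) ^ (2 * ν) * X ^ s := by
    unfold WW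
    simp only [map_ofNat]
  rw [e]
  exact h

theorem sz2_eval {R : ℤ[X]} (hR : ∀ j, 0 ≤ R.coeff j) (j : ℕ) {ρ : ℝ} (hρ : 0 < ρ) :
    (R.coeff j : ℝ) * ρ ^ j ≤ (R.map (Int.castRingHom ℝ)).eval ρ := by
  have h0 : ∀ i, 0 ≤ (R.map (Int.castRingHom ℝ)).coeff i * ρ ^ i := by
    intro i
    rw [coeff_map]
    exact mul_nonneg (by simpa using hR i) (by positivity)
  have h1 : (R.coeff j : ℝ) = (R.map (Int.castRingHom ℝ)).coeff j := by
    rw [coeff_map]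
    simp
  rw [eval_eq_sum_range, h1]
  by_cases hj : j ∈ Finset.range ((R.map (Int.castRingHom ℝ)).natDegree + 1)
  · exact Finset.single_le_sum (f := fun i => (R.map (Int.castRingHom ℝ)).coeff i * ρ ^ i)
      (fun i _ => h0 i) hj
  · rw [Finset.mem_range, not_lt] at hj
    rw [coeff_eq_zero_of_natDegree_lt (by omega), zero_mul]
    exact Finset.sum_nonneg fun i _ => h0 i

theorem sz2_c2 (ν s : ℕ) (hs : s ≤ 2) : |(c2 ν s : ℝ)| ≤ 6 * (88887 : ℝ) ^ ν := by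
  have h1 := sz2_WW ν s (4 * ν)
  have hR : ∀ j, 0 ≤ (sz2_R ν s).coeff j := fun j => (abs_nonneg _).trans (sz2_WW ν s j)
  have h2 := sz2_eval hR (4 * ν) (ρ := 9 / 4) (by norm_num)
  have h3 : ((sz2_R ν s).map (Int.castRingHom ℝ)).eval (9 / 4 : ℝ) =
      ((17 / 4 : ℝ) ^ 3 * (21 / 4) ^ 4 * (25 / 4) ^ 2) ^ ν * (9 / 4) ^ s := by
    unfold sz2_R
    simp only [Polynomial.map_mul, Polynomial.map_pow, Polynomial.map_add, map_X, map_C, eval_mul,
      eval_pow, eval_add, eval_X, eval_C]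
    rw [pow_mul, pow_mul, pow_mul, ← mul_pow, ← mul_pow]
    norm_num
  rw [h3] at h2
  have h4 : |(c2 ν s : ℝ)| ≤ ((sz2_R ν s).coeff (4 * ν) : ℝ) := by
    have : |c2 ν s| ≤ (sz2_R ν s).coeff (4 * ν) := h1
    exact_mod_cast this
  have h5 : (9 / 4 : ℝ) ^ s ≤ 6 := by
    calc (9 / 4 : ℝ) ^ s ≤ (9 / 4) ^ 2 := pow_le_pow_right₀ (by norm_num) hs
      _ ≤ 6 := by norm_num
  have h6 : ((17 / 4 : ℝ) ^ 3 * (21 / 4) ^ 4 * (25 / 4) ^ 2) ^ ν ≤
      (88887 : ℝ) ^ ν * (9 / 4) ^ (4 * ν) := by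
    rw [pow_mul, ← mul_pow]
    exact pow_le_pow_left₀ (by norm_num) (by norm_num) ν
  have h7 : |(c2 ν s : ℝ)| * (9 / 4 : ℝ) ^ (4 * ν) ≤
      (6 * (88887 : ℝ) ^ ν) * (9 / 4) ^ (4 * ν) := by
    calc |(c2 ν s : ℝ)| * (9 / 4 : ℝ) ^ (4 * ν)
        ≤ ((sz2_R ν s).coeff (4 * ν) : ℝ) * (9 / 4 : ℝ) ^ (4 * ν) :=
          mul_le_mul_of_nonneg_right h4 (by positivity)
      _ ≤ _ := h2
      _ ≤ ((88887 : ℝ) ^ ν * (9 / 4) ^ (4 * ν)) * 6 :=
          mul_le_mul h6 h5 (by positivity) (by positivity)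
      _ = _ := by ring
  exact le_of_mul_le_mul_right h7 (by positivity)

/-! ### The integrals -/

theorem sz2_fun (hSZI : St_SZI) (ν s : ℕ) (hs : s ≤ 2) (y : ℝ) (h1 : 2 ≤ y) (h4 : y ≤ 4) :
    ‖(y - 2) ^ (3 * ν) * (y - 3) ^ (4 * ν) * (y - 4) ^ (2 * ν) * y ^ s / y ^ (4 * ν + 1)‖ ≤
      4 * (0.000688 : ℝ) ^ ν := by
  have hy : 0 < y := by linarith
  have hq := hSZI y h1 h4
  have e1 : (y - 2) ^ (3 * ν) * (y - 3) ^ (4 * ν) * (y - 4) ^ (2 * ν) =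
      ((y - 2) ^ 3 * (y - 3) ^ 4 * (y - 4) ^ 2) ^ ν := by
    rw [pow_mul, pow_mul, pow_mul, ← mul_pow, ← mul_pow]
  have h0 : 0 ≤ y ^ s / y ^ (4 * ν + 1) := by positivity
  rw [e1, mul_div_assoc, norm_mul, Real.norm_of_nonneg h0, norm_pow, Real.norm_eq_abs]
  have h2 : |(y - 2) ^ 3 * (y - 3) ^ 4 * (y - 4) ^ 2| ^ ν ≤ (0.000688 : ℝ) ^ ν * y ^ (4 * ν) := by
    rw [pow_mul y, ← mul_pow]
    exact pow_le_pow_left₀ (abs_nonneg _) hq ν
  have h3 : y ^ s ≤ y ^ 2 := pow_le_pow_right₀ (by linarith) hs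
  rw [← mul_div_assoc, div_le_iff₀ (by positivity)]
  calc |(y - 2) ^ 3 * (y - 3) ^ 4 * (y - 4) ^ 2| ^ ν * y ^ s
      ≤ ((0.000688 : ℝ) ^ ν * y ^ (4 * ν)) * y ^ 2 :=
        mul_le_mul h2 h3 (by positivity) (by positivity)
    _ = ((0.000688 : ℝ) ^ ν * y ^ (4 * ν)) * y * y := by ring
    _ ≤ ((0.000688 : ℝ) ^ ν * y ^ (4 * ν)) * y * 4 :=
        mul_le_mul_of_nonneg_left h4 (by positivity)
    _ = 4 * (0.000688 : ℝ) ^ ν * y ^ (4 * ν + 1) := by ring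

theorem thm_SZ2 (hSZI : St_SZI) : St_SZ2 := by
  intro ν s hs
  refine ⟨?_, ?_, sz2_c2 ν s hs⟩
  · have h := intervalIntegral.norm_integral_le_of_norm_le_const
      (a := (2 : ℝ)) (b := 3) (C := 4 * (0.000688 : ℝ) ^ ν)
      (f := fun y => (y - 2) ^ (3 * ν) * (y - 3) ^ (4 * ν) * (y - 4) ^ (2 * ν) * y ^ s /
        y ^ (4 * ν + 1)) (by
        intro y hy
        rw [Set.uIoc_of_le (by norm_num)] at hy
        exact sz2_fun hSZI ν s hs y hy.1.le (by linarith [hy.2]))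
    rw [Real.norm_eq_abs] at h
    refine h.trans (le_of_eq ?_)
    norm_num
  · have h := intervalIntegral.norm_integral_le_of_norm_le_const
      (a := (3 : ℝ)) (b := 4) (C := 4 * (0.000688 : ℝ) ^ ν)
      (f := fun y => (y - 2) ^ (3 * ν) * (y - 3) ^ (4 * ν) * (y - 4) ^ (2 * ν) * y ^ s /
        y ^ (4 * ν + 1)) (by
        intro y hy
        rw [Set.uIoc_of_le (by norm_num)] at hy
        exact sz2_fun hSZI ν s hs y (by linarith [hy.1]) hy.2)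
    rw [Real.norm_eq_abs] at h
    refine h.trans (le_of_eq ?_)
    norm_num

end Pool.Agent.CPC
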