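import Pool.Agent.CPC.St2

/-!
# CPC SZI: the supremum of |(y-2)^3 (y-3)^4 (y-4)^2| / y^4 on [2,4]
-/

set_option autoImplicit false

namespace Pool.Agent.CPC

theorem szi_a (t : ℝ) (h0 : 0 ≤ t) (h1 : t ≤ 1) :
    0 ≤ (688 / 1000000 : ℝ) * (2 + t) ^ 4 - t ^ 3 * (1 - t) ^ 4 * (2 - t) ^ 2 := by
  obtain ⟨s, hs⟩ : ∃ s : ℝ, s = 1 - t := ⟨_, rfl⟩
  have hs0 : 0 ≤ s := by linarith
  have key : (688 / 1000000 : ℝ) * (2 + t) ^ 4 - t ^ 3 * (1 - t) ^ 4 * (2 - t) ^ 2 =
      (t - 3357 / 10000) ^ 2 * ((121701154628204048020154907 / 1250000000000000000000000000 : ℝ) * t ^ 0 * s ^ 7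
      + (1820049846694724498239905599 / 1250000000000000000000000000 : ℝ) * t ^ 1 * s ^ 6
      + (13235702302659811339241180547 / 1250000000000000000000000000 : ℝ) * t ^ 2 * s ^ 5
      + (3852095552221616055662548099 / 250000000000000000000000000 : ℝ) * t ^ 3 * s ^ 4
      + (2639504307655311200986369349 / 250000000000000000000000000 : ℝ) * t ^ 4 * s ^ 3
      + (5433093284050717272155571797 / 1250000000000000000000000000 : ℝ) * t ^ 5 * s ^ 2
      + (1366162482175949599859011849 / 1250000000000000000000000000 : ℝ) * t ^ 6 * s ^ 1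
      + (157466585886998943343976157 / 1250000000000000000000000000 : ℝ) * t ^ 7 * s ^ 0)
      + ((4495044676340519243313303463757 / 125000000000000000000000000000000000 : ℝ) * s + (17086328895560366648114722452507 / 125000000000000000000000000000000000 : ℝ) * t) := by
    rw [hs]
    ring
  rw [key]
  positivity

theorem szi_b (t : ℝ) (h0 : 0 ≤ t) (h1 : t ≤ 1) :
    0 ≤ (688 / 1000000 : ℝ) * (3 + t) ^ 4 - t ^ 4 * (1 + t) ^ 3 * (1 - t) ^ 2 := by
  obtain ⟨s, hs⟩ : ∃ s : ℝ, s = 1 - t := ⟨_, rfl⟩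
  have hs0 : 0 ≤ s := by linarith
  have key : (688 / 1000000 : ℝ) * (3 + t) ^ 4 - t ^ 4 * (1 + t) ^ 3 * (1 - t) ^ 2 =
      (t - 691 / 1000) ^ 2 * ((6494207229372623097 / 62500000000000000000 : ℝ) * t ^ 0 * s ^ 7
      + (141781555340237287483 / 125000000000000000000 : ℝ) * t ^ 1 * s ^ 6
      + (88458918494226288103 / 15625000000000000000 : ℝ) * t ^ 2 * s ^ 5
      + (427475282874190165733 / 25000000000000000000 : ℝ) * t ^ 3 * s ^ 4
      + (410530371819436239929 / 12500000000000000000 : ℝ) * t ^ 4 * s ^ 3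
      + (4612594146425576131949 / 125000000000000000000 : ℝ) * t ^ 5 * s ^ 2
      + (595611621703255964527 / 31250000000000000000 : ℝ) * t ^ 6 * s ^ 1
      + (191657851283177560319 / 125000000000000000000 : ℝ) * t ^ 7 * s ^ 0)
      + ((382139437911930551021343 / 62500000000000000000000000 : ℝ) * s + (3716316701630923363181561 / 125000000000000000000000000 : ℝ) * t) := by
    rw [hs]
    ring
  rw [key]
  positivity

theorem thm_SZI : St_SZI := by
  intro y h2 h4
  have hc : (0.000688 : ℝ) = 688 / 1000000 := by norm_num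
  rw [hc]
  rcases le_total y 3 with h3 | h3
  · have h := szi_a (y - 2) (by linarith) (by linarith)
    have e : (y - 2) ^ 3 * (y - 3) ^ 4 * (y - 4) ^ 2 =
        (y - 2) ^ 3 * (1 - (y - 2)) ^ 4 * (2 - (y - 2)) ^ 2 := by ring
    have e2 : (2 + (y - 2)) = y := by ring
    rw [e2] at h
    rw [e, abs_of_nonneg]
    · linarith
    · have : 0 ≤ y - 2 := by linarith
      positivity
  · have h := szi_b (y - 3) (by linarith) (by linarith)
    have e : (y - 2) ^ 3 * (y - 3) ^ 4 * (y - 4) ^ 2 =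
        (y - 3) ^ 4 * (1 + (y - 3)) ^ 3 * (1 - (y - 3)) ^ 2 := by ring
    have e2 : (3 + (y - 3)) = y := by ring
    rw [e2] at h
    rw [e, abs_of_nonneg]
    · linarith
    · have : 0 ≤ y - 3 := by linarith
      positivity

end Pool.Agent.CPC
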