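import Pool.Agent.CPC.St2

/-!
# CPC TBL: the table of the fifth iterate and the search functions
-/

set_option autoImplicit false

namespace Pool.Agent.CPC

open Finset

theorem tbl_f0 (m B : ℕ) (h : B % 3 = 0) : f (6 * m + B) = 4 * m + f B := by
  unfold f
  have h1 : (6 * m + B) % 3 = 0 := by omega
  rw [if_pos h1, if_pos h]
  omega

theorem tbl_f1 (m B : ℕ) (h : B % 3 ≠ 0) : f (6 * m + B) = 8 * m + f B := by
  unfold f
  have h1 : (6 * m + B) % 3 ≠ 0 := by omega
  rw [if_neg h1, if_neg h]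
  by_cases h2 : B % 3 = 2
  · rw [if_pos h2, if_pos (by omega)]
    omega
  · rw [if_neg h2, if_neg (by omega)]
    omega

/-- symbolic iteration of `A q + B` -/
def tbl_st : ℕ → ℕ → ℕ → ℕ × ℕ × ℕ
  | 0, A, B => (A, B, 0)
  | n + 1, A, B =>
    ((tbl_st n (if B % 3 = 0 then A / 6 * 4 else A / 6 * 8) (f B)).1,
      (tbl_st n (if B % 3 = 0 then A / 6 * 4 else A / 6 * 8) (f B)).2.1,
      (tbl_st n (if B % 3 = 0 then A / 6 * 4 else A / 6 * 8) (f B)).2.2 +
        if B % 6 = 3 then 1 else 0)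

theorem tbl_count (n x : ℕ) :
    ((range (n + 1)).filter fun i => f^[i] x % 6 = 3).card =
      ((range n).filter fun i => f^[i] (f x) % 6 = 3).card + if x % 6 = 3 then 1 else 0 := by
  rw [Finset.card_filter, Finset.card_filter, Finset.sum_range_succ']
  simp only [Function.iterate_succ_apply, Function.iterate_zero, id]
  rfl

theorem tbl_iter (q : ℕ) : ∀ n A B : ℕ, 2 * 3 ^ n ∣ A →
    f^[n] (A * q + B) = (tbl_st n A B).1 * q + (tbl_st n A B).2.1 ∧
    ((range n).filter fun i => f^[i] (A * q + B) % 6 = 3).card = (tbl_st n A B).2.2 := by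
  intro n
  induction n with
  | zero =>
    intro A B _
    exact ⟨rfl, rfl⟩
  | succ n ih =>
    intro A B hA
    obtain ⟨a, rfl⟩ := hA
    have e6 : 2 * 3 ^ (n + 1) * a / 6 = 3 ^ n * a := by
      rw [show 2 * 3 ^ (n + 1) * a = 6 * (3 ^ n * a) by ring]
      exact Nat.mul_div_cancel_left _ (by norm_num)
    have hf : f (2 * 3 ^ (n + 1) * a * q + B) =
        (if B % 3 = 0 then 2 * 3 ^ (n + 1) * a / 6 * 4 else 2 * 3 ^ (n + 1) * a / 6 * 8) * q +
          f B := by
      rw [e6, show 2 * 3 ^ (n + 1) * a * q + B = 6 * (3 ^ n * a * q) + B by ring]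
      split_ifs with h
      · rw [tbl_f0 _ _ h]
        ring
      · rw [tbl_f1 _ _ h]
        ring
    have hd : 2 * 3 ^ n ∣
        (if B % 3 = 0 then 2 * 3 ^ (n + 1) * a / 6 * 4 else 2 * 3 ^ (n + 1) * a / 6 * 8) := by
      rw [e6]
      split_ifs
      · exact ⟨2 * a, by ring⟩
      · exact ⟨4 * a, by ring⟩
    obtain ⟨h1, h2⟩ := ih _ (f B) hd
    have h6 : (2 * 3 ^ (n + 1) * a * q + B) % 6 = B % 6 := by
      rw [show 2 * 3 ^ (n + 1) * a * q + B = B + 6 * (3 ^ n * a * q) by ring]
      exact Nat.add_mul_mod_self_left _ _ _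
    constructor
    · rw [Function.iterate_succ_apply, hf]
      exact h1
    · rw [tbl_count, hf, h2, h6]
      rfl

/-- the entry of the table -/
def tbl_W (r : ℕ) : ℕ := Nat.mod (Nat.shiftRight TT (Nat.mul 26 r)) 67108864

theorem tbl_check : ∀ r < 486, tbl_W r % 4 = (tbl_st 5 486 r).2.2 ∧
    tbl_W r / 4 % 4096 = (tbl_st 5 486 r).2.1 ∧ tbl_W r / 16384 = (tbl_st 5 486 r).1 := by
  decide +kernel

theorem tbl_block (x : ℕ) :
    f^[5] x = tbl_W (x % 486) / 16384 * (x / 486) + tbl_W (x % 486) / 4 % 4096 ∧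
    ((range 5).filter fun i => f^[i] x % 6 = 3).card = tbl_W (x % 486) % 4 := by
  obtain ⟨h1, h2, h3⟩ := tbl_check (x % 486) (Nat.mod_lt _ (by norm_num))
  obtain ⟨h4, h5⟩ := tbl_iter (x / 486) 5 486 (x % 486) ⟨1, by norm_num⟩
  rw [Nat.div_add_mod x 486] at h4 h5
  rw [h1, h2, h3]
  exact ⟨h4, h5⟩

theorem tbl_go (n y x t : ℕ) : go2 (n + 1) y x t =
    cond (Nat.ble t (tbl_W (x % 486) % 4)) true
      (cond (Nat.ble (tbl_W (x % 486) / 16384 * (x / 486) + tbl_W (x % 486) / 4 % 4096) y) true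
        (go2 n y (tbl_W (x % 486) / 16384 * (x / 486) + tbl_W (x % 486) / 4 % 4096)
          (t - tbl_W (x % 486) % 4))) := by
  have e : go2 (n + 1) y x t =
      Bool.rec (motive := fun _ => Bool)
        (Bool.rec (motive := fun _ => Bool)
          (go2 n y (tbl_W (x % 486) / 16384 * (x / 486) + tbl_W (x % 486) / 4 % 4096)
            (t - tbl_W (x % 486) % 4)) true
          (Nat.ble (tbl_W (x % 486) / 16384 * (x / 486) + tbl_W (x % 486) / 4 % 4096) y)) true
        (Nat.ble t (tbl_W (x % 486) % 4)) := rfl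
  rw [e]
  cases Nat.ble t (tbl_W (x % 486) % 4) <;>
    cases Nat.ble (tbl_W (x % 486) / 16384 * (x / 486) + tbl_W (x % 486) / 4 % 4096) y <;> rfl

theorem tbl_card (n x : ℕ) :
    ((range (5 * (n + 1))).filter fun i => f^[i] x % 6 = 3).card =
      ((range 5).filter fun i => f^[i] x % 6 = 3).card +
      ((range (5 * n)).filter fun i => f^[i] (f^[5] x) % 6 = 3).card := by
  rw [Finset.card_filter, Finset.card_filter, Finset.card_filter,
    show 5 * (n + 1) = 5 + 5 * n by ring, Finset.sum_range_add]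
  congr 1
  refine Finset.sum_congr rfl fun i _ => ?_
  rw [← Function.iterate_add_apply, add_comm i 5]

theorem tbl_one : ∀ n y x t : ℕ, go2 n y x t = true →
    (∃ i, 0 < i ∧ i ≤ 5 * n ∧ f^[i] x ≤ y) ∨
    t ≤ ((range (5 * n)).filter fun i => f^[i] x % 6 = 3).card := by
  intro n
  induction n with
  | zero =>
    intro y x t h
    exact absurd h (by
      have : go2 0 y x t = false := rfl
      rw [this]
      exact Bool.false_ne_true)
  | succ n ih =>
    intro y x t h
    rw [tbl_go] at h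
    obtain ⟨h1, h2⟩ := tbl_block x
    rw [← h1, ← h2] at h
    rw [tbl_card]
    by_cases ht : t ≤ ((range 5).filter fun i => f^[i] x % 6 = 3).card
    · exact Or.inr (ht.trans (Nat.le_add_right _ _))
    · have hb : Nat.ble t ((range 5).filter fun i => f^[i] x % 6 = 3).card = false := by
        rw [← Bool.not_eq_true, Nat.ble_eq]
        exact ht
      rw [hb, cond_false] at h
      by_cases hy : f^[5] x ≤ y
      · exact Or.inl ⟨5, by norm_num, by omega, hy⟩
      · have hb2 : Nat.ble (f^[5] x) y = false := by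
          rw [← Bool.not_eq_true, Nat.ble_eq]
          exact hy
        rw [hb2, cond_false] at h
        rcases ih y _ _ h with ⟨i, hi0, hi, hiy⟩ | h3
        · refine Or.inl ⟨i + 5, by omega, by omega, ?_⟩
          rw [Function.iterate_add_apply]
          exact hiy
        · right
          omega

theorem tbl_two : ∀ F t q₀ n : ℕ, all2 F t q₀ n = true → ∀ i < n,
    go2 F (6 * (q₀ + i) + 2) (6 * (q₀ + i) + 2) t = true ∧
    go2 F (6 * (q₀ + i) + 4) (6 * (q₀ + i) + 4) t = true := by
  intro F t q₀ n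
  induction n with
  | zero =>
    intro _ i hi
    exact absurd hi (Nat.not_lt_zero i)
  | succ n ih =>
    intro h i hi
    have e : all2 F t q₀ (n + 1) =
        Bool.rec (motive := fun _ => Bool) false
          (Bool.rec (motive := fun _ => Bool) false (all2 F t q₀ n)
            (go2 F (4 + 6 * (q₀ + n)) (4 + 6 * (q₀ + n)) t))
          (go2 F (2 + 6 * (q₀ + n)) (2 + 6 * (q₀ + n)) t) := rfl
    rw [e] at h
    have h2 : go2 F (2 + 6 * (q₀ + n)) (2 + 6 * (q₀ + n)) t = true := by
      cases hb : go2 F (2 + 6 * (q₀ + n)) (2 + 6 * (q₀ + n)) t with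
      | false =>
        rw [hb] at h
        exact absurd h Bool.false_ne_true
      | true => rfl
    rw [h2] at h
    have h4 : go2 F (4 + 6 * (q₀ + n)) (4 + 6 * (q₀ + n)) t = true := by
      cases hb : go2 F (4 + 6 * (q₀ + n)) (4 + 6 * (q₀ + n)) t with
      | false =>
        rw [hb] at h
        exact absurd h Bool.false_ne_true
      | true => rfl
    rw [h4] at h
    rcases Nat.lt_succ_iff_lt_or_eq.mp hi with h5 | h5
    · exact ih h i h5
    · subst h5
      rw [add_comm 2, ] at h2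
      rw [add_comm 4] at h4
      exact ⟨h2, h4⟩

theorem thm_TBL : St_TBL := ⟨tbl_one, tbl_two⟩

end Pool.Agent.CPC
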