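import Pool.Agent.CPC.All
import Pool.Agent.CPC.EXL
import Pool.Agent.CPC.DV2
import Pool.Agent.CPC.SZI
import Pool.Agent.CPC.SZ2
import Pool.Agent.CPC.NV2
import Pool.Agent.CPC.ME2
import Pool.Agent.CPC.MEX
import Pool.Agent.CPC.LA2
import Pool.Agent.CPC.SH2
import Pool.Agent.CPC.SBD
import Pool.Agent.CPC.HG2
import Pool.Agent.CPC.RU2
import Pool.Agent.CPC.CFR
import Pool.Agent.CPC.TBL
import Pool.Agent.CPC.CK1
import Pool.Agent.CPC.CK2
import Pool.Agent.CPC.FOU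
import Pool.Agent.CPC.FDD

/-!
# CPC (helper5): assembly of the second part
-/

set_option autoImplicit false

namespace Pool.Agent.CPC

theorem all_SZ2 : St_SZ2 := thm_SZ2 thm_SZI

theorem all_ME2 : St_ME2 := thm_ME2 thm_LCM thm_DV2 all_SZ2 thm_NV2

theorem all_MEX : St_MEX := thm_MEX thm_EXL thm_DV2 all_SZ2 thm_NV2

theorem all_LA2 : St_LA2 := thm_LA2 all_CNT all_ME2

theorem all_SH2 : St_SH2 := thm_SH2 all_ME2 thm_CYB all_HAR

theorem all_SBD : St_SBD := thm_SBD thm_CYB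

theorem all_HG2 : St_HG2 := thm_HG2 thm_CYB all_SBD

theorem all_RU2 : St_RU2 := thm_RU2 all_SH2 all_HG2 all_SBD thm_CYB

theorem all_CK2 : St_CK2 := thm_CK2 thm_TBL

theorem all_FDD : St_FDD := thm_FDD thm_CYB all_SBD all_HG2 thm_CFR all_MEX thm_TBL thm_CK1 all_CK2 thm_FOU

end Pool.Agent.CPC
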