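import Mathlib

/-!
# CPC (helper5): cycles of Collatz's original permutation (MP_f1f252_nt).  Definitions
-/

set_option autoImplicit false

namespace Pool.Agent.CPC

/-- Collatz's original permutation: `3n ↦ 2n`, `3n - 1 ↦ 4n - 1`, `3n - 2 ↦ 4n - 3` -/
def f (m : ℕ) : ℕ :=
  if m % 3 = 0 then 2 * m / 3
  else if m % 3 = 2 then (4 * m + 1) / 3
  else (4 * m - 1) / 3

/-- `S` is a finite cycle of `f`: a nonempty finite set of positive integers which, for every element `x`,
is the set of the iterates `x, f x, f (f x), ..` -/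
def IsCycle (S : Finset ℕ) : Prop :=
  S.Nonempty ∧ 0 ∉ S ∧ ∀ x ∈ S, ∀ y, y ∈ S ↔ ∃ j : ℕ, f^[j] x = y

open Classical in
/-- the `k ≤ K` such that `f` has a cycle with exactly `k` elements -/
noncomputable def Len (K : ℕ) : Finset ℕ :=
  (Finset.Icc 1 K).filter fun k => ∃ S, IsCycle S ∧ S.card = k

/-- the positive integers `n` with `f^[j] n = n` for some `1 ≤ j ≤ K` (the elements of the cycles with at
most `K` elements) -/
def Per (K : ℕ) : Set ℕ := {n | 0 < n ∧ ∃ j, 1 ≤ j ∧ j ≤ K ∧ f^[j] n = n}

/-- the number of runs of multiples of `3` in the cycle `S` (the number of the elements which are not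
divisible by `3` and followed by a multiple of `3`) -/
def runs (S : Finset ℕ) : ℕ := (S.filter fun x => ¬ 3 ∣ x ∧ 3 ∣ f x).card

end Pool.Agent.CPC
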