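import Pool.Agent.CPC.St2

/-!
# CPC/FOU (helper5): the four known cycles
-/

set_option autoImplicit false

namespace Pool.Agent.CPC

open Finset

theorem fou_cycle (S : Finset ℕ) (k : ℕ) (h0 : S.Nonempty) (h1 : 0 ∉ S) (hk : 0 < k)
    (h2 : ∀ x ∈ S, f^[k] x = x) (h3 : ∀ x ∈ S, (range k).image (fun j => f^[j] x) = S) : IsCycle S := by
  refine ⟨h0, h1, fun x hx y => ?_⟩
  have hS := h3 x hx
  constructor
  · intro hy
    rw [← hS, mem_image] at hy
    obtain ⟨j, -, hj⟩ := hy
    exact ⟨j, hj⟩
  · rintro ⟨j, rfl⟩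
    rw [← hS, mem_image]
    refine ⟨j % k, mem_range.2 (Nat.mod_lt _ hk), ?_⟩
    have e : f^[j] x = f^[j % k] (f^[k * (j / k)] x) := by
      rw [← Function.iterate_add_apply]
      congr 1
      exact (Nat.mod_add_div j k).symm
    have e2 : ∀ n, f^[k * n] x = x := by
      intro n
      rw [Function.iterate_mul]
      exact Function.iterate_fixed (h2 x hx) n
    show f^[j % k] x = f^[j] x
    rw [e, e2]

theorem thm_FOU : St_FOU := by
  refine ⟨⟨fou_cycle _ 1 (by decide) (by decide) (by decide) (by decide) (by decide), by decide⟩,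
    ⟨fou_cycle _ 2 (by decide) (by decide) (by decide) (by decide) (by decide), by decide⟩,
    ⟨fou_cycle _ 5 (by decide) (by decide) (by decide) (by decide +kernel) (by decide +kernel), by decide +kernel⟩,
    ⟨fou_cycle _ 12 (by decide) (by decide) (by decide) (by decide +kernel) (by decide +kernel), by decide +kernel⟩⟩

end Pool.Agent.CPC
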