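import Pool.Agent.CPC.St
import Pool.Agent.PC.PNTAP

/-!
# CPC: the least common multiple of `1, ..., n` (helper81)
-/

set_option autoImplicit false

namespace Pool.Agent.CPC

open Filter Topology

theorem lcm_psi (n : ℕ) :
    Pool.Agent.PC.WI.S (ArithmeticFunction.vonMangoldt.residueClass ((0 : ℕ) : ZMod 1)) (n : ℝ) =
      Chebyshev.psi (n : ℝ) := by
  unfold Pool.Agent.PC.WI.S Chebyshev.psi
  refine Finset.sum_congr rfl fun k _ => ?_
  rw [ArithmeticFunction.vonMangoldt.residueClass, Set.indicator_of_mem]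
  exact Subsingleton.elim _ _

theorem lcm_ev (ε : ℝ) (hε : 0 < ε) : ∃ n₀ : ℕ, ∀ n : ℕ, n₀ ≤ n →
    Real.log (Nat.lcmUpto n : ℝ) ≤ (1 + ε) * n := by
  have h1 := Pool.Agent.PC.PNT.psi_ap 1 0 one_pos (Nat.coprime_one_right 0)
  rw [Nat.totient_one, Nat.cast_one, div_one] at h1
  have h2 : ∀ᶠ x : ℝ in atTop,
      Pool.Agent.PC.WI.S (ArithmeticFunction.vonMangoldt.residueClass ((0 : ℕ) : ZMod 1)) x / x <
        1 + ε := h1.eventually (gt_mem_nhds (by linarith))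
  obtain ⟨N, hN⟩ := eventually_atTop.1 (h2.and (eventually_gt_atTop 0))
  obtain ⟨n₀, hn₀⟩ := exists_nat_ge N
  refine ⟨n₀, fun n hn => ?_⟩
  have h3 : N ≤ (n : ℝ) := hn₀.trans (by exact_mod_cast hn)
  obtain ⟨h4, h5⟩ := hN n h3
  rw [lcm_psi, div_lt_iff₀ h5] at h4
  rw [← Chebyshev.psi_eq_log_lcmUpto]
  exact h4.le

theorem thm_LCM : St_LCM := by
  intro ε hε
  obtain ⟨n₀, hn₀⟩ := lcm_ev ε hε
  have h0 : (0 : ℝ) ≤ ∑ i ∈ Finset.range n₀, (Nat.lcmUpto i : ℝ) :=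
    Finset.sum_nonneg fun i _ => Nat.cast_nonneg _
  refine ⟨1 + ∑ i ∈ Finset.range n₀, (Nat.lcmUpto i : ℝ), by linarith, fun n => ?_⟩
  have he : 1 ≤ Real.exp ((1 + ε) * n) := Real.one_le_exp (by positivity)
  have hp : (0 : ℝ) < Nat.lcmUpto n := by exact_mod_cast Nat.lcmUpto_pos n
  rcases lt_or_ge n n₀ with h | h
  · have h1 : (Nat.lcmUpto n : ℝ) ≤ ∑ i ∈ Finset.range n₀, (Nat.lcmUpto i : ℝ) :=
      Finset.single_le_sum (f := fun i => (Nat.lcmUpto i : ℝ)) (fun i _ => Nat.cast_nonneg _)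
        (Finset.mem_range.2 h)
    nlinarith
  · have h1 : (Nat.lcmUpto n : ℝ) ≤ Real.exp ((1 + ε) * n) := by
      rw [← Real.log_le_iff_le_exp hp]
      exact hn₀ n h
    nlinarith

end Pool.Agent.CPC
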