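import Pool.Agent.CPC.Defs

/-!
# CPC/St (helper5): statements with complete proofs

Every module `XXX` is the file `Pool/Agent/CPC/XXX.lean`, `import Pool.Agent.CPC.St`, namespace `Pool.Agent.CPC`, and proves
`theorem thm_XXX (hAAA : St_AAA) .. : St_XXX`; the hypotheses `St_AAA` are listed under HYPS (nothing else may be
assumed; with HYPS none: `theorem thm_XXX : St_XXX`).  Aux lemmas: private, or names beginning with `xxx_`.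

PLAN.  Part 1: `|k log 3 - p log 2| ≥ c / k ^ 48` by simultaneous approximations of `log (3/2)`, `log (4/3)` (the
integrals `JJ`).  Part 2: the equation of a cycle with `k` elements, `k log 3 - p log 2 = S`, `|S| ≤ ∑ 1 / (3 x)`.
Part 3: consequences for the lengths, the short cycles, and the number of runs.
-/

set_option autoImplicit false

namespace Pool.Agent.CPC

open Finset Polynomial

/-! ### Part 1: the lower bound for `|k log 3 - p log 2|` -/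

/-- `(X - 2) (X - 3) (X - 4) = X³ - 9 X² + 26 X - 24` -/
noncomputable def QQ : ℤ[X] := X ^ 3 - 9 * X ^ 2 + 26 * X - 24

/-- the same as a real function -/
def qr (y : ℝ) : ℝ := (y - 2) * (y - 3) * (y - 4)

/-- the coefficient of `X ^ (3 ν)` in `QQ ^ (2 ν) * X ^ s` -/
noncomputable def cc (ν s : ℕ) : ℤ := (QQ ^ (2 * ν) * X ^ s).coeff (3 * ν)

/-- `∫_a^b (Q(y) ^ (2 ν) y ^ s) / y ^ (3 ν + 1) dy` -/
noncomputable def JJ (ν s : ℕ) (a b : ℝ) : ℝ := ∫ y in a..b, qr y ^ (2 * ν) * y ^ s / y ^ (3 * ν + 1)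

/-- the common denominator -/
def DD (ν : ℕ) : ℕ := 3 ^ ν * Nat.lcmUpto (3 * ν + 2)

/-- [LCM]
HYPS: none.
PROOF.  `log (lcmUpto n) = ψ n` (`Chebyshev.psi_eq_log_lcmUpto`), and
`ψ x / x → 1`: `Pool.Agent.PC.PNT.psi_ap` (`Pool/Agent/PC/PNTAP.lean`) for `q = 1`, `a = 0` (`residueClass (0 : ZMod 1)` is `Λ`; see
`WI.S` in `Pool/Agent/PC/WI1.lean`).  So `ψ n ≤ (1 + ε) n` for `n ≥ n₀`, and `C` takes care of the finitely many other `n`. -/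
def St_LCM : Prop := ∀ ε : ℝ, 0 < ε → ∃ C : ℝ, 0 < C ∧ ∀ n : ℕ, (Nat.lcmUpto n : ℝ) ≤ C * Real.exp ((1 + ε) * n)

/-- [DIV]  The integrals are linear forms in `1` and one logarithm.
HYPS: none.
PROOF.  Let `P = QQ ^ (2 ν) * X ^ s = ∑ P_j X ^ j` (degree `6 ν + s`), `m = 3 ν`.  For `0 < a ≤ b`:
`JJ ν s a b = ∑ j, P_j ∫ y in a..b, y ^ (j - m - 1) = P_m log (b / a) + ∑ j ≠ m, P_j (b ^ (j - m) - a ^ (j - m)) / (j - m)` (integer exponents,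
`integral_zpow`, `integral_inv`, or split into `j < m` and `j > m`).
Integrality: for `c ∈ {2, 3, 4}` there is `G : ℤ[X]` with `3 ^ ν * P.comp (C c * X) = c ^ (3 ν) * G`: `Q (2 z) = 4 (z - 1) (2 z - 3) (z - 2)`, `Q (3 z) =
3 (3 z - 2) (z - 1) (3 z - 4)`, `Q (4 z) = 8 (2 z - 1) (4 z - 3) (z - 1)`, and `4 ^ (2 ν) = 2 ^ (3 ν) 2 ^ ν`, `3 ^ ν 3 ^ (2 ν) = 3 ^ (3 ν)`, `8 ^ (2 ν) = 4 ^ (3 ν)`.  Comparing
coefficients: `3 ^ ν P_j c ^ j = c ^ (3 ν) G_j`, so `3 ^ ν P_j c ^ (j - m) = G_j` is an integer, for all `j`.  For `j ≠ m`, `j ≤ 6 ν + s`: `|j - m| ≤ 3 ν + 2`,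
so `j - m` divides `lcmUpto (3 ν + 2)`. -/
def St_DIV : Prop := ∀ ν s : ℕ, s ≤ 2 →
  (∃ N : ℤ, (DD ν : ℝ) * JJ ν s 2 3 = (DD ν : ℝ) * (cc ν s : ℝ) * Real.log (3 / 2) + N) ∧
  ∃ N : ℤ, (DD ν : ℝ) * JJ ν s 3 4 = (DD ν : ℝ) * (cc ν s : ℝ) * Real.log (4 / 3) + N

/-- [SIZ]  Sizes.
HYPS: none.
PROOF.  On `[2, 3]`: `0 ≤ Q(y) = (y - 2) (3 - y) (4 - y) ≤ 0.161 y`, so `Q(y)² ≤ 0.02593 y² ≤ 0.013 y³` (as `y ≥ 2`).  On `[3, 4]`: `|Q(y)| = (y - 2) (y - 3) (4 - y) ≤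
2 * 1 / 4 = 1/2`, so `Q(y)² ≤ 1/4 ≤ 0.013 * 27 ≤ 0.013 y³`.  So the integrand is `(Q²/y³) ^ ν * (y ^ s / y)`, at most `0.013 ^ ν * 4`, in absolute value
(`y ^ s / y ≤ y ≤ 4` for `s ≤ 2`, `y ≥ 1`), and the intervals have length `1`.
Coefficients: let `Q⁺ = (X + 2) (X + 3) (X + 4)`; `|coeff Q j| ≤ coeff Q⁺ j`, so `|coeff (Q ^ n) j| ≤ coeff (Q⁺ ^ n) j` (products of polynomials with
nonnegative coefficients), and `coeff (Q⁺ ^ n) j * 3 ^ j ≤ (Q⁺ ^ n)(3) = 210 ^ n`.  `cc ν s = coeff (Q ^ (2 ν)) (3 ν - s)` (or `0` if `3 ν < s`), so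
`|cc ν s| ≤ 210 ^ (2 ν) / 3 ^ (3 ν - s) ≤ 9 * 44100 ^ ν / 27 ^ ν`.  (Instead: induction on `n` of `∑ j, |coeff (Q ^ n) j| 3 ^ j ≤ 210 ^ n`.) -/
def St_SIZ : Prop := ∀ ν s : ℕ, s ≤ 2 →
  |JJ ν s 2 3| ≤ 4 * (0.013 : ℝ) ^ ν ∧ |JJ ν s 3 4| ≤ 4 * (0.013 : ℝ) ^ ν ∧ |(cc ν s : ℝ)| ≤ 9 * (44100 / 27 : ℝ) ^ ν

/-- [NVN]  Nonvanishing.
HYPS: none.
PROOF.  Put `F s = l * cc ν s - A * JJ ν s 2 3 - B * JJ ν s 3 4` for all `s : ℕ`.
(1) RECURSION: `(3 ν + 3 + s) F (s + 3) - 9 (ν + 2 + s) F (s + 2) + 26 (s + 1 - ν) F (s + 1) - 24 (s - 3 ν) F s = 0`, for each of the three parts.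
Let `W = QQ ^ (2 ν + 1) * X ^ s`, `m = 3 ν`.  `X W' - m W = QQ ^ (2 ν) X ^ s ((2 ν + 1) X QQ' + (s - m) QQ)`, and
`(2 ν + 1) X QQ' + (s - m) QQ = (3 ν + 3 + s) X³ - 9 (ν + 2 + s) X² + 26 (s + 1 - ν) X - 24 (s - 3 ν)`.  Coefficients: the coefficient of `X ^ m` in `X W' - m W` is `0`.
Integrals: `(W(y) / y ^ m)' = (y W'(y) - m W(y)) / y ^ (m + 1)`, and `W (2) = W (3) = W (4) = 0`.
(2) If `F 0 = F 1 = F 2 = 0`, then `F s = 0` for all `s` (the first coefficient `3 ν + 3 + s` is positive).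
(3) For `s = m + 1`, `m + 2`: `cc ν s = 0` (`s > m`), so `A I + B J = 0`, `A I' + B J' = 0` with `I = ∫_2^3 Q ^ (2 ν) > 0`, `J = ∫_3^4 Q ^ (2 ν) > 0`,
`I' = ∫_2^3 Q ^ (2 ν) y < 3 I`, `J' = ∫_3^4 Q ^ (2 ν) y > 3 J`.  So `A (I' - 3 I) + B (J' - 3 J) = 0`, `I' - 3 I < 0 < J' - 3 J`, `A I = - B J`: multiply by `A`, or by
signs: `A = B = 0`. -/
def St_NVN : Prop := ∀ (ν : ℕ) (A B l : ℝ), (A ≠ 0 ∨ B ≠ 0) →
  ∃ s ≤ 2, l * (cc ν s : ℝ) - A * JJ ν s 2 3 - B * JJ ν s 3 4 ≠ 0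

/-- [MEA]
HYPS: LCM, DIV, SIZ, NVN.
PROOF.  Let `A, B : ℤ`, not both `0`, `H = max |A| |B| ≥ 1`, `l = A log (3/2) + B log (4/3)`.  For every `ν` NVN gives `s ≤ 2` such that
`n := DD ν * (l * cc ν s - A * JJ ν s 2 3 - B * JJ ν s 3 4)` is not `0`, and `n` is an integer by DIV.  So (SIZ)
`1 ≤ |n| ≤ DD ν * (|l| * 9 * (44100/27) ^ ν + 8 H 0.013 ^ ν)`.  LCM with `ε = 1/10000`: `DD ν ≤ C₁ (3 e ^ (3 (1 + ε))) ^ ν ≤ C₁ (60.31) ^ ν`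
(`e³ ≤ 20.0856`, `e ^ (3 ε) ≤ 1.0004`; `3 * 20.0856 * 1.0004 = 60.281`).  So `1 ≤ C₂ (|l| * 98507 ^ ν + H * 0.7841 ^ ν)`.  Let `ν` be the least number with
`C₂ H 0.7841 ^ ν ≤ 1/2`; then `|l| ≥ 1 / (2 C₂ 98507 ^ ν)`, and `C₂ H 0.7841 ^ (ν - 1) > 1/2` (if `ν > 0`), so
`98507 ^ ν ≤ 98507 (2 C₂ H) ^ 48` since `98507 ≤ (1 / 0.7841) ^ 48` (`= 117000`; `0.7841 ^ 48 * 98507 ≤ 1`).  So `|l| ≥ c₁ / H ^ 48`.
Now `k log 3 - p log 2 = (2 k - p) log (3/2) + (k - p) log (4/3)`, and `(2 k - p, k - p) ≠ (0, 0)` for `k ≥ 1`.  If `|k log 3 - p log 2| ≤ 1` then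
`|p| ≤ 4 k`, `H ≤ 6 k`. -/
def St_MEA : Prop := ∃ c : ℝ, 0 < c ∧ ∀ k : ℕ, 1 ≤ k → ∀ p : ℤ, c / (k : ℝ) ^ 48 ≤ |k * Real.log 3 - p * Real.log 2|

/-! ### Part 2: cycles -/

/-- [CYB]  Cycles, basic facts.
HYPS: none.
PROOF.  `f` maps positive integers to positive integers and is injective on them (residues modulo `3`; the images of the three classes are
the even numbers, `3 mod 4`, `1 mod 4`).  (3) If `x ∈ S`, then `f x ∈ S` (an iterate of `x`); `f` is injective on `S`, so `S.image f = S`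
(finite).  (4) If `x ∈ S ∩ T`, both are the set of the iterates of `x`.  (5) `x, f x, .., f^[k] x` are `k + 1` elements of `S` (`k = S.card`), so
`f^[i] x = f^[j] x` with `i < j ≤ k`, and `f^[j - i] x = x` by injectivity; let `d ≤ k` be the least positive number with
`f^[d] x = x`: every iterate of `x` is one of the `f^[i] x`, `i < d`, so `k ≤ d`, `d = k`.  (6) `S = {n, f n, .., f^[j - 1] n}` (`f^[i + j q] n = f^[i] n`;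
from `f^[i] n` one comes back to `n` after `j - i` steps). -/
def St_CYB : Prop :=
  (∀ x, 0 < x → 0 < f x) ∧
  (∀ x y, 0 < x → 0 < y → f x = f y → x = y) ∧
  (∀ S, IsCycle S → S.image f = S) ∧
  (∀ S T, IsCycle S → IsCycle T → S = T ∨ Disjoint S T) ∧
  (∀ S, IsCycle S → ∀ x ∈ S, f^[S.card] x = x ∧ ∀ y ∈ S, ∃ j < S.card, f^[j] x = y) ∧
  ∀ n j : ℕ, 0 < n → 1 ≤ j → f^[j] n = n → ∃ S, IsCycle S ∧ n ∈ S ∧ S.card ≤ j

/-- [CEQ]  The equation of a cycle.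
HYPS: CYB.
PROOF.  `∑ x ∈ S, (log (f x) - log x) = 0` because `S.image f = S` and `f` is injective on `S`.  For `3 ∣ x`: `f x = 2 x / 3`.  Otherwise
`f x = (4 x + t) / 3`, `t = 1` if `x % 3 = 2`, `t = - 1` if `x % 3 = 1`; `log (f x) - log x = 2 log 2 - log 3 + u x`,
`u x = log (1 + t / (4 x))`, `|u x| ≤ 1 / (3 x)` as `x ≥ 1` (`0 ≤ log (1 + z) ≤ z`, `- log (1 - z) ≤ z / (1 - z)` for `z = 1 / (4 x) ≤ 1/4`; for `x ≥ 4`:
`z / (1 - z) ≤ 1/15`).  So with `a` the number of the multiples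
of `3` in `S` and `k = S.card`: `a (log 2 - log 3) + (k - a) (2 log 2 - log 3) + ∑ u x = 0`. -/
def St_CEQ : Prop :=
  ∀ S, IsCycle S → ∃ u : ℕ → ℝ, (∀ x ∈ S, ¬ 3 ∣ x → |u x| ≤ 1 / (3 * (x : ℝ)) ∧ (4 ≤ x → -(1 / 15 : ℝ) ≤ u x) ∧
      (x % 3 = 2 → 0 ≤ u x)) ∧
    (S.card : ℝ) * Real.log 3 - (2 * (S.card : ℝ) - ((S.filter fun x => 3 ∣ x).card : ℝ)) * Real.log 2 =
      ∑ x ∈ S.filter (fun x => ¬ 3 ∣ x), u x

/-- the distance of `k log 3` from the integer multiples of `log 2` -/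
noncomputable def lam (k : ℕ) : ℝ := |k * Real.log 3 - round (k * Real.log 3 / Real.log 2) * Real.log 2|

/-- [HAR]
HYPS: CYB, CEQ.
PROOF.  First statement: `round_le` for `k log 3 / log 2`, times `log 2`.  Second: CEQ, `p = 2 k - a`, `lam S.card ≤ |..| ≤ ∑ x ∈ S, 1 / (3 x)`.
The members of `F` are pairwise disjoint (CYB (4)), so the sum over `F` is at most `∑ x ∈ U, 1 / (3 x)`, `U` the union (`Finset.sum_biUnion`),
`N = U.card = ∑ S ∈ F, S.card`, all elements of `U` are `≥ 1`.  For every finite set `U` of positive integers with `N` elements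
`∑ x ∈ U, 1 / x ≤ ∑ x ∈ Icc 1 N, 1 / x ≤ 1 + log N` (compare `U \ Icc 1 N` and `Icc 1 N \ U`, which have the same number of elements; `harmonic_le_one_add_log`). -/
def St_HAR : Prop :=
  (∀ (k : ℕ) (p : ℤ), lam k ≤ |k * Real.log 3 - p * Real.log 2|) ∧
  (∀ S, IsCycle S → lam S.card ≤ ∑ x ∈ S, 1 / (3 * (x : ℝ))) ∧
  ∀ F : Finset (Finset ℕ), (∀ S ∈ F, IsCycle S) → F.Nonempty →
    ∑ S ∈ F, lam S.card ≤ (1 + Real.log (∑ S ∈ F, (S.card : ℝ))) / 3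

/-! ### Part 3: consequences -/

/-- [CNT]  Counting the lengths.
HYPS: HAR.
PROOF.  For every `k ∈ Len K` choose a cycle `S_k` with `k` elements; they are different.  Let `L' = {k ∈ Len K | lam k < ε}`, `L''` the others.
`ε #L'' ≤ ∑ k ∈ L'', lam k ≤ (1 + log (K * K)) / 3` (HAR; `∑ k ≤ K * K`).  If `k < k'` are in `L'`, then `lam`: there are `p, p'` with
`|(k' - k) log 3 - (p' - p) log 2| < 2 ε`, so `k' - k > D`.  So `#L' ≤ K / D + 1` (the map `k ↦ (k - 1) / D` is injective on `L'`, with values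
`≤ (K - 1) / D`). -/
def St_CNT : Prop := ∀ (D K : ℕ) (ε : ℝ), 1 ≤ D → 1 ≤ K → 0 < ε →
  (∀ d : ℕ, 1 ≤ d → d ≤ D → ∀ p : ℤ, 2 * ε ≤ |d * Real.log 3 - p * Real.log 2|) →
  ((Len K).card : ℝ) ≤ K / D + 1 + (1 + 2 * Real.log K) / (3 * ε)

/-- [LNA]  All but `O(K ^ 0.98)` lengths are impossible.
HYPS: CNT, MEA.
PROOF.  CNT for `D = ⌊K ^ (1/49)⌋` (`≥ K ^ (1/49) / 2`), `ε = c / (2 D ^ 48)`: `#Len K ≤ 2 K ^ (48/49) + 1 + 2 (1 + 2 log K) K ^ (48/49) / (3 c)`, and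
`48/49 < 0.98`, `log K ≤ C K ^ (0.98 - 48/49)`. -/
def St_LNA : Prop := ∃ C : ℝ, ∀ K : ℕ, 1 ≤ K → ((Len K).card : ℝ) ≤ C * (K : ℝ) ^ (0.98 : ℝ)

/-- [LNB]  For infinitely many `K` only `O(√(K log K))` lengths.
HYPS: CNT, MEA (only `lam k > 0` for `k ≥ 1` is needed).
PROOF.  `α = log 3 / log 2`; `‖x‖ = |x - round x|`; `‖k α‖ log 2 = lam k > 0`.  For every `q₀` there are `q ≥ 1`, `q' > q₀`, `q < q'`, such that `‖q' α‖ < ‖q α‖`, and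
`‖q α‖ ≤ ‖d α‖` for `1 ≤ d < q'`: let `δ = min_(1 ≤ d ≤ q₀) ‖d α‖`, `q'` the least `d ≥ 1` with `‖d α‖ < δ` (exists: Dirichlet, `Real.exists_int_int_abs_mul_sub_le`
or `Real.exists_nat_abs_mul_sub_round_le`), `q < q'` with `‖q α‖` minimal among the `1 ≤ d < q'`.  Then `1 ≤ (q + q') ‖q α‖ ≤ 2 q' ‖q α‖`: with `p, p'` the
nearest integers `q' p - q p' = q' (p - q α) + q (q' α - p')` is an integer, and not `0`: if `q' p = q p'`, then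
`q ‖q' α‖ = |q q' α - q p'| = |q q' α - q' p| = q' ‖q α‖ > q ‖q' α‖`.  So `‖d α‖ ≥ 1 / (2 q')` for `1 ≤ d < q'`, `|d log 3 - p log 2| ≥ log 2 / (2 q')`.
CNT for `D = q' - 1` (`q' ≥ 2`), `ε = log 2 / (4 q')`, `K = q'² L`, `L = Nat.log 2 q' ≥ 1` (`L log 2 ≤ log q' ≤ 2 L`, `log K ≤ 3 log q'`):
`#Len K ≤ q'² L / (q' - 1) + 1 + 4 q' (1 + 2 log K) / (3 log 2) ≤ C q' L`, and `√(K log K) ≥ √(q'² L * 2 L log 2) ≥ q' L`. -/
def St_LNB : Prop := ∃ C : ℝ, ∀ N : ℕ, ∃ K : ℕ, N ≤ K ∧ ((Len K).card : ℝ) ≤ C * √(K * Real.log K)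

/-- [SHC]  Short cycles.
HYPS: MEA, CYB, HAR.
PROOF.  (1) Let `S` be a cycle with `k ≤ K` elements, `y = min S`.  `c / k ^ 48 ≤ lam k ≤ ∑ x ∈ S, 1 / (3 x) ≤ k / (3 y)`, so `y ≤ k ^ 49 / (3 c)`.
(2) `n ∈ Per K` is an element of a cycle with at most `K` elements (CYB (6)), which has an element `y ≤ K ^ 49 / (3 c)`, and `n = f^[j] y` with `j < K`
(CYB (5)).  So `Per K` is contained in the image of `Icc 1 ⌊K ^ 49 / (3 c)⌋ × range K`, `#Per K ≤ K * K ^ 49 / (3 c)`.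
(3) Let `x ≥ 1`, `K = ⌊x ^ (1/51)⌋`.  If `n ≤ x` and `f^[i] n = f^[j] n`, `i < j`, `(j : ℝ) ≤ x ^ (1/51)`, then `f^[j - i] n = n` (injectivity), `n ∈ Per K`; so at most
`K ^ 50 / (3 c) ≤ x ^ (50/51) / (3 c)` numbers. -/
def St_SHC : Prop := ∃ C : ℝ,
  (∀ S, IsCycle S → ∃ y ∈ S, (y : ℝ) ≤ C * (S.card : ℝ) ^ 49) ∧
  (∀ K : ℕ, (Per K).Finite ∧ ((Per K).ncard : ℝ) ≤ C * (K : ℝ) ^ 50) ∧
  ∀ x : ℕ, 1 ≤ x → ({n : ℕ | 0 < n ∧ n ≤ x ∧ ∃ i j : ℕ, i < j ∧ (j : ℝ) ≤ (x : ℝ) ^ (1 / 51 : ℝ) ∧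
    f^[i] n = f^[j] n}.ncard : ℝ) ≤ C * (x : ℝ) ^ (50 / 51 : ℝ)

/-- [HGT]  Heights.
HYPS: CYB, CEQ.
PROOF.  `1 ∉ S` (otherwise `S = {1}`, as `f 1 = 1`), so all elements are `≥ 2`.  For `x ≥ 2`: `f x > x` if `3 ∤ x`, and `f x < x` if `3 ∣ x`.
(a) Let `v = padicValNat 3`.  `∑ x ∈ S, v (f x) = ∑ x ∈ S, v x` (CYB (3)).  For `3 ∣ x`: `v (f x) = v x - 1`.  So the number `a` of the multiples of `3` in `S` is
`∑ (x ∈ S, 3 ∤ x), v (f x) = ∑ (x ∈ S, 3 ∤ x, 3 ∣ f x), v (f x) ≤ runs S * log M / log 3`, `M` the maximum of `S` (`3 ^ v y ≤ y`).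
(b) `S.card ≤ 5 a`: CEQ: `a log 2 = k (2 log 2 - log 3) + ∑ u x`; `u x ≥ - 1/15` for all `x ∈ S` with `3 ∤ x` (`x ≥ 4`, or `x = 2`, where `u x ≥ 0`), so
`a log 2 ≥ k (2 log 2 - log 3 - 1/15)`, `2 log 2 - log 3 ≥ 0.28`, `log 2 ≤ 0.7`: `0.7 a ≥ 0.21 k`.  So `S.card ≤ 5 * runs S * log M`.
(c) It remains `log M ≤ θ ^ (runs S) * log y`, `θ = log 3 / log 2`; it is enough to take for `y` the minimum of `S` (`log y ≤ log y'`), and then `3 ∤ y` (else `f y < y`).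
For `x > 0` let `ρ x = 2 ^ (v x) * (x / 3 ^ (v x))`.  If `3 ∣ x`: `ρ (f x) = ρ x`.  For all `x`:
`log x ≤ θ log (ρ x)` (`v log 3 = θ v log 2`, `log w ≤ θ log w`).  If `3 ∤ x`: `ρ x = x < f x`; so `ρ x ≤ ρ (f x)` if `3 ∤ f x`, and `log (ρ x) ≤ θ log (ρ (f x))` if `3 ∣ f x`.
`3 ∣ M` (else `f M > M`).  `y = f^[j] M`, take the least `j`; then `M, f M, .., f^[j] M` are different elements of `S` (if `f^[i] M = f^[i'] M`, `i < i' ≤ j`, then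
`f^[i' - i] M = M` and `f^[j - (i' - i)] M = y`).  Let `n i` be the number of
the `i' < i` with `3 ∤ f^[i'] M`, `3 ∣ f^[i' + 1] M`; by induction `log (ρ M) ≤ θ ^ (n i) log (ρ (f^[i] M))` for `i ≤ j`.  `n j + 1 ≤ runs S`: the elements `f^[i'] M`, `i' < j`, counted by
`n j`, are different; let `w ∈ S` with `f w = M` (CYB (3)); `3 ∤ w` (else `w > f w = M`), so `w` is counted by `runs S`, and `w = f^[i'] M` with `i' < j` is impossible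
(then `f^[i' + 1] M = M`, `f^[j - (i' + 1)] M = y`, against the choice of `j`).  So
`log M ≤ θ log (ρ M) ≤ θ ^ (1 + n j) log (ρ y) = θ ^ (1 + n j) log y ≤ θ ^ (runs S) log y`. -/
def St_HGT : Prop := ∀ S, IsCycle S → 2 ≤ S.card → ∀ y ∈ S,
  (S.card : ℝ) ≤ 5 * runs S * (Real.log 3 / Real.log 2) ^ (runs S) * Real.log y

/-- [RUN]  The number of runs.
HYPS: SHC, HGT, CYB.
PROOF.  Let `k = S.card ≥ 2`, `m = runs S`.  SHC (1): `y ∈ S` with `y ≤ C k ^ 49`.  HGT: `k ≤ 5 m θ ^ m (49 log k + log C)` (`C` may be enlarged to `C ≥ 1`).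
`θ ^ m ≤ exp (0.461 m)` (`log (log 3 / log 2) = 0.4605..`; it is enough that `θ ≤ e ^ 0.47`: `log 3 / log 2 < 1.5850 < 1.59 < e ^ 0.47 = 1.5999..`), `m ≤ K exp (m / 100)`-type
inequalities: there is `C₁` with `5 m (49 log k + log C) ≤ C₁ exp (0.01 m) k ^ (0.03)`.  So `k ^ 0.97 ≤ C₁ exp (0.48 m)`, `m ≥ (0.97 log k - log C₁) / 0.48 ≥ 2 log k - C₂`.
Finiteness: if `runs S ≤ m` then `k ≤ max 1 (exp ((m + C₂) / 2)) =: K`; all elements of `S` are in `Per K` (`f^[k] x = x`, CYB (5)), a finite set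
(SHC (2)), so `S` is one of its finitely many subsets. -/
def St_RUN : Prop :=
  (∃ C : ℝ, ∀ S, IsCycle S → 2 ≤ S.card → 2 * Real.log S.card - C ≤ runs S) ∧
  ∀ m : ℕ, {S | IsCycle S ∧ runs S ≤ m}.Finite

end Pool.Agent.CPC
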