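import Pool.Agent.CPC.St

/-!
# CPC/St2 (helper5): second part, statements with complete proofs

Every module `XXX` is the file `Pool/Agent/CPC/XXX.lean`, `import Pool.Agent.CPC.St2`, namespace `Pool.Agent.CPC`, and proves
`theorem thm_XXX (hAAA : St_AAA) .. : St_XXX`; the hypotheses `St_AAA` are listed under HYPS (nothing else may be
assumed; with HYPS none: `theorem thm_XXX : St_XXX`).  Aux lemmas: private, or names beginning with `xxx_`.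

PLAN.  Part 4: better approximations, `|k log 3 - p log 2| ≥ c / k ^ 10.8`, and the explicit bound `1 / (10 ^ 200 k ^ 17)`.  Part 5: better
bounds for lengths and short cycles.  Part 6: runs; the cycles with at most `14` runs of multiples of `3` are the four known ones.
-/

set_option autoImplicit false

namespace Pool.Agent.CPC

open Finset Polynomial

/-! ### Part 4: measures -/

/-- [EXL]  An explicit bound for the least common multiple of `1, .., n` (Hanson's method).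
HYPS: none.
PROOF.  `A = {2, 3, 7, 43, 1806}`; `903 + 602 + 258 + 42 + 1 = 1806`, so `∑ a ∈ A, 1 / a = 1`.  For `N : ℕ`: `∑ a ∈ A, N / a ≤ N`, and `< N` if `1806` does not
divide `N`.  For `n ≥ 1` let `M n = n! / ∏ a ∈ A, (n / a)!` (integer: `∑ n / a ≤ n`).  For a prime `p` put `N_j = n / p ^ j`; `v_p (M n) = ∑ j ≥ 1, (N_j - ∑ a, N_j / a)`
(Legendre, `(n / a) / p ^ j = N_j / a`), all terms are `≥ 0`, and `≥ 1` if `1 ≤ N_j < 1806`.  `v_p (lcmUpto n)` is the number of the `j ≥ 1` with `N_j ≥ 1`, and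
`v_p (lcmUpto (n / 1806))` the number of those with `N_j ≥ 1806`.  So `lcmUpto n ∣ lcmUpto (n / 1806) * M n`.  (Or with `ψ` and `log n! = ∑ Λ(d) (n / d)`.)
Size: let `n_a = n / a`, `N = ∑ n_a`; `1806 (n - N) = ∑ (1806 / a) (n % a) ≤ ∑ (1806 / a) (a - 1) = 4 * 1806`, so `n - N ≤ 4`, `n! / N! ≤ n ^ 4`.
`N! / ∏ n_a!` is one of the multinomial coefficients of `(∑ 1 / a) ^ N = 1`, so `N! / ∏ n_a! ≤ ∏ a ^ (n_a)`, and
`(∏ a ^ (n_a)) ^ 1806 ≤ (2 ^ 903 * 3 ^ 602 * 7 ^ 258 * 43 ^ 42 * 1806) ^ n ≤ (2.952 ^ 1806) ^ n` (`1806 n_a ≤ (1806 / a) n`; the number comparison: `norm_num` or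
`decide +kernel`).  So `lcmUpto n ≤ lcmUpto (n / 1806) * n ^ 4 * 2.952 ^ n`.
Induction: if `n < 3612` then `lcmUpto (n / 1806) = 1` and `n ^ 4 * 0.984 ^ n ≤ 10 ^ 8` (the maximum, at `n = 248`, is `6.9 * 10 ^ 7`; e.g. `log`:
`4 log n ≤ 4 log 248 + 4 (n - 248) / 248`, `log 0.984 ≤ -0.0161`).  If `n ≥ 3612`:
`n ^ 4 * 3 ^ (n / 1806) * 2.952 ^ n ≤ 3 ^ n` (`4 log n ≤ 0.0155 n` for `n ≥ 3612`, by `log n ≤ log 3612 + (n - 3612) / 3612`). -/
def St_EXL : Prop := ∀ n : ℕ, Nat.lcmUpto n ≤ 10 ^ 8 * 3 ^ n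

/-- `(X - 2) ^ (3 ν) (X - 3) ^ (4 ν) (X - 4) ^ (2 ν) X ^ s` -/
noncomputable def WW (ν s : ℕ) : ℤ[X] := (X - 2) ^ (3 * ν) * (X - 3) ^ (4 * ν) * (X - 4) ^ (2 * ν) * X ^ s

/-- the coefficient of `X ^ (4 ν)` -/
noncomputable def c2 (ν s : ℕ) : ℤ := (WW ν s).coeff (4 * ν)

/-- the integral of `WW ν s / y ^ (4 ν + 1)` -/
noncomputable def KK (ν s : ℕ) (a b : ℝ) : ℝ :=
  ∫ y in a..b, (y - 2) ^ (3 * ν) * (y - 3) ^ (4 * ν) * (y - 4) ^ (2 * ν) * y ^ s / y ^ (4 * ν + 1)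

/-- the common denominator -/
def D2 (ν : ℕ) : ℕ := 2 ^ ν * Nat.lcmUpto (5 * ν + 2)

/-- [DV2]  The integrals are linear forms in `1` and one logarithm (compare `St_DIV` and its proof `DIV.lean`).
HYPS: none.
PROOF.  Let `P = WW ν s = ∑ P_j X ^ j` (degree `9 ν + s`), `m = 4 ν`.  For `0 < a ≤ b`:
`KK ν s a b = ∑ j, P_j ∫ y in a..b, y ^ (j - m - 1) = P_m log (b / a) + ∑ j ≠ m, P_j (b ^ (j - m) - a ^ (j - m)) / (j - m)`.
Integrality: for `c ∈ {2, 3, 4}` there is `G : ℤ[X]` with `2 ^ ν * P.comp (C c * X) = c ^ (4 ν) * G`: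
`2 X - 2 = 2 (X - 1)`, `2 X - 4 = 2 (X - 2)`: `2 ^ (3 ν + 2 ν) = 2 ^ (4 ν) 2 ^ ν`; `3 X - 3 = 3 (X - 1)`: `3 ^ (4 ν)`; `4 X - 2 = 2 (2 X - 1)`, `4 X - 4 = 4 (X - 1)`: `2 ^ ν * 2 ^ (3 ν) * 4 ^ (2 ν) = 4 ^ (4 ν)`.
Comparing coefficients: `2 ^ ν P_j c ^ j = c ^ (4 ν) G_j`, so `2 ^ ν P_j c ^ (j - m) = G_j` is an integer for all `j`.  For `j ≠ m`, `j ≤ 9 ν + s`: `|j - m| ≤ 5 ν + 2`,
so `j - m` divides `lcmUpto (5 ν + 2)`. -/
def St_DV2 : Prop := ∀ ν s : ℕ, s ≤ 2 →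
  (∃ N : ℤ, (D2 ν : ℝ) * KK ν s 2 3 = (D2 ν : ℝ) * (c2 ν s : ℝ) * Real.log (3 / 2) + N) ∧
  ∃ N : ℤ, (D2 ν : ℝ) * KK ν s 3 4 = (D2 ν : ℝ) * (c2 ν s : ℝ) * Real.log (4 / 3) + N

/-- [SZI]
HYPS: none.
PROOF.  On `[2, 3]`: `y = 2 + t`, `g t = t ^ 3 (1 - t) ^ 4 (2 - t) ^ 2 / (2 + t) ^ 4`; `g' t / g t = 3 / t - 4 / (1 - t) - 2 / (2 - t) - 4 / (2 + t)` is decreasing, the maximum of `g`
is at `t = 0.33573..` with value `0.00068566`.  So e.g.: `g` is increasing on `[0, 0.3357]`, decreasing on `[0.3358, 1]` (sign of the cubic polynomial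
`3 (1 - t) (2 - t) (2 + t) - 4 t (2 - t) (2 + t) - 2 t (1 - t) (2 + t) - 4 t (1 - t) (2 - t)`, which is decreasing on `[0, 1]`), and in between every factor is estimated
at the endpoints.  Or: subdivide `[0, 1]` and use Bernstein coefficients of `0.000688 (2 + t) ^ 4 - t ^ 3 (1 - t) ^ 4 (2 - t) ^ 2` (near the maximum intervals of length `1/50`).
On `[3, 4]`: `y = 3 + t`, `t ^ 4 (1 + t) ^ 3 (1 - t) ^ 2 / (3 + t) ^ 4`, maximum `0.000568` (at `t = 0.691`), there is more room. -/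
def St_SZI : Prop := ∀ y : ℝ, 2 ≤ y → y ≤ 4 → |(y - 2) ^ 3 * (y - 3) ^ 4 * (y - 4) ^ 2| ≤ 0.000688 * y ^ 4

/-- [SZ2]  Sizes (compare `St_SIZ`, `SIZ.lean`).
HYPS: SZI.
PROOF.  The integrand is `((y - 2) ^ 3 (y - 3) ^ 4 (y - 4) ^ 2 / y ^ 4) ^ ν * (y ^ s / y)`, at most `0.000688 ^ ν * 4` in absolute value (`y ^ s / y ≤ y ≤ 4` for `s ≤ 2`,
`y ≥ 1`), the intervals have length `1`.
Coefficients: `∑ j, |coeff P j| ρ ^ j ≤ ((ρ + 2) ^ 3 (ρ + 3) ^ 4 (ρ + 4) ^ 2) ^ ν ρ ^ s` for `ρ > 0` (`‖P Q‖ ≤ ‖P‖ ‖Q‖` for the norm `‖P‖ = ∑ |P_j| ρ ^ j`).  With `ρ = 9/4`: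
`|c2 ν s| ≤ ((17/4) ^ 3 (21/4) ^ 4 (25/4) ^ 2 / (9/4) ^ 4) ^ ν (9/4) ^ s ≤ 88887 ^ ν * 81/16`. -/
def St_SZ2 : Prop := ∀ ν s : ℕ, s ≤ 2 →
  |KK ν s 2 3| ≤ 4 * (0.000688 : ℝ) ^ ν ∧ |KK ν s 3 4| ≤ 4 * (0.000688 : ℝ) ^ ν ∧ |(c2 ν s : ℝ)| ≤ 6 * (88887 : ℝ) ^ ν

/-- [NV2]  Nonvanishing (compare `St_NVN`, `NVN.lean`).
HYPS: none.
PROOF.  Put `F s = l * c2 ν s - A * KK ν s 2 3 - B * KK ν s 3 4` for all `s : ℕ`.
(1) RECURSION: `(5 ν + 3 + s) F (s + 3) - (19 ν + 18 + 9 s) F (s + 2) + (26 + 26 s - 24 ν) F (s + 1) + (96 ν - 24 s) F s = 0`, for each of the three parts.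
Let `W = (X - 2) ^ (3 ν + 1) (X - 3) ^ (4 ν + 1) (X - 4) ^ (2 ν + 1) X ^ s`, `m = 4 ν`.  `X W' - m W = WW ν s * R`,
`R = (3 ν + 1) X (X - 3) (X - 4) + (4 ν + 1) X (X - 2) (X - 4) + (2 ν + 1) X (X - 2) (X - 3) + (s - m) (X - 2) (X - 3) (X - 4)`
`= (5 ν + 3 + s) X³ - (19 ν + 18 + 9 s) X² + (26 + 26 s - 24 ν) X + (96 ν - 24 s)`.  The coefficient of `X ^ m` in `X W' - m W` is `0`;
`(W(y) / y ^ m)' = (y W'(y) - m W(y)) / y ^ (m + 1)`, and `W (2) = W (3) = W (4) = 0`.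
(2) If `F 0 = F 1 = F 2 = 0`, then `F s = 0` for all `s` (the first coefficient is positive).
(3) For `s = m + 1`, `m + 2`: `c2 ν s = 0` (`s > m`), so `A I + B J = 0`, `A I' + B J' = 0`, with `w = (y - 2) ^ (3 ν) (y - 3) ^ (4 ν) (y - 4) ^ (2 ν)`, positive inside both intervals,
`I = ∫_2^3 w > 0`, `J = ∫_3^4 w > 0`, `I' = ∫_2^3 w y < 3 I`, `J' = ∫_3^4 w y > 3 J`.  So `A = B = 0`. -/
def St_NV2 : Prop := ∀ (ν : ℕ) (A B l : ℝ), (A ≠ 0 ∨ B ≠ 0) →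
  ∃ s ≤ 2, l * (c2 ν s : ℝ) - A * KK ν s 2 3 - B * KK ν s 3 4 ≠ 0

/-- [ME2]  (compare `St_MEA`, `MEA.lean`)
HYPS: LCM, DV2, SZ2, NV2.
PROOF.  Let `A, B : ℤ`, not both `0`, `H = max |A| |B| ≥ 1`, `l = A log (3/2) + B log (4/3)`.  For every `ν` NV2 gives `s ≤ 2` such that
`n := D2 ν * (l * c2 ν s - A * KK ν s 2 3 - B * KK ν s 3 4)` is not `0`, and `n` is an integer by DV2.  So (SZ2)
`1 ≤ |n| ≤ D2 ν * (|l| * 6 * 88887 ^ ν + 8 H 0.000688 ^ ν)`.  LCM with `ε = 1/1000`: `D2 ν ≤ C₁ (2 e ^ 5.005) ^ ν ≤ C₁ 298.33 ^ ν` (`e ^ 5.005 = 149.157..`).  So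
`1 ≤ C₂ (|l| * 26520000 ^ ν + H * 0.20526 ^ ν)` (`298.33 * 88887 = 26517658.7`, `298.33 * 0.000688 = 0.205251`).  Let `ν` be the least number with
`C₂ H 0.20526 ^ ν ≤ 1/2`; then `|l| ≥ 1 / (2 C₂ 26520000 ^ ν)`, and `C₂ H 0.20526 ^ (ν - 1) > 1/2` (if `ν > 0`), so
`26520000 ^ ν ≤ 26520000 (2 C₂ H) ^ 10.8` since `26520000 ^ 5 * 0.20526 ^ 54 ≤ 1` (its logarithm is `-0.04`).  So `|l| ≥ c₁ / H ^ 10.8`.
Now `k log 3 - p log 2 = (2 k - p) log (3/2) + (k - p) log (4/3)`, and `(2 k - p, k - p) ≠ (0, 0)` for `k ≥ 1`.  If `|k log 3 - p log 2| ≤ 1` then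
`|p| ≤ 4 k`, `H ≤ 6 k`. -/
def St_ME2 : Prop := ∃ c : ℝ, 0 < c ∧ ∀ k : ℕ, 1 ≤ k → ∀ p : ℤ,
  c / (k : ℝ) ^ (10.8 : ℝ) ≤ |k * Real.log 3 - p * Real.log 2|

/-- [MEX]  Explicit measure.
HYPS: EXL, DV2, SZ2, NV2.
PROOF.  As for ME2, with `D2 ν ≤ 2 ^ ν * 10 ^ 8 * 3 ^ (5 ν + 2) = 9 * 10 ^ 8 * 486 ^ ν`: for all `ν`
`1 ≤ 5.4 * 10 ^ 9 * |l| * 43199082 ^ ν + 7.2 * 10 ^ 9 * H * 0.334368 ^ ν` (`486 * 88887 = 43199082`, `486 * 0.000688 = 0.334368`).  Let `ν` be the least number with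
`1.44 * 10 ^ 10 * H * 0.334368 ^ ν ≤ 1` (`ν ≥ 1`); then `|l| ≥ 1 / (1.08 * 10 ^ 10 * 43199082 ^ ν)` and
`43199082 ^ (ν - 1) ≤ (1 / 0.334368) ^ (17 (ν - 1)) ≤ (1.44 * 10 ^ 10 * H) ^ 17` (`43199082 * 0.334368 ^ 17 ≤ 1`).  So
`|l| ≥ 1 / (1.08 * 10 ^ 10 * 43199082 * (1.44 * 10 ^ 10) ^ 17 * H ^ 17)`.  For `l = k log 3 - p log 2`, `A = 2 k - p`, `B = k - p`, `|l| ≤ 1` (else nothing to prove):
`|p log 2 - k log 3| ≤ 1` gives `1.58 k - 1.45 ≤ p ≤ 1.59 k + 1.45`, `H ≤ 3 k`.  `1.08 * 10 ^ 10 * 43199082 * (4.32 * 10 ^ 10) ^ 17 ≤ 10 ^ 200`. -/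
def St_MEX : Prop := ∀ k : ℕ, 1 ≤ k → ∀ p : ℤ,
  1 / (10 ^ 200 * (k : ℝ) ^ 17) ≤ |k * Real.log 3 - p * Real.log 2|

/-! ### Part 5: lengths and short cycles -/

/-- [LA2]  (compare `St_LNA`, `LNA.lean`)
HYPS: CNT, ME2.
PROOF.  CNT for `D = ⌊K ^ (1/11.8)⌋` (`≥ K ^ (1/11.8) / 2`), `ε = c / (2 D ^ 10.8)`: `#Len K ≤ 2 K ^ (10.8/11.8) + 1 + 2 (1 + 2 log K) K ^ (10.8/11.8) / (3 c)`, and
`10.8/11.8 = 0.9152.. < 0.92`, `log K ≤ C K ^ (0.92 - 10.8/11.8)`. -/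
def St_LA2 : Prop := ∃ C : ℝ, ∀ K : ℕ, 1 ≤ K → ((Len K).card : ℝ) ≤ C * (K : ℝ) ^ (0.92 : ℝ)

/-- [SH2]  Short cycles (compare `St_SHC`, `SHC.lean`).
HYPS: ME2, CYB, HAR.
PROOF.  (1) Let `S` be a cycle with `k` elements, `y = min S`.  `c / k ^ 10.8 ≤ lam k ≤ ∑ x ∈ S, 1 / (3 x) ≤ k / (3 y)`, so `y ≤ k ^ 11.8 / (3 c)`.
(2) `n ∈ Per K` is an element of a cycle with at most `K` elements (CYB (6)), which has an element `y ≤ K ^ 11.8 / (3 c)`, and `n = f^[j] y` with `j < K`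
(CYB (5)).  So `Per K` is finite, with at most `C₁ K ^ 12.8` elements.  Let `F` be the set of the cycles with at most `K` elements (a finite set, as
they are subsets of `Per K`), `n = F.card` (`n ≥ 1` if `K ≥ 1`: `{1}`), so `n ≤ #Per K ≤ K n` (`Per K` is the union, and different cycles are disjoint and nonempty).  By HAR
`n c / K ^ 10.8 ≤ ∑ S ∈ F, lam S.card ≤ (1 + log (K n)) / 3 ≤ (1 + log K + log C₁ + 12.8 log K) / 3` (`C₁ ≥ 1`; `∑ S ∈ F, S.card ≤ K n`), so `n ≤ C₂ K ^ 10.8 (1 + log K)`,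
`#Per K ≤ C₂ K ^ 11.8 (1 + log K) ≤ C₃ K ^ 12`.  (`K = 0`: `Per 0 = ∅`.)
(3) Let `x ≥ 1`, `K = ⌊x ^ (1/13)⌋`.  If `n ≤ x` and `f^[i] n = f^[j] n`, `i < j`, `(j : ℝ) ≤ x ^ (1/13)`, then `f^[j - i] n = n` (injectivity), `n ∈ Per K`; so at most
`C₃ K ^ 12 ≤ C₃ x ^ (12/13)` numbers. -/
def St_SH2 : Prop := ∃ C : ℝ,
  (∀ S, IsCycle S → ∃ y ∈ S, (y : ℝ) ≤ C * (S.card : ℝ) ^ (11.8 : ℝ)) ∧
  (∀ K : ℕ, (Per K).Finite ∧ ((Per K).ncard : ℝ) ≤ C * (K : ℝ) ^ 12) ∧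
  ∀ x : ℕ, 1 ≤ x → ({n : ℕ | 0 < n ∧ n ≤ x ∧ ∃ i j : ℕ, i < j ∧ (j : ℝ) ≤ (x : ℝ) ^ (1 / 13 : ℝ) ∧
    f^[i] n = f^[j] n}.ncard : ℝ) ≤ C * (x : ℝ) ^ (12 / 13 : ℝ)

/-! ### Part 6: runs -/

/-- the error of one step -/
noncomputable def uu (x : ℕ) : ℝ := Real.log (f x) - Real.log x - (2 * Real.log 2 - Real.log 3)

/-- [SBD]  The equation of a cycle, sharper.
HYPS: CYB.
PROOF.  `f 1 = 1`, so `1 ∉ S` (otherwise `S = {1}`, `S.card = 1`); `y ≥ 2`.  If `3 ∣ y` then `f y = 2 y / 3 < y`, `f y ∈ S`, a contradiction.  `y = f z`, `z ∈ S` (CYB (3)); if `y` is odd then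
`3 ∤ z` (`f (3 n) = 2 n`), so `f z > z` (`z ≥ 2`), a contradiction.
For `3 ∤ x`, `x ≥ 2`: `f x = (4 x + t) / 3`, `t = ± 1`, `uu x = log (1 + t / (4 x))`, `|uu x| ≤ 1 / (4 x - 1) ≤ 1 / (4 (x - 1))`; `f x - 1 ≥ (4/3) (x - 1)`, so with `φ x = 1 / (x - 1)`:
`|uu x| ≤ φ x - φ (f x)`.  `∑ x ∈ S, (φ x - φ (f x)) = 0` (`S.image f = S`, injective), so `∑ (x ∈ S, 3 ∤ x), |uu x| ≤ ∑ (x ∈ S, 3 ∣ x), (φ (f x) - φ x)`
`= ∑ (x ∈ S, 3 ∣ x), φ (f x) - ∑ (x ∈ S, 3 ∣ f x), φ (f x)` (the multiples of `3` in `S` are the `f x` with `x ∈ S`, `3 ∣ f x`)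
`≤ ∑ (x ∈ S, 3 ∣ x, 3 ∤ f x), φ (f x) ≤ r / (y - 1)`, `r` the number of the `x ∈ S` with `3 ∣ x`, `3 ∤ f x`; and `r = runs S`, because `#{x ∈ S | 3 ∣ x} = #{x ∈ S | 3 ∣ f x}`.
Last: `0 = ∑ x ∈ S, (log (f x) - log x) = a (log 2 - log 3) + (k - a) (2 log 2 - log 3) + ∑ (x ∈ S, 3 ∤ x), uu x`, `a = #{x ∈ S | 3 ∣ x}`, so
`k log 3 - (2 k - a) log 2 = ∑ (x ∈ S, 3 ∤ x), uu x`. -/
def St_SBD : Prop := ∀ S, IsCycle S → 2 ≤ S.card → ∀ y ∈ S, (∀ x ∈ S, y ≤ x) →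
  2 ≤ y ∧ y % 2 = 0 ∧ y % 3 ≠ 0 ∧
  ∑ x ∈ S.filter (fun x => ¬ 3 ∣ x), |uu x| ≤ runs S / ((y : ℝ) - 1) ∧
  ∃ p : ℤ, |(S.card : ℝ) * Real.log 3 - p * Real.log 2| ≤ runs S / ((y : ℝ) - 1)

/-- [HG2]  Heights (compare `St_HGT`, `HGT.lean`).
HYPS: CYB, SBD.
PROOF.  `θ = log 3 / log 2`, `k = S.card`, `m = runs S`, `L = log y`, `x i = f^[i] y`: `i ↦ x i` is a bijection from `range k` to `S`, `x k = y` (CYB (5)).
`v = padicValNat 3`, `ρ x = 2 ^ (v x) * (x / 3 ^ (v x))`.  For `x > 0`: `3 ∣ x → ρ (f x) = ρ x`; `log x ≤ θ log (ρ x)`; if `3 ∤ x`: `ρ x = x ≤ f x`.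
`3 ∤ x ∧ 3 ∣ f x ↔ f x % 6 = 3` (for `x > 0`; `f x` is even iff `3 ∣ x`).  `N i` := number of the `j`, `i ≤ j < k`, with `x (j + 1) % 6 = 3`; `N 0 = m`; `J i` := number of the `j < i`
with `x (j + 1) % 6 = 3`; `J i + N i = m`.  `a i` := number of the `j`, `i ≤ j < k`, with `3 ∣ x j`.
(a) `log (ρ (x i)) ≤ θ ^ (N i) L` for `i ≤ k`, by downward induction: `ρ (x k) = y`.  If `3 ∣ x i`: `ρ` and `N` do not change.  If `3 ∤ x i`, `3 ∤ x (i + 1)`: `ρ (x i) = x i ≤ x (i + 1) =`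
`ρ (x (i + 1))`.  If `3 ∤ x i`, `3 ∣ x (i + 1)`: `log (x i) ≤ log (x (i + 1)) ≤ θ log (ρ (x (i + 1)))` and `N i = N (i + 1) + 1`.
(b) `a i log 3 ≤ (∑ t ∈ Icc 1 (N i), θ ^ t) L + v (x i) log 3`, by downward induction: `a k = 0`.  `3 ∣ x i`: `a i = a (i + 1) + 1`, `v (x i) = v (x (i + 1)) + 1`.  `3 ∤ x i`, `3 ∤ x (i + 1)`: nothing
changes.  `3 ∤ x i`, `3 ∣ x (i + 1)`: `v (x (i + 1)) log 3 ≤ log (x (i + 1)) ≤ θ log (ρ (x (i + 1))) ≤ θ ^ (N i) L`.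
And `v (x i) log 3 ≤ log (x i) ≤ θ ^ (N i + 1) L`, so `a i log 3 ≤ (∑ t ∈ Icc 1 (N i + 1), θ ^ t) L`, `a i log 2 ≤ (∑ t ∈ range (N i + 1), θ ^ t) L`; and
`a 0 log 2 ≤ (∑ t ∈ range m, θ ^ t) L` as `3 ∤ y`.
(c) `0 ≥ log (x k) - log (x i) = ∑ (i ≤ j < k), (log (x (j + 1)) - log (x j)) = (k - i) (2 log 2 - log 3) - a i log 2 + ∑ (i ≤ j < k, 3 ∤ x j), uu (x j)` (for `3 ∣ x j` the term is `log 2 - log 3`),
and the last sum is `≥ - m / (y - 1)` (SBD).  So `(k - i) (2 log 2 - log 3) ≤ a i log 2 + m / (y - 1)`; `N i = m - J i ≤ n`. -/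
def St_HG2 : Prop := ∀ S, IsCycle S → 2 ≤ S.card → ∀ y ∈ S, (∀ x ∈ S, y ≤ x) →
  ((S.card : ℝ) * (2 * Real.log 2 - Real.log 3) ≤
    (∑ t ∈ range (runs S), (Real.log 3 / Real.log 2) ^ t) * Real.log y + runs S / ((y : ℝ) - 1)) ∧
  ∀ i ≤ S.card, ∀ n : ℕ, runs S ≤ n + ((range i).filter fun j => f^[j + 1] y % 6 = 3).card →
    ((S.card : ℝ) - i) * (2 * Real.log 2 - Real.log 3) ≤
      (∑ t ∈ range (n + 1), (Real.log 3 / Real.log 2) ^ t) * Real.log y + runs S / ((y : ℝ) - 1)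

/-- [RU2]  (compare `St_RUN`, `RUN.lean`)
HYPS: SH2, HG2, SBD, CYB.
PROOF.  `y = min S`, `k = S.card ≥ 2`, `m = runs S`.  `y ≤ y' ≤ C k ^ 11.8` (SH2 (1)), so `log y ≤ C₁ log k` (`log k ≥ log 2`).  HG2 (first part): `k (2 log 2 - log 3) ≤`
`θ ^ m / (θ - 1) * C₁ log k + m`, and `m ≤ ∑ t ∈ range m, θ ^ t ≤ θ ^ m / (θ - 1)`.  So `k ≤ C₂ θ ^ m log k`.
Finiteness: if `runs S ≤ m`, then `k ≤ max 1 (C₂ θ ^ m log k)`, so `k ≤ K` for some `K` which depends only on `m` (`log k ≤ 2 √k`), all elements of `S` are in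
`Per K` (`f^[k] x = x`, CYB (5)), a finite set (SH2 (2)), so `S` is one of its finitely many subsets. -/
def St_RU2 : Prop :=
  (∃ C : ℝ, ∀ S, IsCycle S → 2 ≤ S.card →
    (S.card : ℝ) ≤ C * (Real.log 3 / Real.log 2) ^ (runs S) * Real.log S.card) ∧
  ∀ m : ℕ, {S | IsCycle S ∧ runs S ≤ m}.Finite

/-- [CFR]  Small values of `|k log 3 - p log 2|`.
HYPS: none.
PROOF.  LEMMA: let `q, q' ≥ 1`, `P, P'` be integers with `q P' - q' P = 1` or `= -1`, `δ = q log 3 - P log 2`, `δ' = q' log 3 - P' log 2`, `δ δ' < 0`.  Then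
`|k log 3 - p log 2| ≥ |δ|` for `1 ≤ k < q'` and all `p`.  Proof: `(k, p) = u (q, P) + v (q', P')` with integers `u, v`.  If `v = 0`, then `u ≠ 0`, `|u δ| ≥ |δ|`.  If `u = 0`, then
`k = v q'`, impossible.  If `u, v` have the same sign then `k ≥ q + q'` or `k < 0`, impossible.  So `u v < 0`, `|u δ + v δ'| = |u| |δ| + |v| |δ'| ≥ |δ|`.
The pairs `(k, p)`, with `δ = k log 3 - p log 2`: `(306, 485)`: `-0.00102223913`; `(665, 1054)`: `4.365411e-5`; `(15601, 24727)`: `-1.81945883e-5`; `(31867, 50508)`: `7.264933e-6`;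
`(79335, 125743)`: `-3.664720e-6`; `(111202, 176251)`: `3.600213e-6`; `(190537, 301994)`: `-6.450750e-8`; `(3921942, 6216131) = (111202, 176251) + 20 (190537, 301994)`, so
`δ = 3.600213e-6 - 20 * 6.450750e-8 > 0`.  Consecutive pairs have determinant `± 1`, and so have `(190537, 301994)`, `(3921942, 6216131)`.  (Five pairs are used:
306 - 665, 665 - 15601, 15601 - 31867, 31867 - 79335, 190537 - 3921942.)
Estimates: e.g. `2 ^ 301994 * 10 ^ 12 ≥ 3 ^ 190537 * (10 ^ 12 + 64501)` (`Nat`, `decide +kernel`: the kernel computes powers with GMP; exponents below `2 ^ 24` are allowed) gives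
`-δ ≥ log (1 + 6.4501e-8) ≥ 6.45e-8` (`log (1 + z) ≥ z - z ^ 2` or `z / (1 + z)`), and in the other direction with `log (1 + z) ≤ z`. -/
def St_CFR : Prop := ∀ (k : ℕ) (p : ℤ), 1 ≤ k →
  (k < 665 → (0.0010222 : ℝ) ≤ |k * Real.log 3 - p * Real.log 2|) ∧
  (k < 15601 → (0.000043654 : ℝ) ≤ |k * Real.log 3 - p * Real.log 2|) ∧
  (k < 31867 → (0.000018194 : ℝ) ≤ |k * Real.log 3 - p * Real.log 2|) ∧
  (k < 79335 → (0.0000072649 : ℝ) ≤ |k * Real.log 3 - p * Real.log 2|) ∧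
  (k < 3921942 → (0.0000000645 : ℝ) ≤ |k * Real.log 3 - p * Real.log 2|)

/-- table of the fifth iterate: bits `26 r, .., 26 r + 25` are the number `s + 4 e + 16384 c` with `f^[5] (486 q + r) = c q + e`, and `s` the number of the `i < 5` with
`f^[i] (486 q + r) % 6 = 3` (for all `q`) -/
def TT : ℕ := 0x8007ff08007f61000fec8007f12001fb48007e92001f95000fbd2001f76001f5c4003e948007cd8007c91000f8d4003e15000f7d8007b704003d94003d944003d52001ea9000f4580079f080079d2001e688007911000f15000f194003c142001e180077f080077a2001dd84003ba2001db44003b54003b344003b22001d6a001d5c4003aa5000ea42001d39000e8d08007484003a12001cf48007354003995000e591000e5880072a80071f02001c940038d5000e251000e2d000e192001c29000e0408007048006fa2001bf5000de940037748006e94003736001b841000dc88006da40036a440036940036748006c5400361440036140035d48006bd2001ad9000d5908006b6001aa41000d4880069d40034d4800695400349440034a2001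a288006848006811000cfd20019d9000ce920019c5000cdc20019aa0019842001975000cbd1000cb5000ca440032760019242001919000c8540031d440031c8006371000c5d1000c5a0018a4400311440031120018748006151000c388006112001839000c0480060120017fc4002ff48005f620017c44002f520017b48005e51000bc9000bbd8005d704002ed4002e960017241000b95000b8d4002df48005bd8005b71000b654002d744002d54002d148005a480059f080059a4002c948005914002c6480058d4002c160015fc20015f480057a1000ae9000adc20015b5000acd20015984002b280055702001544002aa480054e2001519000a8d1000a85000a7c20014f5000a651000a69000a5920014a840029180051f1000a352001469000a254002864800504200142820014140027f48004fa40027a440027a40027750009cd08004ea001384200136840026d40026a500099d20013388004c5100098420013140025d48004b640025750009598004a908004a910009490009351000938800495100092880048d200122a00120408004890008fd40023a440023c20011c480046a200119a00118440022f480045910008b500089d1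0008aa001124400221500087c40021d60010dc20010d900085d8004290800424400211480041d2001068800415200104440020a200103a0010040400206000ffc2000fd84001fa2000fc48003ed2000fa88003e54001ef48003dc8003d710007a52000f3a000f244001e350007844001df6000edc100076900076510007548003a94001d16000e7c2000e7880039a2000e444001c44001c65000705080038a000dfc2000de880037510006e880036d10006d90006cd10006c880035980035710006a94001a9480034e4001a342000d1100068480033d2000cd900066540019644001952000caa000c7c0800329000635400189440018a400186480030a40018142000c12000be88002fc40017a50005dd2000ba90005cd8002e104001712000b690005a910005a900059d2000b1500058410005850005752000af88002b640015642000ac8002a904001522000a790005352000a55000524100052880028a2000a16000a0440013f480027540013a4800271400137480026a800261080025c40012f440012d400129500049d8002490800245400121500047510004760008dc40011744001158002291000445100044880021d20008544001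0d200084480020e40010160008048001ff10003fc20007d88001f110003d88001ed20007944000f14000ef600075c10003b90003a58001c904000e44000e3500037d20006fa0006dc4000d9500035c1000355000345200069600067c20006690003242000645000319200063900030580017f080017c20005e84000ba4000b7480016d4000b3480016510002ca00055c08001550002a920005388001454000a344000a140009f480013d4000994400099400096480012a100024a00047c40008d48001194000895000219200041480010a08001050001fc20003e90001e910001ed0001dd40007342000398000e108000da10001b90001a940006748000cd200031440006108000c900017520002d900015c40005660002a420002a840005240004d440004d200025440004a200023880008a800081020002140003f50000e910000f480007120001a880006580006110000bd200016840002d4000274400029800049100008540001f5000075800037080003540001760000a4200009500004520000748000192000054800011100002c80000e8000010100000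

/-- `go2 n y x t`: `n` blocks of five steps from `x`; `true` as soon as `t` numbers `3` modulo `6` have been met or at the end of a block the value is `≤ y` -/
def go2 (n : ℕ) : ℕ → ℕ → ℕ → Bool :=
  Nat.rec (motive := fun _ => ℕ → ℕ → ℕ → Bool) (fun _ _ _ => false)
    (fun _ ih y x t =>
      (fun w q : ℕ => Bool.rec (motive := fun _ => Bool)
        ((fun x' : ℕ => Bool.rec (motive := fun _ => Bool) (ih y x' (Nat.sub t (Nat.mod w 4))) true (Nat.ble x' y))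
          (Nat.add (Nat.mul (Nat.div w 16384) q) (Nat.mod (Nat.div w 4) 4096))) true (Nat.ble t (Nat.mod w 4)))
        (Nat.mod (Nat.shiftRight TT (Nat.mul 26 (Nat.mod x 486))) 67108864) (Nat.div x 486)) n

/-- all `y = 6 q + 2`, `6 q + 4` for `q₀ ≤ q < q₀ + n` -/
def all2 (F t q₀ n : ℕ) : Bool :=
  Nat.rec (motive := fun _ => Bool) true
    (fun i ih => Bool.rec (motive := fun _ => Bool) false (Bool.rec (motive := fun _ => Bool) false ih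
        (go2 F (Nat.add 4 (Nat.mul 6 (Nat.add q₀ i))) (Nat.add 4 (Nat.mul 6 (Nat.add q₀ i))) t))
        (go2 F (Nat.add 2 (Nat.mul 6 (Nat.add q₀ i))) (Nat.add 2 (Nat.mul 6 (Nat.add q₀ i))) t)) n

/-- [TBL]  The table and the search.
HYPS: none.
PROOF.  (a) For `j ≤ 5`: `f^[j] (3 ^ j b + r) = c b + f^[j] r` with `c = 2 ^ (2 j - z)`, `z` the number of the `i < j` with `3 ∣ f^[i] r` (induction on `j`: `f (3 n + r) = 4 n + f r` or `2 n + f r`), and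
`f^[i] (3 ^ j b + r) ≡ f^[i] r` modulo `3` for `i < j`, and modulo `6` if `b` is even.  With `b = 2 q`, `j = 5`: `f^[5] (486 q + r) = 2 c q + f^[5] r`.
(b) The entries of `TT` are right, for every `r < 486`: finite computation (`decide +kernel` over `r < 486`, e.g. `List.all (List.range 486) ..`).
(c) First statement by induction on `n` (`x = 486 q + r`, one block: either `t ≤ s`, or `f^[5] x ≤ y`, or the rest with `t - s`; the number of the `i < 5 (n + 1)` is `s` + the number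
for `f^[5] x` and `5 n`).  Second statement: induction on `n`. -/
def St_TBL : Prop :=
  (∀ n y x t : ℕ, go2 n y x t = true → (∃ i, 0 < i ∧ i ≤ 5 * n ∧ f^[i] x ≤ y) ∨
    t ≤ ((range (5 * n)).filter fun i => f^[i] x % 6 = 3).card) ∧
  ∀ F t q₀ n : ℕ, all2 F t q₀ n = true → ∀ i < n,
    go2 F (6 * (q₀ + i) + 2) (6 * (q₀ + i) + 2) t = true ∧ go2 F (6 * (q₀ + i) + 4) (6 * (q₀ + i) + 4) t = true

/-- [CK1]  Small starting values.
HYPS: none.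
PROOF.  Computation (about `125000` steps, `i ≤ 105`); a function written with `Nat.rec` and `Bool.rec`, like `go2` (but one step of `f` at a time: stop with `true` if the
value is `< y`, with `false` if it is `= y`, count the values `≡ 3` modulo `6`, stop with `true` at the 15th), and `decide +kernel` (with
`set_option maxRecDepth 100000 in`), costs about 35 microseconds a step; do it in pieces of about `1000` values of `y`. -/
def St_CK1 : Prop := ∀ y : ℕ, 2 ≤ y → y ≤ 13700 → y % 2 = 0 → y % 3 ≠ 0 → y ≠ 2 → y ≠ 4 → y ≠ 44 →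
  ∃ i : ℕ, 1 ≤ i ∧ (∀ j, 1 ≤ j → j ≤ i → f^[j] y ≠ y) ∧
    (f^[i] y < y ∨ 15 ≤ ((Icc 1 i).filter fun j => f^[j] y % 6 = 3).card)

/-- [CK2]  Larger starting values (helper5 does this one).
HYPS: TBL. -/
def St_CK2 : Prop :=
  (∀ q : ℕ, 2283 ≤ q → q ≤ 53466 →
    go2 40 (6 * q + 2) (6 * q + 2) 11 = true ∧ go2 40 (6 * q + 4) (6 * q + 4) 11 = true) ∧
  (∀ q : ℕ, 53466 ≤ q → q ≤ 128266 →
    go2 40 (6 * q + 2) (6 * q + 2) 4 = true ∧ go2 40 (6 * q + 4) (6 * q + 4) 4 = true) ∧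
  ∀ q : ℕ, 128266 ≤ q → q ≤ 321183 →
    go2 40 (6 * q + 2) (6 * q + 2) 3 = true ∧ go2 40 (6 * q + 4) (6 * q + 4) 3 = true

/-- [FOU]  The four known cycles.
HYPS: none.
PROOF.  Computation: `1 ↦ 1`; `2 ↦ 3 ↦ 2`; `4 ↦ 5 ↦ 7 ↦ 9 ↦ 6 ↦ 4`; `44 ↦ 59 ↦ 79 ↦ 105 ↦ 70 ↦ 93 ↦ 62 ↦ 83 ↦ 111 ↦ 74 ↦ 99 ↦ 66 ↦ 44`. -/
def St_FOU : Prop :=
  (IsCycle {1} ∧ runs {1} = 0) ∧ (IsCycle {2, 3} ∧ runs {2, 3} = 1) ∧ (IsCycle {4, 5, 6, 7, 9} ∧ runs {4, 5, 6, 7, 9} = 1) ∧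
  (IsCycle {44, 59, 62, 66, 70, 74, 79, 83, 93, 99, 105, 111} ∧
    runs {44, 59, 62, 66, 70, 74, 79, 83, 93, 99, 105, 111} = 4)

/-- [FDD]  The cycles with at most `14` runs.
HYPS: CYB, SBD, HG2, CFR, MEX, TBL, CK1, CK2, FOU.
PROOF.  If `S.card = 1`, `S = {x}`, `f x = x`, so `x = 1` (`f x > x` for `3 ∤ x ≥ 2`, `f x < x` for `3 ∣ x > 0`).  Let `k = S.card ≥ 2`, `y = min S`, `m = runs S ≤ 14`, `θ = log 3 / log 2 ≤ 1.58497`,
`2 log 2 - log 3 ≥ 0.28768` (both need good bounds for `log 2`, `log 3`), `Λ = |k log 3 - p log 2| ≤ 14 / (y - 1)` (SBD).  `y` is even, `3 ∤ y`, `y ≥ 2`.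
(1) `y ∈ {2, 4, 44}`: two cycles with a common element are equal (CYB (4)), so `S` is one of the sets of FOU.
(2) `y ≤ 13700`, `y ∉ {2, 4, 44}`: CK1 gives `i`; `i < k`, because `f^[k] y = y`; `f^[i] y < y` is impossible (`y` is the minimum); the numbers `f^[j] y`, `1 ≤ j ≤ i`, are different (`i < k`, CYB (5)), and
those `≡ 3` modulo `6` are values `f x` with `x = f^[j - 1] y ∈ S`, `3 ∤ x`, `3 ∣ f x` (`f x` is even if `3 ∣ x`), so there are at most `runs S ≤ 14` of them.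
(3) `13700 < y ≤ 320800`: `Λ ≤ 14 / 13700 < 0.0010222`, so `k ≥ 665` (CFR).  `y = 6 q + 2` or `6 q + 4` with `2283 ≤ q ≤ 53466`; CK2 and TBL with `n = 40`: `f^[i] y ≤ y` with `0 < i ≤ 200 < k` is
impossible (`f^[i] y ≠ y` as `i < k`), so at least `11` of the `f^[i] y`, `i < 200`, are `≡ 3` modulo `6` (not `i = 0`, `y` is even), and HG2 with `i = 200`, `n = 3` gives
`(k - 200) * 0.28768 ≤ (1 + θ + θ² + θ³) log 320800 + 14 / 13700 ≤ 9.08 * 12.68 + 0.01`, `k ≤ 601`, a contradiction.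
(4) `320800 < y ≤ 769600`: `Λ ≤ 14 / 320800 < 0.000043654`, `k ≥ 15601`; `53466 ≤ q ≤ 128266`; at least `4`, so HG2 with `i = 200`, `n = 10`: `∑ t ∈ range 11, θ ^ t ≤ 269.5`, `log 769600 ≤ 13.56`,
`(k - 200) * 0.28768 ≤ 3655`, `k ≤ 12906`, a contradiction.
(5) `769600 < y ≤ 1927100`: `Λ ≤ 14 / 769600 < 0.000018194`, `k ≥ 31867`; `128266 ≤ q ≤ 321183`; at least `3`, HG2 with `n = 11`: `∑ t ∈ range 12, θ ^ t ≤ 428.1`, `log 1927100 ≤ 14.48`, `k ≤ 21800`, a contradiction.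
(6) `y > 1927100`: HG2, first part: `k * 0.28768 ≤ (∑ t ∈ range 14, θ ^ t) log y + 0.001 ≤ 1078 log y + 0.001`, so `k ≤ 3748 log y`.  `Λ ≤ 14 / 1927100 < 0.0000072649`, so `k ≥ 79335`, `log y ≥ 21.16`, `y ≥ e ^ 21 ≥ 10 ^ 9`,
`Λ ≤ 14 / (10 ^ 9 - 1) < 0.0000000645`, so `k ≥ 3921942`.  MEX: `1 / (10 ^ 200 k ^ 17) ≤ 14 / (y - 1) ≤ 15 / y`, `log y ≤ log 15 + 200 log 10 + 17 log k ≤ 464 + 17 log k`, so
`k ≤ 3748 (464 + 17 log k)`; but `log k ≤ log 3921942 + (k - 3921942) / 3921942 ≤ 15.19 + (k - 3921942) / 3921942`, `3748 * 17 / 3921942 < 0.02`, `3748 * (464 + 17 * 15.19) < 2710000`: a contradiction. -/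
def St_FDD : Prop := ∀ S, IsCycle S → runs S ≤ 14 →
  S = {1} ∨ S = {2, 3} ∨ S = {4, 5, 6, 7, 9} ∨ S = {44, 59, 62, 66, 70, 74, 79, 83, 93, 99, 105, 111}

end Pool.Agent.CPC
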